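import Pool.Agent.Lib.MP_d2470a_co.CompGen

/-!
# BlkDefs: blocks glued at a hub, alternating words in two group elements

`Block V`: a finite graph `V` (multiplicities `m`) with `h x` edges from `x` to the hub, and the Green
function `ψ` of this graph grounded at the hub.

`ev σ τ [i₁, i₂, i₃, ...] = σ ^ i₁ * τ ^ i₂ * σ ^ i₃ * ...`; `ok p q w`: the exponents are in
`[1, p)`, `[1, q)`, `[1, p)`, ... alternately. `FreeP σ τ p q R`: `σ ^ p = 1`, `τ ^ q = 1` and reduced
words of length at most `R` are distinct.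
-/

set_option autoImplicit false

namespace MPd2470a

/-- a finite graph with edges to a hub and its Green function grounded at the hub -/
structure Block (V : Type) [Fintype V] [DecidableEq V] where
  m : V → V → ℕ
  h : V → ℕ
  ψ : V → V → ℝ
  symm : ∀ x y, m x y = m y x
  loopless : ∀ x, m x x = 0
  nonneg : ∀ x y, 0 ≤ ψ x y
  pot : ∀ x z, (h z : ℝ) * ψ x z + ∑ w, (m z w : ℝ) * (ψ x z - ψ x w) = if z = x then 1 else 0

/-- twice the number of edges of a block (hub edges included) -/
def Block.twoE {V : Type} [Fintype V] [DecidableEq V] (B : Block V) : ℕ :=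
  (∑ x, ∑ y, B.m x y) + 2 * ∑ x, B.h x

/-- value of an alternating word -/
def ev {Γ : Type} [Group Γ] : Γ → Γ → List ℕ → Γ
  | _, _, [] => 1
  | σ, τ, i :: w => σ ^ i * ev τ σ w

/-- reduced alternating word -/
def ok : ℕ → ℕ → List ℕ → Prop
  | _, _, [] => True
  | p, q, i :: w => (1 ≤ i ∧ i < p) ∧ ok q p w

/-- reduced words of length at most `R` are distinct -/
structure FreeP {Γ : Type} [Group Γ] (σ τ : Γ) (p q R : ℕ) : Prop where
  pow1 : σ ^ p = 1
  pow2 : τ ^ q = 1
  inj1 : ∀ w w' : List ℕ, ok p q w → ok p q w' → w.length ≤ R → w'.length ≤ R →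
    ev σ τ w = ev σ τ w' → w = w'
  inj2 : ∀ w w' : List ℕ, ok q p w → ok q p w' → w.length ≤ R → w'.length ≤ R →
    ev τ σ w = ev τ σ w' → w = w'
  inj3 : ∀ w w' : List ℕ, ok p q w → ok q p w' → w.length ≤ R → w'.length ≤ R →
    ev σ τ w = ev τ σ w' → w = [] ∧ w' = []

theorem FreeP.swap {Γ : Type} [Group Γ] {σ τ : Γ} {p q R : ℕ} (F : FreeP σ τ p q R) :
    FreeP τ σ q p R where
  pow1 := F.pow2
  pow2 := F.pow1
  inj1 := F.inj2
  inj2 := F.inj1
  inj3 := fun w w' h1 h2 h3 h4 h5 => (F.inj3 w' w h2 h1 h4 h3 h5.symm).symm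

open Classical in
/-- the letters and the identity -/
noncomputable def gens {Γ : Type} [Group Γ] (a b : Γ) : Finset Γ := {1, a, a ^ 2, b, b ^ 2, b ^ 3}

end MPd2470a
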