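import Pool.Agent.Lib.MP_d2470a_co.BlkDefs

/-!
# BlkGreen: Green function of a grounded graph with a Poincaré inequality

Let `N u z = h z * u z + ∑ w, m z w * (u z - u w)` (linear, symmetric:
`∑ v z * N u z = ∑ u z * N v z`). `∑ u z * N u z = ∑ h u² + (1/2) ∑ ∑ m (u x - u y)² =: Q u`, so
`∑ u² ≤ C * Q u` (`hP`) and `N` is injective, hence bijective (finite dimension); `ψ x = N⁻¹ e_x`.
* `ψ ≥ 0`: with `v = min (ψ x) 0`: `Q v ≤ ∑ v z * N (ψ x) z = v x ≤ 0` because
  `(v a - v b)² ≤ (v a - v b) (ψ a - ψ b)` and `v² ≤ v ψ`; so `∑ v² ≤ 0`.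
* symmetry `ψ x y = ψ y x` and `|ψ x|² := ∑ (ψ x z)² ≤ C Q (ψ x) = C ψ x x`; `(ψ x x)² ≤ |ψ x|²`, so
  `ψ x x ≤ C` and `|ψ x|² ≤ C²`.
* If `N u = e_x - f + p`: pair with `ψ x`: `u x = ∑ u z * N (ψ x) z = ∑ ψ x z * N u z =
  ψ x x - ∑ ψ x z f z + ∑ ψ x z p z`, so `ψ x x ≤ u x + ∑ ψ x z f z ≤ u x + C √(∑ f²)`
  (Cauchy-Schwarz, `ψ ≥ 0`, `p ≥ 0`).
-/

set_option autoImplicit false

namespace MPd2470a

private noncomputable def opN {V : Type} [Fintype V] (m : V → V → ℕ) (h : V → ℕ) :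
    (V → ℝ) →ₗ[ℝ] (V → ℝ) where
  toFun u := fun z => (h z : ℝ) * u z + ∑ w, (m z w : ℝ) * (u z - u w)
  map_add' u v := by
    funext z
    simp only [Pi.add_apply]
    have : ∀ w, (m z w : ℝ) * (u z + v z - (u w + v w)) =
        (m z w : ℝ) * (u z - u w) + (m z w : ℝ) * (v z - v w) := by
      intro w
      ring
    rw [Finset.sum_congr rfl (fun w _ => this w), Finset.sum_add_distrib]
    ring
  map_smul' c u := by
    funext z
    simp only [Pi.smul_apply, smul_eq_mul, RingHom.id_apply]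
    have : ∀ w, (m z w : ℝ) * (c * u z - c * u w) = c * ((m z w : ℝ) * (u z - u w)) := by
      intro w
      ring
    rw [Finset.sum_congr rfl (fun w _ => this w), ← Finset.mul_sum]
    ring

private theorem bil {V : Type} [Fintype V] (m : V → V → ℕ) (h : V → ℕ)
    (hs : ∀ x y, m x y = m y x) (u v : V → ℝ) :
    ∑ z, v z * opN m h u z = ∑ z, (h z : ℝ) * (v z * u z) +
      (1 / 2) * ∑ x, ∑ y, (m x y : ℝ) * ((u x - u y) * (v x - v y)) := by
  have h1 : ∑ z, v z * opN m h u z = ∑ z, (h z : ℝ) * (v z * u z) +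
      ∑ z, ∑ w, (m z w : ℝ) * ((u z - u w) * v z) := by
    rw [← Finset.sum_add_distrib]
    refine Finset.sum_congr rfl (fun z _ => ?_)
    show v z * ((h z : ℝ) * u z + ∑ w, (m z w : ℝ) * (u z - u w)) = _
    rw [mul_add, Finset.mul_sum]
    congr 1
    · ring
    · refine Finset.sum_congr rfl (fun w _ => ?_)
      ring
  have h2 : ∑ z, ∑ w, (m z w : ℝ) * ((u z - u w) * v z) =
      ∑ z, ∑ w, (m z w : ℝ) * ((u w - u z) * v w) := by
    rw [Finset.sum_comm]
    refine Finset.sum_congr rfl (fun z _ => Finset.sum_congr rfl (fun w _ => ?_))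
    rw [hs]
  have h3 : ∑ x, ∑ y, (m x y : ℝ) * ((u x - u y) * (v x - v y)) =
      ∑ z, ∑ w, (m z w : ℝ) * ((u z - u w) * v z) +
        ∑ z, ∑ w, (m z w : ℝ) * ((u w - u z) * v w) := by
    rw [← Finset.sum_add_distrib]
    refine Finset.sum_congr rfl (fun z _ => ?_)
    rw [← Finset.sum_add_distrib]
    refine Finset.sum_congr rfl (fun w _ => ?_)
    ring
  rw [h1, h3, ← h2]
  ring

private theorem bil_symm {V : Type} [Fintype V] (m : V → V → ℕ) (h : V → ℕ)
    (hs : ∀ x y, m x y = m y x) (u v : V → ℝ) :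
    ∑ z, v z * opN m h u z = ∑ z, u z * opN m h v z := by
  rw [bil m h hs, bil m h hs]
  congr 1
  · refine Finset.sum_congr rfl (fun z _ => ?_)
    ring
  · congr 1
    refine Finset.sum_congr rfl (fun z _ => Finset.sum_congr rfl (fun w _ => ?_))
    ring

theorem blk_green {V : Type} [Fintype V] [DecidableEq V] (m : V → V → ℕ) (h : V → ℕ)
    (hs : ∀ x y, m x y = m y x) {C : ℝ} (hC : 0 ≤ C)
    (hP : ∀ u : V → ℝ, ∑ x, u x ^ 2 ≤ C * (∑ x, (h x : ℝ) * u x ^ 2 +
      (1 / 2) * ∑ x, ∑ y, (m x y : ℝ) * (u x - u y) ^ 2)) :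
    ∃ ψ : V → V → ℝ, (∀ x y, 0 ≤ ψ x y) ∧
      (∀ x z, (h z : ℝ) * ψ x z + ∑ w, (m z w : ℝ) * (ψ x z - ψ x w) = if z = x then 1 else 0) ∧
      ∀ (x : V) (u f p : V → ℝ), (∀ z, 0 ≤ p z) →
        (∀ z, (h z : ℝ) * u z + ∑ w, (m z w : ℝ) * (u z - u w) =
          (if z = x then 1 else 0) - f z + p z) →
        ψ x x ≤ u x + C * √(∑ z, f z ^ 2) := by
  -- quadratic form
  have hQ : ∀ u : V → ℝ, ∑ x, u x ^ 2 ≤ C * ∑ z, u z * opN m h u z := by
    intro u
    rw [bil m h hs u u]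
    refine (hP u).trans (le_of_eq ?_)
    congr 2
    · refine Finset.sum_congr rfl (fun z _ => ?_)
      ring
    · congr 1
      refine Finset.sum_congr rfl (fun z _ => Finset.sum_congr rfl (fun w _ => ?_))
      ring
  have hzero : ∀ u : V → ℝ, ∑ x, u x ^ 2 ≤ 0 → ∀ x, u x = 0 := by
    intro u hu x
    have h1 : u x ^ 2 ≤ ∑ x, u x ^ 2 :=
      Finset.single_le_sum (f := fun x => u x ^ 2) (fun i _ => sq_nonneg (u i))
        (Finset.mem_univ x)
    have h2 : u x ^ 2 = 0 := le_antisymm (h1.trans hu) (sq_nonneg _)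
    exact pow_eq_zero_iff (two_ne_zero) |>.1 h2
  have hinj : Function.Injective (opN m h) := by
    rw [injective_iff_map_eq_zero]
    intro u hu
    have h1 := hQ u
    rw [hu] at h1
    simp only [Pi.zero_apply, mul_zero, Finset.sum_const_zero] at h1
    funext x
    exact hzero u h1 x
  have hsurj : Function.Surjective (opN m h) := LinearMap.injective_iff_surjective.1 hinj
  choose ψ hψ using fun x : V => hsurj (Pi.single x 1)
  have hpair : ∀ (x : V) (v : V → ℝ), ∑ z, v z * opN m h (ψ x) z = v x := by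
    intro x v
    rw [hψ x]
    simp [Pi.single_apply]
  have hnn : ∀ x y, 0 ≤ ψ x y := by
    intro x
    have h1 : ∑ z, (min (ψ x z) 0) ^ 2 ≤ 0 := by
      have h2 := hQ (fun z => min (ψ x z) 0)
      have h3 : ∑ z, min (ψ x z) 0 * opN m h (fun z => min (ψ x z) 0) z ≤
          ∑ z, min (ψ x z) 0 * opN m h (ψ x) z := by
        rw [bil m h hs (fun z => min (ψ x z) 0) (fun z => min (ψ x z) 0),
          bil m h hs (ψ x) (fun z => min (ψ x z) 0)]
        have h4 : ∑ z, (h z : ℝ) * (min (ψ x z) 0 * min (ψ x z) 0) ≤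
            ∑ z, (h z : ℝ) * (min (ψ x z) 0 * ψ x z) := by
          refine Finset.sum_le_sum (fun z _ => ?_)
          refine mul_le_mul_of_nonneg_left ?_ (Nat.cast_nonneg _)
          rcases le_total (ψ x z) 0 with h5 | h5
          · rw [min_eq_left h5]
          · rw [min_eq_right h5]
            simp
        have h5 : ∑ a, ∑ b, (m a b : ℝ) *
            ((min (ψ x a) 0 - min (ψ x b) 0) * (min (ψ x a) 0 - min (ψ x b) 0)) ≤
            ∑ a, ∑ b, (m a b : ℝ) * ((ψ x a - ψ x b) * (min (ψ x a) 0 - min (ψ x b) 0)) := by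
          refine Finset.sum_le_sum (fun a _ => Finset.sum_le_sum (fun b _ => ?_))
          refine mul_le_mul_of_nonneg_left ?_ (Nat.cast_nonneg _)
          rcases le_total (ψ x a) 0 with h5 | h5 <;> rcases le_total (ψ x b) 0 with h6 | h6
          · rw [min_eq_left h5, min_eq_left h6]
          · rw [min_eq_left h5, min_eq_right h6]
            nlinarith
          · rw [min_eq_right h5, min_eq_left h6]
            nlinarith
          · rw [min_eq_right h5, min_eq_right h6]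
            simp
        linarith
      rw [hpair x] at h3
      have h4 : min (ψ x x) 0 ≤ 0 := min_le_right _ _
      have h5 : C * ∑ z, min (ψ x z) 0 * opN m h (fun z => min (ψ x z) 0) z ≤ C * 0 :=
        mul_le_mul_of_nonneg_left (h3.trans h4) hC
      rw [mul_zero] at h5
      exact h2.trans h5
    intro y
    have h2 : min (ψ x y) 0 = 0 := hzero (fun z => min (ψ x z) 0) h1 y
    by_contra h3
    push Not at h3
    rw [min_eq_left h3.le] at h2
    linarith
  have hnorm : ∀ x, ∑ z, ψ x z ^ 2 ≤ C ^ 2 := by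
    intro x
    have h1 := hQ (ψ x)
    rw [hpair x (ψ x)] at h1
    have h2 : ψ x x ^ 2 ≤ ∑ z, ψ x z ^ 2 :=
      Finset.single_le_sum (f := fun z => ψ x z ^ 2) (fun i _ => sq_nonneg (ψ x i))
        (Finset.mem_univ x)
    have h3 : ψ x x ≤ C := by
      by_contra h4
      push Not at h4
      have h5 : 0 < ψ x x := lt_of_le_of_lt hC h4
      nlinarith
    calc ∑ z, ψ x z ^ 2 ≤ C * ψ x x := h1
      _ ≤ C * C := mul_le_mul_of_nonneg_left h3 hC
      _ = C ^ 2 := by ring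
  refine ⟨ψ, hnn, ?_, ?_⟩
  · intro x z
    have h1 : opN m h (ψ x) z = (Pi.single x 1 : V → ℝ) z := by rw [hψ x]
    rw [Pi.single_apply] at h1
    exact h1
  · intro x u f p hp hu
    have h1 : ∑ z, u z * opN m h (ψ x) z = ∑ z, ψ x z * opN m h u z := bil_symm m h hs _ _
    rw [hpair x u] at h1
    have h2 : ∑ z, ψ x z * opN m h u z = ψ x x - ∑ z, ψ x z * f z + ∑ z, ψ x z * p z := by
      have h3 : ∀ z, ψ x z * opN m h u z =
          (if z = x then ψ x z else 0) - ψ x z * f z + ψ x z * p z := by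
        intro z
        have h4 : opN m h u z = (if z = x then 1 else 0) - f z + p z := hu z
        rw [h4]
        split_ifs <;> ring
      rw [Finset.sum_congr rfl (fun z _ => h3 z), Finset.sum_add_distrib,
        Finset.sum_sub_distrib, Finset.sum_ite_eq' Finset.univ x, if_pos (Finset.mem_univ x)]
    have h3 : 0 ≤ ∑ z, ψ x z * p z :=
      Finset.sum_nonneg (fun z _ => mul_nonneg (hnn x z) (hp z))
    have h4 : ∑ z, ψ x z * f z ≤ √(∑ z, ψ x z ^ 2) * √(∑ z, f z ^ 2) :=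
      Real.sum_mul_le_sqrt_mul_sqrt _ _ _
    have h5 : √(∑ z, ψ x z ^ 2) ≤ C := Real.sqrt_le_iff.2 ⟨hC, hnorm x⟩
    have h6 : √(∑ z, ψ x z ^ 2) * √(∑ z, f z ^ 2) ≤ C * √(∑ z, f z ^ 2) :=
      mul_le_mul_of_nonneg_right h5 (Real.sqrt_nonneg _)
    linarith

end MPd2470a
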