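import Pool.Agent.Lib.MP_d2470a_co.BlkSep

/-!
# BlkPoinc: a Poincaré inequality on the edges of the coset graph

`d g = u g - u' g`, `Z = gens a b ^ D`, `Φ g = ∑_{z ∈ Z} d (z g)²`.
For `t ∈ gens a b`: `|u (t g) - u g| ≤ |d g| + |d (t g)|` (it is `0` for `t = 1, a, a²`; for `t = b ^ j`
`u' (t g) = u' g`). By induction on `k ≤ D`: for `z ∈ gens ^ k`, `|u (z g) - u g| ≤ 2 k √(Φ g)`
(`gens ^ j ⊆ gens ^ D` for `j ≤ D`, so `|d (z' g)| ≤ √(Φ g)` for `z' ∈ gens ^ j`). For `g` choose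
`s = s(g)`, `z₁ g = z₂ s`, so `u (z₁ g) = u (z₂ s)` and
`(u g)² ≤ 3 ((u s)² + 4 D² Φ g + 4 D² Φ s)`. Sum over `g`, with `s = z₂⁻¹ z₁ g`:
`∑_g F (s(g)) ≤ ∑_{z₁, z₂ ∈ Z} ∑_g 1_S(z₂⁻¹ z₁ g) F (z₂⁻¹ z₁ g) = |Z|² ∑_{s ∈ S} F s` for `F ≥ 0`
(bijection `g ↦ z₂⁻¹ z₁ g`), in particular `∑_g Φ (s(g)) ≤ |Z|² ∑_g Φ g` and `∑_g Φ g = |Z| ∑_g (d g)²`,
`|Z| ≤ 6 ^ D` (`gens_pow_card`). So
`∑ u² ≤ 3 · 36^D ∑_S u² + 12 D² (6^D + 216^D) ∑ d²`, and `(u')² ≤ 2 u² + 2 d²`.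
(`ha`, `hb` are not needed beyond `u (a g) = u g`, `u' (b g) = u' g`.)
-/

set_option autoImplicit false

namespace MPd2470a

open scoped Pointwise

open Classical in
private theorem one_mem_gens {Γ : Type} [Group Γ] (a b : Γ) : (1 : Γ) ∈ gens a b := by
  simp [gens]

open Classical in
private theorem step_bd {Γ : Type} [Group Γ] {a b : Γ}
    (u u' : Γ → ℝ) (hu : ∀ g, u (a * g) = u g) (hu' : ∀ g, u' (b * g) = u' g)
    (t : Γ) (ht : t ∈ gens a b) (g : Γ) :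
    |u (t * g) - u g| ≤ |u g - u' g| + |u (t * g) - u' (t * g)| := by
  have hb : ∀ t : Γ, u' (t * g) = u' g →
      |u (t * g) - u g| ≤ |u g - u' g| + |u (t * g) - u' (t * g)| := by
    intro t ht
    have : u (t * g) - u g = (u (t * g) - u' (t * g)) - (u g - u' g) := by rw [ht]; ring
    rw [this]
    have := abs_sub (u (t * g) - u' (t * g)) (u g - u' g)
    linarith
  have ha : ∀ t : Γ, u (t * g) = u g →
      |u (t * g) - u g| ≤ |u g - u' g| + |u (t * g) - u' (t * g)| := by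
    intro t ht
    rw [ht, sub_self, abs_zero]
    positivity
  simp only [gens, Finset.mem_insert, Finset.mem_singleton] at ht
  rcases ht with rfl | rfl | rfl | rfl | rfl | rfl
  · exact ha _ (by rw [one_mul])
  · exact ha _ (hu g)
  · exact ha _ (by rw [pow_two, mul_assoc, hu, hu])
  · exact hb _ (hu' g)
  · exact hb _ (by rw [pow_two, mul_assoc, hu', hu'])
  · exact hb _ (by rw [pow_succ, pow_two, mul_assoc, mul_assoc, hu', hu', hu'])

open Classical in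
private theorem walk_bd {Γ : Type} [Group Γ] {a b : Γ} (D : ℕ)
    (u u' : Γ → ℝ) (hu : ∀ g, u (a * g) = u g) (hu' : ∀ g, u' (b * g) = u' g) (g : Γ) (s : ℝ)
    (hs : ∀ z ∈ gens a b ^ D, |u (z * g) - u' (z * g)| ≤ s) (k : ℕ) (hk : k ≤ D) :
    ∀ z ∈ gens a b ^ k, |u (z * g) - u g| ≤ 2 * k * s := by
  induction k with
  | zero =>
    intro z hz
    rw [pow_zero, Finset.mem_one] at hz
    subst hz
    simp
  | succ k ih =>
    intro z hz
    rw [pow_succ', Finset.mem_mul] at hz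
    obtain ⟨t, ht, z', hz', rfl⟩ := hz
    have h1 := ih (by omega) z' hz'
    have h2 := step_bd u u' hu hu' t ht (z' * g)
    rw [← mul_assoc] at h2
    have h3 := hs z' (Finset.pow_subset_pow_right (one_mem_gens a b) (by omega) hz')
    have h4 := hs (t * z') (Finset.pow_subset_pow_right (one_mem_gens a b) hk
      (by rw [pow_succ']; exact Finset.mul_mem_mul ht hz'))
    have h5 := abs_sub_le (u (t * z' * g)) (u (z' * g)) (u g)
    push_cast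
    linarith

open Classical in
theorem poinc {Γ : Type} [Group Γ] [Fintype Γ] {a b : Γ} (D : ℕ) (S : Finset Γ)
    (hS : ∀ g, ∃ s ∈ S, ∃ z₁ ∈ gens a b ^ D, ∃ z₂ ∈ gens a b ^ D, z₁ * g = z₂ * s)
    (u u' : Γ → ℝ) (hu : ∀ g, u (a * g) = u g) (hu' : ∀ g, u' (b * g) = u' g) :
    ∑ g, u g ^ 2 + ∑ g, u' g ^ 2 ≤ (100 * ((D : ℝ) + 1) ^ 2 * 216 ^ D) *
      (∑ g, (u g - u' g) ^ 2 + ∑ s ∈ S, u s ^ 2) := by
  set Z := gens a b ^ D with hZ
  set Φ : Γ → ℝ := fun g => ∑ z ∈ Z, (u (z * g) - u' (z * g)) ^ 2 with hΦ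
  have hΦ0 : ∀ g, 0 ≤ Φ g := fun g => Finset.sum_nonneg fun z _ => sq_nonneg _
  have hd : ∀ g, ∀ z ∈ Z, |u (z * g) - u' (z * g)| ≤ Real.sqrt (Φ g) := by
    intro g z hz
    apply Real.abs_le_sqrt
    exact Finset.single_le_sum (f := fun z => (u (z * g) - u' (z * g)) ^ 2)
      (fun z _ => sq_nonneg _) hz
  have hw : ∀ g, ∀ z ∈ Z, |u (z * g) - u g| ≤ 2 * D * Real.sqrt (Φ g) :=
    fun g => walk_bd D u u' hu hu' g _ (hd g) D le_rfl
  choose sg hsS z1 hz1 z2 hz2 hz using hS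
  have hpt : ∀ g, u g ^ 2 ≤ 3 * (u (sg g) ^ 2 + 4 * D ^ 2 * Φ g + 4 * D ^ 2 * Φ (sg g)) := by
    intro g
    have h1 := hw g (z1 g) (hz1 g)
    have h2 := hw (sg g) (z2 g) (hz2 g)
    rw [← hz g] at h2
    have e1 := Real.sq_sqrt (hΦ0 g)
    have e2 := Real.sq_sqrt (hΦ0 (sg g))
    set p := Real.sqrt (Φ g)
    set q := Real.sqrt (Φ (sg g))
    set A := u (z1 g * g) - u g
    set B := u (z1 g * g) - u (sg g)
    have hA : A ^ 2 ≤ (2 * D * p) ^ 2 := sq_le_sq' (by linarith [neg_abs_le A]) (le_trans (le_abs_self A) h1)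
    have hB : B ^ 2 ≤ (2 * D * q) ^ 2 := sq_le_sq' (by linarith [neg_abs_le B]) (le_trans (le_abs_self B) h2)
    have e3 : u g = u (sg g) - A + B := by simp only [A, B]; ring
    rw [e3]
    have e4 : (u (sg g) - A + B) ^ 2 ≤ 3 * (u (sg g) ^ 2 + A ^ 2 + B ^ 2) := by
      nlinarith [sq_nonneg (u (sg g) + A), sq_nonneg (u (sg g) - B), sq_nonneg (A + B)]
    have e5 : (2 * D * p) ^ 2 = 4 * D ^ 2 * Φ g := by rw [mul_pow, e1]; ring
    have e6 : (2 * D * q) ^ 2 = 4 * D ^ 2 * Φ (sg g) := by rw [mul_pow, e2]; ring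
    rw [e5] at hA
    rw [e6] at hB
    linarith
  have hfib : ∀ F : Γ → ℝ, (∀ g, 0 ≤ F g) → ∑ g, F (sg g) ≤ (Z.card : ℝ) ^ 2 * ∑ s ∈ S, F s := by
    intro F hF
    have hinj : Function.Injective fun g => ((sg g, z1 g, z2 g) : Γ × Γ × Γ) := by
      intro g g' h
      simp only [Prod.mk.injEq] at h
      obtain ⟨h1, h2, h3⟩ := h
      have e1 := hz g
      rw [h1, h2, h3, ← hz g'] at e1
      exact mul_left_cancel e1
    have e1 : ∑ g, F (sg g) = ∑ p ∈ Finset.univ.image (fun g => ((sg g, z1 g, z2 g) : Γ × Γ × Γ)), F p.1 := by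
      rw [Finset.sum_image fun x _ y _ h => hinj h]
    rw [e1]
    have e2 : ∑ p ∈ S ×ˢ (Z ×ˢ Z), F p.1 = (Z.card : ℝ) ^ 2 * ∑ s ∈ S, F s := by
      rw [Finset.sum_product]
      simp only [Finset.sum_const, Finset.card_product, nsmul_eq_mul]
      rw [← Finset.mul_sum]
      push_cast
      ring
    rw [← e2]
    apply Finset.sum_le_sum_of_subset_of_nonneg
    · intro p hp
      simp only [Finset.mem_image, Finset.mem_univ, true_and] at hp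
      obtain ⟨g, rfl⟩ := hp
      simp only [Finset.mem_product]
      exact ⟨hsS g, hz1 g, hz2 g⟩
    · intro p _ _
      exact hF _
  have hsum : ∑ g, Φ g = (Z.card : ℝ) * ∑ g, (u g - u' g) ^ 2 := by
    simp only [hΦ]
    rw [Finset.sum_comm]
    have : ∀ z ∈ Z, ∑ g, (u (z * g) - u' (z * g)) ^ 2 = ∑ g, (u g - u' g) ^ 2 := by
      intro z _
      exact Equiv.sum_comp (Equiv.mulLeft z) (fun g => (u g - u' g) ^ 2)
    rw [Finset.sum_congr rfl this, Finset.sum_const, nsmul_eq_mul]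
  set E := ∑ g, (u g - u' g) ^ 2 with hE
  set US := ∑ s ∈ S, u s ^ 2 with hUS
  have hE0 : 0 ≤ E := Finset.sum_nonneg fun _ _ => sq_nonneg _
  have hUS0 : 0 ≤ US := Finset.sum_nonneg fun _ _ => sq_nonneg _
  have hSΦ : ∑ s ∈ S, Φ s ≤ (Z.card : ℝ) * E := by
    rw [← hsum]
    exact Finset.sum_le_univ_sum_of_nonneg hΦ0
  have hN : (Z.card : ℝ) ≤ 6 ^ D := by exact_mod_cast gens_pow_card a b D
  set N : ℝ := (Z.card : ℝ)
  have hN0 : 0 ≤ N := Nat.cast_nonneg _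
  have hU : ∑ g, u g ^ 2 ≤ 3 * (N ^ 2 * US + 4 * D ^ 2 * (N * E) + 4 * D ^ 2 * (N ^ 2 * (N * E))) := by
    have h1 : ∑ g, u g ^ 2 ≤ ∑ g, 3 * (u (sg g) ^ 2 + 4 * D ^ 2 * Φ g + 4 * D ^ 2 * Φ (sg g)) :=
      Finset.sum_le_sum fun g _ => hpt g
    rw [← Finset.mul_sum, Finset.sum_add_distrib, Finset.sum_add_distrib, ← Finset.mul_sum,
      ← Finset.mul_sum] at h1
    have h2 := hfib (fun g => u g ^ 2) fun g => sq_nonneg _
    have h3 := hfib Φ hΦ0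
    have h4 : N ^ 2 * ∑ s ∈ S, Φ s ≤ N ^ 2 * (N * E) :=
      mul_le_mul_of_nonneg_left hSΦ (by positivity)
    have h5 : 4 * (D : ℝ) ^ 2 * ∑ g, Φ (sg g) ≤ 4 * (D : ℝ) ^ 2 * (N ^ 2 * (N * E)) :=
      mul_le_mul_of_nonneg_left (h3.trans h4) (by positivity)
    rw [hsum] at h1
    linarith
  have hU' : ∑ g, u' g ^ 2 ≤ 2 * ∑ g, u g ^ 2 + 2 * E := by
    rw [hE, Finset.mul_sum, Finset.mul_sum, ← Finset.sum_add_distrib]
    apply Finset.sum_le_sum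
    intro g _
    nlinarith [sq_nonneg (u g - (u g - u' g) / 1 - u g + (u g - u' g)), sq_nonneg (u g + (u g - u' g))]
  have hN2 : N ^ 2 ≤ 216 ^ D := by
    calc N ^ 2 ≤ (6 ^ D) ^ 2 := by gcongr
      _ = (36 : ℝ) ^ D := by rw [← pow_mul, mul_comm, pow_mul]; norm_num
      _ ≤ 216 ^ D := by gcongr; norm_num
  have hN1 : N ≤ 216 ^ D := hN.trans (by gcongr; norm_num)
  have hN3 : N ^ 2 * N ≤ 216 ^ D := by
    calc N ^ 2 * N = N ^ 3 := by ring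
      _ ≤ (6 ^ D) ^ 3 := by gcongr
      _ = (216 : ℝ) ^ D := by rw [← pow_mul, mul_comm, pow_mul]; norm_num
  have hM1 : (1 : ℝ) ≤ 216 ^ D := one_le_pow₀ (by norm_num)
  set M : ℝ := 216 ^ D
  have hD0 : (0 : ℝ) ≤ D := Nat.cast_nonneg _
  have k1 : N ^ 2 * US ≤ M * US := mul_le_mul_of_nonneg_right hN2 hUS0
  have k2 : 4 * (D : ℝ) ^ 2 * (N * E) ≤ 4 * (D : ℝ) ^ 2 * (M * E) :=
    mul_le_mul_of_nonneg_left (mul_le_mul_of_nonneg_right hN1 hE0) (by positivity)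
  have k3 : 4 * (D : ℝ) ^ 2 * (N ^ 2 * (N * E)) ≤ 4 * (D : ℝ) ^ 2 * (M * E) := by
    apply mul_le_mul_of_nonneg_left _ (by positivity)
    calc N ^ 2 * (N * E) = (N ^ 2 * N) * E := by ring
      _ ≤ M * E := mul_le_mul_of_nonneg_right hN3 hE0
  have k4 : E ≤ M * E := le_mul_of_one_le_left hE0 hM1
  have hME : 0 ≤ M * E := by positivity
  have hMU : 0 ≤ M * US := by positivity
  have fin1 : ∑ g, u g ^ 2 + ∑ g, u' g ^ 2 ≤ 9 * (M * US) + (72 * (D : ℝ) ^ 2 + 2) * (M * E) := by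
    nlinarith
  have fin2 : 9 * (M * US) + (72 * (D : ℝ) ^ 2 + 2) * (M * E) ≤
      100 * ((D : ℝ) + 1) ^ 2 * (M * US) + 100 * ((D : ℝ) + 1) ^ 2 * (M * E) := by
    apply add_le_add
    · apply mul_le_mul_of_nonneg_right _ hMU
      nlinarith
    · apply mul_le_mul_of_nonneg_right _ hME
      nlinarith
  calc ∑ g, u g ^ 2 + ∑ g, u' g ^ 2 ≤ _ := fin1
    _ ≤ _ := fin2
    _ = _ := by ring

end MPd2470a
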