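import Pool.Agent.Lib.MP_d2470a_co.BlkDefs

/-!
# BlkSph: the truncated potential of the biregular tree

Vertices are cosets: level `0` is the coset `{σ^j g₀}`. For `k ≥ 1` put `ρ_k = τ, o_k = q` if `k` is
odd and `ρ_k = σ, o_k = p` if `k` is even. Edge functions on `Γ`:
`E_1 h = [∃ j < p, h = σ^j g₀]`, `E_{k+1} h = ∑_{l=1}^{o_k - 1} E_k (ρ_k^l h)`; vertex functions
`e_0 = E_1`, `e_k h = ∑_{l < o_k} E_k (ρ_k^l h)` (invariant under `ρ_k` because `ρ_k^{o_k} = 1`), so
`E_{k+1} = e_k - E_k`. In this file `FF k = E_{k+1}` and `ee k = e_k`.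
-/

set_option autoImplicit false

namespace MPd2470a

open Finset

private def rho {Γ : Type} (σ τ : Γ) (k : ℕ) : Γ := if k % 2 = 0 then σ else τ
private def oo (p q k : ℕ) : ℕ := if k % 2 = 0 then p else q

private theorem rho_two {Γ : Type} (σ τ : Γ) (k : ℕ) : rho σ τ (k + 2) = rho σ τ k := by
  unfold rho
  simp

private theorem oo_two (p q k : ℕ) : oo p q (k + 2) = oo p q k := by
  unfold oo
  simp

private theorem fp {Γ : Type} [Group Γ] {σ τ : Γ} {p q R : ℕ} (F : FreeP σ τ p q R) (k : ℕ) :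
    FreeP (rho σ τ k) (rho σ τ (k + 1)) (oo p q k) (oo p q (k + 1)) R := by
  unfold rho oo
  rcases Nat.mod_two_eq_zero_or_one k with h | h
  · have h1 : (k + 1) % 2 = 1 := by omega
    simp only [h, h1, if_true, one_ne_zero, if_false]
    exact F
  · have h1 : (k + 1) % 2 = 0 := by omega
    simp only [h, h1, if_true, one_ne_zero, if_false]
    exact F.swap

open Classical in
private noncomputable def FF {Γ : Type} [Group Γ] (σ τ : Γ) (p q : ℕ) (g₀ : Γ) :
    ℕ → Γ → ℝ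
  | 0 => fun h => ∑ l ∈ range p, (if σ ^ l * h = g₀ then 1 else 0)
  | k + 1 => fun h => (∑ l ∈ range (oo p q (k + 1)), FF σ τ p q g₀ k (rho σ τ (k + 1) ^ l * h)) -
      FF σ τ p q g₀ k h

open Classical in
private noncomputable def ee {Γ : Type} [Group Γ] (σ τ : Γ) (p q : ℕ) (g₀ : Γ) :
    ℕ → Γ → ℝ
  | 0 => FF σ τ p q g₀ 0
  | k + 1 => fun h => ∑ l ∈ range (oo p q (k + 1)), FF σ τ p q g₀ k (rho σ τ (k + 1) ^ l * h)

/-- sums over a cyclic group are invariant -/
private theorem cyc {Γ : Type} [Group Γ] {a : Γ} {n : ℕ} (ha : a ^ n = 1) (φ : Γ → ℝ) (h : Γ) :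
    ∑ l ∈ range n, φ (a ^ l * (a * h)) = ∑ l ∈ range n, φ (a ^ l * h) := by
  have h1 : ∀ l, φ (a ^ l * (a * h)) = φ (a ^ (l + 1) * h) := by
    intro l
    rw [pow_succ, mul_assoc]
  simp only [h1]
  have h2 := Finset.sum_range_succ (fun l => φ (a ^ l * h)) n
  have h3 := Finset.sum_range_succ' (fun l => φ (a ^ l * h)) n
  rw [h2] at h3
  simp only [ha, pow_zero] at h3
  linarith

private theorem cyc_pow {Γ : Type} [Group Γ] {a : Γ} {n : ℕ} (ha : a ^ n = 1) (φ : Γ → ℝ) (h : Γ)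
    (m : ℕ) : ∑ l ∈ range n, φ (a ^ l * (a ^ m * h)) = ∑ l ∈ range n, φ (a ^ l * h) := by
  induction m with
  | zero => simp
  | succ m ih =>
    rw [← ih, pow_succ', mul_assoc, cyc ha]

section

variable {Γ : Type} [Group Γ] {σ τ : Γ} {p q R : ℕ}

private theorem ee_inv (F : FreeP σ τ p q R) (g₀ : Γ) (k : ℕ) (h : Γ) :
    ee σ τ p q g₀ k (rho σ τ k * h) = ee σ τ p q g₀ k h := by
  classical
  cases k with
  | zero =>
    have h1 : rho σ τ 0 = σ := rfl
    rw [h1]
    show FF σ τ p q g₀ 0 (σ * h) = FF σ τ p q g₀ 0 h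
    show (∑ l ∈ range p, (if σ ^ l * (σ * h) = g₀ then (1 : ℝ) else 0)) =
      ∑ l ∈ range p, (if σ ^ l * h = g₀ then (1 : ℝ) else 0)
    exact cyc F.pow1 (fun x => if x = g₀ then (1 : ℝ) else 0) h
  | succ k =>
    exact cyc (fp F (k + 1)).pow1 (FF σ τ p q g₀ k) h

private theorem ee_inv_pow (F : FreeP σ τ p q R) (g₀ : Γ) (k : ℕ) (h : Γ) (m : ℕ) :
    ee σ τ p q g₀ k (rho σ τ k ^ m * h) = ee σ τ p q g₀ k h := by
  induction m with
  | zero => simp
  | succ m ih => rw [pow_succ', mul_assoc, ee_inv F, ih]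

private theorem T_ee (F : FreeP σ τ p q R) (g₀ : Γ) (k : ℕ) (h : Γ) :
    ∑ l ∈ range (oo p q k), ee σ τ p q g₀ k (rho σ τ k ^ l * h) =
      (oo p q k : ℝ) * ee σ τ p q g₀ k h := by
  simp only [ee_inv_pow F]
  simp

/-- `T_k E_{k+1}` for `k ≥ 1` -/
private theorem T_FF (F : FreeP σ τ p q R) (g₀ : Γ) (k : ℕ) (h : Γ) :
    ∑ l ∈ range (oo p q (k + 1)), FF σ τ p q g₀ (k + 1) (rho σ τ (k + 1) ^ l * h) =
      ((oo p q (k + 1) : ℝ) - 1) * ee σ τ p q g₀ (k + 1) h := by
  have h1 : ∀ x, FF σ τ p q g₀ (k + 1) x = ee σ τ p q g₀ (k + 1) x - FF σ τ p q g₀ k x := fun x => rfl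
  simp only [h1, Finset.sum_sub_distrib]
  rw [T_ee F]
  have h2 : ∑ l ∈ range (oo p q (k + 1)), FF σ τ p q g₀ k (rho σ τ (k + 1) ^ l * h) =
    ee σ τ p q g₀ (k + 1) h := rfl
  rw [h2]
  ring

private theorem T_FF0 (F : FreeP σ τ p q R) (g₀ : Γ) (h : Γ) :
    ∑ l ∈ range (oo p q 0), FF σ τ p q g₀ 0 (rho σ τ 0 ^ l * h) = (p : ℝ) * ee σ τ p q g₀ 0 h :=
  T_ee F g₀ 0 h

private theorem t0 (g₀ : Γ) (h : Γ) :
    ∑ l ∈ range (oo p q 1), ee σ τ p q g₀ 0 (rho σ τ 1 ^ l * h) = ee σ τ p q g₀ 1 h := rfl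

private theorem t1 (F : FreeP σ τ p q R) (g₀ : Γ) (h : Γ) :
    ∑ l ∈ range (oo p q 2), ee σ τ p q g₀ 1 (rho σ τ 2 ^ l * h) =
      (p : ℝ) * ee σ τ p q g₀ 0 h + ee σ τ p q g₀ 2 h := by
  have h1 : ∀ x, ee σ τ p q g₀ 1 x = FF σ τ p q g₀ 0 x + FF σ τ p q g₀ 1 x := by
    intro x
    show _ = _ + (ee σ τ p q g₀ 1 x - FF σ τ p q g₀ 0 x)
    ring
  simp only [h1, Finset.sum_add_distrib]
  congr 1
  exact T_FF0 F g₀ h

private theorem t2 (F : FreeP σ τ p q R) (g₀ : Γ) (k : ℕ) (h : Γ) :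
    ∑ l ∈ range (oo p q (k + 3)), ee σ τ p q g₀ (k + 2) (rho σ τ (k + 3) ^ l * h) =
      ((oo p q (k + 1) : ℝ) - 1) * ee σ τ p q g₀ (k + 1) h + ee σ τ p q g₀ (k + 3) h := by
  have h1 : ∀ x, ee σ τ p q g₀ (k + 2) x = FF σ τ p q g₀ (k + 1) x + FF σ τ p q g₀ (k + 2) x := by
    intro x
    show _ = _ + (ee σ τ p q g₀ (k + 2) x - FF σ τ p q g₀ (k + 1) x)
    ring
  simp only [h1, Finset.sum_add_distrib]
  congr 1
  have h2 : oo p q (k + 3) = oo p q (k + 1) := oo_two p q (k + 1)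
  have h3 : rho σ τ (k + 3) = rho σ τ (k + 1) := rho_two σ τ (k + 1)
  rw [h2, h3]
  exact T_FF F g₀ k h

/-- powers below the order are distinct -/
private theorem pow_inj {a b : Γ} {P Q : ℕ} (F : FreeP a b P Q R) (hR : 1 ≤ R) {l l' : ℕ}
    (hl : l < P) (hl' : l' < P) (h : a ^ l = a ^ l') : l = l' := by
  have key : ∀ i < P, ∃ w : List ℕ, ok P Q w ∧ w.length ≤ R ∧ ev a b w = a ^ i ∧
      (w = [] ∧ i = 0 ∨ w = [i]) := by
    intro i hi
    rcases Nat.eq_zero_or_pos i with h0 | h0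
    · exact ⟨[], trivial, by simp, by simp [ev, h0], Or.inl ⟨rfl, h0⟩⟩
    · exact ⟨[i], ⟨⟨h0, hi⟩, trivial⟩, by simpa using hR, by simp [ev], Or.inr rfl⟩
  obtain ⟨w, h1, h2, h3, h4⟩ := key l hl
  obtain ⟨w', h1', h2', h3', h4'⟩ := key l' hl'
  have h5 := F.inj1 w w' h1 h1' h2 h2' (by rw [h3, h3', h])
  rcases h4 with ⟨h4, h6⟩ | h4 <;> rcases h4' with ⟨h4', h6'⟩ | h4'
  · omega
  · rw [h4, h4'] at h5; simp at h5
  · rw [h4, h4'] at h5; simp at h5
  · rw [h4, h4'] at h5; simpa using h5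

/-- a sum of `0, 1` values with at most one nonzero term -/
private theorem sum01 {n : ℕ} (f : ℕ → ℝ) (h01 : ∀ l < n, f l = 0 ∨ f l = 1)
    (hu : ∀ l < n, ∀ l' < n, l < l' → f l ≠ 0 → f l' ≠ 0 → False) :
    (∑ l ∈ range n, f l = 0 ∧ ∀ l < n, f l = 0) ∨
      (∑ l ∈ range n, f l = 1 ∧ ∃ l < n, f l = 1) := by
  by_cases hall : ∀ l < n, f l = 0
  · left
    exact ⟨Finset.sum_eq_zero (fun l hl => hall l (Finset.mem_range.1 hl)), hall⟩
  · right
    push Not at hall
    obtain ⟨l, hl, hne⟩ := hall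
    have h1 : f l = 1 := (h01 l hl).resolve_left hne
    refine ⟨?_, l, hl, h1⟩
    rw [Finset.sum_eq_single_of_mem l (Finset.mem_range.2 hl), h1]
    intro l' hl' hne'
    by_contra hc
    have hl'2 := Finset.mem_range.1 hl'
    rcases lt_or_gt_of_ne hne' with h2 | h2
    · exact hu l' hl'2 l hl h2 hc hne
    · exact hu l hl l' hl'2 h2 hne hc

private theorem words (F : FreeP σ τ p q R) (hp : 1 ≤ p) (hq : 1 ≤ q) (g₀ : Γ) (k : ℕ) (h : Γ)
    (hne : FF σ τ p q g₀ k h ≠ 0) :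
    ∃ w : List ℕ, ok (oo p q k) (oo p q (k + 1)) w ∧ w.length ≤ k + 1 ∧ (1 ≤ k → w ≠ []) ∧
      h = ev (rho σ τ k) (rho σ τ (k + 1)) w * g₀ := by
  classical
  induction k generalizing h with
  | zero =>
    have h1 : ∃ l ∈ range p, (if σ ^ l * h = g₀ then (1 : ℝ) else 0) ≠ 0 :=
      Finset.exists_ne_zero_of_sum_ne_zero hne
    obtain ⟨l, hl, h2⟩ := h1
    have hl' := Finset.mem_range.1 hl
    have h3 : σ ^ l * h = g₀ := by
      by_contra hc
      simp [hc] at h2
    rcases Nat.eq_zero_or_pos l with h0 | h0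
    · refine ⟨[], trivial, by simp, by simp, ?_⟩
      subst h0
      simpa [ev] using h3
    · refine ⟨[p - l], ⟨⟨by omega, ?_⟩, trivial⟩, by simp, by simp, ?_⟩
      · show p - l < oo p q 0
        show p - l < p
        omega
      · show h = (σ ^ (p - l) * 1) * g₀
        rw [mul_one, ← h3, ← mul_assoc, ← pow_add]
        rw [show p - l + l = p by omega, F.pow1, one_mul]
  | succ k ih =>
    have h0 : FF σ τ p q g₀ (k + 1) h = (∑ l ∈ range (oo p q (k + 1)),
      FF σ τ p q g₀ k (rho σ τ (k + 1) ^ l * h)) - FF σ τ p q g₀ k h := rfl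
    have hex : ∃ l, 1 ≤ l ∧ l < oo p q (k + 1) ∧ FF σ τ p q g₀ k (rho σ τ (k + 1) ^ l * h) ≠ 0 := by
      by_contra hc
      push Not at hc
      apply hne
      rw [h0]
      have hz : 0 < oo p q (k + 1) := by
        unfold oo
        split_ifs <;> omega
      obtain ⟨m, hm⟩ : ∃ m, oo p q (k + 1) = m + 1 := ⟨_, (Nat.succ_pred_eq_of_pos hz).symm⟩
      rw [hm, Finset.sum_range_succ']
      rw [Finset.sum_eq_zero (fun l hl => hc (l + 1) (by omega)
        (by rw [hm]; have := Finset.mem_range.1 hl; omega))]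
      simp
    obtain ⟨l, hl1, hl2, hl3⟩ := hex
    obtain ⟨w, hw1, hw2, _, hw4⟩ := ih _ hl3
    refine ⟨(oo p q (k + 1) - l) :: w, ⟨⟨by omega, by omega⟩, ?_⟩, by simpa using hw2, by simp, ?_⟩
    · rw [oo_two]; exact hw1
    · show h = (rho σ τ (k + 1) ^ (oo p q (k + 1) - l) * ev (rho σ τ (k + 2)) (rho σ τ (k + 1)) w) * g₀
      rw [rho_two, mul_assoc, ← hw4, ← mul_assoc, ← pow_add]
      rw [show oo p q (k + 1) - l + l = oo p q (k + 1) by omega, (fp F (k + 1)).pow1, one_mul]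

/-- `E_{k+1}` takes the values `0, 1`, and two terms of `e_{k+1}` are never both nonzero -/
private theorem uniq (F : FreeP σ τ p q R) (hp : 1 ≤ p) (hq : 1 ≤ q) (g₀ : Γ) (k : ℕ)
    (hk : k + 2 ≤ R) (h : Γ) (l l' : ℕ) (hl' : l' < oo p q (k + 1))
    (hll : l < l') (h1 : FF σ τ p q g₀ k (rho σ τ (k + 1) ^ l * h) ≠ 0)
    (h2 : FF σ τ p q g₀ k (rho σ τ (k + 1) ^ l' * h) ≠ 0) : False := by
  obtain ⟨w, hw1, hw2, _, hw4⟩ := words F hp hq g₀ k _ h1
  obtain ⟨w', hw1', hw2', _, hw4'⟩ := words F hp hq g₀ k _ h2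
  have h3 : rho σ τ (k + 1) ^ (l' - l) * ev (rho σ τ k) (rho σ τ (k + 1)) w =
      ev (rho σ τ k) (rho σ τ (k + 1)) w' := by
    have h4 : rho σ τ (k + 1) ^ (l' - l) * (ev (rho σ τ k) (rho σ τ (k + 1)) w * g₀) =
        ev (rho σ τ k) (rho σ τ (k + 1)) w' * g₀ := by
      rw [← hw4, ← hw4', ← mul_assoc, ← pow_add, show l' - l + l = l' by omega]
    rw [← mul_assoc] at h4
    exact mul_right_cancel h4
  have h5 := (fp F k).inj3 w' ((l' - l) :: w) hw1' ⟨⟨by omega, by omega⟩, hw1⟩ (by omega)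
    (by simp only [List.length_cons]; omega) h3.symm
  exact absurd h5.2 (by simp)

private theorem zo (F : FreeP σ τ p q R) (hp : 1 ≤ p) (hq : 1 ≤ q) (g₀ : Γ) (k : ℕ)
    (hk : k + 1 ≤ R) (h : Γ) :
    (FF σ τ p q g₀ k h = 0 ∨ FF σ τ p q g₀ k h = 1) ∧
      (ee σ τ p q g₀ k h = 0 ∨ ee σ τ p q g₀ k h = 1) := by
  classical
  induction k generalizing h with
  | zero =>
    have h0 := sum01 (n := p) (fun l => if σ ^ l * h = g₀ then (1 : ℝ) else 0)
      (by intro l _; by_cases hh : σ ^ l * h = g₀ <;> simp [hh])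
      (by
        intro l hl l' hl' hll h1 h2
        have h3 : σ ^ l * h = g₀ := by
          by_contra hc
          simp [hc] at h1
        have h4 : σ ^ l' * h = g₀ := by
          by_contra hc
          simp [hc] at h2
        have h5 := pow_inj F (by omega) hl hl' (mul_right_cancel (h3.trans h4.symm))
        omega)
    have h1 : FF σ τ p q g₀ 0 h = 0 ∨ FF σ τ p q g₀ 0 h = 1 := by
      rcases h0 with h0 | h0
      · exact Or.inl h0.1
      · exact Or.inr h0.1
    exact ⟨h1, h1⟩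
  | succ k ih =>
    have h0 := sum01 (n := oo p q (k + 1)) (fun l => FF σ τ p q g₀ k (rho σ τ (k + 1) ^ l * h))
      (fun l _ => (ih (by omega) _).1)
      (fun l _ l' hl' hll h1 h2 => uniq F hp hq g₀ k (by omega) h l l' hl' hll h1 h2)
    have hz : 0 < oo p q (k + 1) := by
      unfold oo
      split_ifs <;> omega
    have h2 : FF σ τ p q g₀ (k + 1) h = ee σ τ p q g₀ (k + 1) h - FF σ τ p q g₀ k h := rfl
    rcases h0 with ⟨h0, h1⟩ | ⟨h0, h1⟩
    · have h3 := h1 0 hz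
      simp only [pow_zero, one_mul] at h3
      have h4 : ee σ τ p q g₀ (k + 1) h = 0 := h0
      exact ⟨Or.inl (by rw [h2, h3, h4]; ring), Or.inl h4⟩
    · have h4 : ee σ τ p q g₀ (k + 1) h = 1 := h0
      refine ⟨?_, Or.inr h4⟩
      rcases (ih (by omega) h).1 with h5 | h5
      · exact Or.inr (by rw [h2, h4, h5]; ring)
      · exact Or.inl (by rw [h2, h4, h5]; ring)

private theorem ee_nn (F : FreeP σ τ p q R) (hp : 1 ≤ p) (hq : 1 ≤ q) (g₀ : Γ) (k : ℕ)
    (hk : k + 1 ≤ R) (h : Γ) : 0 ≤ ee σ τ p q g₀ k h := by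
  rcases (zo F hp hq g₀ k hk h).2 with h1 | h1 <;> rw [h1]
  norm_num

private theorem ee0 (F : FreeP σ τ p q R) (hp : 1 ≤ p) (hR : 1 ≤ R) (g₀ h : Γ)
    (inst : Decidable (∃ j < p, h = σ ^ j * g₀)) :
    (@ite ℝ (∃ j < p, h = σ ^ j * g₀) inst 1 0) = ee σ τ p q g₀ 0 h := by
  classical
  symm
  have h0 := sum01 (n := p) (fun l => if σ ^ l * h = g₀ then (1 : ℝ) else 0)
    (by intro l _; by_cases hh : σ ^ l * h = g₀ <;> simp [hh])
    (by
      intro l hl l' hl' hll h1 h2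
      have h3 : σ ^ l * h = g₀ := by
        by_contra hc
        simp [hc] at h1
      have h4 : σ ^ l' * h = g₀ := by
        by_contra hc
        simp [hc] at h2
      have h5 := pow_inj F hR hl hl' (mul_right_cancel (h3.trans h4.symm))
      omega)
  have h1 : ee σ τ p q g₀ 0 h = ∑ l ∈ range p, (if σ ^ l * h = g₀ then (1 : ℝ) else 0) := rfl
  rw [h1]
  rcases h0 with ⟨h0, h2⟩ | ⟨h0, l, hl, h2⟩
  · rw [h0, if_neg]
    rintro ⟨j, hj, hh⟩
    -- `σ ^ (p - j) * h = g₀` or `j = 0`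
    rcases Nat.eq_zero_or_pos j with hj0 | hj0
    · have h3 := h2 0 (by omega)
      rw [hj0] at hh
      rw [if_pos (by rw [hh]; simp)] at h3
      norm_num at h3
    · have h3 := h2 (p - j) (by omega)
      rw [if_pos (by rw [hh, ← mul_assoc, ← pow_add, show p - j + j = p by omega, F.pow1,
        one_mul])] at h3
      norm_num at h3
  · rw [h0, if_pos]
    have h3 : σ ^ l * h = g₀ := by
      by_contra hc
      simp [hc] at h2
    rcases Nat.eq_zero_or_pos l with hl0 | hl0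
    · exact ⟨0, by omega, by rw [← h3, hl0]; simp⟩
    · exact ⟨p - l, by omega, by rw [← h3, ← mul_assoc, ← pow_add,
        show p - l + l = p by omega, F.pow1, one_mul]⟩

private theorem ee_even (F : FreeP σ τ p q R) (hp : 1 ≤ p) (hq : 1 ≤ q) (g₀ : Γ) (k : ℕ)
    (hk : k + 3 ≤ R) (hev : k % 2 = 0) : ee σ τ p q g₀ (k + 2) g₀ = 0 := by
  classical
  by_contra hne
  have h0 : ee σ τ p q g₀ (k + 2) g₀ = ∑ l ∈ range (oo p q (k + 2)),
    FF σ τ p q g₀ (k + 1) (rho σ τ (k + 2) ^ l * g₀) := rfl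
  rw [h0] at hne
  obtain ⟨l, hl, h1⟩ := Finset.exists_ne_zero_of_sum_ne_zero hne
  have hl' := Finset.mem_range.1 hl
  obtain ⟨w, hw1, hw2, hw3, hw4⟩ := words F hp hq g₀ (k + 1) _ h1
  have h2 : rho σ τ (k + 2) ^ l = ev (rho σ τ (k + 1)) (rho σ τ (k + 2)) w :=
    mul_right_cancel hw4
  rcases Nat.eq_zero_or_pos l with h3 | h3
  · have h5 := (fp F (k + 1)).inj3 w [] hw1 trivial (by omega) (by simp) (by
      rw [← h2, h3]; simp [ev])
    exact hw3 (by omega) h5.1
  · have h5 := (fp F (k + 1)).inj3 w [l] hw1 ⟨⟨h3, hl'⟩, trivial⟩ (by omega)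
      (by simp only [List.length_singleton]; omega) (by
      rw [← h2]; simp [ev])
    exact hw3 (by omega) h5.1

end

/-! ### total masses -/

/-- `N_{k+1}` -/
private noncomputable def nn (p q : ℕ) : ℕ → ℝ
  | 0 => p
  | k + 1 => ((oo p q (k + 1) : ℝ) - 1) * nn p q k

private theorem sum_FF {Γ : Type} [Group Γ] [Fintype Γ] (σ τ : Γ) (p q : ℕ) (g₀ : Γ) (k : ℕ) :
    ∑ h, FF σ τ p q g₀ k h = nn p q k := by
  classical
  have sh : ∀ (φ : Γ → ℝ) (a : Γ), ∑ h, φ (a * h) = ∑ h, φ h := fun φ a =>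
    Equiv.sum_comp (Equiv.mulLeft a) φ
  induction k with
  | zero =>
    have h1 : ∀ h, FF σ τ p q g₀ 0 h = ∑ l ∈ range p, (if σ ^ l * h = g₀ then (1 : ℝ) else 0) :=
      fun h => rfl
    simp only [h1]
    rw [Finset.sum_comm]
    have h2 : ∀ l, ∑ h : Γ, (if σ ^ l * h = g₀ then (1 : ℝ) else 0) = 1 := by
      intro l
      rw [sh (fun x => if x = g₀ then (1 : ℝ) else 0)]
      simp
    simp only [h2]
    simp [nn]
  | succ k ih =>
    have h1 : ∀ h, FF σ τ p q g₀ (k + 1) h = (∑ l ∈ range (oo p q (k + 1)),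
      FF σ τ p q g₀ k (rho σ τ (k + 1) ^ l * h)) - FF σ τ p q g₀ k h := fun h => rfl
    simp only [h1, Finset.sum_sub_distrib]
    rw [Finset.sum_comm]
    simp only [sh (FF σ τ p q g₀ k), ih]
    simp only [Finset.sum_const, Finset.card_range, nsmul_eq_mul, nn]
    ring

private theorem sum_ee {Γ : Type} [Group Γ] [Fintype Γ] (σ τ : Γ) (p q : ℕ) (g₀ : Γ) (k : ℕ) :
    ∑ h, ee σ τ p q g₀ (k + 1) h = (oo p q (k + 1) : ℝ) * nn p q k := by
  classical
  have sh : ∀ (φ : Γ → ℝ) (a : Γ), ∑ h, φ (a * h) = ∑ h, φ h := fun φ a =>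
    Equiv.sum_comp (Equiv.mulLeft a) φ
  have h1 : ∀ h, ee σ τ p q g₀ (k + 1) h = ∑ l ∈ range (oo p q (k + 1)),
      FF σ τ p q g₀ k (rho σ τ (k + 1) ^ l * h) := fun h => rfl
  simp only [h1]
  rw [Finset.sum_comm]
  simp only [sh (FF σ τ p q g₀ k), sum_FF]
  simp

/-! ### the numerical identities -/

section num

variable (p q : ℕ) (a t : ℕ → ℝ)

private theorem Dnum (h0 : t 0 = a 1) (h1 : t 1 = p * a 0 + a 2)
    (h2 : ∀ k, t (k + 2) = ((oo p q (k + 1) : ℝ) - 1) * a (k + 1) + a (k + 3)) (m : ℕ) :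
    ((p : ℝ) * (∑ k ∈ range (m + 1), if k % 2 = 0 then a k else 0) -
        (∑ k ∈ range (m + 1), if k % 2 = 0 then 0 else t k) =
      if m = 0 then (p : ℝ) * a 0 else if m % 2 = 0 then ((p : ℝ) - 1) * a m else - a (m + 1)) ∧
    ((q : ℝ) * (∑ k ∈ range (m + 1), if k % 2 = 0 then 0 else a k) -
        (∑ k ∈ range (m + 1), if k % 2 = 0 then t k else 0) =
      if m % 2 = 0 then - a (m + 1) else ((q : ℝ) - 1) * a m) := by
  induction m with
  | zero =>
    simp only [zero_add, Finset.sum_range_one, Nat.zero_mod, if_true]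
    constructor
    · ring
    · rw [h0]; ring
  | succ m ih =>
    rw [Finset.sum_range_succ, Finset.sum_range_succ (n := m + 1),
      Finset.sum_range_succ (n := m + 1), Finset.sum_range_succ (n := m + 1)]
    obtain ⟨i1, i2⟩ := ih
    rw [mul_add, mul_add]
    rcases Nat.mod_two_eq_zero_or_one m with hm | hm
    · have hm1 : (m + 1) % 2 = 1 := by omega
      simp only [hm, hm1, if_true, one_ne_zero, if_false, Nat.add_eq_zero_iff, and_false] at i1 i2 ⊢
      constructor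
      · rcases Nat.eq_zero_or_pos m with h3 | h3
        · subst h3
          simp only [if_true] at i1
          simp only [zero_add] at i1 ⊢
          rw [h1]
          linarith
        · obtain ⟨k, rfl⟩ : ∃ k, m = k + 1 := ⟨m - 1, by omega⟩
          rw [if_neg (by omega)] at i1
          have h4 : oo p q (k + 1) = p := by unfold oo; rw [if_pos hm]
          have h5 := h2 k
          rw [h4] at h5
          rw [h5]
          linarith
      · linarith
    · have hm1 : (m + 1) % 2 = 0 := by omega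
      have hm0 : m ≠ 0 := by intro h; rw [h] at hm; simp at hm
      simp only [hm, hm1, if_true, one_ne_zero, if_false, Nat.add_eq_zero_iff, and_false, hm0]
        at i1 i2 ⊢
      constructor
      · linarith
      · obtain ⟨k, rfl⟩ : ∃ k, m = k + 1 := ⟨m - 1, by omega⟩
        have h4 : oo p q (k + 1) = q := by
          unfold oo
          rw [if_neg (by omega)]
        have h5 := h2 k
        rw [h4] at h5
        rw [h5]
        linarith

private theorem Xnum (hp : 2 ≤ p) (hq : 2 ≤ q) (h0 : t 0 = a 1) (h1 : t 1 = p * a 0 + a 2)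
    (h2 : ∀ k, t (k + 2) = ((oo p q (k + 1) : ℝ) - 1) * a (k + 1) + a (k + 3)) (r : ℕ)
    (hn : ∀ k, 0 < nn p q k) :
    (∑ m ∈ range (r + 1), (nn p q m)⁻¹ *
        ((p : ℝ) * (∑ k ∈ range (m + 1), if k % 2 = 0 then a k else 0) -
        (∑ k ∈ range (m + 1), if k % 2 = 0 then 0 else t k)) =
      a 0 - if (r + 1) % 2 = 0 then (nn p q r)⁻¹ * a (r + 1) else 0) ∧
    (∑ m ∈ range (r + 1), (nn p q m)⁻¹ *
        ((q : ℝ) * (∑ k ∈ range (m + 1), if k % 2 = 0 then 0 else a k) -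
        (∑ k ∈ range (m + 1), if k % 2 = 0 then t k else 0)) =
      - if (r + 1) % 2 = 0 then 0 else (nn p q r)⁻¹ * a (r + 1)) := by
  have hD := Dnum p q a t h0 h1 h2
  induction r with
  | zero =>
    have d := hD 0
    have hpp : (p : ℝ) ≠ 0 := by
      have : (2 : ℝ) ≤ p := by exact_mod_cast hp
      intro h
      linarith
    simp only [zero_add, Finset.sum_range_one, Nat.zero_mod, if_true, nn] at d ⊢
    rw [d.1, d.2]
    norm_num
    field_simp
  | succ r ih =>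
    have e1 := Finset.sum_range_succ (fun m => (nn p q m)⁻¹ *
        ((p : ℝ) * (∑ k ∈ range (m + 1), if k % 2 = 0 then a k else 0) -
        (∑ k ∈ range (m + 1), if k % 2 = 0 then 0 else t k))) (r + 1)
    have e2 := Finset.sum_range_succ (fun m => (nn p q m)⁻¹ *
        ((q : ℝ) * (∑ k ∈ range (m + 1), if k % 2 = 0 then 0 else a k) -
        (∑ k ∈ range (m + 1), if k % 2 = 0 then t k else 0))) (r + 1)
    rw [e1, e2, ih.1, ih.2, (hD (r + 1)).1, (hD (r + 1)).2]
    have hpos := hn r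
    have hpos1 := hn (r + 1)
    have hpp : (p : ℝ) - 1 ≠ 0 := by
      have : (2 : ℝ) ≤ p := by exact_mod_cast hp
      intro h
      linarith
    have hqq : (q : ℝ) - 1 ≠ 0 := by
      have : (2 : ℝ) ≤ q := by exact_mod_cast hq
      intro h
      linarith
    rcases Nat.mod_two_eq_zero_or_one (r + 1) with hm | hm
    · have hm1 : (r + 1 + 1) % 2 = 1 := by omega
      have h4 : oo p q (r + 1) = p := by unfold oo; rw [if_pos hm]
      have h5 : nn p q (r + 1) = ((p : ℝ) - 1) * nn p q r := by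
        show ((oo p q (r + 1) : ℝ) - 1) * nn p q r = _
        rw [h4]
      simp only [hm, hm1, if_true, one_ne_zero, if_false, Nat.add_eq_zero_iff, and_false]
      rw [h5]
      constructor
      · field_simp
        ring
      · field_simp
        ring
    · have hm1 : (r + 1 + 1) % 2 = 0 := by omega
      have h4 : oo p q (r + 1) = q := by
        unfold oo
        rw [if_neg (by omega)]
      have h5 : nn p q (r + 1) = ((q : ℝ) - 1) * nn p q r := by
        show ((oo p q (r + 1) : ℝ) - 1) * nn p q r = _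
        rw [h4]
      simp only [hm, hm1, if_true, one_ne_zero, if_false, Nat.add_eq_zero_iff, and_false]
      rw [h5]
      constructor
      · field_simp
        ring
      · field_simp
        ring

end num

private theorem tail_sum {p q : ℕ} (hpq : (p = 3 ∧ q = 4) ∨ (p = 4 ∧ q = 3)) (r : ℕ) :
    (2 : ℝ) ^ (r + 1) ≤ nn p q r ∧
    (∑ m ∈ range (r + 1), (nn p q m)⁻¹) +
      (if r % 2 = 0 then (if p = 3 then 3 / 5 else 4 / 5) else (if p = 3 then 4 / 5 else 3 / 5)) *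
        (nn p q r)⁻¹ = (if p = 3 then 8 / 15 else 9 / 20) := by
  induction r with
  | zero =>
    rcases hpq with ⟨rfl, rfl⟩ | ⟨rfl, rfl⟩ <;> simp [nn] <;> norm_num
  | succ r ih =>
    obtain ⟨i1, i2⟩ := ih
    have hpos : 0 < nn p q r := lt_of_lt_of_le (by positivity) i1
    have h5 : nn p q (r + 1) = ((oo p q (r + 1) : ℝ) - 1) * nn p q r := rfl
    rw [Finset.sum_range_succ]
    rcases Nat.mod_two_eq_zero_or_one r with hm | hm
    · have hm1 : (r + 1) % 2 = 1 := by omega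
      have h4 : oo p q (r + 1) = q := by
        unfold oo
        rw [if_neg (by omega)]
      rw [h4] at h5
      simp only [hm, hm1, if_true, one_ne_zero, if_false] at i2 ⊢
      rw [h5]
      rcases hpq with ⟨rfl, rfl⟩ | ⟨rfl, rfl⟩
      · norm_num at i2 ⊢
        constructor
        · rw [pow_succ]; nlinarith
        · linarith
      · norm_num at i2 ⊢
        constructor
        · rw [pow_succ]; nlinarith
        · linarith
    · have hm1 : (r + 1) % 2 = 0 := by omega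
      have h4 : oo p q (r + 1) = p := by unfold oo; rw [if_pos hm1]
      rw [h4] at h5
      simp only [hm, hm1, if_true, one_ne_zero, if_false] at i2 ⊢
      rw [h5]
      rcases hpq with ⟨rfl, rfl⟩ | ⟨rfl, rfl⟩
      · norm_num at i2 ⊢
        constructor
        · rw [pow_succ]; nlinarith
        · linarith
      · norm_num at i2 ⊢
        constructor
        · rw [pow_succ]; nlinarith
        · linarith

open Classical in
theorem sphere {Γ : Type} [Group Γ] [Fintype Γ] {σ τ : Γ} {p q R r : ℕ}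
    (hpq : (p = 3 ∧ q = 4) ∨ (p = 4 ∧ q = 3)) (F : FreeP σ τ p q R) (hr : 1 ≤ r)
    (hrR : r + 2 ≤ R) (g₀ : Γ) :
    ∃ u u' f f' : Γ → ℝ,
      (∀ g, u (σ * g) = u g) ∧ (∀ g, u' (τ * g) = u' g) ∧
      (∀ g, f (σ * g) = f g) ∧ (∀ g, f' (τ * g) = f' g) ∧ (∀ g, 0 ≤ u g) ∧ (∀ g, 0 ≤ u' g) ∧
      (∀ g, (p : ℝ) * u g - ∑ j ∈ Finset.range p, u' (σ ^ j * g) =
        (if ∃ j < p, g = σ ^ j * g₀ then 1 else 0) - f g) ∧
      (∀ g, (q : ℝ) * u' g - ∑ j ∈ Finset.range q, u (τ ^ j * g) = - f' g) ∧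
      u g₀ ≤ (if p = 3 then 8 / 15 else 9 / 20) ∧
      ∑ g, f g ^ 2 + ∑ g, f' g ^ 2 ≤ 4 / 2 ^ r := by
  obtain ⟨s, rfl⟩ : ∃ s, r = s + 1 := ⟨r - 1, by omega⟩
  have hp : 2 ≤ p := by omega
  have hq : 2 ≤ q := by omega
  have hn : ∀ k, 0 < nn p q k := fun k => lt_of_lt_of_le (by positivity) (tail_sum hpq k).1
  have evi : ∀ k, k % 2 = 0 → ∀ g, ee σ τ p q g₀ k (σ * g) = ee σ τ p q g₀ k g := by
    intro k hk g
    have h := ee_inv F g₀ k g
    have h2 : rho σ τ k = σ := by unfold rho; rw [if_pos hk]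
    rwa [h2] at h
  have odi : ∀ k, k % 2 ≠ 0 → ∀ g, ee σ τ p q g₀ k (τ * g) = ee σ τ p q g₀ k g := by
    intro k hk g
    have h := ee_inv F g₀ k g
    have h2 : rho σ τ k = τ := by unfold rho; rw [if_neg hk]
    rwa [h2] at h
  have key : ∀ g, _ := fun g => Xnum p q (fun k => ee σ τ p q g₀ k g)
    (fun k => ∑ l ∈ range (oo p q (k + 1)), ee σ τ p q g₀ k (rho σ τ (k + 1) ^ l * g)) hp hq
    (t0 g₀ g) (t1 F g₀ g) (fun k => t2 F g₀ k g) s hn
  refine ⟨fun g => ∑ m ∈ range (s + 1), (nn p q m)⁻¹ *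
      ∑ k ∈ range (m + 1), if k % 2 = 0 then ee σ τ p q g₀ k g else 0,
    fun g => ∑ m ∈ range (s + 1), (nn p q m)⁻¹ *
      ∑ k ∈ range (m + 1), if k % 2 = 0 then 0 else ee σ τ p q g₀ k g,
    fun g => if (s + 1) % 2 = 0 then (nn p q s)⁻¹ * ee σ τ p q g₀ (s + 1) g else 0,
    fun g => if (s + 1) % 2 = 0 then 0 else (nn p q s)⁻¹ * ee σ τ p q g₀ (s + 1) g,
    ?_, ?_, ?_, ?_, ?_, ?_, ?_, ?_, ?_, ?_⟩
  · intro g
    refine Finset.sum_congr rfl (fun m _ => ?_)
    congr 1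
    refine Finset.sum_congr rfl (fun k _ => ?_)
    split_ifs with hk
    · exact evi k hk g
    · rfl
  · intro g
    refine Finset.sum_congr rfl (fun m _ => ?_)
    congr 1
    refine Finset.sum_congr rfl (fun k _ => ?_)
    split_ifs with hk
    · rfl
    · exact odi k hk g
  · intro g
    show (if _ then _ else _) = (if _ then _ else _)
    split_ifs with hk
    · rw [evi _ hk]
    · rfl
  · intro g
    show (if _ then _ else _) = (if _ then _ else _)
    split_ifs with hk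
    · rfl
    · rw [odi _ hk]
  · intro g
    refine Finset.sum_nonneg (fun m hm => mul_nonneg (inv_nonneg.2 (hn m).le)
      (Finset.sum_nonneg (fun k hk => ?_)))
    have hm' := Finset.mem_range.1 hm
    have hk' := Finset.mem_range.1 hk
    split_ifs
    · exact ee_nn F (by omega) (by omega) g₀ k (by omega) g
    · exact le_refl 0
  · intro g
    refine Finset.sum_nonneg (fun m hm => mul_nonneg (inv_nonneg.2 (hn m).le)
      (Finset.sum_nonneg (fun k hk => ?_)))
    have hm' := Finset.mem_range.1 hm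
    have hk' := Finset.mem_range.1 hk
    split_ifs
    · exact le_refl 0
    · exact ee_nn F (by omega) (by omega) g₀ k (by omega) g
  · intro g
    have h := (key g).1
    rw [ee0 F (by omega) (by omega) g₀ g]
    show (p : ℝ) * (∑ m ∈ range (s + 1), (nn p q m)⁻¹ *
        ∑ k ∈ range (m + 1), if k % 2 = 0 then ee σ τ p q g₀ k g else 0) -
      ∑ j ∈ range p, (∑ m ∈ range (s + 1), (nn p q m)⁻¹ *
        ∑ k ∈ range (m + 1), if k % 2 = 0 then 0 else ee σ τ p q g₀ k (σ ^ j * g)) =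
      ee σ τ p q g₀ 0 g - (if (s + 1) % 2 = 0 then (nn p q s)⁻¹ * ee σ τ p q g₀ (s + 1) g else 0)
    rw [← h, Finset.mul_sum, Finset.sum_comm, ← Finset.sum_sub_distrib]
    refine Finset.sum_congr rfl (fun m _ => ?_)
    rw [← Finset.mul_sum, mul_sub]
    congr 1
    · ring
    · congr 1
      rw [Finset.sum_comm]
      refine Finset.sum_congr rfl (fun k _ => ?_)
      split_ifs with hk
      · simp
      · have h4 : oo p q (k + 1) = p := by unfold oo; rw [if_pos (by omega)]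
        have h5 : rho σ τ (k + 1) = σ := by unfold rho; rw [if_pos (by omega)]
        show _ = ∑ l ∈ range (oo p q (k + 1)), ee σ τ p q g₀ k (rho σ τ (k + 1) ^ l * g)
        rw [h4, h5]
  · intro g
    have h := (key g).2
    show (q : ℝ) * (∑ m ∈ range (s + 1), (nn p q m)⁻¹ *
        ∑ k ∈ range (m + 1), if k % 2 = 0 then 0 else ee σ τ p q g₀ k g) -
      ∑ j ∈ range q, (∑ m ∈ range (s + 1), (nn p q m)⁻¹ *
        ∑ k ∈ range (m + 1), if k % 2 = 0 then ee σ τ p q g₀ k (τ ^ j * g) else 0) =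
      - (if (s + 1) % 2 = 0 then 0 else (nn p q s)⁻¹ * ee σ τ p q g₀ (s + 1) g)
    rw [← h, Finset.mul_sum, Finset.sum_comm, ← Finset.sum_sub_distrib]
    refine Finset.sum_congr rfl (fun m _ => ?_)
    rw [← Finset.mul_sum, mul_sub]
    congr 1
    · ring
    · congr 1
      rw [Finset.sum_comm]
      refine Finset.sum_congr rfl (fun k _ => ?_)
      split_ifs with hk
      · have h4 : oo p q (k + 1) = q := by unfold oo; rw [if_neg (by omega)]
        have h5 : rho σ τ (k + 1) = τ := by unfold rho; rw [if_neg (by omega)]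
        show _ = ∑ l ∈ range (oo p q (k + 1)), ee σ τ p q g₀ k (rho σ τ (k + 1) ^ l * g)
        rw [h4, h5]
      · simp
  · show ∑ m ∈ range (s + 1), (nn p q m)⁻¹ *
      (∑ k ∈ range (m + 1), if k % 2 = 0 then ee σ τ p q g₀ k g₀ else 0) ≤ _
    have hle : ∑ m ∈ range (s + 1), (nn p q m)⁻¹ *
        (∑ k ∈ range (m + 1), if k % 2 = 0 then ee σ τ p q g₀ k g₀ else 0) ≤
        ∑ m ∈ range (s + 1), (nn p q m)⁻¹ := by
      refine Finset.sum_le_sum (fun m hm => ?_)
      have hm' := Finset.mem_range.1 hm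
      have h1 : (∑ k ∈ range (m + 1), if k % 2 = 0 then ee σ τ p q g₀ k g₀ else 0) ≤ 1 := by
        rw [Finset.sum_range_succ']
        have h2 : (∑ k ∈ range m, if (k + 1) % 2 = 0 then ee σ τ p q g₀ (k + 1) g₀ else 0) = 0 := by
          refine Finset.sum_eq_zero (fun k hk => ?_)
          have hk' := Finset.mem_range.1 hk
          split_ifs with h3
          · obtain ⟨i, rfl⟩ : ∃ i, k = i + 1 := ⟨k - 1, by omega⟩
            exact ee_even F (by omega) (by omega) g₀ i (by omega) (by omega)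
          · rfl
        rw [h2, zero_add]
        simp only [Nat.zero_mod, if_true]
        rcases (zo F (by omega) (by omega) g₀ 0 (by omega) g₀).2 with h3 | h3 <;> rw [h3]
        norm_num
      calc (nn p q m)⁻¹ * _ ≤ (nn p q m)⁻¹ * 1 :=
            mul_le_mul_of_nonneg_left h1 (inv_nonneg.2 (hn m).le)
        _ = (nn p q m)⁻¹ := mul_one _
    refine le_trans hle ?_
    rw [← (tail_sum hpq s).2]
    have h3 : (0 : ℝ) ≤ (if s % 2 = 0 then (if p = 3 then 3 / 5 else 4 / 5)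
        else (if p = 3 then 4 / 5 else 3 / 5)) * (nn p q s)⁻¹ := by
      refine mul_nonneg ?_ (inv_nonneg.2 (hn s).le)
      split_ifs <;> norm_num
    linarith
  · have h1 : ∀ g, (if (s + 1) % 2 = 0 then (nn p q s)⁻¹ * ee σ τ p q g₀ (s + 1) g else 0) ^ 2 +
        (if (s + 1) % 2 = 0 then 0 else (nn p q s)⁻¹ * ee σ τ p q g₀ (s + 1) g) ^ 2 =
        ((nn p q s)⁻¹) ^ 2 * ee σ τ p q g₀ (s + 1) g := by
      intro g
      have h2 : ee σ τ p q g₀ (s + 1) g ^ 2 = ee σ τ p q g₀ (s + 1) g := by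
        rcases (zo F (by omega) (by omega) g₀ (s + 1) (by omega) g).2 with h3 | h3 <;> rw [h3] <;>
          norm_num
      split_ifs
      · rw [mul_pow, h2]; ring
      · rw [mul_pow, h2]; ring
    rw [← Finset.sum_add_distrib]
    rw [Finset.sum_congr rfl (fun g _ => h1 g), ← Finset.mul_sum, sum_ee]
    have hpos := hn s
    have h2 : ((nn p q s)⁻¹) ^ 2 * ((oo p q (s + 1) : ℝ) * nn p q s) =
        (oo p q (s + 1) : ℝ) / nn p q s := by
      field_simp
    rw [h2]
    have h3 : (oo p q (s + 1) : ℝ) ≤ 4 := by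
      have : oo p q (s + 1) ≤ 4 := by
        unfold oo
        split_ifs <;> omega
      exact_mod_cast this
    exact div_le_div₀ (by norm_num) h3 (by positivity) (tail_sum hpq s).1

end MPd2470a
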