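import Pool.Agent.Lib.MP_d2470a_co.BlkPerm
import Pool.Agent.Lib.MP_d2470a_co.BlkPoinc
import Pool.Agent.Lib.MP_d2470a_co.BlkGreen
import Pool.Agent.Lib.MP_d2470a_co.BlkSph

/-!
# BlkMain: a good block

Choose `D` with `24 / (7 (D + 1)) ≤ ε`, `C = 100 (D+1)² 216^D`, `r ≥ 1` with `C √(4/2^r) ≤ ε`,
`R = max (r + 2) D`; `Γ, a, b` from `blk_perm`, `S` from `sep` with `Z = gens a b ^ D`, so
`|S| (D+1) ≤ |Γ|`.
Vertices: `V = A ⊕ B`, `A = Γ / ~`, `g ~ g'` iff `g' = a^j g` for some `j`, classes of exactly 3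
elements (`inj1` for `[1], [2]`: `a, a² ≠ 1`); `B` the same with `b`, classes of 4 elements.
`m X Y = #{g : [g]_a = X, [g]_b = Y}` between `A` and `B`, zero inside `A` and inside `B`;
`h X = #{s ∈ S : [s]_a = X}` on `A`, zero on `B`.
* `|V| = |Γ|/3 + |Γ|/4 = 7|Γ|/12`; `∑∑ m = 2 |Γ|`, `∑ h = |S|`: `twoE = 2 |Γ| + 2 |S| ≤ (24/7 + ε) |V|`.
* sums over edges: `∑_Y m X Y φ Y = ∑_{g ∈ X} φ [g]_b`, etc.
* Poincaré: for `u` on `V` put `u_A g = u [g]_a`, `u_B g = u [g]_b`; `∑_V u² ≤ ∑_g u_A² + ∑_g u_B²`, and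
  `poinc` gives `hP` of `blk_green` (`∑_S u_A² = ∑ h u²`,
  `∑_g (u_A - u_B)² = (1/2) ∑∑ m (u x - u y)²`).
* For `x = [g₀]_a` use `sphere` with `σ = a, p = 3`; for `x = [g₀]_b` with `F.swap`, `σ = b, p = 4`. The
  invariant functions on `Γ` are functions on `V`; `p z = h z * u z ≥ 0`. `∑_V f² ≤ 4/2^r`. So
  `ψ x x ≤ 8/15 + ε` on `A`, `≤ 9/20 + ε` on `B`, and
  `∑ ψ x x ≤ (|Γ|/3)(8/15) + (|Γ|/4)(9/20) + ε |V| = (209/420 + ε) |V|`.
-/

set_option autoImplicit false

namespace MPd2470a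

open scoped Pointwise

/-- the quotient of a group by the left multiplications with the powers of `σ` -/
private theorem coset_type {Γ : Type} [Group Γ] [Finite Γ] (σ : Γ) (p : ℕ) (hp : 0 < p)
    (h1 : σ ^ p = 1) : ∃ (A : Type) (_ : Fintype A) (_ : DecidableEq A) (π : Γ → A),
      Function.Surjective π ∧ ∀ g g', π g' = π g ↔ ∃ j < p, g' = σ ^ j * g := by
  let s : Setoid Γ :=
    { r := fun g' g => ∃ n : ℕ, g' = σ ^ n * g
      iseqv :=
        { refl := fun g => ⟨0, by simp⟩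
          symm := by
            rintro g' g ⟨n, rfl⟩
            refine ⟨(p - 1) * n, ?_⟩
            rw [← mul_assoc, ← pow_add]
            have : (p - 1) * n + n = p * n := by
              obtain ⟨q, rfl⟩ : ∃ q, p = q + 1 := ⟨p - 1, by omega⟩
              simp only [Nat.add_sub_cancel]
              ring
            rw [this, pow_mul, h1, one_pow, one_mul]
          trans := by
            rintro g'' g' g ⟨n, rfl⟩ ⟨m, rfl⟩
            exact ⟨n + m, by rw [pow_add, mul_assoc]⟩ } }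
  have hfin : Finite (Quotient s) := Quotient.finite s
  refine ⟨Quotient s, Fintype.ofFinite _, Classical.decEq _, Quotient.mk s, ?_, ?_⟩
  · exact Quotient.mk_surjective
  · intro g g'
    rw [Quotient.eq]
    constructor
    · rintro ⟨n, hn⟩
      refine ⟨n % p, Nat.mod_lt _ hp, ?_⟩
      rw [hn]
      congr 1
      conv_lhs => rw [← Nat.div_add_mod n p]
      rw [pow_add, pow_mul, h1, one_pow, one_mul]
    · rintro ⟨j, _, hj⟩
      exact ⟨j, hj⟩

section Coset

variable {Γ : Type} [Group Γ] [Fintype Γ] {σ : Γ} {p : ℕ} {A : Type} [Fintype A] [DecidableEq A]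
  {π : Γ → A}

private theorem fib_sum {M : Type} [AddCommMonoid M] (hd : ∀ i < p, ∀ j < p, σ ^ i = σ ^ j → i = j)
    (hπ : ∀ g g', π g' = π g ↔ ∃ j < p, g' = σ ^ j * g) (g : Γ) (F : Γ → M) :
    ∑ g' ∈ Finset.univ.filter (fun g' => π g' = π g), F g' =
      ∑ j ∈ Finset.range p, F (σ ^ j * g) := by
  classical
  have h1 : Finset.univ.filter (fun g' => π g' = π g) =
      (Finset.range p).image (fun j => σ ^ j * g) := by
    ext g'
    rw [Finset.mem_filter, Finset.mem_image]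
    constructor
    · rintro ⟨_, h⟩
      obtain ⟨j, hj, rfl⟩ := (hπ g g').1 h
      exact ⟨j, Finset.mem_range.2 hj, rfl⟩
    · rintro ⟨j, hj, rfl⟩
      exact ⟨Finset.mem_univ _, (hπ _ _).2 ⟨j, Finset.mem_range.1 hj, rfl⟩⟩
  rw [h1, Finset.sum_image]
  intro i hi j hj hij
  exact hd i (Finset.mem_range.1 hi) j (Finset.mem_range.1 hj) (mul_right_cancel hij)

/-- sum over the group of a function on the quotient -/
private theorem tot_sum (hd : ∀ i < p, ∀ j < p, σ ^ i = σ ^ j → i = j)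
    (hs : Function.Surjective π) (hπ : ∀ g g', π g' = π g ↔ ∃ j < p, g' = σ ^ j * g)
    (F : A → ℝ) : ∑ g, F (π g) = p * ∑ X, F X := by
  rw [← Finset.sum_fiberwise Finset.univ π, Finset.mul_sum]
  refine Finset.sum_congr rfl (fun X _ => ?_)
  obtain ⟨g, rfl⟩ := hs X
  rw [fib_sum hd hπ g (fun g' => F (π g'))]
  rw [Finset.sum_congr rfl (fun j hj => by
    rw [(hπ g (σ ^ j * g)).2 ⟨j, Finset.mem_range.1 hj, rfl⟩])]
  simp

private theorem inv_pow {u : Γ → ℝ} (hu : ∀ g, u (σ * g) = u g) (j : ℕ) (g : Γ) :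
    u (σ ^ j * g) = u g := by
  induction j with
  | zero => simp
  | succ k ih => rw [pow_succ', mul_assoc, hu, ih]

private theorem inv_fac (hs : Function.Surjective π)
    (hπ : ∀ g g', π g' = π g ↔ ∃ j < p, g' = σ ^ j * g) {u : Γ → ℝ} (hu : ∀ g, u (σ * g) = u g) :
    ∃ U : A → ℝ, ∀ g, U (π g) = u g := by
  choose out hout using hs
  refine ⟨fun X => u (out X), fun g => ?_⟩
  obtain ⟨j, _, hj⟩ := (hπ g (out (π g))).1 (hout _)
  show u (out (π g)) = u g
  rw [hj, inv_pow hu]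

end Coset

section Graph

variable {Γ : Type} [Fintype Γ] {A B : Type} [Fintype A] [DecidableEq A]
  [Fintype B] [DecidableEq B]

private def bm (πA : Γ → A) (πB : Γ → B) : A ⊕ B → A ⊕ B → ℕ
  | Sum.inl X, Sum.inr Y => (Finset.univ.filter (fun g => πA g = X ∧ πB g = Y)).card
  | Sum.inr Y, Sum.inl X => (Finset.univ.filter (fun g => πA g = X ∧ πB g = Y)).card
  | Sum.inl _, Sum.inl _ => 0
  | Sum.inr _, Sum.inr _ => 0

private def bh (πA : Γ → A) (S : Finset Γ) : A ⊕ B → ℕ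
  | Sum.inl X => (S.filter (fun s => πA s = X)).card
  | Sum.inr _ => 0

private theorem bm_symm (πA : Γ → A) (πB : Γ → B) (x y : A ⊕ B) :
    bm πA πB x y = bm πA πB y x := by
  rcases x with x | x <;> rcases y with y | y <;> rfl

private theorem bm_self (πA : Γ → A) (πB : Γ → B) (x : A ⊕ B) : bm πA πB x x = 0 := by
  rcases x with x | x <;> rfl

private theorem bm_cast (πA : Γ → A) (πB : Γ → B) (X : A) (Y : B) :
    (bm πA πB (Sum.inl X) (Sum.inr Y) : ℝ) =
      ∑ g, if πA g = X ∧ πB g = Y then (1 : ℝ) else 0 := by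
  rw [Finset.sum_boole]
  rfl

private theorem sumA (πA : Γ → A) (πB : Γ → B) (X : A) (F : A ⊕ B → ℝ) :
    ∑ w, (bm πA πB (Sum.inl X) w : ℝ) * F w =
      ∑ g ∈ Finset.univ.filter (fun g => πA g = X), F (Sum.inr (πB g)) := by
  rw [Fintype.sum_sum_type]
  have h1 : ∀ a : A, (bm πA πB (Sum.inl X) (Sum.inl a) : ℝ) = 0 := by
    intro a
    simp [bm]
  simp only [h1, zero_mul, Finset.sum_const_zero, zero_add]
  rw [Finset.sum_filter]
  have h2 : ∀ Y : B, (bm πA πB (Sum.inl X) (Sum.inr Y) : ℝ) * F (Sum.inr Y) =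
      ∑ g, if πA g = X then (if πB g = Y then F (Sum.inr Y) else 0) else 0 := by
    intro Y
    rw [bm_cast, Finset.sum_mul]
    refine Finset.sum_congr rfl (fun g _ => ?_)
    by_cases ha : πA g = X <;> by_cases hb : πB g = Y <;> simp [ha, hb]
  rw [Finset.sum_congr rfl (fun Y _ => h2 Y), Finset.sum_comm]
  refine Finset.sum_congr rfl (fun g _ => ?_)
  by_cases ha : πA g = X
  · simp [ha]
  · simp [ha]

private theorem sumB (πA : Γ → A) (πB : Γ → B) (Y : B) (F : A ⊕ B → ℝ) :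
    ∑ w, (bm πA πB (Sum.inr Y) w : ℝ) * F w =
      ∑ g ∈ Finset.univ.filter (fun g => πB g = Y), F (Sum.inl (πA g)) := by
  rw [Fintype.sum_sum_type]
  have h1 : ∀ b : B, (bm πA πB (Sum.inr Y) (Sum.inr b) : ℝ) = 0 := by
    intro b
    simp [bm]
  simp only [h1, zero_mul, Finset.sum_const_zero, add_zero]
  rw [Finset.sum_filter]
  have h2 : ∀ X : A, (bm πA πB (Sum.inr Y) (Sum.inl X) : ℝ) * F (Sum.inl X) =
      ∑ g, if πB g = Y then (if πA g = X then F (Sum.inl X) else 0) else 0 := by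
    intro X
    rw [bm_symm, bm_cast, Finset.sum_mul]
    refine Finset.sum_congr rfl (fun g _ => ?_)
    by_cases ha : πA g = X <;> by_cases hb : πB g = Y <;> simp [ha, hb]
  rw [Finset.sum_congr rfl (fun Y _ => h2 Y), Finset.sum_comm]
  refine Finset.sum_congr rfl (fun g _ => ?_)
  by_cases ha : πB g = Y
  · simp [ha]
  · simp [ha]

private theorem sumH (πA : Γ → A) (S : Finset Γ) (F : A ⊕ B → ℝ) :
    ∑ x, (bh (B := B) πA S x : ℝ) * F x = ∑ s ∈ S, F (Sum.inl (πA s)) := by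
  rw [Fintype.sum_sum_type]
  have h1 : ∀ b : B, (bh πA S (Sum.inr b : A ⊕ B) : ℝ) = 0 := by
    intro b
    simp [bh]
  simp only [h1, zero_mul, Finset.sum_const_zero, add_zero]
  have h2 : ∀ X : A, (bh πA S (Sum.inl X : A ⊕ B) : ℝ) * F (Sum.inl X) =
      ∑ s ∈ S, if πA s = X then F (Sum.inl X) else 0 := by
    intro X
    rw [← Finset.sum_filter, Finset.sum_const, nsmul_eq_mul]
    rfl
  rw [Finset.sum_congr rfl (fun X _ => h2 X), Finset.sum_comm]
  refine Finset.sum_congr rfl (fun s _ => ?_)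
  simp

/-- double sums over the edges -/
private theorem sumE (πA : Γ → A) (πB : Γ → B) (F : A ⊕ B → A ⊕ B → ℝ)
    (hF : ∀ x y, F x y = F y x) :
    ∑ x, ∑ y, (bm πA πB x y : ℝ) * F x y =
      2 * ∑ g, F (Sum.inl (πA g)) (Sum.inr (πB g)) := by
  rw [Fintype.sum_sum_type]
  have h1 : ∀ X : A, ∑ y, (bm πA πB (Sum.inl X) y : ℝ) * F (Sum.inl X) y =
      ∑ g ∈ Finset.univ.filter (fun g => πA g = X), F (Sum.inl (πA g)) (Sum.inr (πB g)) := by
    intro X
    rw [sumA πA πB X (F (Sum.inl X))]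
    refine Finset.sum_congr rfl (fun g hg => ?_)
    rw [(Finset.mem_filter.1 hg).2]
  have h2 : ∀ Y : B, ∑ y, (bm πA πB (Sum.inr Y) y : ℝ) * F (Sum.inr Y) y =
      ∑ g ∈ Finset.univ.filter (fun g => πB g = Y), F (Sum.inl (πA g)) (Sum.inr (πB g)) := by
    intro Y
    rw [sumB πA πB Y (F (Sum.inr Y))]
    refine Finset.sum_congr rfl (fun g hg => ?_)
    rw [(Finset.mem_filter.1 hg).2, hF]
  rw [Finset.sum_congr rfl (fun X _ => h1 X), Finset.sum_congr rfl (fun Y _ => h2 Y),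
    Finset.sum_fiberwise, Finset.sum_fiberwise]
  ring

end Graph

theorem exists_block (ε : ℝ) (hε : 0 < ε) : ∃ (V : Type) (_ : Fintype V) (_ : DecidableEq V)
    (B : Block V), 0 < Fintype.card V ∧ (B.twoE : ℝ) ≤ (24 / 7 + ε) * Fintype.card V ∧
      ∑ x, B.ψ x x ≤ (209 / 420 + ε) * Fintype.card V := by
  classical
  obtain ⟨D, hD⟩ := exists_nat_gt (24 / (7 * ε))
  obtain ⟨C, hCdef⟩ : ∃ C : ℝ, C = 100 * ((D : ℝ) + 1) ^ 2 * 216 ^ D := ⟨_, rfl⟩
  have hC : 0 < C := by
    rw [hCdef]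
    positivity
  obtain ⟨r, hr1, hr2⟩ : ∃ r : ℕ, 1 ≤ r ∧ C * √(4 / 2 ^ r) ≤ ε := by
    obtain ⟨r, hr⟩ := pow_unbounded_of_one_lt (4 * C ^ 2 / ε ^ 2) (one_lt_two (α := ℝ))
    refine ⟨r + 1, by omega, ?_⟩
    have h1 : (4 : ℝ) / 2 ^ (r + 1) ≤ (ε / C) ^ 2 := by
      rw [div_pow, div_le_div_iff₀ (by positivity) (by positivity)]
      rw [div_lt_iff₀ (by positivity)] at hr
      have h2 : (2 : ℝ) ^ r ≤ 2 ^ (r + 1) := pow_le_pow_right₀ (by norm_num) (by omega)
      nlinarith [sq_nonneg ε]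
    have h2 : √((4 : ℝ) / 2 ^ (r + 1)) ≤ ε / C := by
      rw [← Real.sqrt_sq (by positivity : 0 ≤ ε / C)]
      exact Real.sqrt_le_sqrt h1
    calc C * √(4 / 2 ^ (r + 1)) ≤ C * (ε / C) := mul_le_mul_of_nonneg_left h2 hC.le
      _ = ε := by field_simp
  obtain ⟨Γ, iG, iF, a, b, F⟩ := blk_perm (max (r + 2) D)
  have : Fintype Γ := Fintype.ofFinite Γ
  have hRr : r + 2 ≤ max (r + 2) D := le_max_left _ _
  have hRD : D ≤ max (r + 2) D := le_max_right _ _
  obtain ⟨S, hS1, hS2⟩ := sep (gens a b ^ D) (by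
    have h1 := ball_card F hRD
    rw [← Finset.card_pos]
    omega)
  have hS3 : S.card * (D + 1) ≤ Fintype.card Γ :=
    (Nat.mul_le_mul_left _ (ball_card F hRD)).trans hS1
  -- powers of the generators
  have hlen : 1 ≤ max (r + 2) D := by omega
  have hok : ∀ (p q i : ℕ), 1 ≤ i → i < p → ok p q [i] := fun p q i h1 h2 => ⟨⟨h1, h2⟩, trivial⟩
  have hda : ∀ i < 3, ∀ j < 3, a ^ i = a ^ j → i = j := by
    intro i hi j hj hij
    rcases Nat.eq_zero_or_pos i with hi0 | hi0 <;> rcases Nat.eq_zero_or_pos j with hj0 | hj0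
    · rw [hi0, hj0]
    · exfalso
      have := F.inj1 [] [j] trivial (hok 3 4 j hj0 hj) (Nat.zero_le _) hlen (by
        simp only [ev]
        rw [hi0] at hij
        rw [← hij]
        simp)
      simp at this
    · exfalso
      have := F.inj1 [i] [] (hok 3 4 i hi0 hi) trivial hlen (Nat.zero_le _) (by
        simp only [ev]
        rw [hj0] at hij
        rw [hij]
        simp)
      simp at this
    · have := F.inj1 [i] [j] (hok 3 4 i hi0 hi) (hok 3 4 j hj0 hj) hlen hlen (by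
        simp only [ev]
        rw [hij])
      simpa using this
  have hdb : ∀ i < 4, ∀ j < 4, b ^ i = b ^ j → i = j := by
    intro i hi j hj hij
    rcases Nat.eq_zero_or_pos i with hi0 | hi0 <;> rcases Nat.eq_zero_or_pos j with hj0 | hj0
    · rw [hi0, hj0]
    · exfalso
      have := F.inj2 [] [j] trivial (hok 4 3 j hj0 hj) (Nat.zero_le _) hlen (by
        simp only [ev]
        rw [hi0] at hij
        rw [← hij]
        simp)
      simp at this
    · exfalso
      have := F.inj2 [i] [] (hok 4 3 i hi0 hi) trivial hlen (Nat.zero_le _) (by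
        simp only [ev]
        rw [hj0] at hij
        rw [hij]
        simp)
      simp at this
    · have := F.inj2 [i] [j] (hok 4 3 i hi0 hi) (hok 4 3 j hj0 hj) hlen hlen (by
        simp only [ev]
        rw [hij])
      simpa using this
  obtain ⟨A, fA, dA, πA, sA, eA⟩ := coset_type a 3 (by norm_num) F.pow1
  obtain ⟨B, fB, dB, πB, sB, eB⟩ := coset_type b 4 (by norm_num) F.pow2
  have iA : ∀ g, πA (a * g) = πA g := fun g => (eA _ _).2 ⟨1, by norm_num, by rw [pow_one]⟩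
  have iB : ∀ g, πB (b * g) = πB g := fun g => (eB _ _).2 ⟨1, by norm_num, by rw [pow_one]⟩
  have tA : ∀ G : A → ℝ, ∑ g, G (πA g) = ((3 : ℕ) : ℝ) * ∑ X, G X := tot_sum hda sA eA
  have tB : ∀ G : B → ℝ, ∑ g, G (πB g) = ((4 : ℕ) : ℝ) * ∑ X, G X := tot_sum hdb sB eB
  have cA : (Fintype.card Γ : ℝ) = 3 * Fintype.card A := by
    have := tA (fun _ => 1)
    simpa using this
  have cB : (Fintype.card Γ : ℝ) = 4 * Fintype.card B := by
    have := tB (fun _ => 1)
    simpa using this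
  have cV : (Fintype.card (A ⊕ B) : ℝ) = Fintype.card A + Fintype.card B := by
    rw [Fintype.card_sum, Nat.cast_add]
  have cΓ : 0 < Fintype.card Γ := Fintype.card_pos
  -- Poincare inequality
  have hP : ∀ u : A ⊕ B → ℝ, ∑ x, u x ^ 2 ≤ C * (∑ x, (bh (B := B) πA S x : ℝ) * u x ^ 2 +
      (1 / 2) * ∑ x, ∑ y, (bm πA πB x y : ℝ) * (u x - u y) ^ 2) := by
    intro u
    have h1 := poinc D S hS2 (fun g => u (Sum.inl (πA g))) (fun g => u (Sum.inr (πB g)))
      (fun g => by simp only [iA]) (fun g => by simp only [iB])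
    rw [← hCdef] at h1
    rw [sumH πA S (fun x => u x ^ 2), sumE πA πB (fun x y => (u x - u y) ^ 2)
      (fun x y => by ring)]
    rw [Fintype.sum_sum_type]
    have h2 := tA (fun X => u (Sum.inl X) ^ 2)
    have h3 := tB (fun X => u (Sum.inr X) ^ 2)
    have h4 : 0 ≤ ∑ X, u (Sum.inl X : A ⊕ B) ^ 2 := Finset.sum_nonneg (fun _ _ => sq_nonneg _)
    have h5 : 0 ≤ ∑ X, u (Sum.inr X : A ⊕ B) ^ 2 := Finset.sum_nonneg (fun _ _ => sq_nonneg _)
    simp only at h1 h2 h3
    rw [h2, h3] at h1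
    push_cast at h1
    have h6 : C * (∑ s ∈ S, u (Sum.inl (πA s)) ^ 2 +
        1 / 2 * (2 * ∑ g, (u (Sum.inl (πA g)) - u (Sum.inr (πB g))) ^ 2)) =
        C * (∑ g, (u (Sum.inl (πA g)) - u (Sum.inr (πB g))) ^ 2 +
          ∑ s ∈ S, u (Sum.inl (πA s)) ^ 2) := by ring
    rw [h6]
    linarith
  obtain ⟨ψ, hψ1, hψ2, hψ3⟩ := blk_green (bm πA πB) (bh (B := B) πA S) (bm_symm πA πB) hC.le hP
  -- the vertices in `A`
  have hA : ∀ X : A, ψ (Sum.inl X) (Sum.inl X) ≤ 8 / 15 + ε := by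
    intro X
    obtain ⟨g₀, rfl⟩ := sA X
    obtain ⟨u, u', f, f', hu, hu', hf, hf', hu0, hu0', e1, e2, hval, hff⟩ :=
      sphere (Or.inl ⟨rfl, rfl⟩) F hr1 hRr g₀
    obtain ⟨U, hU⟩ := inv_fac sA eA hu
    obtain ⟨U', hU'⟩ := inv_fac sB eB hu'
    obtain ⟨f₁, hf₁⟩ := inv_fac sA eA hf
    obtain ⟨f₁', hf₁'⟩ := inv_fac sB eB hf'
    have hUn : ∀ z : A ⊕ B, 0 ≤ Sum.elim U U' z := by
      intro z
      rcases z with z | z
      · obtain ⟨g, rfl⟩ := sA z
        simp only [Sum.elim_inl, hU]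
        exact hu0 g
      · obtain ⟨g, rfl⟩ := sB z
        simp only [Sum.elim_inr, hU']
        exact hu0' g
    have h1 := hψ3 (Sum.inl (πA g₀)) (Sum.elim U U') (Sum.elim f₁ f₁')
      (fun z => (bh (B := B) πA S z : ℝ) * Sum.elim U U' z)
      (fun z => mul_nonneg (Nat.cast_nonneg _) (hUn z)) (by
        intro z
        rcases z with z | z
        · obtain ⟨g, rfl⟩ := sA z
          rw [sumA πA πB (πA g) (fun w => Sum.elim U U' (Sum.inl (πA g)) - Sum.elim U U' w)]
          rw [fib_sum hda eA g (fun g' => Sum.elim U U' (Sum.inl (πA g)) -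
            Sum.elim U U' (Sum.inr (πB g')))]
          simp only [Sum.elim_inl, Sum.elim_inr, hU, hU', hf₁]
          rw [Finset.sum_sub_distrib, Finset.sum_const, Finset.card_range, nsmul_eq_mul]
          have h2 := e1 g
          have h3 : ((Sum.inl (πA g) : A ⊕ B) = Sum.inl (πA g₀)) ↔ ∃ j < 3, g = a ^ j * g₀ := by
            rw [Sum.inl.injEq]
            exact eA g₀ g
          simp only [h3]
          linarith
        · obtain ⟨g, rfl⟩ := sB z
          rw [sumB πA πB (πB g) (fun w => Sum.elim U U' (Sum.inr (πB g)) - Sum.elim U U' w)]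
          rw [fib_sum hdb eB g (fun g' => Sum.elim U U' (Sum.inr (πB g)) -
            Sum.elim U U' (Sum.inl (πA g')))]
          simp only [Sum.elim_inl, Sum.elim_inr, hU, hU', hf₁']
          rw [Finset.sum_sub_distrib, Finset.sum_const, Finset.card_range, nsmul_eq_mul]
          have h2 := e2 g
          simp only [reduceCtorEq, if_false, zero_sub]
          linarith)
    have h2 : ∑ z, Sum.elim f₁ f₁' z ^ 2 ≤ 4 / 2 ^ r := by
      rw [Fintype.sum_sum_type]
      simp only [Sum.elim_inl, Sum.elim_inr]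
      have h3 := tA (fun X => f₁ X ^ 2)
      have h4 := tB (fun X => f₁' X ^ 2)
      simp only [hf₁, hf₁'] at h3 h4
      have h5 : 0 ≤ ∑ X, f₁ X ^ 2 := Finset.sum_nonneg (fun _ _ => sq_nonneg _)
      have h6 : 0 ≤ ∑ X, f₁' X ^ 2 := Finset.sum_nonneg (fun _ _ => sq_nonneg _)
      push_cast at h3 h4
      linarith
    have h3 : C * √(∑ z, Sum.elim f₁ f₁' z ^ 2) ≤ C * √(4 / 2 ^ r) :=
      mul_le_mul_of_nonneg_left (Real.sqrt_le_sqrt h2) hC.le
    simp only [Sum.elim_inl, hU] at h1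
    rw [if_pos rfl] at hval
    linarith
  -- the vertices in `B`
  have hB : ∀ X : B, ψ (Sum.inr X) (Sum.inr X) ≤ 9 / 20 + ε := by
    intro X
    obtain ⟨g₀, rfl⟩ := sB X
    obtain ⟨u, u', f, f', hu, hu', hf, hf', hu0, hu0', e1, e2, hval, hff⟩ :=
      sphere (Or.inr ⟨rfl, rfl⟩) F.swap hr1 hRr g₀
    obtain ⟨U, hU⟩ := inv_fac sB eB hu
    obtain ⟨U', hU'⟩ := inv_fac sA eA hu'
    obtain ⟨f₁, hf₁⟩ := inv_fac sB eB hf
    obtain ⟨f₁', hf₁'⟩ := inv_fac sA eA hf'
    have hUn : ∀ z : A ⊕ B, 0 ≤ Sum.elim U' U z := by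
      intro z
      rcases z with z | z
      · obtain ⟨g, rfl⟩ := sA z
        simp only [Sum.elim_inl, hU']
        exact hu0' g
      · obtain ⟨g, rfl⟩ := sB z
        simp only [Sum.elim_inr, hU]
        exact hu0 g
    have h1 := hψ3 (Sum.inr (πB g₀)) (Sum.elim U' U) (Sum.elim f₁' f₁)
      (fun z => (bh (B := B) πA S z : ℝ) * Sum.elim U' U z)
      (fun z => mul_nonneg (Nat.cast_nonneg _) (hUn z)) (by
        intro z
        rcases z with z | z
        · obtain ⟨g, rfl⟩ := sA z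
          rw [sumA πA πB (πA g) (fun w => Sum.elim U' U (Sum.inl (πA g)) - Sum.elim U' U w)]
          rw [fib_sum hda eA g (fun g' => Sum.elim U' U (Sum.inl (πA g)) -
            Sum.elim U' U (Sum.inr (πB g')))]
          simp only [Sum.elim_inl, Sum.elim_inr, hU, hU', hf₁']
          rw [Finset.sum_sub_distrib, Finset.sum_const, Finset.card_range, nsmul_eq_mul]
          have h2 := e2 g
          simp only [reduceCtorEq, if_false, zero_sub]
          linarith
        · obtain ⟨g, rfl⟩ := sB z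
          rw [sumB πA πB (πB g) (fun w => Sum.elim U' U (Sum.inr (πB g)) - Sum.elim U' U w)]
          rw [fib_sum hdb eB g (fun g' => Sum.elim U' U (Sum.inr (πB g)) -
            Sum.elim U' U (Sum.inl (πA g')))]
          simp only [Sum.elim_inl, Sum.elim_inr, hU, hU', hf₁]
          rw [Finset.sum_sub_distrib, Finset.sum_const, Finset.card_range, nsmul_eq_mul]
          have h2 := e1 g
          have h3 : ((Sum.inr (πB g) : A ⊕ B) = Sum.inr (πB g₀)) ↔ ∃ j < 4, g = b ^ j * g₀ := by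
            rw [Sum.inr.injEq]
            exact eB g₀ g
          simp only [h3]
          linarith)
    have h2 : ∑ z, Sum.elim f₁' f₁ z ^ 2 ≤ 4 / 2 ^ r := by
      rw [Fintype.sum_sum_type]
      simp only [Sum.elim_inl, Sum.elim_inr]
      have h3 := tB (fun X => f₁ X ^ 2)
      have h4 := tA (fun X => f₁' X ^ 2)
      simp only [hf₁, hf₁'] at h3 h4
      have h5 : 0 ≤ ∑ X, f₁ X ^ 2 := Finset.sum_nonneg (fun _ _ => sq_nonneg _)
      have h6 : 0 ≤ ∑ X, f₁' X ^ 2 := Finset.sum_nonneg (fun _ _ => sq_nonneg _)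
      push_cast at h3 h4
      linarith
    have h3 : C * √(∑ z, Sum.elim f₁' f₁ z ^ 2) ≤ C * √(4 / 2 ^ r) :=
      mul_le_mul_of_nonneg_left (Real.sqrt_le_sqrt h2) hC.le
    simp only [Sum.elim_inr, hU] at h1
    rw [if_neg (by norm_num)] at hval
    linarith
  refine ⟨A ⊕ B, inferInstance, inferInstance,
    { m := bm πA πB
      h := bh πA S
      ψ := ψ
      symm := bm_symm πA πB
      loopless := bm_self πA πB
      nonneg := hψ1
      pot := hψ2 }, ?_, ?_, ?_⟩
  · have h1 : (0 : ℝ) < Fintype.card (A ⊕ B) := by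
      rw [cV]
      have : (0 : ℝ) < Fintype.card Γ := by exact_mod_cast cΓ
      linarith
    exact_mod_cast h1
  · have h1 : (Block.twoE ({ m := bm πA πB, h := bh πA S, ψ := ψ, symm := bm_symm πA πB, loopless := bm_self πA πB, nonneg := hψ1, pot := hψ2 } : Block (A ⊕ B)) : ℝ) =
        (∑ x, ∑ y, (bm πA πB x y : ℝ)) + 2 * ∑ x, (bh (B := B) πA S x : ℝ) := by
      unfold Block.twoE
      push_cast
      rfl
    rw [h1]
    have h2 := sumE πA πB (fun _ _ => 1) (fun _ _ => rfl)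
    have h3 := sumH (B := B) πA S (fun _ => 1)
    simp only [mul_one, Finset.sum_const, Finset.card_univ, nsmul_eq_mul] at h2 h3
    rw [h2, h3, cV]
    have h4 : (S.card : ℝ) * (D + 1) ≤ Fintype.card Γ := by exact_mod_cast hS3
    have h5 : 24 < 7 * ε * D := by
      rw [div_lt_iff₀ (by positivity)] at hD
      linarith
    have h6 : (0 : ℝ) ≤ S.card := Nat.cast_nonneg _
    have h7 : (0 : ℝ) < (D : ℝ) + 1 := by positivity
    have h8 : (S.card : ℝ) * 24 ≤ 7 * ε * Fintype.card Γ := by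
      have h9 : (S.card : ℝ) * 24 ≤ S.card * (7 * ε * (D + 1)) := by
        refine mul_le_mul_of_nonneg_left ?_ h6
        nlinarith
      have h10 : 7 * ε * ((S.card : ℝ) * (D + 1)) ≤ 7 * ε * Fintype.card Γ :=
        mul_le_mul_of_nonneg_left h4 (by positivity)
      linarith
    have h11 : (Fintype.card A : ℝ) + Fintype.card B = 7 / 12 * Fintype.card Γ := by linarith
    rw [h11]
    linarith
  · rw [Fintype.sum_sum_type, cV]
    have h1 : ∑ X : A, ψ (Sum.inl X) (Sum.inl X) ≤ Fintype.card A * (8 / 15 + ε) := by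
      have := Finset.sum_le_sum (s := Finset.univ) (fun X _ => hA X)
      rw [Finset.sum_const, Finset.card_univ, nsmul_eq_mul] at this
      exact this
    have h2 : ∑ X : B, ψ (Sum.inr X) (Sum.inr X) ≤ Fintype.card B * (9 / 20 + ε) := by
      have := Finset.sum_le_sum (s := Finset.univ) (fun X _ => hB X)
      rw [Finset.sum_const, Finset.card_univ, nsmul_eq_mul] at this
      exact this
    show ∑ X : A, ψ (Sum.inl X) (Sum.inl X) + ∑ X : B, ψ (Sum.inr X) (Sum.inr X) ≤ _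
    have h3 : (4 : ℝ) * Fintype.card B = 3 * Fintype.card A := by linarith
    nlinarith

end MPd2470a
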