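import Pool.Agent.Lib.MP_d2470a_co.BlkDefs

/-!
# BlkPerm: finite groups in which short reduced words are distinct

`Y = {l : List (Fin 6) // l.length ≤ R}` (finite: `List.finite_length_le`), `Γ = Equiv.Perm Y`. Letters
`1, 2` stand for `a, a²` and `3, 4, 5` for `b, b², b³`. Call a list of class A if its first entry is
`1` or `2`, of class B if its first entry is `3, 4` or `5`.
`a` acts on `w` as follows. If `w = 1 :: v` with `v` not of class A: `w ↦ 2 :: v`. If `w = 2 :: v` with
`v` not of class A: `w ↦ v`. If `w` is not of class A and `w.length < R`: `w ↦ 1 :: w`. Otherwise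
`w ↦ w`. This is a permutation with `a³ = 1` (orbits `{w, 1 :: w, 2 :: w}` with `w` not of class A,
`w.length < R`, and fixed points). In the same way `b` with the orbits
`{w, 3 :: w, 4 :: w, 5 :: w}`, `w` not of class B.
(To build the permutation: define the function `f`, prove `f (f (f w)) = w` by cases, take
`Equiv.mk f (f ∘ f)`.)
Coding: `encA : List ℕ → List (Fin 6)`, `encA (i :: w) = i :: encB w`,
`encB (i :: w) = (i + 2) :: encA w`. By induction on `w`: if `ok 3 4 w` and `w.length ≤ R` then
`ev a b w` sends the empty list to `encA w`, and if `ok 4 3 w` then `ev b a w` sends it to `encB w`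
(`encB w` is empty or of class B, so `a ^ i` with `i ∈ {1, 2}` puts the letter `i` in front). The
codings are injective on reduced words, and `encA w = encB w'` only if both are empty.
-/

set_option autoImplicit false

namespace MPd2470a

private def nh (c : Bool) : List (Bool × Fin 3) → Bool
  | [] => true
  | x :: _ => x.1 != c

private def act (c : Bool) (m R : ℕ) (w : List (Bool × Fin 3)) : List (Bool × Fin 3) :=
  if nh c w then (if w.length < R then (c, 0) :: w else w)
  else match w with
    | [] => []
    | x :: v => if nh c v ∧ (x.2 : ℕ) < m then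
        (if (x.2 : ℕ) + 1 < m then (c, x.2 + 1) :: v else v) else x :: v

private theorem act_len (c : Bool) (m R : ℕ) (w : List (Bool × Fin 3)) (h : w.length ≤ R) :
    (act c m R w).length ≤ R := by
  unfold act
  split_ifs with h1 h2
  · simpa using h2
  · exact h
  · cases w with
    | nil => simp
    | cons x v =>
      simp only [List.length_cons] at h
      dsimp only
      split_ifs <;> (try simp only [List.length_cons]) <;> omega

private theorem act_new (c : Bool) (m R : ℕ) (w : List (Bool × Fin 3)) (h : nh c w = true)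
    (hl : w.length < R) : act c m R w = (c, 0) :: w := by
  unfold act
  simp [h, hl]

private theorem act_nxt (c : Bool) (m R : ℕ) (i : Fin 3) (w : List (Bool × Fin 3))
    (h : nh c w = true) (hi : (i : ℕ) + 1 < m) : act c m R ((c, i) :: w) = (c, i + 1) :: w := by
  unfold act
  have : nh c ((c, i) :: w) = false := by simp [nh]
  simp [this, h, hi, show (i : ℕ) < m by omega]

private theorem act_lst (c : Bool) (m R : ℕ) (i : Fin 3) (w : List (Bool × Fin 3))
    (h : nh c w = true) (hi : (i : ℕ) + 1 = m) : act c m R ((c, i) :: w) = w := by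
  unfold act
  have : nh c ((c, i) :: w) = false := by simp [nh]
  simp [this, h, hi, show (i : ℕ) < m by omega]

private theorem act_fix1 (c : Bool) (m R : ℕ) (w : List (Bool × Fin 3)) (h : nh c w = true)
    (hl : ¬ w.length < R) : act c m R w = w := by
  unfold act
  simp [h, hl]

private theorem act_fix2 (c : Bool) (m R : ℕ) (i : Fin 3) (w : List (Bool × Fin 3))
    (h : ¬ (nh c w = true ∧ (i : ℕ) < m)) : act c m R ((c, i) :: w) = (c, i) :: w := by
  unfold act
  have : nh c ((c, i) :: w) = false := by simp [nh]
  simp only [this]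
  simp [h]

private theorem act_cases (c : Bool) (m R : ℕ) (w : List (Bool × Fin 3)) (hR : w.length ≤ R) :
    act c m R w = w ∨ (∃ v, nh c v = true ∧ v.length < R ∧
      (w = v ∨ ∃ i : Fin 3, (i : ℕ) < m ∧ w = (c, i) :: v)) := by
  by_cases h : nh c w = true
  · by_cases hl : w.length < R
    · exact Or.inr ⟨w, h, hl, Or.inl rfl⟩
    · exact Or.inl (act_fix1 c m R w h hl)
  · cases w with
    | nil => simp [nh] at h
    | cons x v =>
      obtain ⟨c', i⟩ := x
      have hc : c' = c := by simpa [nh] using h
      subst hc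
      by_cases h2 : nh c' v = true ∧ (i : ℕ) < m
      · exact Or.inr ⟨v, h2.1, by simpa using hR, Or.inr ⟨i, h2.2, rfl⟩⟩
      · exact Or.inl (act_fix2 c' m R i v h2)

private theorem act2 (c : Bool) (R : ℕ) (w : List (Bool × Fin 3)) (hR : w.length ≤ R) :
    act c 2 R (act c 2 R (act c 2 R w)) = w := by
  rcases act_cases c 2 R w hR with h | ⟨v, hv, hl, h⟩
  · rw [h, h, h]
  · have e1 := act_new c 2 R v hv hl
    have e2 := act_nxt c 2 R 0 v hv (by simp)
    have e3 := act_lst c 2 R 1 v hv (by simp)
    have e4 : (0 : Fin 3) + 1 = 1 := rfl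
    rw [e4] at e2
    rcases h with rfl | ⟨i, hi, rfl⟩
    · rw [e1, e2, e3]
    · have : i = 0 ∨ i = 1 := by
        rcases i with ⟨i, hi3⟩
        simp only at hi
        interval_cases i
        · exact Or.inl rfl
        · exact Or.inr rfl
      rcases this with rfl | rfl
      · rw [e2, e3, e1]
      · rw [e3, e1, e2]

private theorem act3 (c : Bool) (R : ℕ) (w : List (Bool × Fin 3)) (hR : w.length ≤ R) :
    act c 3 R (act c 3 R (act c 3 R (act c 3 R w))) = w := by
  rcases act_cases c 3 R w hR with h | ⟨v, hv, hl, h⟩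
  · rw [h, h, h, h]
  · have e1 := act_new c 3 R v hv hl
    have e2 := act_nxt c 3 R 0 v hv (by simp)
    have e3 := act_nxt c 3 R 1 v hv (by simp)
    have e5 := act_lst c 3 R 2 v hv (by simp)
    have e4 : (0 : Fin 3) + 1 = 1 := rfl
    have e6 : (1 : Fin 3) + 1 = 2 := rfl
    rw [e4] at e2
    rw [e6] at e3
    rcases h with rfl | ⟨i, hi, rfl⟩
    · rw [e1, e2, e3, e5]
    · have : i = 0 ∨ i = 1 ∨ i = 2 := by
        rcases i with ⟨i, hi3⟩
        simp only at hi
        interval_cases i
        · exact Or.inl rfl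
        · exact Or.inr (Or.inl rfl)
        · exact Or.inr (Or.inr rfl)
      rcases this with rfl | rfl | rfl
      · rw [e2, e3, e5, e1]
      · rw [e3, e5, e1, e2]
      · rw [e5, e1, e2, e3]

private def enc : Bool → List ℕ → List (Bool × Fin 3)
  | _, [] => []
  | c, i :: w => (c, Fin.ofNat 3 (i - 1)) :: enc (!c) w

private theorem enc_len (c : Bool) (w : List ℕ) : (enc c w).length = w.length := by
  induction w generalizing c with
  | nil => rfl
  | cons i w ih => simp [enc, ih]

private theorem enc_nh (c : Bool) (w : List ℕ) : nh c (enc (!c) w) = true := by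
  cases w with
  | nil => rfl
  | cons i w => simp [enc, nh]

private theorem enc_inj (c : Bool) (p q : ℕ) (hp : p ≤ 4) (hq : q ≤ 4) (w w' : List ℕ)
    (h : ok p q w) (h' : ok p q w') (e : enc c w = enc c w') : w = w' := by
  induction w generalizing c p q w' with
  | nil =>
    cases w' with
    | nil => rfl
    | cons i w => simp [enc] at e
  | cons i w ih =>
    cases w' with
    | nil => simp [enc] at e
    | cons i' w' =>
      simp only [enc, List.cons.injEq, Prod.mk.injEq, true_and] at e
      obtain ⟨⟨h1, h2⟩, h3⟩ := h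
      obtain ⟨⟨h1', h2'⟩, h3'⟩ := h'
      have hi : i = i' := by
        have := congrArg Fin.val e.1
        simp only [Fin.ofNat] at this
        rw [Nat.mod_eq_of_lt (by omega), Nat.mod_eq_of_lt (by omega)] at this
        omega
      rw [hi, ih (!c) q p hq hp w' h3 h3' e.2]

private theorem enc_ne (w w' : List ℕ) (e : enc false w = enc true w') : w = [] ∧ w' = [] := by
  cases w with
  | nil =>
    cases w' with
    | nil => exact ⟨rfl, rfl⟩
    | cons i w => simp [enc] at e
  | cons i w =>
    cases w' with
    | nil => simp [enc] at e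
    | cons i' w' => simp [enc] at e

theorem blk_perm (R : ℕ) : ∃ (Γ : Type) (_ : Group Γ) (_ : Finite Γ) (a b : Γ),
    FreeP a b 3 4 R := by
  classical
  let Y := {l : List (Bool × Fin 3) // l.length ≤ R}
  have : Finite Y := (List.finite_length_le (Bool × Fin 3) R).to_subtype
  let fa : Y → Y := fun w => ⟨act false 2 R w.1, act_len _ _ _ _ w.2⟩
  let fb : Y → Y := fun w => ⟨act true 3 R w.1, act_len _ _ _ _ w.2⟩
  have ha : ∀ w, fa (fa (fa w)) = w := fun w => Subtype.ext (act2 false R w.1 w.2)
  have hb : ∀ w, fb (fb (fb (fb w))) = w := fun w => Subtype.ext (act3 true R w.1 w.2)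
  let a : Equiv.Perm Y := ⟨fa, fun w => fa (fa w), ha, ha⟩
  let b : Equiv.Perm Y := ⟨fb, fun w => fb (fb (fb w)), hb, hb⟩
  have haa : ∀ w, a w = fa w := fun w => rfl
  have hbb : ∀ w, b w = fb w := fun w => rfl
  let e : Y := ⟨[], Nat.zero_le R⟩
  have hnew1 : ∀ (w : Y) (i : ℕ), 1 ≤ i → i < 3 → nh false w.1 = true → w.1.length < R →
      ((a ^ i) w).1 = (false, Fin.ofNat 3 (i - 1)) :: w.1 := by
    intro w i h1 h2 h3 h4
    have e1 := act_new false 2 R w.1 h3 h4
    have e2 := act_nxt false 2 R 0 w.1 h3 (by simp)
    interval_cases i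
    · rw [pow_one, haa]; exact e1
    · rw [pow_two, Equiv.Perm.mul_apply, haa, haa]
      change act false 2 R (act false 2 R w.1) = _
      rw [e1, e2]; rfl
  have hnew2 : ∀ (w : Y) (i : ℕ), 1 ≤ i → i < 4 → nh true w.1 = true → w.1.length < R →
      ((b ^ i) w).1 = (true, Fin.ofNat 3 (i - 1)) :: w.1 := by
    intro w i h1 h2 h3 h4
    have e1 := act_new true 3 R w.1 h3 h4
    have e2 := act_nxt true 3 R 0 w.1 h3 (by simp)
    have e3 := act_nxt true 3 R 1 w.1 h3 (by simp)
    have e4 : (0 : Fin 3) + 1 = 1 := rfl
    rw [e4] at e2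
    interval_cases i
    · rw [pow_one, hbb]; exact e1
    · rw [pow_two, Equiv.Perm.mul_apply, hbb, hbb]
      change act true 3 R (act true 3 R w.1) = _
      rw [e1, e2]; rfl
    · rw [pow_succ, pow_two, Equiv.Perm.mul_apply, Equiv.Perm.mul_apply, hbb, hbb, hbb]
      change act true 3 R (act true 3 R (act true 3 R w.1)) = _
      rw [e1, e2, e3]; rfl
  have key : ∀ w : List ℕ, w.length ≤ R →
      (ok 3 4 w → ((ev a b w) e).1 = enc false w) ∧ (ok 4 3 w → ((ev b a w) e).1 = enc true w) := by
    intro w
    induction w with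
    | nil => intro _; exact ⟨fun _ => rfl, fun _ => rfl⟩
    | cons i w ih =>
      intro hl
      simp only [List.length_cons] at hl
      obtain ⟨ih1, ih2⟩ := ih (by omega)
      constructor
      · rintro ⟨⟨h1, h2⟩, h3⟩
        have := ih2 h3
        change ((a ^ i) ((ev b a w) e)).1 = _
        rw [hnew1 _ i h1 h2 (by rw [this]; exact enc_nh false w)
          (by rw [this, enc_len]; omega), this]
        rfl
      · rintro ⟨⟨h1, h2⟩, h3⟩
        have := ih1 h3
        change ((b ^ i) ((ev a b w) e)).1 = _
        rw [hnew2 _ i h1 h2 (by rw [this]; exact enc_nh true w)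
          (by rw [this, enc_len]; omega), this]
        rfl
  refine ⟨Equiv.Perm Y, inferInstance, inferInstance, a, b, ?_, ?_, ?_, ?_, ?_⟩
  · ext1 w
    rw [pow_succ, pow_two, Equiv.Perm.mul_apply, Equiv.Perm.mul_apply, haa, haa, haa, ha]
    rfl
  · ext1 w
    rw [pow_succ, pow_succ, pow_two, Equiv.Perm.mul_apply, Equiv.Perm.mul_apply,
      Equiv.Perm.mul_apply, hbb, hbb, hbb, hbb, hb]
    rfl
  · intro w w' h h' hl hl' he
    refine enc_inj false 3 4 (by omega) (by omega) w w' h h' ?_
    rw [← ((key w hl).1 h), ← ((key w' hl').1 h'), he]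
  · intro w w' h h' hl hl' he
    refine enc_inj true 4 3 (by omega) (by omega) w w' h h' ?_
    rw [← ((key w hl).2 h), ← ((key w' hl').2 h'), he]
  · intro w w' h h' hl hl' he
    refine enc_ne w w' ?_
    rw [← ((key w hl).1 h), ← ((key w' hl').2 h'), he]

end MPd2470a
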