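import Pool.Agent.Lib.MP_d2470a_co.BlkDefs

/-!
# BlkSep: separated dense subsets of a group, and the size of the balls

* `sep`: take `S` of maximal cardinality among the finsets such that the translates `Z s` (`s ∈ S`)
  are pairwise disjoint (the empty set is one). Then `S.card * Z.card = (⋃ Z s).card ≤ |Γ|`, and for
  every `g` the translate `Z g` meets some `Z s` (otherwise `insert g S` is better; `g ∈ S` is
  trivial with `s = g`, `Z` being nonempty).
* `ball_card`: by induction on `k ≤ D` the product set `gens a b ^ D` contains `ev a b w` for every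
  reduced word of length `≤ D` (`1 ∈ gens`, so the powers increase; a letter `a, a², b, b², b³` is in
  `gens`). The words `[1, 1, ..., 1]` of lengths `0, ..., D` are reduced, with distinct values by
  `inj1`.
* `gens_pow_card`: `Finset.card_pow_le` (or `Finset.card_mul_le` and induction), `(gens a b).card ≤ 6`.
-/

set_option autoImplicit false

namespace MPd2470a

open scoped Pointwise

open Classical in
theorem sep {Γ : Type} [Group Γ] [Fintype Γ] (Z : Finset Γ) (hZ : Z.Nonempty) :
    ∃ S : Finset Γ, S.card * Z.card ≤ Fintype.card Γ ∧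
      ∀ g, ∃ s ∈ S, ∃ z₁ ∈ Z, ∃ z₂ ∈ Z, z₁ * g = z₂ * s := by
  obtain ⟨S, hS, hmax⟩ := Finset.exists_max_image
    (Finset.univ.filter (fun S : Finset Γ => ∀ s ∈ S, ∀ s' ∈ S, ∀ z ∈ Z, ∀ z' ∈ Z,
      z * s = z' * s' → s = s')) Finset.card ⟨∅, by simp⟩
  rw [Finset.mem_filter] at hS
  refine ⟨S, ?_, ?_⟩
  · rw [← Finset.card_product, ← Finset.card_univ]
    refine Finset.card_le_card_of_injOn (fun p => p.2 * p.1) (fun p _ => Finset.mem_coe.2 (Finset.mem_univ _)) ?_
    rintro ⟨s, z⟩ h ⟨s', z'⟩ h' heq
    simp only [Finset.coe_product, Set.mem_prod, Finset.mem_coe] at h h'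
    simp only at heq
    have h1 := hS.2 s h.1 s' h'.1 z h.2 z' h'.2 heq
    subst h1
    rw [mul_right_cancel heq]
  · intro g
    by_contra hcon
    push Not at hcon
    have hg : g ∉ S := by
      intro hg
      obtain ⟨z, hz⟩ := hZ
      exact hcon g hg z hz z hz rfl
    have h1 := hmax (insert g S) (by
      rw [Finset.mem_filter]
      refine ⟨Finset.mem_univ _, ?_⟩
      intro s hs s' hs' z hz z' hz' heq
      rw [Finset.mem_insert] at hs hs'
      rcases hs with hs | hs <;> rcases hs' with hs' | hs'
      · rw [hs, hs']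
      · subst hs
        exact absurd heq (hcon s' hs' z hz z' hz')
      · subst hs'
        exact absurd heq.symm (hcon s hs z' hz' z hz)
      · exact hS.2 s hs s' hs' z hz z' hz' heq)
    rw [Finset.card_insert_of_notMem hg] at h1
    omega

private theorem ok_ones : ∀ (k p q : ℕ), 1 < p → 1 < q → ok p q (List.replicate k 1)
  | 0, _, _, _, _ => trivial
  | k + 1, p, q, hp, hq => ⟨⟨le_refl 1, hp⟩, ok_ones k q p hq hp⟩

open Classical in
private theorem ev_ones {Γ : Type} [Group Γ] (G : Finset Γ) : ∀ (k : ℕ) (a b : Γ), a ∈ G → b ∈ G →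
    ev a b (List.replicate k 1) ∈ G ^ k
  | 0, a, b, _, _ => by
    show (1 : Γ) ∈ G ^ 0
    simp
  | k + 1, a, b, ha, hb => by
    show a ^ 1 * ev b a (List.replicate k 1) ∈ G ^ (k + 1)
    rw [pow_one, pow_succ']
    exact Finset.mul_mem_mul ha (ev_ones G k b a hb ha)

open Classical in
theorem ball_card {Γ : Type} [Group Γ] {a b : Γ} {R D : ℕ} (F : FreeP a b 3 4 R) (hD : D ≤ R) :
    D + 1 ≤ (gens a b ^ D).card := by
  have ha : a ∈ gens a b := by simp [gens]
  have hb : b ∈ gens a b := by simp [gens]
  have h1 : (1 : Γ) ∈ gens a b := by simp [gens]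
  have h2 : ((Finset.range (D + 1)).image (fun k => ev a b (List.replicate k 1))) ⊆
      gens a b ^ D := by
    intro x hx
    rw [Finset.mem_image] at hx
    obtain ⟨k, hk, rfl⟩ := hx
    rw [Finset.mem_range] at hk
    exact Finset.pow_subset_pow_right h1 (by omega) (ev_ones (gens a b) k a b ha hb)
  have h3 := Finset.card_le_card h2
  rw [Finset.card_image_of_injOn, Finset.card_range] at h3
  · exact h3
  · intro k hk l hl heq
    simp only [Finset.coe_range, Set.mem_Iio] at hk hl
    have h4 := F.inj1 _ _ (ok_ones k 3 4 (by norm_num) (by norm_num))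
      (ok_ones l 3 4 (by norm_num) (by norm_num)) (by rw [List.length_replicate]; omega)
      (by rw [List.length_replicate]; omega) heq
    have h5 := congrArg List.length h4
    simpa using h5

open Classical in
theorem gens_pow_card {Γ : Type} [Group Γ] (a b : Γ) (D : ℕ) : (gens a b ^ D).card ≤ 6 ^ D := by
  refine Finset.card_pow_le.trans (Nat.pow_le_pow_left ?_ D)
  unfold gens
  exact Finset.card_le_six

end MPd2470a
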