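import Mathlib

/-!
# Cells: pigeonhole on a grid

Map `i` to the cell `(⌊p i / ε⌋₊, ⌊q i / ε⌋₊)`; there are at most
`(⌊1/ε⌋₊ + 1)(⌊S1/ε⌋₊ + 1)` cells; pigeonhole
(`Finset.exists_le_card_fiber_of_mul_le_card_of_maps_to`) gives a cell with at least 12 elements;
two elements of a cell have values differing by at most `ε`. `ZMod 12 = Fin 12`.
-/

set_option autoImplicit false

namespace MPd2470a

open Finset

private theorem ce_abs {ε x y : ℝ} (hε : 0 < ε) (hx : 0 ≤ x) (hy : 0 ≤ y)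
    (h : ⌊x / ε⌋₊ = ⌊y / ε⌋₊) : |x - y| ≤ ε := by
  have h1 : (⌊x / ε⌋₊ : ℝ) ≤ x / ε := Nat.floor_le (div_nonneg hx hε.le)
  have h2 : x / ε < (⌊x / ε⌋₊ : ℝ) + 1 := Nat.lt_floor_add_one _
  have h3 : (⌊y / ε⌋₊ : ℝ) ≤ y / ε := Nat.floor_le (div_nonneg hy hε.le)
  have h4 : y / ε < (⌊y / ε⌋₊ : ℝ) + 1 := Nat.lt_floor_add_one _
  rw [h] at h1 h2
  rw [le_div_iff₀ hε] at h1 h3
  rw [div_lt_iff₀ hε] at h2 h4
  rw [abs_le]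
  constructor <;> nlinarith

private theorem ce_mem {ε x S : ℝ} (hε : 0 < ε) (hxS : x ≤ S) :
    ⌊x / ε⌋₊ ∈ range (⌊S / ε⌋₊ + 1) := by
  rw [mem_range]
  have h1 : ⌊x / ε⌋₊ ≤ ⌊S / ε⌋₊ := Nat.floor_mono (div_le_div_of_nonneg_right hxS hε.le)
  omega

theorem cells (S1 ε : ℝ) (hS : 0 ≤ S1) (hε : 0 < ε) {K : ℕ} (p q : Fin K → ℝ)
    (hp0 : ∀ i, 0 ≤ p i) (hp1 : ∀ i, p i ≤ 1) (hq0 : ∀ i, 0 ≤ q i) (hq1 : ∀ i, q i ≤ S1)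
    (hK : 12 * ((⌊1 / ε⌋₊ + 1) * (⌊S1 / ε⌋₊ + 1)) ≤ K) :
    ∃ f : ZMod 12 → Fin K, Function.Injective f ∧ ∀ i j, |p (f i) - p (f j)| ≤ ε ∧
      |q (f i) - q (f j)| ≤ ε := by
  classical
  have hmaps : ∀ a ∈ (univ : Finset (Fin K)), (⌊p a / ε⌋₊, ⌊q a / ε⌋₊) ∈
      range (⌊1 / ε⌋₊ + 1) ×ˢ range (⌊S1 / ε⌋₊ + 1) := by
    intro a _
    rw [mem_product]
    exact ⟨ce_mem hε (hp1 a), ce_mem hε (hq1 a)⟩
  have hcard : (range (⌊1 / ε⌋₊ + 1) ×ˢ range (⌊S1 / ε⌋₊ + 1)).card * 12 ≤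
      (univ : Finset (Fin K)).card := by
    rw [card_product, card_range, card_range, card_univ, Fintype.card_fin, mul_comm]
    exact hK
  have hne : (range (⌊1 / ε⌋₊ + 1) ×ˢ range (⌊S1 / ε⌋₊ + 1)).Nonempty :=
    ⟨(0, 0), by simp⟩
  obtain ⟨c, -, hc⟩ := exists_le_card_fiber_of_mul_le_card_of_maps_to hmaps hne hcard
  have hmem : ∀ i : Fin 12, (⌊p (orderEmbOfCardLe _ hc i) / ε⌋₊,
      ⌊q (orderEmbOfCardLe _ hc i) / ε⌋₊) = c := by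
    intro i
    have h1 := orderEmbOfCardLe_mem _ hc i
    rw [mem_filter] at h1
    exact h1.2
  refine ⟨fun i : Fin 12 => orderEmbOfCardLe _ hc i, (orderEmbOfCardLe _ hc).injective, ?_⟩
  intro i j
  have hij := (hmem i).trans (hmem j).symm
  rw [Prod.mk.injEq] at hij
  exact ⟨ce_abs hε (hp0 _) (hp0 _) hij.1, ce_abs hε (hq0 _) (hq0 _) hij.2⟩

end MPd2470a
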