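import Pool.Agent.Lib.MP_d2470a_co.LinA

/-!
# Foster: the two sum rules

`L = ∑_{x<y} mult x y (ed x y)(ed x y)'`, so for every matrix `B`,
`∑_{x<y} mult x y (ed x y)' B (ed x y) = trace (B L)`.
* `foster1`: `trace (M L) = trace (M N) - trace (M J)/n = n - 1` (`M 1 = 1`).
* `foster2`: `trace (M² L) = trace M - trace (M² J)/n = trace M - 1` (`1' M² 1 = n`).
-/

set_option autoImplicit false

namespace MPd2470a

open Matrix

variable {n : ℕ} {G : MG n}

/-- a symmetric sum over the pairs `x < y` -/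
private theorem fo_half (f : Fin n → Fin n → ℝ) (hs : ∀ x y, f x y = f y x)
    (h0 : ∀ x, f x x = 0) :
    ∑ x, ∑ y, (if x < y then f x y else 0) = (1 / 2) * ∑ x, ∑ y, f x y := by
  have h1 : ∑ x, ∑ y, f x y = ∑ x, ∑ y, (if x < y then f x y else 0) +
      ∑ x, ∑ y, (if y < x then f x y else 0) := by
    rw [← Finset.sum_add_distrib]
    refine Finset.sum_congr rfl fun x _ => ?_
    rw [← Finset.sum_add_distrib]
    refine Finset.sum_congr rfl fun y _ => ?_
    rcases lt_trichotomy x y with h | h | h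
    · rw [if_pos h, if_neg (not_lt.2 h.le), add_zero]
    · subst h
      rw [if_neg (lt_irrefl _), h0, add_zero]
    · rw [if_neg (not_lt.2 h.le), if_pos h, zero_add]
  have h2 : ∑ x, ∑ y, (if y < x then f x y else 0) =
      ∑ x, ∑ y, (if x < y then f x y else 0) := by
    rw [Finset.sum_comm]
    refine Finset.sum_congr rfl fun x _ => Finset.sum_congr rfl fun y _ => ?_
    rw [hs y x]
  rw [h2] at h1
  linarith

/-- the general sum rule -/
private theorem fo_gen (G : MG n) (B : Matrix (Fin n) (Fin n) ℝ) :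
    ∑ x, ∑ y, (if x < y then (G.mult x y : ℝ) * (ed x y ⬝ᵥ (B *ᵥ ed x y)) else 0) =
      trace (B * lapM G) := by
  have hB : ∀ x y : Fin n, ed x y ⬝ᵥ (B *ᵥ ed x y) = B x x + B y y - B x y - B y x := by
    intro x y
    rw [dot_ed]
    have h1 : ∀ z, (B *ᵥ ed x y) z = B z x - B z y := by
      intro z
      have h2 : (B *ᵥ ed x y) z = B z ⬝ᵥ ed x y := rfl
      rw [h2, dotProduct_comm, dot_ed]
    rw [h1, h1]
    ring
  rw [fo_half (fun x y => (G.mult x y : ℝ) * (ed x y ⬝ᵥ (B *ᵥ ed x y)))]
  · have h1 : ∑ x, ∑ y, (G.mult x y : ℝ) * (ed x y ⬝ᵥ (B *ᵥ ed x y)) =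
        ∑ x, ∑ y, ((G.mult x y : ℝ) * B x x - (G.mult x y : ℝ) * B x y) +
        ∑ x, ∑ y, ((G.mult x y : ℝ) * B y y - (G.mult x y : ℝ) * B y x) := by
      rw [← Finset.sum_add_distrib]
      refine Finset.sum_congr rfl fun x _ => ?_
      rw [← Finset.sum_add_distrib]
      refine Finset.sum_congr rfl fun y _ => ?_
      rw [hB]
      ring
    have h2 : ∑ x, ∑ y, ((G.mult x y : ℝ) * B y y - (G.mult x y : ℝ) * B y x) =
        ∑ x, ∑ y, ((G.mult x y : ℝ) * B x x - (G.mult x y : ℝ) * B x y) := by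
      rw [Finset.sum_comm]
      refine Finset.sum_congr rfl fun x _ => Finset.sum_congr rfl fun y _ => ?_
      rw [G.symm y x]
    have h3 : trace (B * lapM G) =
        ∑ x, ∑ y, ((G.mult x y : ℝ) * B x x - (G.mult x y : ℝ) * B x y) := by
      unfold trace
      refine Finset.sum_congr rfl fun x _ => ?_
      rw [diag_apply, mul_apply]
      have h4 : ∀ y, B x y * lapM G y x =
          (if y = x then (deg G x : ℝ) * B x x else 0) - (G.mult x y : ℝ) * B x y := by
        intro y
        unfold lapM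
        rw [of_apply, mul_sub, G.symm x y]
        congr 1
        · split_ifs with h
          · subst h
            ring
          · rw [mul_zero]
        · ring
      simp only [h4]
      rw [Finset.sum_sub_distrib, Finset.sum_sub_distrib, Finset.sum_ite_eq' Finset.univ x,
        if_pos (Finset.mem_univ x), ← Finset.sum_mul]
      congr 1
      unfold deg
      push_cast
      rfl
    rw [h1, h2, h3]
    ring
  · intro x y
    simp only [hB]
    rw [G.symm x y]
    ring
  · intro x
    rw [G.loopless x, Nat.cast_zero, zero_mul]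

private theorem fo_lap (h : Conn G) (hn : 0 < n) :
    MM G * lapM G = 1 - Matrix.of fun _ _ => 1 / (n : ℝ) := by
  have h1 := MM_mul_NM h
  have h2 : MM G * (Matrix.of fun _ _ : Fin n => 1 / (n : ℝ)) =
      Matrix.of fun _ _ : Fin n => 1 / (n : ℝ) := by
    ext x y
    simp only [mul_apply, of_apply]
    have h3 := congrFun (MM_one h) x
    have h4 : (MM G *ᵥ fun _ => (1 : ℝ)) x = ∑ z, MM G x z * 1 := rfl
    rw [h4] at h3
    simp only [mul_one] at h3
    rw [← Finset.sum_mul, h3, one_mul]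
  unfold NM at h1
  rw [Matrix.mul_add, h2] at h1
  exact eq_sub_of_add_eq h1

theorem foster1 (h : Conn G) (hn : 0 < n) :
    ∑ x, ∑ y, (if x < y then (G.mult x y : ℝ) * rr G (ed x y) (ed x y) else 0) = (n : ℝ) - 1 := by
  have h1 := fo_gen G (MM G)
  have hn0 : (n : ℝ) ≠ 0 := by exact_mod_cast hn.ne'
  rw [fo_lap h hn, trace_sub, trace_one, Fintype.card_fin] at h1
  have h2 : trace (Matrix.of fun _ _ : Fin n => 1 / (n : ℝ)) = 1 := by
    simp only [trace, diag_apply, of_apply, Finset.sum_const, Finset.card_univ, Fintype.card_fin,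
      nsmul_eq_mul]
    field_simp
  rw [h2] at h1
  exact h1

theorem foster2 (h : Conn G) (hn : 0 < n) :
    ∑ x, ∑ y, (if x < y then (G.mult x y : ℝ) * qq G (ed x y) (ed x y) else 0) =
      trace (MM G) - 1 := by
  have h1 := fo_gen G (MM G * MM G)
  have hn0 : (n : ℝ) ≠ 0 := by exact_mod_cast hn.ne'
  have h3 : MM G * (Matrix.of fun _ _ : Fin n => 1 / (n : ℝ)) =
      Matrix.of fun _ _ : Fin n => 1 / (n : ℝ) := by
    have h4 := fo_lap h hn
    have h5 := MM_mul_NM h
    unfold NM at h5
    rw [Matrix.mul_add, h4] at h5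
    have h6 := eq_sub_of_add_eq' h5
    rw [sub_sub_cancel] at h6
    exact h6
  rw [Matrix.mul_assoc, fo_lap h hn, Matrix.mul_sub, Matrix.mul_one, h3, trace_sub] at h1
  have h2 : trace (Matrix.of fun _ _ : Fin n => 1 / (n : ℝ)) = 1 := by
    simp only [trace, diag_apply, of_apply, Finset.sum_const, Finset.card_univ, Fintype.card_fin,
      nsmul_eq_mul]
    field_simp
  rw [h2] at h1
  have h4 : ∀ a : Fin n → ℝ, qq G a a = a ⬝ᵥ ((MM G * MM G) *ᵥ a) := by
    intro a
    unfold qq
    rw [← mulVec_mulVec, dotProduct_mulVec a, ← mulVec_transpose, MM_transpose]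
  simp only [h4]
  exact h1

end MPd2470a
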