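import Pool.Agent.Lib.MP_d2470a_co.OptTwo
import Pool.Agent.Lib.MP_d2470a_co.Foster

/-!
# Cheap: existence of a cheap edge

Suppose every edge with `δ ≤ 1 - R_e` has `q_e > ρ (1 - R_e)`. Then for every edge
`q_e ≥ ρ (1 - R_e - δ)` (`qq_nonneg` if `1 - R_e < δ`). Sum over the edges
(`foster1`, `foster2`; `∑_{x<y} mult = numEdges`): `trace M - 1 ≥ ρ (e - (n-1) - δ e)`, and
`e > α n / 2 - 1` (`opt_add`) gives `(1-δ) e - n + 1 ≥ n ((1-δ) α/2 - 1)` (`-(1-δ) + 1 = δ ≥ 0`),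
so `β n ≥ trace M - 1 ≥ ρ n ((1-δ) α/2 - 1) > β n`.
-/

set_option autoImplicit false

namespace MPd2470a

open Matrix

variable {n : ℕ} {G : MG n}

theorem cheap {α β ρ δ : ℝ} (hρ : 0 < ρ) (hδ0 : 0 < δ) (hδ1 : δ < 1)
    (hβ : β < ρ * ((1 - δ) * (α / 2) - 1)) (hn : 2 ≤ n) (ho : IsOpt α G) (h : Conn G)
    (htr : trace (MM G) - 1 ≤ β * n) :
    ∃ x y, 0 < G.mult x y ∧ δ ≤ 1 - rr G (ed x y) (ed x y) ∧
      qq G (ed x y) (ed x y) ≤ ρ * (1 - rr G (ed x y) (ed x y)) := by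
  by_contra hcon
  push Not at hcon
  have hn0 : 0 < n := by omega
  have hnR : (0 : ℝ) < n := by exact_mod_cast hn0
  have f1 := foster1 h hn0
  have f2 := foster2 h hn0
  have hadd := opt_add hn ho h
  have hterm : ∀ x y : Fin n, (G.mult x y : ℝ) * (ρ * (1 - rr G (ed x y) (ed x y) - δ)) ≤
      (G.mult x y : ℝ) * qq G (ed x y) (ed x y) := by
    intro x y
    rcases Nat.eq_zero_or_pos (G.mult x y) with h0 | h0
    · rw [h0, Nat.cast_zero, zero_mul, zero_mul]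
    · refine mul_le_mul_of_nonneg_left ?_ (Nat.cast_nonneg _)
      by_cases h1 : δ ≤ 1 - rr G (ed x y) (ed x y)
      · have h2 := hcon x y h0 h1
        nlinarith
      · push Not at h1
        have h2 := qq_nonneg G (ed x y)
        nlinarith
  have hsum : ∑ x, ∑ y, (if x < y then (G.mult x y : ℝ) *
      (ρ * (1 - rr G (ed x y) (ed x y) - δ)) else 0) ≤
      ∑ x, ∑ y, (if x < y then (G.mult x y : ℝ) * qq G (ed x y) (ed x y) else 0) := by
    refine Finset.sum_le_sum fun x _ => Finset.sum_le_sum fun y _ => ?_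
    split_ifs
    · exact hterm x y
    · exact le_rfl
  have hE : ∑ x, ∑ y, (if x < y then (G.mult x y : ℝ) else 0) = (G.numEdges : ℝ) := by
    unfold Pool.Agent.Lib.MP_cf7718_co.MGraph.numEdges
    push_cast
    rfl
  have hleft : ∑ x, ∑ y, (if x < y then (G.mult x y : ℝ) *
      (ρ * (1 - rr G (ed x y) (ed x y) - δ)) else 0) =
      ρ * ((1 - δ) * (G.numEdges : ℝ) - ((n : ℝ) - 1)) := by
    rw [← hE, ← f1, Finset.mul_sum, ← Finset.sum_sub_distrib, Finset.mul_sum]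
    refine Finset.sum_congr rfl fun x _ => ?_
    rw [Finset.mul_sum, ← Finset.sum_sub_distrib, Finset.mul_sum]
    refine Finset.sum_congr rfl fun y _ => ?_
    split_ifs
    · ring
    · ring
  rw [hleft, f2] at hsum
  have h3 : (1 - δ) * (α * n / 2 - 1) ≤ (1 - δ) * (G.numEdges : ℝ) :=
    mul_le_mul_of_nonneg_left hadd.le (by linarith)
  have h4 : ρ * ((1 - δ) * (α * n / 2 - 1) - ((n : ℝ) - 1)) ≤ β * n := by
    refine le_trans ?_ (hsum.trans htr)
    exact mul_le_mul_of_nonneg_left (by linarith) hρ.le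
  have h5 : β * n < ρ * ((1 - δ) * (α / 2) - 1) * n := mul_lt_mul_of_pos_right hβ hnR
  have h6 : 0 < ρ * δ := mul_pos hρ hδ0
  nlinarith

end MPd2470a
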