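import Mathlib

/-!
# Greedy: weighted greedy selection

Induction on `K` (for all `B`). `K = 0` is trivial. For `K + 1`: `B` has positive weight, so it is
nonempty; take any `x ∈ B`, `B' = B.filter (¬ bad x ·)` has weight `≥ W - θ > K θ`; apply the
induction hypothesis and `Fin.cons`.
-/

set_option autoImplicit false

namespace MPd2470a

open Finset

open Classical in
theorem greedy {V : Type} [Fintype V] (w : V → ℝ) (hw : ∀ x, 0 ≤ w x) (bad : V → V → Prop)
    (θ : ℝ) (hθ : 0 ≤ θ) (K : ℕ) (B : Finset V)
    (hb : ∀ x ∈ B, ∑ y ∈ B.filter (fun y => bad x y), w y ≤ θ) (hK : K * θ < ∑ x ∈ B, w x) :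
    ∃ f : Fin K → V, (∀ i, f i ∈ B) ∧ ∀ i j, i < j → ¬ bad (f i) (f j) := by
  induction K generalizing B with
  | zero => exact ⟨fun i => i.elim0, fun i => i.elim0, fun i => i.elim0⟩
  | succ K ih =>
    have hpos : 0 < ∑ x ∈ B, w x := lt_of_le_of_lt (by positivity) hK
    obtain ⟨x, hx, _⟩ := Finset.exists_ne_zero_of_sum_ne_zero hpos.ne'
    have hsum := Finset.sum_filter_add_sum_filter_not B (fun y => bad x y) w
    have h1 : K * θ < ∑ y ∈ B.filter (fun y => ¬ bad x y), w y := by
      have h2 := hb x hx
      push_cast at hK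
      linarith
    have hb' : ∀ y ∈ B.filter (fun y => ¬ bad x y),
        ∑ z ∈ (B.filter (fun y => ¬ bad x y)).filter (fun z => bad y z), w z ≤ θ := by
      intro y hy
      refine le_trans ?_ (hb y (Finset.mem_filter.1 hy).1)
      refine Finset.sum_le_sum_of_subset_of_nonneg ?_ fun z _ _ => hw z
      exact Finset.filter_subset_filter _ (Finset.filter_subset _ _)
    obtain ⟨f, hf1, hf2⟩ := ih (B.filter (fun y => ¬ bad x y)) hb' h1
    refine ⟨Fin.cons x f, ?_, ?_⟩
    · intro i
      refine Fin.cases ?_ (fun i => ?_) i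
      · exact hx
      · rw [Fin.cons_succ]
        exact (Finset.mem_filter.1 (hf1 i)).1
    · intro i j
      refine Fin.cases ?_ (fun j => ?_) j
      · intro hij
        exact absurd hij (Fin.not_lt_zero i)
      · refine Fin.cases ?_ (fun i => ?_) i
        · intro _
          rw [Fin.cons_zero, Fin.cons_succ]
          exact (Finset.mem_filter.1 (hf1 j)).2
        · intro hij
          rw [Fin.cons_succ, Fin.cons_succ]
          exact hf2 i j (Fin.succ_lt_succ_iff.1 hij)

end MPd2470a
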