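import Pool.Agent.Lib.MP_d2470a_co.CheapW
import Pool.Agent.Lib.MP_d2470a_co.Greedy

/-!
# CheapThree: three cheap edges with small interaction

`ε₀ = (1-δ)(α/2) - 1 - β/ρ > 0`, `Λ = 2 (3ρ/δ²)(1 + 2β)/ε₀`. Edge copies: the finite type of triples
`(x, y, k)` with `x < y`, `k < mult x y`. Cheap copies are at least `ε₀ n` many (`cheap_weight`), those
with `cub (ed x y) > Λ` at most `ε₀ n/2` (`cub_sum`, Markov; a cheap edge exists), so at least `ε₀ n/2`
good ones. For a good copy `b` the bad copies `f` are: `f = b` (one), `|rr b f| > ε` (at most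
`rr b b/ε² ≤ 1/ε²` by `row_rr`, `mult_rr`), `|qq b f| > ε` (at most `Λ/ε²` by `row_qq`). For
`n > 2 · 3 (1 + (1 + Λ)/ε²)/ε₀` `greedy` (weights `1`, `K = 3`; the relations are symmetric,
`rr_symm`, `qq_symm`) gives three copies. Distinct copies: for every pair `{u, w}` at most
`mult u w` of them are copies of it, which is the third property.
-/

set_option autoImplicit false

namespace MPd2470a

open Matrix

/-- edge copies -/
private abbrev Cp {n : ℕ} (G : MG n) : Type :=
  Σ p : Fin n × Fin n, Fin (if p.1 < p.2 then G.mult p.1 p.2 else 0)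

private theorem cp_sum {n : ℕ} (G : MG n) (F : Fin n → Fin n → ℝ) :
    ∑ c : Cp G, F c.1.1 c.1.2 = ∑ x, ∑ y, (if x < y then (G.mult x y : ℝ) * F x y else 0) := by
  rw [Fintype.sum_sigma, Fintype.sum_prod_type]
  refine Finset.sum_congr rfl fun x _ => Finset.sum_congr rfl fun y _ => ?_
  simp only [Finset.sum_const, Finset.card_univ, Fintype.card_fin, nsmul_eq_mul]
  split_ifs <;> simp

private theorem cp_lt {n : ℕ} {G : MG n} (c : Cp G) : c.1.1 < c.1.2 ∧ 0 < G.mult c.1.1 c.1.2 := by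
  have h := c.2.pos
  split_ifs at h with h1
  · exact ⟨h1, h⟩
  · exact absurd h (lt_irrefl _)

open Classical in
private theorem markov {n : ℕ} (G : MG n) (F : Fin n → Fin n → ℝ) (hF : ∀ x y, 0 ≤ F x y) (s : ℝ)
    (S : ℝ) (hS : ∑ x, ∑ y, (if x < y then (G.mult x y : ℝ) * F x y else 0) ≤ S) :
    s * ((Finset.univ.filter fun c : Cp G => s < F c.1.1 c.1.2).card : ℝ) ≤ S := by
  rw [← cp_sum] at hS
  refine le_trans ?_ hS
  have h1 : s * ((Finset.univ.filter fun c : Cp G => s < F c.1.1 c.1.2).card : ℝ) =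
      ∑ c ∈ Finset.univ.filter (fun c : Cp G => s < F c.1.1 c.1.2), s := by
    rw [Finset.sum_const, nsmul_eq_mul]; ring
  rw [h1]
  refine le_trans (Finset.sum_le_sum fun c hc => (Finset.mem_filter.1 hc).2.le) ?_
  exact Finset.sum_le_univ_sum_of_nonneg fun c => hF _ _

theorem cheap_three (α β ρ δ ε : ℝ) (hρ : 0 < ρ) (hβ0 : 0 ≤ β) (hδ0 : 0 < δ) (hδ1 : δ < 1)
    (hβ : β < ρ * ((1 - δ) * (α / 2) - 1)) (hε : 0 < ε) :
    ∃ N : ℕ, ∀ n : ℕ, N ≤ n → ∀ G : MG n, IsOpt α G → Conn G → trace (MM G) - 1 ≤ β * n →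
      ∃ y z : Fin 3 → Fin n, (∀ j, 0 < G.mult (y j) (z j) ∧ IsCheap G δ ρ (y j) (z j)) ∧
        (∀ u w, ∑ j, eind (y j) (z j) u w ≤ (G.mult u w : ℤ)) ∧
        ∀ i j, i ≠ j → |rr G (ed (y i) (z i)) (ed (y j) (z j))| ≤ ε ∧
          |qq G (ed (y i) (z i)) (ed (y j) (z j))| ≤ ε := by
  classical
  set e0 : ℝ := (1 - δ) * (α / 2) - 1 - β / ρ with he0
  have he0pos : 0 < e0 := by
    have : β / ρ < (1 - δ) * (α / 2) - 1 := by
      rw [div_lt_iff₀ hρ]; linarith
    linarith
  set S : ℝ := 3 * ρ / δ ^ 2 * (1 + 2 * β) with hS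
  have hSpos : 0 < S := by positivity
  set Λ : ℝ := 2 * S / e0 with hΛ
  have hΛpos : 0 < Λ := by positivity
  set θ : ℝ := 1 + 1 / ε ^ 2 + Λ / ε ^ 2 with hθ
  have hθpos : 0 < θ := by positivity
  obtain ⟨N1, hN1⟩ := exists_nat_gt (6 * θ / e0)
  refine ⟨max 2 N1, fun n hn G ho hc htr => ?_⟩
  have hn2 : 2 ≤ n := le_trans (le_max_left _ _) hn
  have hnN : (N1 : ℝ) ≤ n := by exact_mod_cast le_trans (le_max_right _ _) hn
  have hn0 : (0 : ℝ) < n := by
    have : (2 : ℝ) ≤ n := by exact_mod_cast hn2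
    linarith
  -- cheap copies
  have hW := cheap_weight hρ hδ0 hδ1 hn2 ho hc htr
  have hWc : (n : ℝ) * e0 ≤ ((Finset.univ.filter fun c : Cp G => IsCheap G δ ρ c.1.1 c.1.2).card : ℝ) := by
    refine le_trans hW (le_of_eq ?_)
    have h1 := cp_sum G (fun x y => if IsCheap G δ ρ x y then 1 else 0)
    rw [Finset.card_filter]
    push_cast
    rw [h1]
    refine Finset.sum_congr rfl fun x _ => Finset.sum_congr rfl fun y _ => ?_
    by_cases h1 : x < y <;> by_cases h2 : IsCheap G δ ρ x y <;> simp [h1, h2]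
  obtain ⟨c0, hc0⟩ : ∃ c : Cp G, IsCheap G δ ρ c.1.1 c.1.2 := by
    have h1 : (0 : ℝ) < ((Finset.univ.filter fun c : Cp G => IsCheap G δ ρ c.1.1 c.1.2).card : ℝ) :=
      lt_of_lt_of_le (by positivity) hWc
    have h2 : 0 < (Finset.univ.filter fun c : Cp G => IsCheap G δ ρ c.1.1 c.1.2).card := by
      exact_mod_cast h1
    obtain ⟨c, hc⟩ := Finset.card_pos.1 h2
    exact ⟨c, (Finset.mem_filter.1 hc).2⟩
  have hcub := cub_sum hρ hδ0 hδ1 hn2 ho hc htr (cp_lt c0).2 hc0
  have hM := markov G (fun x y => cub G (ed x y)) (fun x y => cub_nonneg hc _) Λ _ hcub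
  have hbadc : ((Finset.univ.filter fun c : Cp G => Λ < cub G (ed c.1.1 c.1.2)).card : ℝ) ≤
      e0 * n / 2 := by
    have : Λ * ((Finset.univ.filter fun c : Cp G => Λ < cub G (ed c.1.1 c.1.2)).card : ℝ) ≤
        Λ * (e0 * n / 2) := by
      refine le_trans hM (le_of_eq ?_)
      rw [hΛ, hS]
      field_simp
    exact le_of_mul_le_mul_left this hΛpos
  set B : Finset (Cp G) := Finset.univ.filter fun c : Cp G =>
    IsCheap G δ ρ c.1.1 c.1.2 ∧ cub G (ed c.1.1 c.1.2) ≤ Λ with hB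
  have hBcard : e0 * n / 2 ≤ (B.card : ℝ) := by
    have h1 : (Finset.univ.filter fun c : Cp G => IsCheap G δ ρ c.1.1 c.1.2) ⊆
        B ∪ (Finset.univ.filter fun c : Cp G => Λ < cub G (ed c.1.1 c.1.2)) := by
      intro c hcc
      rw [Finset.mem_union, hB, Finset.mem_filter, Finset.mem_filter]
      rcases le_or_gt (cub G (ed c.1.1 c.1.2)) Λ with h | h
      · exact Or.inl ⟨Finset.mem_univ _, (Finset.mem_filter.1 hcc).2, h⟩
      · exact Or.inr ⟨Finset.mem_univ _, h⟩
    have h2 := (Finset.card_le_card h1).trans (Finset.card_union_le _ _)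
    have h3 : ((Finset.univ.filter fun c : Cp G => IsCheap G δ ρ c.1.1 c.1.2).card : ℝ) ≤
        (B.card : ℝ) + ((Finset.univ.filter fun c : Cp G => Λ < cub G (ed c.1.1 c.1.2)).card : ℝ) := by
      exact_mod_cast h2
    linarith
  let bad : Cp G → Cp G → Prop := fun b f => f = b ∨
    ε ^ 2 < rr G (ed f.1.1 f.1.2) (ed b.1.1 b.1.2) ^ 2 ∨
    ε ^ 2 < qq G (ed f.1.1 f.1.2) (ed b.1.1 b.1.2) ^ 2
  have hbad : ∀ b ∈ B, ∑ y ∈ B.filter (fun y => bad b y), (fun _ : Cp G => (1 : ℝ)) y ≤ θ := by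
    intro b hb
    rw [hB, Finset.mem_filter] at hb
    obtain ⟨_, _, hbc⟩ := hb
    have h1 : ∑ y ∈ B.filter (fun y => bad b y), (fun _ : Cp G => (1 : ℝ)) y =
        ((B.filter (fun y => bad b y)).card : ℝ) := by simp
    rw [h1]
    have h2 : B.filter (fun y => bad b y) ⊆ {b} ∪
        ((Finset.univ.filter fun f : Cp G => ε ^ 2 < rr G (ed f.1.1 f.1.2) (ed b.1.1 b.1.2) ^ 2) ∪
        (Finset.univ.filter fun f : Cp G => ε ^ 2 < qq G (ed f.1.1 f.1.2) (ed b.1.1 b.1.2) ^ 2)) := by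
      intro f hf
      have hf2 : bad b f := (Finset.mem_filter.1 hf).2
      rw [Finset.mem_union, Finset.mem_union, Finset.mem_singleton, Finset.mem_filter,
        Finset.mem_filter]
      rcases hf2 with h | h | h
      · exact Or.inl h
      · exact Or.inr (Or.inl ⟨Finset.mem_univ _, h⟩)
      · exact Or.inr (Or.inr ⟨Finset.mem_univ _, h⟩)
    have h3 := (Finset.card_le_card h2).trans ((Finset.card_union_le _ _).trans
      (Nat.add_le_add_left (Finset.card_union_le _ _) _))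
    rw [Finset.card_singleton] at h3
    have h4 := markov G (fun x y => rr G (ed x y) (ed b.1.1 b.1.2) ^ 2) (fun _ _ => sq_nonneg _)
      (ε ^ 2) _ (le_of_eq (row_rr hc (ed b.1.1 b.1.2) (sum_ed _ _)))
    have h5 := markov G (fun x y => qq G (ed x y) (ed b.1.1 b.1.2) ^ 2) (fun _ _ => sq_nonneg _)
      (ε ^ 2) _ (le_of_eq (row_qq hc (ed b.1.1 b.1.2) (sum_ed _ _)))
    have h6 : rr G (ed b.1.1 b.1.2) (ed b.1.1 b.1.2) ≤ 1 := by
      have h7 := mult_rr hc b.1.1 b.1.2
      have h8 : (1 : ℝ) ≤ G.mult b.1.1 b.1.2 := by exact_mod_cast (cp_lt b).2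
      have h9 := rr_nonneg hc (ed b.1.1 b.1.2)
      nlinarith
    have hε2 : 0 < ε ^ 2 := by positivity
    have h7 : ((Finset.univ.filter fun f : Cp G => ε ^ 2 <
        rr G (ed f.1.1 f.1.2) (ed b.1.1 b.1.2) ^ 2).card : ℝ) ≤ 1 / ε ^ 2 := by
      rw [le_div_iff₀ hε2]
      have := h4.trans h6
      linarith
    have h8 : ((Finset.univ.filter fun f : Cp G => ε ^ 2 <
        qq G (ed f.1.1 f.1.2) (ed b.1.1 b.1.2) ^ 2).card : ℝ) ≤ Λ / ε ^ 2 := by
      rw [le_div_iff₀ hε2]
      have := h5.trans hbc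
      linarith
    have h9 : ((B.filter (fun y => bad b y)).card : ℝ) ≤ 1 +
        (((Finset.univ.filter fun f : Cp G => ε ^ 2 <
        rr G (ed f.1.1 f.1.2) (ed b.1.1 b.1.2) ^ 2).card : ℝ) +
        ((Finset.univ.filter fun f : Cp G => ε ^ 2 <
        qq G (ed f.1.1 f.1.2) (ed b.1.1 b.1.2) ^ 2).card : ℝ)) := by
      exact_mod_cast h3
    rw [hθ]
    linarith
  have hK : ((3 : ℕ) : ℝ) * θ < ∑ x ∈ B, (fun _ : Cp G => (1 : ℝ)) x := by
    have h1 : ∑ x ∈ B, (fun _ : Cp G => (1 : ℝ)) x = (B.card : ℝ) := by simp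
    rw [h1]
    have h2 : 6 * θ / e0 < n := lt_of_lt_of_le hN1 hnN
    rw [div_lt_iff₀ he0pos] at h2
    push_cast
    linarith
  obtain ⟨f, hfB, hfb⟩ := greedy (fun _ : Cp G => (1 : ℝ)) (fun _ => zero_le_one) bad θ hθpos.le 3 B
    (fun b hb => by convert hbad b hb) hK
  have hfinj : Function.Injective f := by
    intro i j hij
    by_contra hne
    rcases lt_or_gt_of_ne hne with h | h
    · exact hfb i j h (Or.inl hij.symm)
    · exact hfb j i h (Or.inl hij)
  have key : ∀ i j, i < j → |rr G (ed (f i).1.1 (f i).1.2) (ed (f j).1.1 (f j).1.2)| ≤ ε ∧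
      |qq G (ed (f i).1.1 (f i).1.2) (ed (f j).1.1 (f j).1.2)| ≤ ε := by
    intro i j hij
    have h := hfb i j hij
    simp only [bad, not_or, not_lt] at h
    obtain ⟨_, h2, h3⟩ := h
    rw [rr_symm, qq_symm G (ed (f i).1.1 (f i).1.2)]
    exact ⟨abs_le_of_sq_le_sq h2 hε.le, abs_le_of_sq_le_sq h3 hε.le⟩
  refine ⟨fun j => (f j).1.1, fun j => (f j).1.2, ?_, ?_, ?_⟩
  · intro j
    have := hfB j
    rw [hB, Finset.mem_filter] at this
    exact ⟨(cp_lt (f j)).2, this.2.1⟩
  · have hlt : ∀ u w : Fin n, u < w →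
        ∑ j, eind (f j).1.1 (f j).1.2 u w ≤ (G.mult u w : ℤ) := by
      intro u w huw
      have h1 : ∀ j, eind (f j).1.1 (f j).1.2 u w = if (f j).1 = (u, w) then 1 else 0 := by
        intro j
        have h2 := (cp_lt (f j)).1
        unfold eind
        congr 1
        apply propext
        constructor
        · rintro (⟨h3, h4⟩ | ⟨h3, h4⟩)
          · exact Prod.ext h3.symm h4.symm
          · rw [← h3, ← h4] at h2
            exact absurd h2 (not_lt.2 huw.le)
        · intro h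
          rw [h]
          exact Or.inl ⟨rfl, rfl⟩
      simp only [h1]
      rw [← Finset.sum_filter, Finset.sum_const, nsmul_eq_mul, mul_one]
      have h3 : (Finset.univ.filter fun j => (f j).1 = (u, w)).card ≤ G.mult u w := by
        let F : Fin 3 → ℕ := fun j => ((f j).2 : ℕ)
        have h4 : ∀ j ∈ Finset.univ.filter (fun j => (f j).1 = (u, w)), F j ∈ Finset.range (G.mult u w) := by
          intro j hj
          have h5 : (f j).1 = (u, w) := (Finset.mem_filter.1 hj).2
          rw [Finset.mem_range]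
          have h6 := (f j).2.isLt
          have h7 : (if (f j).1.1 < (f j).1.2 then G.mult (f j).1.1 (f j).1.2 else 0) =
              G.mult u w := by
            rw [h5]
            simp [huw]
          exact lt_of_lt_of_eq h6 h7
        have h7 := Finset.card_le_card_of_injOn F h4 (by
          intro i hi j hj hij
          have h5 : (f i).1 = (u, w) := (Finset.mem_filter.1 (Finset.mem_coe.1 hi)).2
          have h6 : (f j).1 = (u, w) := (Finset.mem_filter.1 (Finset.mem_coe.1 hj)).2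
          apply hfinj
          have h8 : (f i).1 = (f j).1 := h5.trans h6.symm
          refine Sigma.ext h8 ?_
          apply (Fin.heq_ext_iff (by rw [h8])).2
          exact hij)
        rwa [Finset.card_range] at h7
      exact_mod_cast h3
    intro u w
    rcases lt_trichotomy u w with h | h | h
    · exact hlt u w h
    · subst h
      have : ∀ j, eind (f j).1.1 (f j).1.2 u u = 0 := by
        intro j
        have h2 := (cp_lt (f j)).1
        unfold eind
        rw [if_neg]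
        rintro (⟨h3, h4⟩ | ⟨h3, h4⟩)
        · rw [← h3, ← h4] at h2; exact absurd h2 (lt_irrefl _)
        · rw [← h3, ← h4] at h2; exact absurd h2 (lt_irrefl _)
      simp only [this, Finset.sum_const_zero]
      positivity
    · have h1 := hlt w u h
      have h2 : ∀ j, eind (f j).1.1 (f j).1.2 u w = eind (f j).1.1 (f j).1.2 w u := by
        intro j
        unfold eind
        congr 1
        apply propext
        constructor
        · rintro (⟨h3, h4⟩ | ⟨h3, h4⟩)
          · exact Or.inr ⟨h4, h3⟩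
          · exact Or.inl ⟨h4, h3⟩
        · rintro (⟨h3, h4⟩ | ⟨h3, h4⟩)
          · exact Or.inr ⟨h4, h3⟩
          · exact Or.inl ⟨h4, h3⟩
      simp only [h2]
      rw [G.symm u w]
      exact h1
  · intro i j hij
    rcases lt_or_gt_of_ne hij with h | h
    · exact key i j h
    · obtain ⟨h1, h2⟩ := key j i h
      dsimp only
      rw [rr_symm, qq_symm]
      exact ⟨h1, h2⟩

end MPd2470a
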