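import Pool.Agent.Lib.MP_d2470a_co.Defs

/-!
# MidDefs: the exchange with the subdivided `K₃,₃`

`J` = the 15 vertices of `K₃,₃` with every edge subdivided once: `Sum.inl (i, j)` is the middle of the
edge between `Sum.inr (Sum.inl i)` and `Sum.inr (Sum.inr j)`. `LH` is its Laplacian. `midA` is the
matrix of the exchange: the 15 hub edges are removed, the 18 edges of the graph are added, and 3
cheap edges are removed. `cub G a = a' M³ a`.
-/

set_option autoImplicit false

namespace MPd2470a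

open Matrix

variable {n : ℕ}

/-- vertices of the subdivided `K₃,₃` -/
abbrev J : Type := (Fin 3 × Fin 3) ⊕ (Fin 3 ⊕ Fin 3)

/-- Laplacian of the subdivided `K₃,₃` -/
def LH : Matrix J J ℝ := Matrix.of fun a b =>
  match a, b with
  | Sum.inl e, Sum.inl f => if e = f then 2 else 0
  | Sum.inl e, Sum.inr (Sum.inl r) => if e.1 = r then -1 else 0
  | Sum.inl e, Sum.inr (Sum.inr c) => if e.2 = c then -1 else 0
  | Sum.inr (Sum.inl r), Sum.inl e => if e.1 = r then -1 else 0
  | Sum.inr (Sum.inr c), Sum.inl e => if e.2 = c then -1 else 0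
  | Sum.inr (Sum.inl r), Sum.inr (Sum.inl r') => if r = r' then 3 else 0
  | Sum.inr (Sum.inr c), Sum.inr (Sum.inr c') => if c = c' then 3 else 0
  | Sum.inr (Sum.inl _), Sum.inr (Sum.inr _) => 0
  | Sum.inr (Sum.inr _), Sum.inr (Sum.inl _) => 0

/-- matrix of the exchange -/
def midA : Matrix (J ⊕ Fin 3) (J ⊕ Fin 3) ℝ := fromBlocks (LH - 1) 0 0 (-1)

/-- the quantity which must be positive for the exchange to be profitable -/
noncomputable def midF (Γ Θ : Matrix (J ⊕ Fin 3) (J ⊕ Fin 3) ℝ) : ℝ :=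
  (1 + midA * Γ).det * trace (Θ * (adjugate (1 + midA * Γ) * midA))

/-- cheap edges -/
def IsCheap (G : MG n) (δ ρ : ℝ) (x y : Fin n) : Prop :=
  δ ≤ 1 - rr G (ed x y) (ed x y) ∧
    qq G (ed x y) (ed x y) ≤ ρ * (1 - rr G (ed x y) (ed x y))

/-- `a' M³ a` -/
noncomputable def cub (G : MG n) (a : Fin n → ℝ) : ℝ := rr G (MM G *ᵥ a) (MM G *ᵥ a)

/-- the lower bound for `ss` in the middle range -/
noncomputable def smid (g : ℝ) : ℝ := g ^ 2 + (2 * g - 1) ^ 2 + (max (3 * g - 2) 0) ^ 2 - 1 / 100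

end MPd2470a
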