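import Pool.Agent.Lib.MP_d2470a_co.OptTwo
import Pool.Agent.Lib.MP_d2470a_co.Foster
import Pool.Agent.Lib.MP_d2470a_co.MidDefs

/-!
# CheapW: many cheap edges, row sums, and the bound for `a' M³ a` on average

* `cheap_weight`: `ω` = the right side. A pair which is not cheap satisfies `q ≥ ρ (1 - R - δ)`
  (`qq_nonneg` if `1 - R < δ`), and `1 - R - δ ≤ 1` always (`rr_nonneg`). By `foster1`, `foster2`:
  `β n ≥ trace M - 1 ≥ ρ (∑_{x<y} mult (1 - R - δ) - ω) = ρ ((1-δ) e - (n - 1) - ω)`, `e > α n/2 - 1`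
  (`opt_add`), so `(1-δ) e - n + 1 ≥ n ((1-δ) α/2 - 1)`.
* `row_rr`: `u = M b`, `rr (ed x y) b = u x - u y`; `∑_{x<y} mult (u x - u y)² = u' L u = u' b` (`quad`,
  `lap_MM`). `row_qq`: the same with `u = M (M b)` (`qq (ed x y) b = u x - u y` by symmetry of `M`,
  `∑ M b = 0` by `sum_MM`).
* `cub_sum`: `∑_{x<y} mult x y (ed x y)' M³ (ed x y) = trace (M³ L) = trace (M²) - 1`
  (`M L = 1 - J/n`). With `b` the cheap edge and any pair `a = ed z w` (`z ≠ w`), `opt_two`: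
  `δ q_a ≤ (1 + R_a) ρ + 2 √(R_a) √(q_a ρ) ≤ (1 + R_a) ρ + (δ/2) q_a + (2/δ) R_a ρ` (`rr_cauchy`,
  `qq_cauchy`, `R_b ≤ 1`, `q_b ≤ ρ`), so `q_a ≤ (6ρ/δ²)(1 + R_a)`. Sum over all pairs `(z, w)`:
  `∑ q = 2n trace (M²) - 2n`, `∑ R = 2n (trace M - 1) ≤ 2 β n²`; so
  `trace (M²) - 1 ≤ (3ρ/δ²)(1 + 2β) n`.
-/

set_option autoImplicit false

namespace MPd2470a

open Matrix

variable {n : ℕ} {G : MG n}

/-- a symmetric sum over the pairs `x < y` -/
private theorem cw_half (f : Fin n → Fin n → ℝ) (hs : ∀ x y, f x y = f y x)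
    (h0 : ∀ x, f x x = 0) :
    ∑ x, ∑ y, (if x < y then f x y else 0) = (1 / 2) * ∑ x, ∑ y, f x y := by
  have h1 : ∑ x, ∑ y, f x y = ∑ x, ∑ y, (if x < y then f x y else 0) +
      ∑ x, ∑ y, (if y < x then f x y else 0) := by
    rw [← Finset.sum_add_distrib]
    refine Finset.sum_congr rfl fun x _ => ?_
    rw [← Finset.sum_add_distrib]
    refine Finset.sum_congr rfl fun y _ => ?_
    rcases lt_trichotomy x y with h | h | h
    · rw [if_pos h, if_neg (not_lt.2 h.le), add_zero]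
    · subst h
      rw [if_neg (lt_irrefl _), h0, add_zero]
    · rw [if_neg (not_lt.2 h.le), if_pos h, zero_add]
  have h2 : ∑ x, ∑ y, (if y < x then f x y else 0) =
      ∑ x, ∑ y, (if x < y then f x y else 0) := by
    rw [Finset.sum_comm]
    refine Finset.sum_congr rfl fun x _ => Finset.sum_congr rfl fun y _ => ?_
    rw [hs y x]
  rw [h2] at h1
  linarith

private theorem cw_ent (B : Matrix (Fin n) (Fin n) ℝ) (x y : Fin n) :
    ed x y ⬝ᵥ (B *ᵥ ed x y) = B x x + B y y - B x y - B y x := by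
  rw [dot_ed]
  have h1 : ∀ z, (B *ᵥ ed x y) z = B z x - B z y := by
    intro z
    have h2 : (B *ᵥ ed x y) z = B z ⬝ᵥ ed x y := rfl
    rw [h2, dotProduct_comm, dot_ed]
  rw [h1, h1]
  ring

/-- the general sum rule -/
private theorem cw_gen (G : MG n) (B : Matrix (Fin n) (Fin n) ℝ) :
    ∑ x, ∑ y, (if x < y then (G.mult x y : ℝ) * (ed x y ⬝ᵥ (B *ᵥ ed x y)) else 0) =
      trace (B * lapM G) := by
  rw [cw_half (fun x y => (G.mult x y : ℝ) * (ed x y ⬝ᵥ (B *ᵥ ed x y)))]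
  · have h1 : ∑ x, ∑ y, (G.mult x y : ℝ) * (ed x y ⬝ᵥ (B *ᵥ ed x y)) =
        ∑ x, ∑ y, ((G.mult x y : ℝ) * B x x - (G.mult x y : ℝ) * B x y) +
        ∑ x, ∑ y, ((G.mult x y : ℝ) * B y y - (G.mult x y : ℝ) * B y x) := by
      rw [← Finset.sum_add_distrib]
      refine Finset.sum_congr rfl fun x _ => ?_
      rw [← Finset.sum_add_distrib]
      refine Finset.sum_congr rfl fun y _ => ?_
      rw [cw_ent]
      ring
    have h2 : ∑ x, ∑ y, ((G.mult x y : ℝ) * B y y - (G.mult x y : ℝ) * B y x) =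
        ∑ x, ∑ y, ((G.mult x y : ℝ) * B x x - (G.mult x y : ℝ) * B x y) := by
      rw [Finset.sum_comm]
      refine Finset.sum_congr rfl fun x _ => Finset.sum_congr rfl fun y _ => ?_
      rw [G.symm y x]
    have h3 : trace (B * lapM G) =
        ∑ x, ∑ y, ((G.mult x y : ℝ) * B x x - (G.mult x y : ℝ) * B x y) := by
      unfold trace
      refine Finset.sum_congr rfl fun x _ => ?_
      rw [diag_apply, mul_apply]
      have h4 : ∀ y, B x y * lapM G y x =
          (if y = x then (deg G x : ℝ) * B x x else 0) - (G.mult x y : ℝ) * B x y := by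
        intro y
        unfold lapM
        rw [of_apply, mul_sub, G.symm x y]
        congr 1
        · split_ifs with h
          · subst h
            ring
          · rw [mul_zero]
        · ring
      simp only [h4]
      rw [Finset.sum_sub_distrib, Finset.sum_sub_distrib, Finset.sum_ite_eq' Finset.univ x,
        if_pos (Finset.mem_univ x), ← Finset.sum_mul]
      congr 1
      unfold deg
      push_cast
      rfl
    rw [h1, h2, h3]
    ring
  · intro x y
    simp only [cw_ent]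
    rw [G.symm x y]
    ring
  · intro x
    rw [G.loopless x, Nat.cast_zero, zero_mul]

/-- sum over all pairs -/
private theorem cw_pairs (B : Matrix (Fin n) (Fin n) ℝ) :
    ∑ x, ∑ y, (if x < y then ed x y ⬝ᵥ (B *ᵥ ed x y) else 0) =
      (n : ℝ) * trace B - ∑ x, ∑ y, B x y := by
  rw [cw_half (fun x y => ed x y ⬝ᵥ (B *ᵥ ed x y))]
  · have h1 : ∑ x, ∑ y, ed x y ⬝ᵥ (B *ᵥ ed x y) =
        (∑ x : Fin n, ∑ _y : Fin n, B x x + ∑ _x : Fin n, ∑ y : Fin n, B y y -
          ∑ x, ∑ y, B x y) - ∑ x, ∑ y, B y x := by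
      simp only [cw_ent, Finset.sum_sub_distrib, Finset.sum_add_distrib]
    have h2 : ∑ x, ∑ y, B y x = ∑ x, ∑ y, B x y := Finset.sum_comm
    have h3 : ∑ x : Fin n, ∑ _y : Fin n, B x x = (n : ℝ) * trace B := by
      simp only [Finset.sum_const, Finset.card_univ, Fintype.card_fin, nsmul_eq_mul]
      rw [← Finset.mul_sum]
      rfl
    have h4 : ∑ _x : Fin n, ∑ y : Fin n, B y y = (n : ℝ) * trace B := by
      simp only [Finset.sum_const, Finset.card_univ, Fintype.card_fin, nsmul_eq_mul]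
      rfl
    rw [h1, h2, h3, h4]
    ring
  · intro x y
    rw [cw_ent, cw_ent]
    ring
  · intro x
    rw [ed_self]
    simp

private theorem cw_MJ (h : Conn G) : MM G * (Matrix.of fun _ _ : Fin n => 1 / (n : ℝ)) =
    Matrix.of fun _ _ : Fin n => 1 / (n : ℝ) := by
  ext x y
  simp only [mul_apply, of_apply]
  have h3 := congrFun (MM_one h) x
  have h4 : (MM G *ᵥ fun _ => (1 : ℝ)) x = ∑ z, MM G x z * 1 := rfl
  rw [h4] at h3
  simp only [mul_one] at h3
  rw [← Finset.sum_mul, h3, one_mul]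

private theorem cw_lap (h : Conn G) :
    MM G * lapM G = 1 - Matrix.of fun _ _ => 1 / (n : ℝ) := by
  have h1 := MM_mul_NM h
  unfold NM at h1
  rw [Matrix.mul_add, cw_MJ h] at h1
  exact eq_sub_of_add_eq h1

private theorem cw_ones (h : Conn G) : ∑ x, ∑ y, (MM G * MM G) x y = n := by
  have h1 : (MM G * MM G) *ᵥ (fun _ => (1 : ℝ)) = fun _ => (1 : ℝ) := by
    rw [← mulVec_mulVec, MM_one h, MM_one h]
  have h2 : ∀ x, ∑ y, (MM G * MM G) x y = 1 := by
    intro x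
    have h3 := congrFun h1 x
    have h4 : ((MM G * MM G) *ᵥ fun _ => (1 : ℝ)) x = ∑ z, (MM G * MM G) x z * 1 := rfl
    rw [h4] at h3
    simpa using h3
  simp [h2]

private theorem cw_ones1 (h : Conn G) : ∑ x, ∑ y, (MM G) x y = n := by
  have h2 : ∀ x, ∑ y, (MM G) x y = 1 := by
    intro x
    have h3 := congrFun (MM_one h) x
    have h4 : ((MM G) *ᵥ fun _ => (1 : ℝ)) x = ∑ z, (MM G) x z * 1 := rfl
    rw [h4] at h3
    simpa using h3
  simp [h2]

private theorem cw_qq (G : MG n) (a : Fin n → ℝ) : qq G a a = a ⬝ᵥ ((MM G * MM G) *ᵥ a) := by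
  unfold qq
  rw [← mulVec_mulVec, dotProduct_mulVec a, ← mulVec_transpose, MM_transpose]

private theorem cw_cub (G : MG n) (a : Fin n → ℝ) :
    cub G a = a ⬝ᵥ ((MM G * MM G * MM G) *ᵥ a) := by
  unfold cub rr
  rw [← mulVec_mulVec, ← mulVec_mulVec, dotProduct_mulVec a, ← mulVec_transpose, MM_transpose]

/-- number of edges as a sum -/
private theorem cw_edges (G : MG n) :
    ∑ x, ∑ y, (if x < y then (G.mult x y : ℝ) else 0) = (G.numEdges : ℝ) := by
  unfold Pool.Agent.Lib.MP_cf7718_co.MGraph.numEdges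
  push_cast
  refine Finset.sum_congr rfl fun x _ => Finset.sum_congr rfl fun y _ => ?_
  split_ifs <;> simp

open Classical in
theorem cheap_weight {α β ρ δ : ℝ} (hρ : 0 < ρ) (hδ0 : 0 < δ) (hδ1 : δ < 1) (hn : 2 ≤ n)
    (ho : IsOpt α G) (h : Conn G) (htr : trace (MM G) - 1 ≤ β * n) :
    (n : ℝ) * ((1 - δ) * (α / 2) - 1 - β / ρ) ≤
      ∑ x, ∑ y, (if x < y ∧ IsCheap G δ ρ x y then (G.mult x y : ℝ) else 0) := by
  have hn0 : 0 < n := by omega
  have h1 := foster1 h hn0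
  have h2 := foster2 h hn0
  have h3 := cw_edges G
  have h4 := opt_add hn ho h
  obtain ⟨ω, hω⟩ : ∃ ω : ℝ, ω = ∑ x, ∑ y, (if x < y ∧ IsCheap G δ ρ x y then
    (G.mult x y : ℝ) else 0) := ⟨_, rfl⟩
  rw [← hω]
  have h5 : ρ * ((1 - δ) * (∑ x, ∑ y, (if x < y then (G.mult x y : ℝ) else 0)) -
      (∑ x, ∑ y, (if x < y then (G.mult x y : ℝ) * rr G (ed x y) (ed x y) else 0)) - ω) ≤
      ∑ x, ∑ y, (if x < y then (G.mult x y : ℝ) * qq G (ed x y) (ed x y) else 0) := by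
    rw [hω, Finset.mul_sum, ← Finset.sum_sub_distrib, ← Finset.sum_sub_distrib, Finset.mul_sum]
    refine Finset.sum_le_sum fun x _ => ?_
    rw [Finset.mul_sum, ← Finset.sum_sub_distrib, ← Finset.sum_sub_distrib, Finset.mul_sum]
    refine Finset.sum_le_sum fun y _ => ?_
    by_cases hxy : x < y
    · simp only [hxy, if_true, true_and]
      have hm : (0 : ℝ) ≤ G.mult x y := Nat.cast_nonneg _
      have hR := rr_nonneg h (ed x y)
      have hq := qq_nonneg G (ed x y)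
      by_cases hc : IsCheap G δ ρ x y
      · rw [if_pos hc]
        have h6 : 0 ≤ (G.mult x y : ℝ) * qq G (ed x y) (ed x y) := mul_nonneg hm hq
        have h7 : 0 ≤ ρ * ((G.mult x y : ℝ) * (δ + rr G (ed x y) (ed x y))) :=
          mul_nonneg hρ.le (mul_nonneg hm (by linarith))
        nlinarith
      · rw [if_neg hc, sub_zero]
        have h6 : ρ * (1 - δ - rr G (ed x y) (ed x y)) ≤ qq G (ed x y) (ed x y) := by
          by_cases h7 : δ ≤ 1 - rr G (ed x y) (ed x y)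
          · have h8 : ρ * (1 - rr G (ed x y) (ed x y)) < qq G (ed x y) (ed x y) := by
              by_contra h9
              exact hc ⟨h7, not_lt.1 h9⟩
            nlinarith
          · push Not at h7
            have : ρ * (1 - δ - rr G (ed x y) (ed x y)) ≤ 0 :=
              mul_nonpos_of_nonneg_of_nonpos hρ.le (by linarith)
            linarith
        have h7 := mul_le_mul_of_nonneg_left h6 hm
        linarith
    · simp [hxy]
  rw [h1, h2, h3] at h5
  have h6 : ρ * ((1 - δ) * (G.numEdges : ℝ) - ((n : ℝ) - 1) - ω) ≤ β * n := h5.trans htr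
  have h7 : (1 - δ) * (G.numEdges : ℝ) - ((n : ℝ) - 1) - ω ≤ β * n / ρ := by
    rw [le_div_iff₀ hρ]
    linarith
  have h8 : (1 - δ) * (α * n / 2 - 1) ≤ (1 - δ) * (G.numEdges : ℝ) :=
    mul_le_mul_of_nonneg_left h4.le (by linarith)
  have h9 : (n : ℝ) * ((1 - δ) * (α / 2) - 1 - β / ρ) =
      (1 - δ) * (α * n / 2) - n - β * n / ρ := by ring
  rw [h9]
  nlinarith

theorem row_rr (h : Conn G) (b : Fin n → ℝ) (hb : ∑ x, b x = 0) :
    ∑ x, ∑ y, (if x < y then (G.mult x y : ℝ) * rr G (ed x y) b ^ 2 else 0) = rr G b b := by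
  rw [cw_half (fun x y => (G.mult x y : ℝ) * rr G (ed x y) b ^ 2)]
  · have h1 := quad G (MM G *ᵥ b)
    rw [lap_MM h b hb, dotProduct_comm] at h1
    unfold rr
    rw [h1]
    congr 1
    refine Finset.sum_congr rfl fun x _ => Finset.sum_congr rfl fun y _ => ?_
    rw [dot_ed]
  · intro x y
    rw [G.symm x y, rr_dot, rr_dot]
    ring
  · intro x
    rw [G.loopless x, Nat.cast_zero, zero_mul]

theorem row_qq (h : Conn G) (b : Fin n → ℝ) (hb : ∑ x, b x = 0) :
    ∑ x, ∑ y, (if x < y then (G.mult x y : ℝ) * qq G (ed x y) b ^ 2 else 0) = cub G b := by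
  have hq : ∀ x y, qq G (ed x y) b = rr G (ed x y) (MM G *ᵥ b) := by
    intro x y
    unfold qq rr
    rw [dotProduct_mulVec (ed x y), ← mulVec_transpose, MM_transpose]
  simp only [hq]
  rw [row_rr h (MM G *ᵥ b) (by rw [sum_MM h, hb])]
  rfl

theorem cub_nonneg (h : Conn G) (b : Fin n → ℝ) : 0 ≤ cub G b := rr_nonneg h _

private theorem cw_num {δ ρ Ra qa m q r qb : ℝ} (hρ : 0 < ρ) (hδ0 : 0 < δ) (hδ1 : δ < 1)
    (hr : δ ≤ r) (hr1 : r ≤ 1) (hqb : qb ≤ ρ * r) (hRa : 0 ≤ Ra)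
    (hqa : 0 ≤ qa) (hm : m ^ 2 ≤ Ra * (1 - r)) (hq : q ^ 2 ≤ qa * qb)
    (ho : r * qa + 2 * m * q ≤ (1 + Ra) * qb) : qa ≤ 6 * ρ / δ ^ 2 * (1 + Ra) := by
  have hr0 : 0 < r := by linarith
  have h1 : qb ≤ ρ := by nlinarith
  have h2 : q ^ 2 ≤ qa * ρ := hq.trans (mul_le_mul_of_nonneg_left h1 hqa)
  have h3 : m ^ 2 ≤ Ra := by nlinarith
  -- `-2 m q ≤ δ/(2ρ) q² + (2ρ/δ) m²`
  have h4 : -(2 * m * q) ≤ δ / (2 * ρ) * q ^ 2 + 2 * ρ / δ * m ^ 2 := by
    have h5 : 0 ≤ (δ * q + 2 * ρ * m) ^ 2 / (2 * ρ * δ) := by positivity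
    have h6 : (δ * q + 2 * ρ * m) ^ 2 / (2 * ρ * δ) =
        δ / (2 * ρ) * q ^ 2 + 2 * ρ / δ * m ^ 2 + 2 * m * q := by
      field_simp
      ring
    linarith
  have h5 : δ / (2 * ρ) * q ^ 2 ≤ δ / 2 * qa := by
    have h6 : δ / (2 * ρ) * q ^ 2 ≤ δ / (2 * ρ) * (qa * ρ) :=
      mul_le_mul_of_nonneg_left h2 (by positivity)
    have h7 : δ / (2 * ρ) * (qa * ρ) = δ / 2 * qa := by
      field_simp
    linarith
  have h6 : 2 * ρ / δ * m ^ 2 ≤ 2 * ρ / δ * Ra := mul_le_mul_of_nonneg_left h3 (by positivity)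
  have h7 : δ * qa ≤ r * qa := mul_le_mul_of_nonneg_right hr hqa
  have h8 : (1 + Ra) * qb ≤ (1 + Ra) * ρ := mul_le_mul_of_nonneg_left h1 (by linarith)
  have h9 : δ / 2 * qa ≤ (1 + Ra) * ρ + 2 * ρ / δ * Ra := by linarith
  have h10 : qa ≤ 2 / δ * ((1 + Ra) * ρ + 2 * ρ / δ * Ra) := by
    have h11 : 2 / δ * (δ / 2 * qa) ≤ 2 / δ * ((1 + Ra) * ρ + 2 * ρ / δ * Ra) :=
      mul_le_mul_of_nonneg_left h9 (by positivity)
    have h12 : 2 / δ * (δ / 2 * qa) = qa := by
      field_simp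
    linarith
  have h11 : 2 / δ * ((1 + Ra) * ρ + 2 * ρ / δ * Ra) =
      2 * ρ / δ ^ 2 * (δ * (1 + Ra) + 2 * Ra) := by
    field_simp
  have h12 : 2 * ρ / δ ^ 2 * (δ * (1 + Ra) + 2 * Ra) ≤ 2 * ρ / δ ^ 2 * (3 * (1 + Ra)) := by
    refine mul_le_mul_of_nonneg_left ?_ (by positivity)
    nlinarith
  have h13 : 2 * ρ / δ ^ 2 * (3 * (1 + Ra)) = 6 * ρ / δ ^ 2 * (1 + Ra) := by ring
  linarith

theorem cub_sum {α β ρ δ : ℝ} (hρ : 0 < ρ) (hδ0 : 0 < δ) (hδ1 : δ < 1) (hn : 2 ≤ n)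
    (ho : IsOpt α G) (h : Conn G) (htr : trace (MM G) - 1 ≤ β * n) {x y : Fin n}
    (hxy : 0 < G.mult x y) (hch : IsCheap G δ ρ x y) :
    ∑ x, ∑ y, (if x < y then (G.mult x y : ℝ) * cub G (ed x y) else 0) ≤
      3 * ρ / δ ^ 2 * (1 + 2 * β) * n := by
  have hn0 : (0 : ℝ) < n := by
    have : 0 < n := by omega
    exact_mod_cast this
  -- the left side
  have hL : ∑ x, ∑ y, (if x < y then (G.mult x y : ℝ) * cub G (ed x y) else 0) =
      trace (MM G * MM G) - 1 := by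
    simp only [cw_cub]
    rw [cw_gen, Matrix.mul_assoc (MM G * MM G), cw_lap h, Matrix.mul_sub, Matrix.mul_one,
      Matrix.mul_assoc, cw_MJ h, cw_MJ h, trace_sub]
    congr 1
    simp only [trace, diag_apply, of_apply, Finset.sum_const, Finset.card_univ, Fintype.card_fin,
      nsmul_eq_mul]
    field_simp
  rw [hL]
  -- sums over all pairs
  have hQ : ∑ z, ∑ w, (if z < w then qq G (ed z w) (ed z w) else 0) =
      (n : ℝ) * trace (MM G * MM G) - n := by
    simp only [cw_qq]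
    rw [cw_pairs, cw_ones h]
  have hR : ∑ z, ∑ w, (if z < w then rr G (ed z w) (ed z w) else 0) =
      (n : ℝ) * trace (MM G) - n := by
    have := cw_pairs (MM G)
    rw [cw_ones1 h] at this
    exact this
  have hC : ∑ z : Fin n, ∑ w : Fin n, (if z < w then (1 : ℝ) else 0) ≤ (n : ℝ) ^ 2 / 2 := by
    have h1 : ∑ z : Fin n, ∑ w : Fin n, (if z < w then (1 : ℝ) else 0) =
        ∑ z : Fin n, ∑ w : Fin n, (if z < w then (if z = w then 0 else 1) else 0) := by
      refine Finset.sum_congr rfl fun z _ => Finset.sum_congr rfl fun w _ => ?_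
      by_cases hzw : z < w
      · rw [if_pos hzw, if_pos hzw, if_neg (ne_of_lt hzw)]
      · rw [if_neg hzw, if_neg hzw]
    rw [h1, cw_half (fun z w : Fin n => if z = w then (0 : ℝ) else 1)]
    · have h2 : ∑ z : Fin n, ∑ w : Fin n, (if z = w then (0 : ℝ) else 1) ≤
          ∑ _z : Fin n, ∑ _w : Fin n, (1 : ℝ) := by
        refine Finset.sum_le_sum fun z _ => Finset.sum_le_sum fun w _ => ?_
        split_ifs <;> norm_num
      have h3 : ∑ _z : Fin n, ∑ _w : Fin n, (1 : ℝ) = (n : ℝ) ^ 2 := by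
        simp
        ring
      linarith
    · intro z w
      by_cases hzw : z = w
      · rw [if_pos hzw, if_pos hzw.symm]
      · rw [if_neg hzw, if_neg (fun h => hzw h.symm)]
    · intro z
      rw [if_pos rfl]
  have hne : x ≠ y := by
    rintro rfl
    rw [G.loopless] at hxy
    exact absurd hxy (lt_irrefl _)
  have hpt : ∀ z w : Fin n, (if z < w then qq G (ed z w) (ed z w) else 0) ≤
      6 * ρ / δ ^ 2 * ((if z < w then (1 : ℝ) else 0) +
        (if z < w then rr G (ed z w) (ed z w) else 0)) := by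
    intro z w
    by_cases hzw : z < w
    · rw [if_pos hzw, if_pos hzw, if_pos hzw]
      have h1 := opt_two ho h hxy (ne_of_lt hzw)
      have h2 := rr_nonneg h (ed x y)
      have h3 := rr_cauchy h (ed z w) (ed x y)
      have h4 := qq_cauchy G (ed z w) (ed x y)
      refine cw_num hρ hδ0 hδ1 hch.1 (by linarith) hch.2 (rr_nonneg h _) (qq_nonneg G _)
        (m := rr G (ed z w) (ed x y)) (q := qq G (ed z w) (ed x y)) ?_ h4 h1
      rw [sub_sub_cancel]
      exact h3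
    · rw [if_neg hzw, if_neg hzw, if_neg hzw]
      simp
  have hS : ∑ z, ∑ w, (if z < w then qq G (ed z w) (ed z w) else 0) ≤
      6 * ρ / δ ^ 2 * (∑ z : Fin n, ∑ w : Fin n, (if z < w then (1 : ℝ) else 0) +
        ∑ z, ∑ w, (if z < w then rr G (ed z w) (ed z w) else 0)) := by
    rw [← Finset.sum_add_distrib, Finset.mul_sum]
    refine Finset.sum_le_sum fun z _ => ?_
    rw [← Finset.sum_add_distrib, Finset.mul_sum]
    exact Finset.sum_le_sum fun w _ => hpt z w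
  rw [hQ, hR] at hS
  have h1 : 6 * ρ / δ ^ 2 * (∑ z : Fin n, ∑ w : Fin n, (if z < w then (1 : ℝ) else 0) +
      ((n : ℝ) * trace (MM G) - n)) ≤ 6 * ρ / δ ^ 2 * ((n : ℝ) ^ 2 / 2 + β * n * n) := by
    refine mul_le_mul_of_nonneg_left ?_ (by positivity)
    nlinarith
  have h2 : (n : ℝ) * (trace (MM G * MM G) - 1) ≤
      (n : ℝ) * (3 * ρ / δ ^ 2 * (1 + 2 * β) * n) := by
    have h3 : 6 * ρ / δ ^ 2 * ((n : ℝ) ^ 2 / 2 + β * n * n) =
        (n : ℝ) * (3 * ρ / δ ^ 2 * (1 + 2 * β) * n) := by ring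
    linarith
  exact le_of_mul_le_mul_left h2 hn0

end MPd2470a
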