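import Pool.Agent.Lib.MP_d2470a_co.CompGen

/-!
# CompFive: a hub with pentagons

The vertex type is `Option ((Fin t × ZMod 5) ⊕ Fin s)`, `n = 5 t + s + 1`, `s < 5`; the hub is `none`.
A vertex of a pentagon has one edge to the hub and the two edges of its 5-cycle; the remaining
`s` vertices have two parallel edges to the hub. Number of edges `2 (n - 1)`. `comp_gen` with the
potentials `5/11, 2/11, 1/11, 1/11, 2/11` on a pentagon and `1/2` on the others.
-/

set_option autoImplicit false

namespace MPd2470a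

open scoped ENNReal

private theorem comp_transport {V : Type} [Fintype V] [DecidableEq V] (n : ℕ) (e : Fin n ≃ V)
    (m : V → V → ℕ) (hs : ∀ x y, m x y = m y x) (hl : ∀ x, m x x = 0) (c : V) (ψ : V → V → ℝ)
    (h0 : ∀ x y, 0 ≤ ψ x y) (hc : ∀ y, ψ c y = 0)
    (hpot : ∀ x z, ∑ w, (m z w : ℝ) * (ψ x z - ψ x w) =
      (if z = x then 1 else 0) - (if z = c then 1 else 0)) (E : ℕ)
    (hE : ∑ x, ∑ y, m x y = 2 * E) :
    ∃ G : MG n, G.numEdges = E ∧
      totRes G ≤ ENNReal.ofReal (((n : ℝ) - 1) * ∑ x, ψ x x) := by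
  refine ⟨⟨fun x y => m (e x) (e y), fun x y => hs _ _, fun x => hl _⟩, ?_, ?_⟩
  · have h1 : ∑ x, ∑ y, m (e x) (e y) = 2 * E := by
      rw [← hE, ← Equiv.sum_comp e]
      exact Finset.sum_congr rfl (fun x _ => Equiv.sum_comp e (fun y => m (e x) y))
    have h2 : ∑ x, ∑ y, m (e x) (e y) =
        (∑ x, ∑ y, if x < y then m (e x) (e y) else 0) +
          ∑ x, ∑ y, if y < x then m (e x) (e y) else 0 := by
      rw [← Finset.sum_add_distrib]
      refine Finset.sum_congr rfl (fun x _ => ?_)
      rw [← Finset.sum_add_distrib]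
      refine Finset.sum_congr rfl (fun y _ => ?_)
      rcases lt_trichotomy x y with hxy | hxy | hxy
      · rw [if_pos hxy, if_neg (not_lt.2 hxy.le), add_zero]
      · subst hxy
        simp [hl]
      · rw [if_neg (not_lt.2 hxy.le), if_pos hxy, zero_add]
    have h3 : (∑ x, ∑ y, if y < x then m (e x) (e y) else 0) =
        ∑ x, ∑ y, if x < y then m (e x) (e y) else 0 := by
      rw [Finset.sum_comm]
      refine Finset.sum_congr rfl (fun x _ => Finset.sum_congr rfl (fun y _ => ?_))
      rw [hs]
    rw [h3, h1] at h2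
    show (∑ x, ∑ y, if x < y then m (e x) (e y) else 0) = E
    omega
  · have h4 := comp_gen (⟨fun x y => m (e x) (e y), fun x y => hs _ _, fun x => hl _⟩ : MG n)
      (e.symm c) (fun x y => ψ (e x) (e y)) (fun x y => h0 _ _)
      (fun y => by simp [hc]) (fun x z => by
        have h5 := hpot (e x) (e z)
        rw [← Equiv.sum_comp e] at h5
        have h6 : (z = e.symm c) ↔ (e z = c) := by
          rw [Equiv.eq_symm_apply]
        simp only [h6]
        simpa using h5)
    have h7 : ∑ x, ψ (e x) (e x) = ∑ x, ψ x x := Equiv.sum_comp e (fun x => ψ x x)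
    rw [← h7]
    exact h4

/-- the vertex type -/
private abbrev VV (t s : ℕ) : Type := Option ((Fin t × ZMod 5) ⊕ Fin s)

private def mm {t s : ℕ} : VV t s → VV t s → ℕ
  | none, none => 0
  | none, some (Sum.inl _) => 1
  | none, some (Sum.inr _) => 2
  | some (Sum.inl _), none => 1
  | some (Sum.inr _), none => 2
  | some (Sum.inl a), some (Sum.inl b) => if a.1 = b.1 then
      (if b.2 = a.2 + 1 then 1 else 0) + (if a.2 = b.2 + 1 then 1 else 0) else 0
  | some (Sum.inl _), some (Sum.inr _) => 0
  | some (Sum.inr _), some (Sum.inl _) => 0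
  | some (Sum.inr _), some (Sum.inr _) => 0

private noncomputable def cc : ZMod 5 → ℝ :=
  (![5 / 11, 2 / 11, 1 / 11, 1 / 11, 2 / 11] : Fin 5 → ℝ)

private noncomputable def pp {t s : ℕ} : VV t s → VV t s → ℝ
  | none, _ => 0
  | some _, none => 0
  | some (Sum.inl a), some (Sum.inl b) => if a.1 = b.1 then cc (b.2 - a.2) else 0
  | some (Sum.inl _), some (Sum.inr _) => 0
  | some (Sum.inr _), some (Sum.inl _) => 0
  | some (Sum.inr i), some (Sum.inr j) => if i = j then 1 / 2 else 0

private theorem cc_nonneg (d : ZMod 5) : 0 ≤ cc d := by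
  unfold cc
  revert d
  show ∀ d : Fin 5, _
  intro d
  fin_cases d <;> norm_num

private theorem cc_zero : cc 0 = 5 / 11 := rfl

private theorem cc_rel (d : ZMod 5) : 3 * cc d - cc (d + 1) - cc (d - 1) =
    if d = 0 then 1 else 0 := by
  have h : ∀ d : ZMod 5, d = 0 ∨ d = 1 ∨ d = 2 ∨ d = 3 ∨ d = 4 := by decide
  have c0 : cc 0 = 5 / 11 := rfl
  have c1 : cc 1 = 2 / 11 := rfl
  have c2 : cc 2 = 1 / 11 := rfl
  have c3 : cc 3 = 1 / 11 := rfl
  have c4 : cc 4 = 2 / 11 := rfl
  rcases h d with rfl | rfl | rfl | rfl | rfl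
  · rw [show (0 : ZMod 5) + 1 = 1 from by decide, show (0 : ZMod 5) - 1 = 4 from by decide, c0, c1,
      c4]
    norm_num
  · rw [show (1 : ZMod 5) + 1 = 2 from by decide, show (1 : ZMod 5) - 1 = 0 from by decide, c0, c1,
      c2, if_neg (by decide)]
    norm_num
  · rw [show (2 : ZMod 5) + 1 = 3 from by decide, show (2 : ZMod 5) - 1 = 1 from by decide, c1, c2,
      c3, if_neg (by decide)]
    norm_num
  · rw [show (3 : ZMod 5) + 1 = 4 from by decide, show (3 : ZMod 5) - 1 = 2 from by decide, c4, c2,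
      c3, if_neg (by decide)]
    norm_num
  · rw [show (4 : ZMod 5) + 1 = 0 from by decide, show (4 : ZMod 5) - 1 = 3 from by decide, c4, c0,
      c3, if_neg (by decide)]
    norm_num

private theorem cc_sum : ∑ d, cc d = 1 := by
  have h : ∑ d, cc d = cc 0 + cc 1 + cc 2 + cc 3 + cc 4 :=
    Fin.sum_univ_five (![5 / 11, 2 / 11, 1 / 11, 1 / 11, 2 / 11] : Fin 5 → ℝ)
  rw [h, show cc 0 = 5 / 11 from rfl, show cc 1 = 2 / 11 from rfl, show cc 2 = 1 / 11 from rfl,
    show cc 3 = 1 / 11 from rfl, show cc 4 = 2 / 11 from rfl]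
  norm_num

private theorem mm_symm {t s : ℕ} (x y : VV t s) : mm x y = mm y x := by
  rcases x with _ | (⟨i, r⟩ | i) <;> rcases y with _ | (⟨j, q⟩ | j) <;> try rfl
  show (if i = j then _ else 0) = (if j = i then _ else 0)
  simp only [eq_comm (a := i) (b := j)]
  rw [add_comm]

private theorem mm_self {t s : ℕ} (x : VV t s) : mm x x = 0 := by
  rcases x with _ | (⟨i, r⟩ | i) <;> try rfl
  show (if i = i then (if r = r + 1 then 1 else 0) + (if r = r + 1 then 1 else 0) else 0) = 0
  have h : ∀ r : ZMod 5, r ≠ r + 1 := by decide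
  simp [h r]

private theorem pp_nonneg {t s : ℕ} (x y : VV t s) : 0 ≤ pp x y := by
  rcases x with _ | (⟨i, r⟩ | i) <;> rcases y with _ | (⟨j, q⟩ | j) <;> try exact le_refl _
  · show 0 ≤ (if i = j then cc (q - r) else 0)
    split_ifs
    · exact cc_nonneg _
    · exact le_refl _
  · show (0 : ℝ) ≤ (if i = j then 1 / 2 else 0)
    split_ifs <;> norm_num

/-- sum over the neighbours in the pentagon -/
private theorem sum_pent {t : ℕ} {R : Type} [Semiring R] (j : Fin t) (q : ZMod 5)
    (H : Fin t × ZMod 5 → R) :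
    ∑ b : Fin t × ZMod 5, (((if j = b.1 then
      (if b.2 = q + 1 then 1 else 0) + (if q = b.2 + 1 then 1 else 0) else 0 : ℕ)) : R) * H b =
      H (j, q + 1) + H (j, q - 1) := by
  rw [Fintype.sum_prod_type, Finset.sum_eq_single j]
  · have h : ∀ b : ZMod 5, (((if j = j then
        (if b = q + 1 then 1 else 0) + (if q = b + 1 then 1 else 0) else 0 : ℕ)) : R) * H (j, b) =
        (if b = q + 1 then H (j, b) else 0) + (if b = q - 1 then H (j, b) else 0) := by
      intro b
      have hb : (q = b + 1) ↔ (b = q - 1) := by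
        constructor
        · intro h
          rw [h]
          ring
        · intro h
          rw [h]
          ring
      rw [if_pos rfl, Nat.cast_add, add_mul]
      congr 1
      · split_ifs <;> simp
      · by_cases hq : q = b + 1
        · rw [if_pos hq, if_pos (hb.1 hq)]
          simp
        · rw [if_neg hq, if_neg (fun h => hq (hb.2 h))]
          simp
    rw [Finset.sum_congr rfl (fun b _ => h b), Finset.sum_add_distrib, Finset.sum_ite_eq',
      Finset.sum_ite_eq', if_pos (Finset.mem_univ _), if_pos (Finset.mem_univ _)]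
  · intro i _ hi
    refine Finset.sum_eq_zero (fun b _ => ?_)
    rw [if_neg (fun h => hi h.symm)]
    simp
  · intro h
    exact absurd (Finset.mem_univ _) h

private theorem pot {t s : ℕ} (x z : VV t s) : ∑ w, (mm z w : ℝ) * (pp x z - pp x w) =
    (if z = x then 1 else 0) - (if z = none then 1 else 0) := by
  rw [Fintype.sum_option, Fintype.sum_sum_type]
  rcases z with _ | (⟨j, q⟩ | j)
  · -- the hub
    have e0 : (mm (none : VV t s) none : ℝ) = 0 := by simp [mm]
    have e1 : ∀ a : Fin t × ZMod 5, (mm (none : VV t s) (some (Sum.inl a)) : ℝ) = 1 := by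
      intro a
      simp [mm]
    have e2 : ∀ a : Fin s, (mm (none : VV t s) (some (Sum.inr a)) : ℝ) = 2 := by
      intro a
      simp [mm]
    simp only [e0, e1, e2, zero_mul, zero_add, one_mul]
    rcases x with _ | (⟨i, r⟩ | i)
    · simp [pp]
    · have f0 : pp (some (Sum.inl (i, r)) : VV t s) none = 0 := rfl
      have f1 : ∀ a : Fin t × ZMod 5, pp (some (Sum.inl (i, r)) : VV t s) (some (Sum.inl a)) =
        if i = a.1 then cc (a.2 - r) else 0 := fun _ => rfl
      have f2 : ∀ a : Fin s, pp (some (Sum.inl (i, r)) : VV t s) (some (Sum.inr a)) = 0 :=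
        fun _ => rfl
      simp only [f0, f1, f2, sub_zero, mul_zero, Finset.sum_const_zero, add_zero, zero_sub,
        Finset.sum_neg_distrib]
      rw [Fintype.sum_prod_type, Finset.sum_eq_single i]
      · have : ∑ y : ZMod 5, (if i = i then cc (y - r) else 0) = 1 := by
          simp only [if_true]
          rw [← cc_sum]
          exact Equiv.sum_comp (Equiv.subRight r) cc
        rw [this]
        simp
      · intro i' _ hi
        refine Finset.sum_eq_zero (fun b _ => ?_)
        rw [if_neg (fun h => hi h.symm)]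
      · intro h
        exact absurd (Finset.mem_univ _) h
    · have f0 : pp (some (Sum.inr i) : VV t s) none = 0 := rfl
      have f1 : ∀ a : Fin t × ZMod 5, pp (some (Sum.inr i) : VV t s) (some (Sum.inl a)) = 0 :=
        fun _ => rfl
      have f2 : ∀ a : Fin s, pp (some (Sum.inr i) : VV t s) (some (Sum.inr a)) =
        if i = a then 1 / 2 else 0 := fun _ => rfl
      simp only [f0, f1, f2, sub_zero, Finset.sum_const_zero, zero_add, zero_sub, mul_neg,
        Finset.sum_neg_distrib, ← Finset.mul_sum]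
      simp
  · have e0 : (mm (some (Sum.inl (j, q)) : VV t s) none : ℝ) = 1 := by simp [mm]
    have e1 : ∀ b : Fin t × ZMod 5, (mm (some (Sum.inl (j, q)) : VV t s) (some (Sum.inl b)) : ℝ) =
      ((if j = b.1 then (if b.2 = q + 1 then 1 else 0) + (if q = b.2 + 1 then 1 else 0) else 0 :
        ℕ) : ℝ) := fun _ => rfl
    have e2 : ∀ a : Fin s, (mm (some (Sum.inl (j, q)) : VV t s) (some (Sum.inr a)) : ℝ) = 0 := by
      intro a
      simp [mm]
    simp only [e0, e1, e2, zero_mul, Finset.sum_const_zero, add_zero, one_mul]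
    rw [sum_pent j q (fun b => pp x (some (Sum.inl (j, q))) - pp x (some (Sum.inl b)))]
    rcases x with _ | (⟨i, r⟩ | i)
    · simp [pp]
    · have f0 : pp (some (Sum.inl (i, r)) : VV t s) none = 0 := rfl
      have f1 : ∀ a : ZMod 5, pp (some (Sum.inl (i, r)) : VV t s) (some (Sum.inl (j, a))) =
        if i = j then cc (a - r) else 0 := fun _ => rfl
      rw [f0, f1, f1, f1]
      by_cases hij : i = j
      · subst hij
        have h := cc_rel (q - r)
        rw [show q - r + 1 = q + 1 - r from by ring, show q - r - 1 = q - 1 - r from by ring] at h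
        simp only [if_true]
        have hz : ((some (Sum.inl (i, q)) : VV t s) = some (Sum.inl (i, r))) ↔ (q - r = 0) := by
          rw [sub_eq_zero]
          simp
        simp only [hz, reduceCtorEq, if_false]
        linarith
      · have hz : ¬ ((some (Sum.inl (j, q)) : VV t s) = some (Sum.inl (i, r))) := by
          simp only [Option.some.injEq, Sum.inl.injEq, Prod.mk.injEq, not_and]
          intro h
          exact absurd h.symm hij
        simp [hz, hij]
    · simp [pp]
  · have e0 : (mm (some (Sum.inr j) : VV t s) none : ℝ) = 2 := by simp [mm]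
    have e1 : ∀ a : Fin t × ZMod 5, (mm (some (Sum.inr j) : VV t s) (some (Sum.inl a)) : ℝ) = 0 := by
      intro a
      simp [mm]
    have e2 : ∀ a : Fin s, (mm (some (Sum.inr j) : VV t s) (some (Sum.inr a)) : ℝ) = 0 := by
      intro a
      simp [mm]
    simp only [e0, e1, e2, zero_mul, Finset.sum_const_zero, add_zero]
    rcases x with _ | (⟨i, r⟩ | i)
    · simp [pp]
    · simp [pp]
    · by_cases hij : i = j
      · subst hij
        simp [pp]
      · have hji : ¬ j = i := fun h => hij h.symm
        simp [pp, hij, hji]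

private theorem edges (t s : ℕ) : ∑ x : VV t s, ∑ y, mm x y = 2 * (2 * (5 * t + s)) := by
  rw [Fintype.sum_option, Fintype.sum_sum_type]
  have h0 : ∑ y : VV t s, mm none y = 5 * t + 2 * s := by
    rw [Fintype.sum_option, Fintype.sum_sum_type]
    simp [mm]
    ring
  have h1 : ∀ a : Fin t × ZMod 5, ∑ y : VV t s, mm (some (Sum.inl a)) y = 3 := by
    intro a
    rw [Fintype.sum_option, Fintype.sum_sum_type]
    have h := sum_pent (R := ℕ) a.1 a.2 (fun _ => 1)
    simp only [mul_one, Nat.cast_id] at h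
    have h2 : ∑ b : Fin t × ZMod 5, mm (some (Sum.inl a) : VV t s) (some (Sum.inl b)) = 1 + 1 := h
    rw [h2]
    simp [mm]
  have h2 : ∀ a : Fin s, ∑ y : VV t s, mm (some (Sum.inr a)) y = 2 := by
    intro a
    rw [Fintype.sum_option, Fintype.sum_sum_type]
    simp [mm]
  rw [h0]
  simp only [h1, h2]
  simp
  ring

private theorem diag (t s : ℕ) : ∑ x : VV t s, pp x x = 5 * t * (5 / 11) + s * (1 / 2) := by
  rw [Fintype.sum_option, Fintype.sum_sum_type]
  have h1 : ∀ a : Fin t × ZMod 5, pp (some (Sum.inl a) : VV t s) (some (Sum.inl a)) = 5 / 11 := by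
    intro a
    show (if a.1 = a.1 then cc (a.2 - a.2) else 0) = 5 / 11
    rw [if_pos rfl, sub_self, cc_zero]
  have h2 : ∀ a : Fin s, pp (some (Sum.inr a) : VV t s) (some (Sum.inr a)) = 1 / 2 := by
    intro a
    show (if a = a then (1 / 2 : ℝ) else 0) = 1 / 2
    rw [if_pos rfl]
  have h0 : pp (none : VV t s) none = 0 := rfl
  simp only [h0, h1, h2]
  simp
  ring

theorem comp_five (n : ℕ) (hn : 1 ≤ n) : ∃ G : MG n, G.numEdges ≤ 2 * (n - 1) ∧
    totRes G ≤ ENNReal.ofReal ((n : ℝ) * ((5 / 11) * n + 2)) := by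
  obtain ⟨t, s, hs, hts⟩ : ∃ t s : ℕ, s < 5 ∧ n = 5 * t + s + 1 :=
    ⟨(n - 1) / 5, (n - 1) % 5, Nat.mod_lt _ (by norm_num), by omega⟩
  have hcard : Fintype.card (Fin n) = Fintype.card (VV t s) := by
    simp [Fintype.card_option, Fintype.card_sum, Fintype.card_prod, ZMod.card]
    omega
  have e : Fin n ≃ VV t s := Fintype.equivOfCardEq hcard
  obtain ⟨G, hG1, hG2⟩ := comp_transport n e mm mm_symm mm_self none pp pp_nonneg
    (fun _ => rfl) pot (2 * (5 * t + s)) (edges t s)
  refine ⟨G, by omega, hG2.trans (ENNReal.ofReal_le_ofReal ?_)⟩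
  rw [diag]
  have hn' : (n : ℝ) = 5 * t + s + 1 := by
    rw [hts]
    push_cast
    ring
  have hs' : (s : ℝ) ≤ 4 := by
    have : s ≤ 4 := by omega
    exact_mod_cast this
  have ht0 : (0 : ℝ) ≤ t := Nat.cast_nonneg _
  have hs0 : (0 : ℝ) ≤ s := Nat.cast_nonneg _
  rw [hn']
  nlinarith [mul_nonneg ht0 hs0, mul_nonneg ht0 ht0, mul_nonneg hs0 hs0,
    mul_nonneg ht0 (sub_nonneg.2 hs'), mul_nonneg hs0 (sub_nonneg.2 hs')]

end MPd2470a
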