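import Pool.Agent.Lib.MP_d2470a_co.Defs

/-!
# CompGen: upper bound for the total resistance by potentials to a hub

`ψ x` is a potential for a unit current from `x` to `c`, `ψ ≥ 0`, `ψ c = 0`. Then `ψ x - ψ y` is a
potential from `x` to `y`, so
`effRes x y ≤ ofReal (ψ x x - ψ x y - ψ y x + ψ y y) ≤ ofReal (ψ x x + ψ y y)` (`iInf_le`), and
`∑_{x<y} (γ x + γ y) = (n - 1) ∑ γ`.
-/

set_option autoImplicit false

namespace MPd2470a

open scoped ENNReal

variable {n : ℕ}

private theorem cg_sum (γ : Fin n → ℝ) :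
    ∑ x, ∑ y, (if x < y then γ x + γ y else 0) = ((n : ℝ) - 1) * ∑ x, γ x := by
  have h1 : ∑ x, ∑ y, (if x < y then γ x + γ y else 0) =
      ∑ x, ∑ y, (if x < y then γ x else 0) + ∑ x, ∑ y, (if x < y then γ y else 0) := by
    rw [← Finset.sum_add_distrib]
    refine Finset.sum_congr rfl fun x _ => ?_
    rw [← Finset.sum_add_distrib]
    refine Finset.sum_congr rfl fun y _ => ?_
    split_ifs <;> simp
  have h2 : ∑ x : Fin n, ∑ y : Fin n, (if x < y then γ y else 0) =
      ∑ x, ∑ y, (if y < x then γ x else 0) := Finset.sum_comm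
  rw [h1, h2, ← Finset.sum_add_distrib, Finset.mul_sum]
  refine Finset.sum_congr rfl fun x _ => ?_
  rw [← Finset.sum_add_distrib]
  have h3 : ∀ y : Fin n, (if x < y then γ x else 0) + (if y < x then γ x else 0) =
      γ x - (if y = x then γ x else 0) := by
    intro y
    rcases lt_trichotomy x y with h | h | h
    · rw [if_pos h, if_neg (not_lt.2 h.le), if_neg (ne_of_gt h)]
      ring
    · subst h
      simp
    · rw [if_neg (not_lt.2 h.le), if_pos h, if_neg (ne_of_lt h)]
      ring
  rw [Finset.sum_congr rfl fun y _ => h3 y, Finset.sum_sub_distrib, Finset.sum_const,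
    Finset.card_univ, Fintype.card_fin, nsmul_eq_mul, Finset.sum_ite_eq' Finset.univ x,
    if_pos (Finset.mem_univ x)]
  ring

theorem comp_gen (G : MG n) (c : Fin n) (ψ : Fin n → Fin n → ℝ) (h0 : ∀ x y, 0 ≤ ψ x y)
    (hc : ∀ y, ψ c y = 0)
    (hpot : ∀ x z, ∑ w, (G.mult z w : ℝ) * (ψ x z - ψ x w) =
      (if z = x then 1 else 0) - (if z = c then 1 else 0)) :
    totRes G ≤ ENNReal.ofReal (((n : ℝ) - 1) * ∑ x, ψ x x) := by
  have _ := hc
  have hres : ∀ x y, G.effRes x y ≤ ENNReal.ofReal (ψ x x + ψ y y) := by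
    intro x y
    have hv : G.IsPotential x y (fun z => ψ x z - ψ y z) := by
      intro z
      have e1 : ∀ w, (G.mult z w : ℝ) * (ψ x z - ψ y z - (ψ x w - ψ y w)) =
          (G.mult z w : ℝ) * (ψ x z - ψ x w) - (G.mult z w : ℝ) * (ψ y z - ψ y w) := by
        intro w
        ring
      rw [Finset.sum_congr rfl fun w _ => e1 w, Finset.sum_sub_distrib, hpot x z, hpot y z]
      ring
    refine (iInf_le _ ⟨_, hv⟩).trans ?_
    apply ENNReal.ofReal_le_ofReal
    have h1 := h0 x y
    have h2 := h0 y x
    simp only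
    linarith
  calc totRes G ≤ ∑ x, ∑ y, ENNReal.ofReal (if x < y then ψ x x + ψ y y else 0) := by
        unfold totRes
        refine Finset.sum_le_sum fun x _ => Finset.sum_le_sum fun y _ => ?_
        split_ifs
        · exact hres x y
        · exact zero_le
    _ = ENNReal.ofReal (∑ x, ∑ y, (if x < y then ψ x x + ψ y y else 0)) := by
        rw [ENNReal.ofReal_sum_of_nonneg]
        · refine Finset.sum_congr rfl fun x _ => ?_
          rw [ENNReal.ofReal_sum_of_nonneg]
          intro y _
          split_ifs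
          · exact add_nonneg (h0 x x) (h0 y y)
          · exact le_rfl
        · intro x _
          refine Finset.sum_nonneg fun y _ => ?_
          split_ifs
          · exact add_nonneg (h0 x x) (h0 y y)
          · exact le_rfl
    _ = _ := by rw [cg_sum (fun x => ψ x x)]

end MPd2470a
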