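import Pool.Agent.Lib.MP_d2470a_co.BlkDefs

/-!
# MixBlock: `t` copies of a block and `s` leaves glued at a hub

Vertex type `Option ((Fin t × V) ⊕ Fin s)`, hub `none`; multiplicities: hub to `(i, x)`: `B.h x`, hub to
a leaf: `1`, `(i, x)` to `(i, y)`: `B.m x y`. Potentials `ψ (i, x) (i, y) = B.ψ x y`, `ψ l l = 1` for a leaf
`l`, all others `0`. The equation at the hub: `∑_z h z ψ x z = 1`, obtained from `pot` by summing over
`z` (the `m`-terms cancel by symmetry). Use `comp_gen`; transport from the vertex type to `Fin n` by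
an equivalence exactly as in `comp_transport` of `CompFive.lean` (private there: copy it), the
number of edges is half of the double sum of the multiplicities.
-/

set_option autoImplicit false

namespace MPd2470a

open scoped ENNReal

private theorem comp_transport {V : Type} [Fintype V] [DecidableEq V] (n : ℕ) (e : Fin n ≃ V)
    (m : V → V → ℕ) (hs : ∀ x y, m x y = m y x) (hl : ∀ x, m x x = 0) (c : V) (ψ : V → V → ℝ)
    (h0 : ∀ x y, 0 ≤ ψ x y) (hc : ∀ y, ψ c y = 0)
    (hpot : ∀ x z, ∑ w, (m z w : ℝ) * (ψ x z - ψ x w) =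
      (if z = x then 1 else 0) - (if z = c then 1 else 0)) :
    ∃ G : MG n, 2 * G.numEdges = ∑ x, ∑ y, m x y ∧
      totRes G ≤ ENNReal.ofReal (((n : ℝ) - 1) * ∑ x, ψ x x) := by
  refine ⟨⟨fun x y => m (e x) (e y), fun x y => hs _ _, fun x => hl _⟩, ?_, ?_⟩
  · have h1 : ∑ x, ∑ y, m (e x) (e y) = ∑ x, ∑ y, m x y := by
      rw [← Equiv.sum_comp e]
      exact Finset.sum_congr rfl (fun x _ => Equiv.sum_comp e (fun y => m (e x) y))
    have h2 : ∑ x, ∑ y, m (e x) (e y) =
        (∑ x, ∑ y, if x < y then m (e x) (e y) else 0) +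
          ∑ x, ∑ y, if y < x then m (e x) (e y) else 0 := by
      rw [← Finset.sum_add_distrib]
      refine Finset.sum_congr rfl (fun x _ => ?_)
      rw [← Finset.sum_add_distrib]
      refine Finset.sum_congr rfl (fun y _ => ?_)
      rcases lt_trichotomy x y with hxy | hxy | hxy
      · rw [if_pos hxy, if_neg (not_lt.2 hxy.le), add_zero]
      · subst hxy
        simp [hl]
      · rw [if_neg (not_lt.2 hxy.le), if_pos hxy, zero_add]
    have h3 : (∑ x, ∑ y, if y < x then m (e x) (e y) else 0) =
        ∑ x, ∑ y, if x < y then m (e x) (e y) else 0 := by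
      rw [Finset.sum_comm]
      refine Finset.sum_congr rfl (fun x _ => Finset.sum_congr rfl (fun y _ => ?_))
      rw [hs]
    rw [h3, h1] at h2
    show 2 * (∑ x, ∑ y, if x < y then m (e x) (e y) else 0) = ∑ x, ∑ y, m x y
    omega
  · have h4 := comp_gen (⟨fun x y => m (e x) (e y), fun x y => hs _ _, fun x => hl _⟩ : MG n)
      (e.symm c) (fun x y => ψ (e x) (e y)) (fun x y => h0 _ _)
      (fun y => by simp [hc]) (fun x z => by
        have h5 := hpot (e x) (e z)
        rw [← Equiv.sum_comp e] at h5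
        have h6 : (z = e.symm c) ↔ (e z = c) := by
          rw [Equiv.eq_symm_apply]
        simp only [h6]
        simpa using h5)
    have h7 : ∑ x, ψ (e x) (e x) = ∑ x, ψ x x := Equiv.sum_comp e (fun x => ψ x x)
    rw [← h7]
    exact h4

/-- the vertex type -/
private abbrev VV (V : Type) (t s : ℕ) : Type := Option ((Fin t × V) ⊕ Fin s)

variable {V : Type} [Fintype V] [DecidableEq V]

private def mm (B : Block V) {t s : ℕ} : VV V t s → VV V t s → ℕ
  | none, none => 0
  | none, some (Sum.inl a) => B.h a.2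
  | none, some (Sum.inr _) => 1
  | some (Sum.inl a), none => B.h a.2
  | some (Sum.inr _), none => 1
  | some (Sum.inl a), some (Sum.inl b) => if a.1 = b.1 then B.m a.2 b.2 else 0
  | some (Sum.inl _), some (Sum.inr _) => 0
  | some (Sum.inr _), some (Sum.inl _) => 0
  | some (Sum.inr _), some (Sum.inr _) => 0

private noncomputable def pp (B : Block V) {t s : ℕ} : VV V t s → VV V t s → ℝ
  | none, _ => 0
  | some _, none => 0
  | some (Sum.inl a), some (Sum.inl b) => if a.1 = b.1 then B.ψ a.2 b.2 else 0
  | some (Sum.inl _), some (Sum.inr _) => 0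
  | some (Sum.inr _), some (Sum.inl _) => 0
  | some (Sum.inr i), some (Sum.inr j) => if i = j then 1 else 0

private theorem mm_symm (B : Block V) {t s : ℕ} (x y : VV V t s) : mm B x y = mm B y x := by
  rcases x with _ | (⟨i, r⟩ | i) <;> rcases y with _ | (⟨j, q⟩ | j) <;> try rfl
  show (if i = j then _ else 0) = (if j = i then _ else 0)
  simp only [eq_comm (a := i) (b := j)]
  rw [B.symm]

private theorem mm_self (B : Block V) {t s : ℕ} (x : VV V t s) : mm B x x = 0 := by
  rcases x with _ | (⟨i, r⟩ | i) <;> try rfl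
  show (if i = i then B.m r r else 0) = 0
  rw [B.loopless]
  simp

private theorem pp_nonneg (B : Block V) {t s : ℕ} (x y : VV V t s) : 0 ≤ pp B x y := by
  rcases x with _ | (⟨i, r⟩ | i) <;> rcases y with _ | (⟨j, q⟩ | j) <;> try exact le_refl _
  · show 0 ≤ (if i = j then B.ψ r q else 0)
    split_ifs
    · exact B.nonneg _ _
    · exact le_refl _
  · show (0 : ℝ) ≤ (if i = j then 1 else 0)
    split_ifs <;> norm_num

/-- equation at the hub -/
private theorem hub_eq (B : Block V) (x : V) : ∑ z, (B.h z : ℝ) * B.ψ x z = 1 := by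
  have h1 : ∑ z, ((B.h z : ℝ) * B.ψ x z + ∑ w, (B.m z w : ℝ) * (B.ψ x z - B.ψ x w)) =
      ∑ z, (if z = x then (1 : ℝ) else 0) := Finset.sum_congr rfl (fun z _ => B.pot x z)
  rw [Finset.sum_add_distrib, Finset.sum_ite_eq' Finset.univ x, if_pos (Finset.mem_univ x)] at h1
  have h2 : ∑ z, ∑ w, (B.m z w : ℝ) * (B.ψ x z - B.ψ x w) = 0 := by
    have h3 : ∑ z, ∑ w, (B.m z w : ℝ) * (B.ψ x z - B.ψ x w) =
        ∑ z, ∑ w, (B.m z w : ℝ) * (B.ψ x w - B.ψ x z) := by
      rw [Finset.sum_comm]
      refine Finset.sum_congr rfl (fun z _ => Finset.sum_congr rfl (fun w _ => ?_))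
      rw [B.symm]
    have h4 : ∑ z, ∑ w, (B.m z w : ℝ) * (B.ψ x w - B.ψ x z) =
        - ∑ z, ∑ w, (B.m z w : ℝ) * (B.ψ x z - B.ψ x w) := by
      rw [← Finset.sum_neg_distrib]
      refine Finset.sum_congr rfl (fun z _ => ?_)
      rw [← Finset.sum_neg_distrib]
      refine Finset.sum_congr rfl (fun w _ => ?_)
      ring
    rw [h4] at h3
    linarith
  linarith

/-- sum over the neighbours in the block -/
private theorem sum_blk (B : Block V) {t : ℕ} {R : Type} [Semiring R] (j : Fin t) (q : V)
    (H : Fin t × V → R) :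
    ∑ b : Fin t × V, (((if j = b.1 then B.m q b.2 else 0 : ℕ)) : R) * H b =
      ∑ w, (B.m q w : R) * H (j, w) := by
  rw [Fintype.sum_prod_type, Finset.sum_eq_single j]
  · simp
  · intro i _ hi
    refine Finset.sum_eq_zero (fun b _ => ?_)
    rw [if_neg (fun h => hi h.symm)]
    simp
  · intro h
    exact absurd (Finset.mem_univ _) h

private theorem pot (B : Block V) {t s : ℕ} (x z : VV V t s) :
    ∑ w, (mm B z w : ℝ) * (pp B x z - pp B x w) =
    (if z = x then 1 else 0) - (if z = none then 1 else 0) := by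
  rw [Fintype.sum_option, Fintype.sum_sum_type]
  rcases z with _ | (⟨j, q⟩ | j)
  · -- the hub
    have e0 : (mm B (none : VV V t s) none : ℝ) = 0 := by simp [mm]
    have e1 : ∀ a : Fin t × V, (mm B (none : VV V t s) (some (Sum.inl a)) : ℝ) = B.h a.2 := by
      intro a
      simp [mm]
    have e2 : ∀ a : Fin s, (mm B (none : VV V t s) (some (Sum.inr a)) : ℝ) = 1 := by
      intro a
      simp [mm]
    simp only [e0, e1, e2, zero_mul, zero_add, one_mul]
    rcases x with _ | (⟨i, r⟩ | i)
    · simp [pp]
    · have f0 : pp B (some (Sum.inl (i, r)) : VV V t s) none = 0 := rfl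
      have f1 : ∀ a : Fin t × V, pp B (some (Sum.inl (i, r)) : VV V t s) (some (Sum.inl a)) =
        if i = a.1 then B.ψ r a.2 else 0 := fun _ => rfl
      have f2 : ∀ a : Fin s, pp B (some (Sum.inl (i, r)) : VV V t s) (some (Sum.inr a)) = 0 :=
        fun _ => rfl
      simp only [f0, f1, f2, sub_zero, mul_zero, Finset.sum_const_zero, add_zero, zero_sub,
        mul_neg, Finset.sum_neg_distrib]
      rw [Fintype.sum_prod_type, Finset.sum_eq_single i]
      · have : ∑ y : V, (B.h y : ℝ) * (if i = i then B.ψ r y else 0) = 1 := by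
          simp only [if_true]
          exact hub_eq B r
        rw [this]
        simp
      · intro i' _ hi
        refine Finset.sum_eq_zero (fun b _ => ?_)
        rw [if_neg (fun h => hi h.symm), mul_zero]
      · intro h
        exact absurd (Finset.mem_univ _) h
    · have f0 : pp B (some (Sum.inr i) : VV V t s) none = 0 := rfl
      have f1 : ∀ a : Fin t × V, pp B (some (Sum.inr i) : VV V t s) (some (Sum.inl a)) = 0 :=
        fun _ => rfl
      have f2 : ∀ a : Fin s, pp B (some (Sum.inr i) : VV V t s) (some (Sum.inr a)) =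
        if i = a then 1 else 0 := fun _ => rfl
      simp only [f0, f1, f2, sub_zero, mul_zero, Finset.sum_const_zero, zero_add, zero_sub,
        Finset.sum_neg_distrib]
      simp
  · have e0 : (mm B (some (Sum.inl (j, q)) : VV V t s) none : ℝ) = B.h q := by simp [mm]
    have e1 : ∀ b : Fin t × V, (mm B (some (Sum.inl (j, q)) : VV V t s) (some (Sum.inl b)) : ℝ) =
      ((if j = b.1 then B.m q b.2 else 0 : ℕ) : ℝ) := fun _ => rfl
    have e2 : ∀ a : Fin s, (mm B (some (Sum.inl (j, q)) : VV V t s) (some (Sum.inr a)) : ℝ) = 0 := by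
      intro a
      simp [mm]
    simp only [e0, e1, e2, zero_mul, Finset.sum_const_zero, add_zero]
    rw [sum_blk B j q (fun b => pp B x (some (Sum.inl (j, q))) - pp B x (some (Sum.inl b)))]
    rcases x with _ | (⟨i, r⟩ | i)
    · simp [pp]
    · have f0 : pp B (some (Sum.inl (i, r)) : VV V t s) none = 0 := rfl
      have f1 : ∀ a : V, pp B (some (Sum.inl (i, r)) : VV V t s) (some (Sum.inl (j, a))) =
        if i = j then B.ψ r a else 0 := fun _ => rfl
      simp only [f0, f1, sub_zero]
      by_cases hij : i = j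
      · subst hij
        have h := B.pot r q
        simp only [if_true]
        have hz : ((some (Sum.inl (i, q)) : VV V t s) = some (Sum.inl (i, r))) ↔ (q = r) := by
          simp
        simp only [hz, reduceCtorEq, if_false, sub_zero]
        exact h
      · have hz : ¬ ((some (Sum.inl (j, q)) : VV V t s) = some (Sum.inl (i, r))) := by
          simp only [Option.some.injEq, Sum.inl.injEq, Prod.mk.injEq, not_and]
          intro h
          exact absurd h.symm hij
        simp [hz, hij]
    · simp [pp]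
  · have e0 : (mm B (some (Sum.inr j) : VV V t s) none : ℝ) = 1 := by simp [mm]
    have e1 : ∀ a : Fin t × V, (mm B (some (Sum.inr j) : VV V t s) (some (Sum.inl a)) : ℝ) = 0 := by
      intro a
      simp [mm]
    have e2 : ∀ a : Fin s, (mm B (some (Sum.inr j) : VV V t s) (some (Sum.inr a)) : ℝ) = 0 := by
      intro a
      simp [mm]
    simp only [e0, e1, e2, zero_mul, Finset.sum_const_zero, add_zero]
    rcases x with _ | (⟨i, r⟩ | i)
    · simp [pp]
    · simp [pp]
    · by_cases hij : i = j
      · subst hij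
        simp [pp]
      · have hji : ¬ j = i := fun h => hij h.symm
        simp [pp, hij, hji]

private theorem edges (B : Block V) (t s : ℕ) :
    ∑ x : VV V t s, ∑ y, mm B x y = t * B.twoE + 2 * s := by
  rw [Fintype.sum_option, Fintype.sum_sum_type]
  have h0 : ∑ y : VV V t s, mm B none y = t * ∑ x, B.h x + s := by
    rw [Fintype.sum_option, Fintype.sum_sum_type, Fintype.sum_prod_type]
    simp [mm]
  have h1 : ∀ a : Fin t × V, ∑ y : VV V t s, mm B (some (Sum.inl a)) y =
      B.h a.2 + ∑ w, B.m a.2 w := by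
    intro a
    rw [Fintype.sum_option, Fintype.sum_sum_type]
    have h := sum_blk B (R := ℕ) a.1 a.2 (fun _ => 1)
    simp only [mul_one, Nat.cast_id] at h
    have h2 : ∑ b : Fin t × V, mm B (some (Sum.inl a) : VV V t s) (some (Sum.inl b)) =
        ∑ w, B.m a.2 w := h
    rw [h2]
    simp [mm]
  have h2 : ∀ a : Fin s, ∑ y : VV V t s, mm B (some (Sum.inr a)) y = 1 := by
    intro a
    rw [Fintype.sum_option, Fintype.sum_sum_type]
    simp [mm]
  rw [h0]
  simp only [h1, h2]
  rw [Fintype.sum_prod_type]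
  simp only [Finset.sum_add_distrib, Finset.sum_const, Finset.card_univ, Fintype.card_fin,
    smul_eq_mul, mul_one, Block.twoE]
  ring

private theorem diag (B : Block V) (t s : ℕ) :
    ∑ x : VV V t s, pp B x x = t * ∑ x, B.ψ x x + s := by
  rw [Fintype.sum_option, Fintype.sum_sum_type]
  have h1 : ∀ a : Fin t × V, pp B (some (Sum.inl a) : VV V t s) (some (Sum.inl a)) =
      B.ψ a.2 a.2 := by
    intro a
    show (if a.1 = a.1 then B.ψ a.2 a.2 else 0) = B.ψ a.2 a.2
    rw [if_pos rfl]
  have h2 : ∀ a : Fin s, pp B (some (Sum.inr a) : VV V t s) (some (Sum.inr a)) = 1 := by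
    intro a
    show (if a = a then (1 : ℝ) else 0) = 1
    rw [if_pos rfl]
  have h0 : pp B (none : VV V t s) none = 0 := rfl
  simp only [h0, h1, h2]
  rw [Fintype.sum_prod_type]
  simp

theorem mix_block {V : Type} [Fintype V] [DecidableEq V] (B : Block V) (t s n : ℕ)
    (hn : n = t * Fintype.card V + s + 1) :
    ∃ G : MG n, 2 * G.numEdges = t * B.twoE + 2 * s ∧
      totRes G ≤ ENNReal.ofReal (((n : ℝ) - 1) * (t * ∑ x, B.ψ x x + s)) := by
  have hcard : Fintype.card (Fin n) = Fintype.card (VV V t s) := by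
    simp [Fintype.card_option, Fintype.card_sum, Fintype.card_prod]
    omega
  have e : Fin n ≃ VV V t s := Fintype.equivOfCardEq hcard
  obtain ⟨G, hG1, hG2⟩ := comp_transport n e (mm B) (mm_symm B) (mm_self B) none (pp B)
    (pp_nonneg B) (fun _ => rfl) (pot B)
  refine ⟨G, hG1.trans (edges B t s), ?_⟩
  rw [diag] at hG2
  exact hG2

end MPd2470a
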