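import Pool.Agent.Lib.MP_d2470a_co.BlkMain
import Pool.Agent.Lib.MP_d2470a_co.MixBlock

/-!
# CompMix: the two competitors

* `comp_up`: block with `ε = 1/2000`, `N = card V`, `t = (n-1)/N`, `s = (n-1) % N < N`:
  `2 numEdges ≤ (24/7 + 1/2000) n + 2 N ≤ 7n/2` and `totRes ≤ n ((209/420 + 1/2000) n + N) ≤ (499/1000) n²`
  for `n` large (`209/420 + 1/2000 < 0.49812`).
* `comp_low`: block with `ε = 1/10000`, `t = ⌊(α - 2) n / ((10/7 + ε) N)⌋₊`, `s = n - 1 - t N`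
  (`t N ≤ (7/10) n ≤ n - 1` for `n ≥ 4`): `2 numEdges = t (twoE - 2N) + 2 (n - 1) ≤ (α - 2) n + 2 (n - 1)`,
  `totRes ≤ n (n - t N (1 - 209/420 - ε))`, `t N ≥ (α - 2) n / (10/7 + ε) - N` and
  `(211/420 - ε)/(10/7 + ε) ≥ 351/1000`; the error `n N` is `≤ n²/2000` for `n ≥ 2000 N`.
-/

set_option autoImplicit false

namespace MPd2470a

theorem comp_up : ∃ n0 : ℕ, ∀ n : ℕ, n0 ≤ n → ∃ G : MG n, (G.numEdges : ℝ) ≤ 7 / 4 * n ∧
    totRes G ≤ ENNReal.ofReal (499 / 1000 * n ^ 2) := by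
  obtain ⟨V, i1, i2, B, hN0, hE, hψ⟩ := exists_block (1 / 2000) (by norm_num)
  obtain ⟨N, hN⟩ : ∃ N, N = Fintype.card V := ⟨_, rfl⟩
  rw [← hN] at hN0 hE hψ
  refine ⟨2000 * N + 1, fun n hn => ?_⟩
  obtain ⟨t, ht⟩ : ∃ t, t = (n - 1) / N := ⟨_, rfl⟩
  obtain ⟨s, hs⟩ : ∃ s, s = (n - 1) % N := ⟨_, rfl⟩
  have hdm : t * N + s = n - 1 := by
    rw [ht, hs, mul_comm]
    exact Nat.div_add_mod _ _
  have hsN : s < N := by rw [hs]; exact Nat.mod_lt _ hN0
  have hn1 : n = t * Fintype.card V + s + 1 := by rw [← hN]; omega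
  obtain ⟨G, h1, h2⟩ := mix_block B t s n hn1
  have hnr : 2000 * (N : ℝ) + 1 ≤ n := by exact_mod_cast hn
  have hNr : (1 : ℝ) ≤ N := by exact_mod_cast hN0
  have htN : (t : ℝ) * N + s + 1 = n := by
    have : t * N + s + 1 = n := by omega
    exact_mod_cast this
  have hsr : (s : ℝ) ≤ N := by exact_mod_cast hsN.le
  have hs0 : (0 : ℝ) ≤ s := Nat.cast_nonneg s
  have ht0 : (0 : ℝ) ≤ t := Nat.cast_nonneg t
  refine ⟨G, ?_, h2.trans (ENNReal.ofReal_le_ofReal ?_)⟩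
  · have h3 : 2 * (G.numEdges : ℝ) = t * B.twoE + 2 * s := by exact_mod_cast h1
    have h4 := mul_le_mul_of_nonneg_left hE ht0
    nlinarith
  · have h4 := mul_le_mul_of_nonneg_left hψ ht0
    have h5 : (t : ℝ) * ∑ x, B.ψ x x + s ≤ (209 / 420 + 1 / 2000) * n + N := by
      nlinarith
    have h6 : ((n : ℝ) - 1) * (t * ∑ x, B.ψ x x + s) ≤
        n * ((209 / 420 + 1 / 2000) * n + N) := by
      apply mul_le_mul (by linarith) h5
      · apply add_nonneg _ hs0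
        apply mul_nonneg ht0
        exact Finset.sum_nonneg fun x _ => B.nonneg x x
      · linarith
    refine h6.trans ?_
    have h7 : (N : ℝ) ≤ n / 2000 := by linarith
    have h8 : (0 : ℝ) ≤ n := by linarith
    have h9 := mul_le_mul_of_nonneg_left h7 h8
    nlinarith [sq_nonneg (n : ℝ)]

theorem comp_low : ∃ n0 : ℕ, ∀ n : ℕ, n0 ≤ n → ∀ α : ℝ, 2 ≤ α → α ≤ 3 →
    ∃ G : MG n, (G.numEdges : ℝ) ≤ α * n / 2 ∧
      totRes G ≤ ENNReal.ofReal ((1 - 351 / 1000 * (α - 2) + 1 / 2000) * n ^ 2) := by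
  obtain ⟨V, i1, i2, B, hN0, hE, hψ⟩ := exists_block (1 / 10000) (by norm_num)
  obtain ⟨N, hN⟩ : ∃ N, N = Fintype.card V := ⟨_, rfl⟩
  rw [← hN] at hN0 hE hψ
  refine ⟨2000 * N + 4, fun n hn α hα2 hα3 => ?_⟩
  have hnr : 2000 * (N : ℝ) + 4 ≤ n := by exact_mod_cast hn
  have hNr : (1 : ℝ) ≤ N := by exact_mod_cast hN0
  have hn0 : (0 : ℝ) ≤ n := by linarith
  obtain ⟨κ, hκ⟩ : ∃ κ : ℝ, κ = 10 / 7 + 1 / 10000 := ⟨_, rfl⟩
  have hκ0 : 0 < κ := by rw [hκ]; norm_num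
  have hκN : 0 < κ * N := by positivity
  obtain ⟨t, ht⟩ : ∃ t, t = ⌊(α - 2) * n / (κ * N)⌋₊ := ⟨_, rfl⟩
  have hfl0 : 0 ≤ (α - 2) * n / (κ * N) := by
    apply div_nonneg _ hκN.le
    exact mul_nonneg (by linarith) hn0
  have ht1 : (t : ℝ) ≤ (α - 2) * n / (κ * N) := by rw [ht]; exact Nat.floor_le hfl0
  have ht2 : (α - 2) * n / (κ * N) < t + 1 := by rw [ht]; exact Nat.lt_floor_add_one _
  rw [le_div_iff₀ hκN] at ht1
  rw [div_lt_iff₀ hκN] at ht2
  have ht0 : (0 : ℝ) ≤ t := Nat.cast_nonneg t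
  have htNr : (t : ℝ) * N ≤ n - 1 := by
    have h1 : (α - 2) * n ≤ n := by nlinarith
    have h2 : (t : ℝ) * N * κ ≤ n := by nlinarith
    have h3 : (t : ℝ) * N * (10 / 7) ≤ t * N * κ := by
      apply mul_le_mul_of_nonneg_left
      · rw [hκ]; norm_num
      · positivity
    nlinarith
  have htN : t * N + 1 ≤ n := by
    have : (t : ℝ) * N + 1 ≤ n := by linarith
    exact_mod_cast this
  obtain ⟨s, hs⟩ : ∃ s, s = n - 1 - t * N := ⟨_, rfl⟩
  have hn1 : n = t * Fintype.card V + s + 1 := by rw [← hN]; omega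
  obtain ⟨G, h1, h2⟩ := mix_block B t s n hn1
  have htN' : (t : ℝ) * N + s + 1 = n := by
    have : t * N + s + 1 = n := by omega
    exact_mod_cast this
  have hs0 : (0 : ℝ) ≤ s := Nat.cast_nonneg s
  refine ⟨G, ?_, h2.trans (ENNReal.ofReal_le_ofReal ?_)⟩
  · have h3 : 2 * (G.numEdges : ℝ) = t * B.twoE + 2 * s := by exact_mod_cast h1
    have h4 := mul_le_mul_of_nonneg_left hE ht0
    have h5 : (t : ℝ) * ((24 / 7 + 1 / 10000) * N) = t * N * 2 + t * (κ * N) := by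
      rw [hκ]; ring
    nlinarith
  · have h4 := mul_le_mul_of_nonneg_left hψ ht0
    have h5 : (t : ℝ) * ∑ x, B.ψ x x + s ≤ n - (211 / 420 - 1 / 10000) * (t * N) := by
      nlinarith
    have h6 : ((n : ℝ) - 1) * (t * ∑ x, B.ψ x x + s) ≤
        n * (n - (211 / 420 - 1 / 10000) * (t * N)) := by
      apply mul_le_mul (by linarith) h5
      · apply add_nonneg _ hs0
        apply mul_nonneg ht0
        exact Finset.sum_nonneg fun x _ => B.nonneg x x
      · linarith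
    refine h6.trans ?_
    have h7 : (α - 2) * n < (t * N + N) * κ := by linarith
    have h8 : (t : ℝ) * N ≥ (α - 2) * n / κ - N := by
      have : (α - 2) * n / κ < t * N + N := by
        rw [div_lt_iff₀ hκ0]
        exact h7
      linarith
    have h9 : 351 / 1000 * ((α - 2) * n) ≤
        (211 / 420 - 1 / 10000) * ((α - 2) * n / κ) := by
      have h10 : 0 ≤ (α - 2) * n := mul_nonneg (by linarith) hn0
      have h11 : (211 / 420 - 1 / 10000) * ((α - 2) * n / κ) =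
          ((211 / 420 - 1 / 10000) / κ) * ((α - 2) * n) := by ring
      rw [h11]
      apply mul_le_mul_of_nonneg_right _ h10
      rw [le_div_iff₀ hκ0, hκ]
      norm_num
    have h12 : n - (211 / 420 - 1 / 10000) * (t * N) ≤
        n - 351 / 1000 * ((α - 2) * n) + n / 2000 := by
      have h13 : (N : ℝ) ≤ n / 2000 := by linarith
      nlinarith
    have h14 := mul_le_mul_of_nonneg_left h12 hn0
    refine h14.trans (le_of_eq ?_)
    ring

end MPd2470a
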