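import Pool.Agent.Lib.MP_d2470a_co.CycVal

/-!
# CycPos: stability of `cyc_val`

`K = {(g • 1, s • 1) : g ∈ [0, 333/500], s ∈ [σ, S1]}` is compact (continuous image) and
contained in the open set `U = {(Γ, Θ) : 0 < det (1 + cycA Γ) * trace (Θ adj(1 + cycA Γ) cycA)}`
(`cyc_val` times `s > 0`; polynomials in the entries are continuous: `Continuous.matrix_det`,
`Continuous.matrix_adjugate`). A compact set in an open set has an `ε`-neighbourhood inside
(`IsCompact.exists_cthickening_subset_open`, or a sequence argument; there is no global metric on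
`Matrix`: work with functions `ZMod 12 → ZMod 12 → ℝ` and `Matrix.of`).
-/

set_option autoImplicit false

namespace MPd2470a

open Matrix

private abbrev cycp_E : Type := ZMod 12 → ZMod 12 → ℝ

private noncomputable def cycp_F (q : cycp_E × cycp_E) : ℝ :=
  (1 + cycA * (Matrix.of q.1)).det *
    trace ((Matrix.of q.2) * (adjugate (1 + cycA * (Matrix.of q.1)) * cycA))

private theorem cycp_cont : Continuous cycp_F := by
  have h1 : Continuous (fun q : cycp_E × cycp_E => (Matrix.of q.1 : Matrix (ZMod 12) (ZMod 12) ℝ)) :=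
    continuous_fst
  have h2 : Continuous (fun q : cycp_E × cycp_E => (Matrix.of q.2 : Matrix (ZMod 12) (ZMod 12) ℝ)) :=
    continuous_snd
  have h3 : Continuous (fun q : cycp_E × cycp_E => 1 + cycA * (Matrix.of q.1)) :=
    continuous_const.add (continuous_const.matrix_mul h1)
  exact h3.matrix_det.mul (h2.matrix_mul (h3.matrix_adjugate.matrix_mul continuous_const)).matrix_trace

private def cycp_dg (g : ℝ) : cycp_E := fun i j => if i = j then g else 0

private theorem cycp_dg_cont : Continuous cycp_dg := by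
  refine continuous_pi fun i => continuous_pi fun j => ?_
  unfold cycp_dg
  split_ifs
  · exact continuous_id
  · exact continuous_const

private theorem cycp_of_dg (g : ℝ) :
    (Matrix.of (cycp_dg g) : Matrix (ZMod 12) (ZMod 12) ℝ) = g • 1 := by
  ext i j
  simp [cycp_dg, Matrix.one_apply]

theorem cyc_pos (σ S1 : ℝ) (hσ : 0 < σ) (hS : σ ≤ S1) : ∃ ε : ℝ, 0 < ε ∧ ∀ g s : ℝ, 0 ≤ g →
    g ≤ 333 / 500 → σ ≤ s → s ≤ S1 → ∀ Γ Θ : Matrix (ZMod 12) (ZMod 12) ℝ,
      (∀ i j, |Γ i j - (if i = j then g else 0)| ≤ ε) →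
      (∀ i j, |Θ i j - (if i = j then s else 0)| ≤ ε) →
      0 < (1 + cycA * Γ).det * trace (Θ * (adjugate (1 + cycA * Γ) * cycA)) := by
  set K : Set (cycp_E × cycp_E) :=
    (fun p : ℝ × ℝ => (cycp_dg p.1, cycp_dg p.2)) '' (Set.Icc 0 (333 / 500) ×ˢ Set.Icc σ S1)
    with hK
  have hKc : IsCompact K := by
    refine (isCompact_Icc.prod isCompact_Icc).image ?_
    exact (cycp_dg_cont.comp continuous_fst).prodMk (cycp_dg_cont.comp continuous_snd)
  have hU : IsOpen {q : cycp_E × cycp_E | 0 < cycp_F q} := isOpen_lt continuous_const cycp_cont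
  have hKU : K ⊆ {q : cycp_E × cycp_E | 0 < cycp_F q} := by
    rintro _ ⟨⟨g, s⟩, ⟨⟨hg0, hg1⟩, hs0, hs1⟩, rfl⟩
    show 0 < cycp_F (cycp_dg g, cycp_dg s)
    rw [cycp_F, cycp_of_dg, cycp_of_dg, Matrix.smul_mul, Matrix.one_mul, trace_smul, smul_eq_mul]
    have h1 := cyc_val g hg0 hg1
    have h2 : 0 < s := lt_of_lt_of_le hσ hs0
    have h3 : (1 + cycA * (g • (1 : Matrix (ZMod 12) (ZMod 12) ℝ))).det *
        (s * trace (adjugate (1 + cycA * (g • (1 : Matrix (ZMod 12) (ZMod 12) ℝ))) * cycA)) =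
        s * ((1 + cycA * (g • (1 : Matrix (ZMod 12) (ZMod 12) ℝ))).det *
        trace (adjugate (1 + cycA * (g • (1 : Matrix (ZMod 12) (ZMod 12) ℝ))) * cycA)) := by ring
    rw [h3]
    exact mul_pos h2 h1
  obtain ⟨δ, hδ, hsub⟩ := hKc.exists_thickening_subset_open hU hKU
  refine ⟨δ / 2, by positivity, fun g s hg0 hg1 hs0 hs1 Γ Θ hΓ hΘ => ?_⟩
  obtain ⟨γ, hγ⟩ : ∃ γ : cycp_E, ∀ i j, γ i j = Γ i j := ⟨fun i j => Γ i j, fun _ _ => rfl⟩
  obtain ⟨θ, hθ⟩ : ∃ θ : cycp_E, ∀ i j, θ i j = Θ i j := ⟨fun i j => Θ i j, fun _ _ => rfl⟩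
  have hΓ' : Γ = Matrix.of γ := by
    ext i j
    rw [Matrix.of_apply, hγ]
  have hΘ' : Θ = Matrix.of θ := by
    ext i j
    rw [Matrix.of_apply, hθ]
  have hd1 : dist γ (cycp_dg g) ≤ δ / 2 := by
    refine (dist_pi_le_iff (by positivity)).2 fun i => (dist_pi_le_iff (by positivity)).2 fun j => ?_
    rw [Real.dist_eq, hγ]
    exact hΓ i j
  have hd2 : dist θ (cycp_dg s) ≤ δ / 2 := by
    refine (dist_pi_le_iff (by positivity)).2 fun i => (dist_pi_le_iff (by positivity)).2 fun j => ?_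
    rw [Real.dist_eq, hθ]
    exact hΘ i j
  have hmem : (γ, θ) ∈ Metric.thickening δ K := by
    refine Metric.mem_thickening_iff.2 ⟨(cycp_dg g, cycp_dg s), ⟨(g, s), ⟨⟨hg0, hg1⟩, hs0, hs1⟩,
      rfl⟩, ?_⟩
    rw [Prod.dist_eq]
    exact max_lt (by linarith) (by linarith)
  have hfin : 0 < cycp_F (γ, θ) := hsub hmem
  rw [hΓ', hΘ']
  exact hfin

end MPd2470a
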