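import Pool.Agent.Lib.MP_d2470a_co.Defs

/-!
# CycVal: the cycle exchange is profitable when the Green function is at most `333/500`

For `g = 0`: `det 1 = 1`, `trace cycA = 12`. For `0 < g ≤ 333/500` put `y = (1 + g)/(2 g)`
(`y ≥ 1.2507`), `T_j` the Chebyshev polynomials, `D = 2 g (y T_6(y) - T_5(y)) = 2 g (y²-1) U_5(y) > 0`,
`c : ZMod 12 → ℝ`, `c k = T_{6-k}(y)/D` for `k = 0..6`, `c (12 - k) = c k`. Then
`(1 + g) c k - g c (k+1) - g c (k-1) = [k = 0]` (`fin_cases k`; `1 + g = 2 g y`), so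
`C i j = c (i - j)` is the inverse of `Z = 1 + cycA * (g • 1)` and
`trace (Z⁻¹ cycA) = (12 - trace Z⁻¹)/g = 12 (1 - c 0)/g` (`cycA = (Z - 1)/g`). `c 0 < 1` is
`T_6(y) < 2 g (y² - 1) U_5(y)`, i.e. with `2 g = 2/(2y - 1)`
`32y⁶ - 32y⁵ - 48y⁴ + 40y³ + 18y² - 10y - 1 > 0`, true for `y ≥ 1.2507` (substitute
`y = 12507/10000 + t`: all coefficients are positive). Finally
`det Z * trace (adj Z * cycA) = (det Z)² trace (Z⁻¹ cycA)`.
(`T_0 = 1`, `T_1 = y`, `T_2 = 2y²-1`, `T_3 = 4y³-3y`, `T_4 = 8y⁴-8y²+1`, `T_5 = 16y⁵-20y³+5y`,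
`T_6 = 32y⁶-48y⁴+18y²-1`, `U_5 = 32y⁵-32y³+6y`.)
-/

set_option autoImplicit false

namespace MPd2470a

open Matrix

private theorem cycv_sum (a b : ℝ) (t : ZMod 12 → ℝ) (i : ZMod 12) :
    (circulant (fun m : ZMod 12 => (if m = 0 then a else 0) +
      (if m = 1 then b else 0) + (if m = -1 then b else 0)) *ᵥ t) i =
      a * t i + b * t (i - 1) + b * t (i + 1) := by
  rw [mulVec, dotProduct]
  simp only [circulant_apply, add_mul, ite_mul, zero_mul]
  rw [Finset.sum_add_distrib, Finset.sum_add_distrib]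
  have s1 : ∑ j : ZMod 12, (if i - j = 0 then a * t j else 0) = a * t i := by
    rw [Finset.sum_eq_single i]
    · simp
    · intro j _ hj
      rw [if_neg (by rw [sub_eq_zero]; exact fun h => hj h.symm)]
    · intro h; exact absurd (Finset.mem_univ _) h
  have s2 : ∑ j : ZMod 12, (if i - j = 1 then b * t j else 0) = b * t (i - 1) := by
    rw [Finset.sum_eq_single (i - 1)]
    · simp
    · intro j _ hj
      rw [if_neg (by
        intro h
        apply hj
        rw [← h]; ring)]
    · intro h; exact absurd (Finset.mem_univ _) h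
  have s3 : ∑ j : ZMod 12, (if i - j = -1 then b * t j else 0) = b * t (i + 1) := by
    rw [Finset.sum_eq_single (i + 1)]
    · simp
    · intro j _ hj
      rw [if_neg (by
        intro h
        apply hj
        have : j = i - (i - j) := by ring
        rw [this, h]; ring)]
    · intro h; exact absurd (Finset.mem_univ _) h
  rw [s1, s2, s3]

private theorem cycv_mul (g D : ℝ) (t : ZMod 12 → ℝ) (hD : D ≠ 0)
    (h : ∀ i : ZMod 12, (1 + g) * t i - g * t (i - 1) - g * t (i + 1) = if i = 0 then D else 0) :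
    (1 + cycA * (g • (1 : Matrix (ZMod 12) (ZMod 12) ℝ))) *
      (circulant (fun k : ZMod 12 => t k / D)) = 1 := by
  have hZ : (1 + cycA * (g • (1 : Matrix (ZMod 12) (ZMod 12) ℝ))) =
      circulant (fun m : ZMod 12 => (if m = 0 then 1 + g else 0) + (if m = 1 then -g else 0) +
        (if m = -1 then -g else 0)) := by
    ext i j
    rw [Matrix.mul_smul, Matrix.mul_one, Matrix.add_apply, Matrix.smul_apply, smul_eq_mul,
      circulant_apply, cycA, Matrix.of_apply, Matrix.one_apply]
    have e1 : (i - j = 0) ↔ (i = j) := sub_eq_zero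
    have e2 : (i - j = 1) ↔ (i = j + 1) := by
      rw [sub_eq_iff_eq_add, add_comm 1 j]
    have e3 : (i - j = -1) ↔ (j = i + 1) := by
      constructor
      · intro h
        have : j = i - (i - j) := by ring
        rw [this, h]; ring
      · intro h
        rw [h]; ring
    simp only [e1, e2, e3]
    by_cases h1 : i = j
    · subst h1
      have h2 : ¬ (i = i + 1) := by
        intro h
        have h4 : (0 : ZMod 12) = 1 := by linear_combination h
        exact absurd h4 (by decide)
      rw [if_pos rfl, if_pos rfl, if_pos rfl, if_neg h2]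
      ring
    · by_cases h2 : i = j + 1
      · have h3 : ¬ (j = i + 1) := by
          rw [h2]
          intro h
          have h4 : (0 : ZMod 12) = 2 := by linear_combination h
          exact absurd h4 (by decide)
        rw [if_neg h1, if_neg h1, if_pos (Or.inl h2), if_neg h1, if_pos h2, if_neg h3]
        ring
      · by_cases h3 : j = i + 1
        · rw [if_neg h1, if_neg h1, if_pos (Or.inr h3), if_neg h1, if_neg h2, if_pos h3]
          ring
        · rw [if_neg h1, if_neg h1, if_neg (by tauto), if_neg h1, if_neg h2, if_neg h3]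
          ring
  rw [hZ, circulant_mul, ← circulant_single_one]
  congr 1
  funext i
  have hsum := cycv_sum (1 + g) (-g) (fun k => t k / D) i
  rw [hsum]
  have h1 := h i
  have h2 : (1 + g) * (t i / D) + -g * (t (i - 1) / D) + -g * (t (i + 1) / D) =
      ((1 + g) * t i - g * t (i - 1) - g * t (i + 1)) / D := by
    field_simp
    ring
  have h3 : ((1 + g) * t i - g * t (i - 1) - g * t (i + 1)) / D =
      (if i = 0 then D else 0) / D := by
    rw [← h1]
  rw [h2, h3, Pi.single_apply]
  split_ifs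
  · exact div_self hD
  · exact zero_div D

private theorem cycv_cheb (y : ℝ) (hy : 12507 / 10000 ≤ y) :
    2 * (16 * y ^ 5 - 20 * y ^ 3 + 5 * y) < 32 * y ^ 6 - 48 * y ^ 4 + 18 * y ^ 2 - 1 := by
  obtain ⟨t, ht, rfl⟩ : ∃ t : ℝ, 0 ≤ t ∧ y = 12507 / 10000 + t :=
    ⟨y - 12507 / 10000, by linarith, by ring⟩
  rw [← sub_pos]
  ring_nf
  positivity

theorem cyc_val (g : ℝ) (h0 : 0 ≤ g) (h1 : g ≤ 333 / 500) :
    0 < (1 + cycA * (g • (1 : Matrix (ZMod 12) (ZMod 12) ℝ))).det *
      trace (adjugate (1 + cycA * (g • (1 : Matrix (ZMod 12) (ZMod 12) ℝ))) * cycA) := by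
  have htr : trace cycA = 12 := by
    simp [trace, cycA, ZMod.card]
  rcases h0.eq_or_lt with rfl | hg
  · rw [zero_smul, Matrix.mul_zero, add_zero, det_one, adjugate_one, Matrix.one_mul, htr]
    norm_num
  set Z := 1 + cycA * (g • (1 : Matrix (ZMod 12) (ZMod 12) ℝ)) with hZ
  set y : ℝ := (1 + g) / (2 * g) with hy
  have hgy : 2 * g * y = 1 + g := by rw [hy]; field_simp
  have hy1 : 12507 / 10000 ≤ y := by
    rw [hy, le_div_iff₀ (by positivity)]
    linarith
  set T2 : ℝ := 2 * y ^ 2 - 1 with hT2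
  set T3 : ℝ := 4 * y ^ 3 - 3 * y with hT3
  set T4 : ℝ := 8 * y ^ 4 - 8 * y ^ 2 + 1 with hT4
  set T5 : ℝ := 16 * y ^ 5 - 20 * y ^ 3 + 5 * y with hT5
  set T6 : ℝ := 32 * y ^ 6 - 48 * y ^ 4 + 18 * y ^ 2 - 1 with hT6
  set D : ℝ := 2 * g * (y * T6 - T5) with hDdef
  have hyT : 0 < y * T6 - T5 := by
    have e : y * T6 - T5 = (y ^ 2 - 1) * (y * (32 * y ^ 4 - 32 * y ^ 2 + 6)) := by
      rw [hT6, hT5]; ring
    rw [e]
    have e1 : 0 < y ^ 2 - 1 := by nlinarith
    have e2 : 0 < y := by linarith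
    have e3 : 0 < 32 * y ^ 4 - 32 * y ^ 2 + 6 := by
      have : 32 * y ^ 4 - 32 * y ^ 2 + 6 = 32 * y ^ 2 * (y ^ 2 - 1) + 6 := by ring
      rw [this]; positivity
    positivity
  have hD : 0 < D := by rw [hDdef]; positivity
  have h65 : 2 * T5 < T6 := by
    rw [hT6, hT5]
    exact cycv_cheb y hy1
  set t : ZMod 12 → ℝ := (![T6, T5, T4, T3, T2, y, 1, y, T2, T3, T4, T5] : Fin 12 → ℝ) with ht
  have hmul := cycv_mul g D t hD.ne' (by
    intro i
    change Fin 12 at i
    fin_cases i
    · show (1 + g) * T6 - g * T5 - g * T5 = D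
      rw [hDdef, ← hgy]; ring
    · show (1 + g) * T5 - g * T6 - g * T4 = 0
      rw [← hgy, hT6, hT5, hT4]; ring
    · show (1 + g) * T4 - g * T5 - g * T3 = 0
      rw [← hgy, hT3, hT5, hT4]; ring
    · show (1 + g) * T3 - g * T4 - g * T2 = 0
      rw [← hgy, hT3, hT2, hT4]; ring
    · show (1 + g) * T2 - g * T3 - g * y = 0
      rw [← hgy, hT3, hT2]; ring
    · show (1 + g) * y - g * T2 - g * 1 = 0
      rw [← hgy, hT2]; ring
    · show (1 + g) * 1 - g * y - g * y = 0
      rw [← hgy]; ring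
    · show (1 + g) * y - g * 1 - g * T2 = 0
      rw [← hgy, hT2]; ring
    · show (1 + g) * T2 - g * y - g * T3 = 0
      rw [← hgy, hT3, hT2]; ring
    · show (1 + g) * T3 - g * T2 - g * T4 = 0
      rw [← hgy, hT3, hT2, hT4]; ring
    · show (1 + g) * T4 - g * T3 - g * T5 = 0
      rw [← hgy, hT3, hT5, hT4]; ring
    · show (1 + g) * T5 - g * T4 - g * T6 = 0
      rw [← hgy, hT6, hT5, hT4]; ring)
  rw [← hZ] at hmul
  set C := circulant (fun k : ZMod 12 => t k / D) with hC
  have hdet : Z.det * C.det = 1 := by rw [← det_mul, hmul, det_one]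
  have hdet0 : Z.det ≠ 0 := left_ne_zero_of_mul (by rw [hdet]; exact one_ne_zero)
  have hadj : adjugate Z = Z.det • C := by
    calc adjugate Z = adjugate Z * (Z * C) := by rw [hmul, Matrix.mul_one]
      _ = (adjugate Z * Z) * C := by rw [Matrix.mul_assoc]
      _ = Z.det • C := by rw [adjugate_mul, Matrix.smul_mul, Matrix.one_mul]
  have hCZ : C * Z = 1 := mul_eq_one_comm.1 hmul
  have htrC : trace C = 12 * (T6 / D) := by
    have : ∀ i : ZMod 12, C i i = T6 / D := by
      intro i
      rw [hC, circulant_apply, sub_self]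
      rfl
    simp only [trace, diag_apply, this]
    simp [ZMod.card]
  have hg1 : g * trace (C * cycA) = 12 - 12 * (T6 / D) := by
    have e1 : g • cycA = Z - 1 := by
      rw [hZ, Matrix.mul_smul, Matrix.mul_one, add_sub_cancel_left]
    have e2 : g • (C * cycA) = 1 - C := by
      rw [← Matrix.mul_smul, e1, Matrix.mul_sub, hCZ, Matrix.mul_one]
    have e3 := congrArg trace e2
    rw [trace_smul, trace_sub, htrC, smul_eq_mul, trace_one] at e3
    rw [e3]
    simp [ZMod.card]
  have hc0 : T6 / D < 1 := by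
    rw [div_lt_one hD, hDdef]
    have e1 : g * (2 * y - 1) = 1 := by linarith [hgy]
    have e2 : 2 * g * (y * T6 - T5) - T6 = g * (T6 - 2 * T5) := by
      linear_combination T6 * e1
    have e3 : 0 < g * (T6 - 2 * T5) := mul_pos hg (by linarith)
    linarith
  have hpos : 0 < trace (C * cycA) := by
    have e1 : 0 < g * trace (C * cycA) := by rw [hg1]; linarith
    exact (pos_iff_pos_of_mul_pos e1).1 hg
  rw [hadj, Matrix.smul_mul, trace_smul, smul_eq_mul, ← mul_assoc]
  have : 0 < Z.det * Z.det := mul_self_pos.2 hdet0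
  exact mul_pos this hpos

end MPd2470a
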