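import Mathlib
import Pool.Agent.Lib.MP_cf7718_co.Defs

/-!
# MP_d2470a_co: high-degree vertices in graphs minimising average effective resistance

`MG n` = finite loopless multigraphs on `Fin n` (from `Lib/MP_cf7718_co`), `deg`, `totRes` =
`∑_{x < y} R_xy`, `IsOpt α G` = `G` has at most `α n / 2` edges and minimal `totRes`.

`NM G = L + J / n` (`L` = Laplacian, `J` = all ones), `MM G` its inverse, `Conn G` = `NM G` is
invertible (`G` is connected), `ed x y = e_x - e_y`, `rr G a b = a' M b` (so `rr (ed x y) (ed x y)` is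
the effective resistance), `qq G a b = a' M² b`.

For a fixed vertex `v`: `gg G v x y = (e_x - e_v)' M (e_y - e_v)` (Green function with pole `v`),
`ss G v x y = (e_x - e_v)' M² (e_y - e_v)`, `tt G v x = ∑_y gg G v x y`.

`cycA` = Laplacian of the 12-cycle minus the identity.
-/

set_option autoImplicit false

namespace MPd2470a

open Matrix
open scoped ENNReal

/-- multigraphs without loops on `Fin n` -/
abbrev MG (n : ℕ) : Type := Pool.Agent.Lib.MP_cf7718_co.MGraph n

variable {n : ℕ}

/-- degree, with multiplicity -/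
def deg (G : MG n) (x : Fin n) : ℕ := ∑ y, G.mult x y

/-- `∑_{x < y} R_xy` -/
noncomputable def totRes (G : MG n) : ℝ≥0∞ := ∑ x, ∑ y, if x < y then G.effRes x y else 0

/-- optimal graphs -/
def IsOpt (α : ℝ) (G : MG n) : Prop :=
  (G.numEdges : ℝ) ≤ α * n / 2 ∧
    ∀ G' : MG n, (G'.numEdges : ℝ) ≤ α * n / 2 → totRes G ≤ totRes G'

/-- Laplacian matrix -/
def lapM (G : MG n) : Matrix (Fin n) (Fin n) ℝ :=
  Matrix.of fun x y => (if x = y then (deg G x : ℝ) else 0) - (G.mult x y : ℝ)

/-- `L + J / n` -/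
noncomputable def NM (G : MG n) : Matrix (Fin n) (Fin n) ℝ :=
  lapM G + Matrix.of fun _ _ => 1 / (n : ℝ)

/-- connectedness, in the form needed -/
def Conn (G : MG n) : Prop := IsUnit (NM G).det

/-- `(L + J / n)⁻¹` -/
noncomputable def MM (G : MG n) : Matrix (Fin n) (Fin n) ℝ := (NM G)⁻¹

/-- `e_x - e_y` -/
def ed (x y : Fin n) : Fin n → ℝ := Pi.single x 1 - Pi.single y 1

/-- `a' M b` -/
noncomputable def rr (G : MG n) (a b : Fin n → ℝ) : ℝ := a ⬝ᵥ (MM G *ᵥ b)

/-- `a' M² b` -/
noncomputable def qq (G : MG n) (a b : Fin n → ℝ) : ℝ := (MM G *ᵥ a) ⬝ᵥ (MM G *ᵥ b)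

/-- Green function with pole `v` -/
noncomputable def gg (G : MG n) (v x y : Fin n) : ℝ := rr G (ed x v) (ed y v)

/-- `(e_x - e_v)' M² (e_y - e_v)` -/
noncomputable def ss (G : MG n) (v x y : Fin n) : ℝ := qq G (ed x v) (ed y v)

/-- row sums of the Green function -/
noncomputable def tt (G : MG n) (v x : Fin n) : ℝ := ∑ y, gg G v x y

/-- Laplacian of the 12-cycle minus the identity -/
def cycA : Matrix (ZMod 12) (ZMod 12) ℝ :=
  Matrix.of fun i j => if i = j then 1 else if i = j + 1 ∨ j = i + 1 then -1 else 0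

/-- indicator of the pair `{x, y}` -/
def eind (x y u w : Fin n) : ℤ := if (u = x ∧ w = y) ∨ (u = y ∧ w = x) then 1 else 0

theorem sum_ed (x y : Fin n) : ∑ z, ed x y z = 0 := by
  simp [ed, Finset.sum_sub_distrib]

theorem ed_sub (x y v : Fin n) : ed x y = ed x v - ed y v := by
  unfold ed
  abel

theorem ed_self (x : Fin n) : ed x x = 0 := by
  unfold ed
  abel

theorem ed_swap (x y : Fin n) : ed y x = - ed x y := by
  unfold ed
  abel

theorem dot_ed (x y : Fin n) (w : Fin n → ℝ) : ed x y ⬝ᵥ w = w x - w y := by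
  simp [ed, sub_dotProduct]

end MPd2470a
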