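import Pool.Agent.Lib.MP_cf7718_co.Cert3

/-!
# EdgeEE: the edge inequality with both end points exceptional

`K = 459/250`, `L = 79/100`, `p = 4L - 2K + 1 = 61/125`; `slope K L u = (a + p)/(2a)`, `a = 2u - 1`
(`slope_eq`). Adapt `ee_ineq` of `Cert3.lean`: `a, b ∈ [37/100, 13/10]`, `ζ = √(ab)` is in the same
interval, `slope u + slope v ≥ (ζ + p)/ζ`, `u v ≥ ((1 + ζ)/2)²`. So it is enough that `q ≥ L ζ/(ζ + p)`, by
contradiction from `((1+ζ)/2)² ≤ q + q²`: the polynomial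
`(1+ζ)²(ζ+p)² - 4Lζ(ζ+p) - 4L²ζ² ≥ 0` on `[37/100, 13/10]` (numerically its minimum is `0.0088`, at
`ζ = 0.473`; one variable: `nlinarith` with squares of polynomials of degree 2, or cut the interval).
-/

set_option autoImplicit false

namespace MPd2470a

open Pool.Agent.Lib.MP_cf7718_co

theorem low_quartic (z : ℝ) (h0 : 37 / 100 ≤ z) :
    0 < (1 + z) ^ 2 * (z + 61 / 125) ^ 2 - 4 * (79 / 100) * z * (z + 61 / 125) -
      4 * (79 / 100) ^ 2 * z ^ 2 := by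
  nlinarith [sq_nonneg (z ^ 2 + z * (1 / 2) - 9 / 20), sq_nonneg (z - 473 / 1000),
    mul_nonneg (sub_nonneg.2 h0) (sq_nonneg (z - 473 / 1000)),
    sq_nonneg (z ^ 2 - 473 / 1000 * z), sq_nonneg (z ^ 2 - 9 / 40)]

theorem low_range {u : ℝ} (hu : 79 / 100 ≤ u * (459 / 250 - u)) :
    37 / 100 ≤ 2 * u - 1 ∧ 2 * u - 1 ≤ 13 / 10 := by
  constructor
  · by_contra hcon
    push Not at hcon
    nlinarith
  · by_contra hcon
    push Not at hcon
    nlinarith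

theorem low_slope {u : ℝ} (hu : 0 < 2 * u - 1) :
    Pool.Agent.Lib.MP_cf7718_co.slope (459 / 250) (79 / 100) u =
      ((2 * u - 1) + 61 / 125) / (2 * (2 * u - 1)) := by
  rw [slope_eq hu]
  norm_num

theorem low_ee {u v q : ℝ} (hu : 79 / 100 ≤ u * (459 / 250 - u))
    (hv : 79 / 100 ≤ v * (459 / 250 - v)) (hq : 0 ≤ q) (huv : u * v ≤ q + q ^ 2) :
    79 / 100 ≤ (Pool.Agent.Lib.MP_cf7718_co.slope (459 / 250) (79 / 100) u +
      Pool.Agent.Lib.MP_cf7718_co.slope (459 / 250) (79 / 100) v) * q := by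
  obtain ⟨hz1, hz1'⟩ := low_range hu
  obtain ⟨hz2, hz2'⟩ := low_range hv
  rw [low_slope (by linarith), low_slope (by linarith)]
  obtain ⟨a, ha⟩ : ∃ a, a = 2 * u - 1 := ⟨_, rfl⟩
  obtain ⟨b, hb⟩ : ∃ b, b = 2 * v - 1 := ⟨_, rfl⟩
  rw [← ha] at hz1 hz1' ⊢
  rw [← hb] at hz2 hz2' ⊢
  have ha0 : 0 < a := by linarith
  have hb0 : 0 < b := by linarith
  obtain ⟨ζ, hζ⟩ : ∃ ζ, ζ = Real.sqrt (a * b) := ⟨_, rfl⟩
  have hζ0 : 0 < ζ := by rw [hζ]; exact Real.sqrt_pos.mpr (mul_pos ha0 hb0)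
  have hζ2 : ζ ^ 2 = a * b := by rw [hζ]; exact Real.sq_sqrt (mul_pos ha0 hb0).le
  have hζ1 : 37 / 100 ≤ ζ := by
    rw [hζ]
    exact Real.le_sqrt_of_sq_le (by nlinarith)
  have hsum2 : 2 * ζ ≤ a + b := by
    nlinarith [sq_nonneg (a - b), sq_nonneg (a + b - 2 * ζ)]
  have hms : (ζ + 61 / 125) / ζ ≤ (a + 61 / 125) / (2 * a) + (b + 61 / 125) / (2 * b) := by
    have e1 : (a + 61 / 125) / (2 * a) + (b + 61 / 125) / (2 * b) =
        1 + 61 / 125 * (a + b) / (2 * (a * b)) := by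
      field_simp
      ring
    have e2 : (ζ + 61 / 125) / ζ = 1 + 61 / 125 / ζ := by
      field_simp
    rw [e1, e2, ← hζ2]
    have e3 : 61 / 125 / ζ ≤ 61 / 125 * (a + b) / (2 * ζ ^ 2) := by
      rw [div_le_div_iff₀ hζ0 (by positivity)]
      nlinarith [mul_le_mul_of_nonneg_left hsum2 hζ0.le]
    linarith
  by_contra hcon
  push Not at hcon
  have h1 : (ζ + 61 / 125) / ζ * q < 79 / 100 :=
    lt_of_le_of_lt (mul_le_mul_of_nonneg_right hms hq) hcon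
  have h2 : (ζ + 61 / 125) * q < 79 / 100 * ζ := by
    have e1 : (ζ + 61 / 125) / ζ * q * ζ = (ζ + 61 / 125) * q := by field_simp
    have e2 : (ζ + 61 / 125) / ζ * q * ζ < 79 / 100 * ζ := mul_lt_mul_of_pos_right h1 hζ0
    rwa [e1] at e2
  have h3 : ((1 + ζ) / 2) ^ 2 ≤ u * v := by
    have hue : u = (1 + a) / 2 := by rw [ha]; ring
    have hve : v = (1 + b) / 2 := by rw [hb]; ring
    rw [hue, hve]
    nlinarith
  have hF := low_quartic ζ hζ1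
  have hp : 0 < ζ + 61 / 125 := by linarith
  -- (q + q^2) (ζ+p)^2 < Lζ(ζ+p) + L^2 ζ^2
  have h4 : (q + q ^ 2) * (ζ + 61 / 125) ^ 2 ≤
      79 / 100 * ζ * (ζ + 61 / 125) + (79 / 100 * ζ) ^ 2 := by
    have e1 : 0 ≤ (ζ + 61 / 125) * q := mul_nonneg hp.le hq
    have e2 : ((ζ + 61 / 125) * q) ^ 2 ≤ (79 / 100 * ζ) ^ 2 := pow_le_pow_left₀ e1 h2.le 2
    have e3 : (ζ + 61 / 125) * q * (ζ + 61 / 125) ≤ 79 / 100 * ζ * (ζ + 61 / 125) :=
      mul_le_mul_of_nonneg_right h2.le hp.le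
    nlinarith
  have h5 : ((1 + ζ) / 2) ^ 2 * (ζ + 61 / 125) ^ 2 ≤ (q + q ^ 2) * (ζ + 61 / 125) ^ 2 :=
    mul_le_mul_of_nonneg_right (h3.trans huv) (by positivity)
  nlinarith

end MPd2470a
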