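import Pool.Agent.Lib.MP_cf7718_co.Cert3

/-!
# EdgeEN: the edge inequality with one exceptional end point

`K = 459/250`, `L = 79/100` (so `K - L > 1`: this is why the lemmas of `Cert3.lean` do not apply
directly). `slope K L u = (2L - K + u)/(2u - 1)`. Adapt `en_ineq` of `Cert3.lean`: with `z = 2u - 1`,
`p = 4L - 2K + 1 = 61/125`, `y = K - v`, `m = slope`, `2 z m = z + p`, the claim (by contradiction, for
`0 < y`, `q (m + y) < y v`) follows from `u (m+y)² - y (m+y) - y² v ≥ 0`, that is from the cubic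
`F = 8z²y³ - 4z²(1 + 2K - z)y² + 4z²(z+p)y + (1+z)(z+p)² ≥ 0` (times `8z²`).
`hu` gives `z ∈ [37/100, 13/10]`, and `8z²y³ ≥ 8z²(2 y₀ y² - y₀² y)` with `y₀ = 33/25`.
-/

set_option autoImplicit false

namespace MPd2470a

open Pool.Agent.Lib.MP_cf7718_co

theorem en_cubic {z y : ℝ} (h0 : 37 / 100 ≤ z) (h1 : z ≤ 13 / 10) (hy : 0 ≤ y) :
    0 ≤ 8 * z ^ 2 * y ^ 3 - 4 * z ^ 2 * (584 / 125 - z) * y ^ 2 + 4 * z ^ 2 * (z + 61 / 125) * y
      + (1 + z) * (z + 61 / 125) ^ 2 := by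
  have hy3 : 0 ≤ 8 * z ^ 2 * (y * (y - 33 / 25) ^ 2) := by positivity
  have ha : 0 < 76 / 125 + z := by linarith
  have key : z ^ 2 * (2 * (33 / 25) ^ 2 - (z + 61 / 125)) ^ 2
      ≤ (76 / 125 + z) * ((1 + z) * (z + 61 / 125) ^ 2) := by
    nlinarith [mul_nonneg (sub_nonneg.2 h0) (sub_nonneg.2 h1), sq_nonneg (z - 2 / 5),
      mul_nonneg (sub_nonneg.2 h0) (sq_nonneg (z - 2 / 5)),
      mul_nonneg (mul_nonneg (sub_nonneg.2 h0) (sub_nonneg.2 h1)) (sub_nonneg.2 h0)]
  have h2 := quad_nonneg (y := y) ha key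
  nlinarith [h2, hy3]

theorem en_range {u : ℝ} (hu : 79 / 100 ≤ u * (459 / 250 - u)) :
    37 / 100 ≤ 2 * u - 1 ∧ 2 * u - 1 ≤ 13 / 10 := by
  constructor
  · by_contra hcon
    push Not at hcon
    nlinarith
  · by_contra hcon
    push Not at hcon
    nlinarith

theorem low_en {u v q : ℝ} (hu : 79 / 100 ≤ u * (459 / 250 - u)) (hq : 0 ≤ q) (hqv : q ≤ v)
    (huv : u * v ≤ q + q ^ 2) :
    (459 / 250 - v) * (v - q) ≤ Pool.Agent.Lib.MP_cf7718_co.slope (459 / 250) (79 / 100) u * q := by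
  obtain ⟨hz0, hz1⟩ := en_range hu
  obtain ⟨m, hm⟩ : ∃ m, m = Pool.Agent.Lib.MP_cf7718_co.slope (459 / 250) (79 / 100) u :=
    ⟨_, rfl⟩
  obtain ⟨z, hz⟩ : ∃ z, z = 2 * u - 1 := ⟨_, rfl⟩
  have hme : m = (z + 61 / 125) / (2 * z) := by
    rw [hm, slope_eq (by linarith), hz]
    norm_num
  rw [← hm]
  rw [← hz] at hz0 hz1
  have hzp : 0 < z := by linarith
  have hmz : 2 * z * m = z + 61 / 125 := by
    rw [hme]
    field_simp
  have hm0 : 0 < m := by
    rw [hme]
    positivity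
  have hue : u = (1 + z) / 2 := by rw [hz]; ring
  rcases le_or_gt (459 / 250 : ℝ) v with hKv | hKv
  · have h1 : (459 / 250 - v) * (v - q) ≤ 0 :=
      mul_nonpos_of_nonpos_of_nonneg (by linarith) (by linarith)
    have h2 : 0 ≤ m * q := by positivity
    linarith
  · by_contra hcon
    push Not at hcon
    obtain ⟨y, hy⟩ : ∃ y, y = 459 / 250 - v := ⟨_, rfl⟩
    rw [← hy] at hcon
    have hy0 : 0 < y := by rw [hy]; linarith
    have hv : 0 < v := by
      rcases eq_or_lt_of_le (hq.trans hqv) with h0 | h0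
      · exfalso
        have hq0 : q = 0 := le_antisymm (by rw [h0]; exact hqv) hq
        rw [← h0, hq0] at hcon
        simp at hcon
      · exact h0
    have h1 : q * (m + y) < y * v := by linarith
    have hmy : 0 < m + y := by positivity
    have hcub := en_cubic hz0 hz1 hy0.le
    have hG : 0 ≤ u * (m + y) ^ 2 - y * (m + y) - y ^ 2 * v := by
      have hvy : v = 459 / 250 - y := by rw [hy]; ring
      have e1 : 8 * z ^ 2 * (u * (m + y) ^ 2 - y * (m + y) - y ^ 2 * v)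
          = 8 * z ^ 2 * y ^ 3 - 4 * z ^ 2 * (1 + 2 * (459 / 250) - z) * y ^ 2
            + 4 * z * (2 * z * m) * z * y + (1 + z) * (2 * z * m) ^ 2 := by
        rw [hue, hvy]
        ring
      rw [hmz] at e1
      have e3 : 0 ≤ 8 * z ^ 2 * (u * (m + y) ^ 2 - y * (m + y) - y ^ 2 * v) := by
        rw [e1]
        refine le_trans hcub (le_of_eq ?_)
        ring
      exact nonneg_of_mul_nonneg_right e3 (by positivity)
    have h2 : (q + q ^ 2) * (m + y) ^ 2 < (y * (m + y) + y ^ 2 * v) * v := by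
      have h3 : q * (m + y) * (m + y) < y * v * (m + y) := mul_lt_mul_of_pos_right h1 hmy
      have h4 : (q * (m + y)) ^ 2 < (y * v) ^ 2 := by
        apply pow_lt_pow_left₀ h1 (by positivity) (by norm_num)
      nlinarith
    have h5 : u * v * (m + y) ^ 2 ≤ (q + q ^ 2) * (m + y) ^ 2 := by gcongr
    have h6 : 0 ≤ (u * (m + y) ^ 2 - y * (m + y) - y ^ 2 * v) * v := mul_nonneg hG hv.le
    nlinarith

end MPd2470a
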