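import Pool.Agent.Lib.MP_d2470a_co.EdgeEN

/-!
# EdgeNN: the edge inequality with no exceptional end point

`K = 459/250`, `L = 79/100`, `s = u + v`, `U ≤ U'` the roots of `x (K - x) = L` (`U = 0.6883.., U' = 1.1476..`).
* `low_tan`: `K - L y/2 ≤ (1/y + 1/(y-2))/2` for `y > 2`: multiply by `2 y (y-2)`; the cubic
  `2y - 2 - (2K - L y) y (y-2)` has minimum `0.00704` on `y > 2` (at `y = 3.2`).
* `lin_of_left` of `Cert.lean` (only needs `0 ≤ L` and `low_tan`) reduces the claim to `Hf K s a ≤ L`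
  for some `a ≤ q`.
* If `s (K - s) ≤ L`: `a = 0`. If `s ≥ 1092/1000`: `a = (s - 1)/2` (`≤ q` because `(u-q)(v-q) ≥ 0` and
  `uv ≤ q + q²`), `Hf K s a = K - (s+1)/2 ≤ L`.
* Otherwise `U < s < 1.092 < U'`, and `u, v ≤ U` because they are not exceptional and `≤ s < U'`. This is
  the situation of `nn_ineq` of `Cert3.lean` (case distinction and proof as there, `a = phi (U * w)`,
  `w = s - U`, with `low_en` at `u := U` in place of `en_ineq`; `slope K L U = K - U`).
-/

set_option autoImplicit false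

namespace MPd2470a

open Pool.Agent.Lib.MP_cf7718_co

theorem low_tan {y : ℝ} (hy : 2 < y) :
    459 / 250 - 79 / 100 / 2 * y ≤ (1 / y + 1 / (y - 2)) / 2 := by
  have h0 : 0 < y := by linarith
  have h1 : 0 < y - 2 := by linarith
  have e1 : (1 / y + 1 / (y - 2)) / 2 = (y - 1) / (y * (y - 2)) := by
    field_simp
    ring
  rw [e1, le_div_iff₀ (by positivity)]
  nlinarith [mul_nonneg (by linarith : (0 : ℝ) ≤ y - 245 / 1000) (sq_nonneg (y - 32 / 10)),
    sq_nonneg (y - 32 / 10)]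

/-- both end points at most `U`, the sum exceptional -/
theorem low_nn_aux {u v q : ℝ} (hq : 0 < q) (hqv : q ≤ v) (hvu : v ≤ u)
    (huv : u * v ≤ q + q ^ 2) (hun : u * (459 / 250 - u) ≤ 79 / 100) (hs1 : u + v < 1092 / 1000)
    (hs : 79 / 100 < (u + v) * (459 / 250 - (u + v))) :
    (459 / 250 - u) * (u - q) + (459 / 250 - v) * (v - q) ≤ 79 / 100 := by
  set σ := u + v with hσ
  have hdisc : (0 : ℝ) < (459 / 250) ^ 2 / 4 - 79 / 100 := by norm_num
  set r := Real.sqrt ((459 / 250) ^ 2 / 4 - 79 / 100) with hr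
  have hr0 : 0 < r := Real.sqrt_pos.mpr hdisc
  have hr2 : r ^ 2 = (459 / 250) ^ 2 / 4 - 79 / 100 := Real.sq_sqrt hdisc.le
  obtain ⟨U, hU⟩ : ∃ U, U = 459 / 250 / 2 - r := ⟨_, rfl⟩
  have hUL : U * (459 / 250 - U) = 79 / 100 := by
    rw [hU]
    nlinarith
  have hσr : (σ - 459 / 250 / 2) ^ 2 < r ^ 2 := by
    rw [hr2]
    nlinarith
  have hσ2 := abs_lt_of_sq_lt_sq hσr hr0.le
  rw [abs_lt] at hσ2
  have hv0 : 0 < v := lt_of_lt_of_le hq hqv
  have huU : u ≤ U := by
    by_contra hcon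
    push Not at hcon
    have h1 : |u - 459 / 250 / 2| < r := by
      rw [abs_lt]
      constructor
      · rw [hU] at hcon
        linarith
      · linarith [hσ2.2]
    have h2 : (u - 459 / 250 / 2) ^ 2 < r ^ 2 := sq_lt_sq' (abs_lt.mp h1).1 (abs_lt.mp h1).2
    rw [hr2] at h2
    nlinarith
  have hUσ : U < σ := by
    rw [hU]
    linarith [hσ2.1]
  obtain ⟨w, hw⟩ : ∃ w, w = σ - U := ⟨_, rfl⟩
  have hw0 : 0 < w := by rw [hw]; linarith
  have hU0 : 0 < U := by linarith
  have hP : 0 ≤ U * w := by positivity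
  have hU1 : U ≤ 1 := by
    rw [hU]
    linarith
  have hq1 := phi_sq hP
  have hq10 := phi_nonneg hP
  have hq1q : phi (U * w) ≤ q := by
    refine phi_le hq.le hP (le_trans ?_ huv)
    rw [hw]
    have h3 : 0 ≤ (U - u) * (U + u - σ) := by
      apply mul_nonneg
      · linarith
      · rw [hσ]
        linarith
    nlinarith
  have hq1w : phi (U * w) ≤ w := by
    refine phi_le hw0.le hP ?_
    nlinarith
  set a := phi (U * w) with ha
  have hen := low_en (le_of_eq hUL.symm) hq10 hq1w (by linarith)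
  obtain ⟨hz, -⟩ := en_range (le_of_eq hUL.symm)
  have hz' : (2 * U - 1 : ℝ) ≠ 0 := by
    intro h0
    rw [h0] at hz
    norm_num at hz
  have hsl : Pool.Agent.Lib.MP_cf7718_co.slope (459 / 250) (79 / 100) U = 459 / 250 - U := by
    unfold Pool.Agent.Lib.MP_cf7718_co.slope
    rw [div_eq_iff hz', ← hUL]
    ring
  rw [hsl] at hen
  refine lin_of_left (by norm_num) (fun y hy => low_tan hy) hq.le (hqv.trans hvu) hqv huv hq1q ?_
  have hσe : u + v = U + w := by rw [hw, hσ]; ring
  rw [hσe]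
  unfold Hf
  nlinarith [hen, hq1, hUL]

theorem low_nn {u v q : ℝ} (hq : 0 < q) (hqu : q ≤ u) (hqv : q ≤ v) (huv : u * v ≤ q + q ^ 2)
    (hu : u * (459 / 250 - u) ≤ 79 / 100) (hv : v * (459 / 250 - v) ≤ 79 / 100) :
    (459 / 250 - u) * (u - q) + (459 / 250 - v) * (v - q) ≤ 79 / 100 := by
  by_cases h1 : (u + v) * (459 / 250 - (u + v)) ≤ 79 / 100
  · refine lin_of_left (by norm_num) (fun y hy => low_tan hy) hq.le hqu hqv huv (a := 0) hq.le ?_
    unfold Hf
    nlinarith
  · push Not at h1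
    by_cases h2 : 1092 / 1000 ≤ u + v
    · refine lin_of_left (by norm_num) (fun y hy => low_tan hy) hq.le hqu hqv huv
        (a := (u + v - 1) / 2) ?_ ?_
      · nlinarith [mul_nonneg (sub_nonneg.mpr hqu) (sub_nonneg.mpr hqv)]
      · unfold Hf
        nlinarith
    · push Not at h2
      rcases le_total v u with hvu | hvu
      · exact low_nn_aux hq hqv hvu huv hu h2 h1
      · have := low_nn_aux hq hqu hvu (by rw [mul_comm]; exact huv) hv
          (by rw [add_comm]; exact h2) (by rw [add_comm v u]; exact h1)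
        linarith

end MPd2470a
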