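import Pool.Agent.Lib.MP_d2470a_co.LinB

/-!
# HubA: the Green function with pole `v`, basic identities

Write `f_x = ed x v`, `φ_x w = gg G v x w = (M f_x) w - (M f_x) v` (`dot_ed`, `rr_symm`).
* `MM_ed`: `∑_w (M f_x) w = 0` (`sum_MM`, `sum_ed`), so `tt = - n (M f_x) v`.
* `ss_eq`: dot product of `MM_ed`, `∑_w φ_x w = tt x`.
* `kirchhoff`: `L (M f_x) = f_x` (`lap_MM`, `lapM_mulVec`), differences of `φ_x` are those of `M f_x`.
* `rr_ed`, `qq_ed`: `rr (ed x v) b = (M b) x - (M b) v`; `qq (ed x v) b = ∑_w gg G v x w (M b) w` if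
  `∑ b = 0` (then `∑_w (M b) w = 0`).
-/

set_option autoImplicit false

namespace MPd2470a

open Matrix

variable {n : ℕ} {G : MG n}

theorem gg_pole_left (G : MG n) (v y : Fin n) : gg G v v y = 0 := by
  unfold gg
  rw [ed_self]
  simp [rr]

theorem gg_pole_right (G : MG n) (v x : Fin n) : gg G v x v = 0 := by
  unfold gg
  rw [ed_self v]
  simp [rr]

private theorem huba_gg (v x y : Fin n) :
    gg G v x y = (MM G *ᵥ ed x v) y - (MM G *ᵥ ed x v) v := by
  unfold gg
  rw [rr_symm, rr, dot_ed]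

theorem MM_ed (h : Conn G) (v x w : Fin n) :
    (MM G *ᵥ ed x v) w = gg G v x w - tt G v x / n := by
  have hn : (n : ℝ) ≠ 0 := by
    have : 0 < n := v.pos
    positivity
  have hg : ∀ y, gg G v x y = (MM G *ᵥ ed x v) y - (MM G *ᵥ ed x v) v := fun y => huba_gg v x y
  have ht : tt G v x = -(n * (MM G *ᵥ ed x v) v) := by
    unfold tt
    simp_rw [hg]
    rw [Finset.sum_sub_distrib, sum_MM h, sum_ed]
    simp
  rw [hg, ht]
  field_simp
  ring

theorem ss_eq (h : Conn G) (v x y : Fin n) :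
    ss G v x y = ∑ w, gg G v x w * gg G v y w - tt G v x * tt G v y / n := by
  have hn : (n : ℝ) ≠ 0 := by
    have : 0 < n := v.pos
    positivity
  have e : ss G v x y = ∑ w, (gg G v x w - tt G v x / n) * (gg G v y w - tt G v y / n) := by
    unfold ss qq dotProduct
    simp_rw [MM_ed h]
  rw [e]
  have e2 : ∀ w, (gg G v x w - tt G v x / n) * (gg G v y w - tt G v y / n) =
      gg G v x w * gg G v y w - tt G v y / n * gg G v x w - tt G v x / n * gg G v y w +
        tt G v x / n * (tt G v y / n) := fun w => by ring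
  simp_rw [e2]
  rw [Finset.sum_add_distrib, Finset.sum_sub_distrib, Finset.sum_sub_distrib, ← Finset.mul_sum,
    ← Finset.mul_sum, Finset.sum_const, Finset.card_univ, Fintype.card_fin, nsmul_eq_mul]
  change _ - tt G v y / n * tt G v x - tt G v x / n * tt G v y + _ = _
  field_simp
  ring

theorem kirchhoff (h : Conn G) (v x z : Fin n) :
    ∑ w, (G.mult z w : ℝ) * (gg G v x z - gg G v x w) = ed x v z := by
  have h1 := congrFun (lap_MM h (ed x v) (sum_ed x v)) z
  rw [lapM_mulVec] at h1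
  rw [← h1]
  apply Finset.sum_congr rfl
  intro w _
  rw [huba_gg, huba_gg]
  ring

theorem rr_ed (G : MG n) (x v : Fin n) (b : Fin n → ℝ) :
    rr G (ed x v) b = (MM G *ᵥ b) x - (MM G *ᵥ b) v := by
  unfold rr
  rw [dot_ed]

theorem qq_ed (h : Conn G) (x v : Fin n) (b : Fin n → ℝ) (hb : ∑ x, b x = 0) :
    qq G (ed x v) b = ∑ w, gg G v x w * (MM G *ᵥ b) w := by
  have hz : ∑ w, (MM G *ᵥ b) w = 0 := by rw [sum_MM h, hb]
  unfold qq dotProduct
  simp_rw [MM_ed h, sub_mul]
  rw [Finset.sum_sub_distrib, ← Finset.mul_sum, hz, mul_zero, sub_zero]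

end MPd2470a
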