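import Pool.Agent.Lib.MP_d2470a_co.HubA

/-!
# HubM: maximum principle

`φ_x w = gg G v x w`. `gg_nonneg`: for `x ≠ v` let `ψ = min φ_x 0`: by `kirchhoff` `L φ_x = ed x v`, so
`ψ ⬝ L φ_x = ψ x - ψ v ≤ 0` (`ψ v = 0`: `gg_pole_right`), and `ψ ⬝ L ψ ≤ ψ ⬝ L φ_x` because
`(ψ a - ψ b)² ≤ (ψ a - ψ b)(φ a - φ b)` (`quad` and its bilinear version: polarise, or
`lapM_symm`), so `ψ ⬝ L ψ ≤ 0` and `ψ` is constant (`const_of_quad`), `= ψ v = 0`. For `x = v` it is `0`.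
`gg_le`: the same with `ψ = max (φ_x - φ_x x) 0` (`ψ v = 0` because `φ_x x ≥ 0`; `ψ x = 0`).
-/

set_option autoImplicit false

namespace MPd2470a

open Matrix

variable {n : ℕ} {G : MG n}

/-- comparison of energies: `ψ` with `(ψ a - ψ b)² ≤ (ψ a - ψ b)(φ a - φ b)` -/
private theorem HubM_energy (G : MG n) (ψ φ : Fin n → ℝ)
    (h : ∀ a b, (ψ a - ψ b) ^ 2 ≤ (ψ a - ψ b) * (φ a - φ b)) :
    ψ ⬝ᵥ (lapM G *ᵥ ψ) ≤ ψ ⬝ᵥ (lapM G *ᵥ φ) := by
  have h1 : ψ ⬝ᵥ (lapM G *ᵥ φ) = (1 / 2) * ∑ x, ∑ y, (G.mult x y : ℝ) *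
      ((ψ x - ψ y) * (φ x - φ y)) := by
    have h2 : ψ ⬝ᵥ (lapM G *ᵥ φ) = ∑ x, ∑ y, (G.mult x y : ℝ) * (ψ x * (φ x - φ y)) := by
      unfold dotProduct
      refine Finset.sum_congr rfl fun x _ => ?_
      rw [lapM_mulVec, Finset.mul_sum]
      exact Finset.sum_congr rfl fun y _ => by ring
    have h3 : ∑ x, ∑ y, (G.mult x y : ℝ) * (ψ x * (φ x - φ y)) =
        ∑ x, ∑ y, (G.mult x y : ℝ) * (ψ y * (φ y - φ x)) := by
      rw [Finset.sum_comm]
      exact Finset.sum_congr rfl fun x _ => Finset.sum_congr rfl fun y _ => by rw [G.symm]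
    have h4 : ∑ x, ∑ y, (G.mult x y : ℝ) * ((ψ x - ψ y) * (φ x - φ y)) =
        ∑ x, ∑ y, (G.mult x y : ℝ) * (ψ x * (φ x - φ y)) +
          ∑ x, ∑ y, (G.mult x y : ℝ) * (ψ y * (φ y - φ x)) := by
      rw [← Finset.sum_add_distrib]
      refine Finset.sum_congr rfl fun x _ => ?_
      rw [← Finset.sum_add_distrib]
      exact Finset.sum_congr rfl fun y _ => by ring
    rw [h2, h4, ← h3]
    ring
  rw [quad, h1]
  refine mul_le_mul_of_nonneg_left ?_ (by norm_num)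
  exact Finset.sum_le_sum fun x _ => Finset.sum_le_sum fun y _ =>
    mul_le_mul_of_nonneg_left (h x y) (Nat.cast_nonneg _)

/-- `L φ_x = ed x v`. -/
private theorem HubM_lap (h : Conn G) (v x : Fin n) :
    lapM G *ᵥ (fun w => gg G v x w) = ed x v := by
  funext z
  rw [lapM_mulVec]
  exact kirchhoff h v x z

private theorem HubM_dot (ψ : Fin n → ℝ) (x v : Fin n) : ψ ⬝ᵥ ed x v = ψ x - ψ v := by
  rw [dotProduct_comm, dot_ed]

theorem gg_nonneg (h : Conn G) (v x y : Fin n) : 0 ≤ gg G v x y := by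
  obtain ⟨ψ, hψ⟩ : ∃ ψ : Fin n → ℝ, ψ = fun w => min (gg G v x w) 0 := ⟨_, rfl⟩
  have h1 : ψ ⬝ᵥ (lapM G *ᵥ ψ) ≤ ψ ⬝ᵥ (lapM G *ᵥ fun w => gg G v x w) := by
    refine HubM_energy G ψ _ fun a b => ?_
    rw [hψ]
    simp only
    rcases le_total (gg G v x a) 0 with ha | ha <;> rcases le_total (gg G v x b) 0 with hb | hb
    · rw [min_eq_left ha, min_eq_left hb]; nlinarith
    · rw [min_eq_left ha, min_eq_right hb]; nlinarith
    · rw [min_eq_right ha, min_eq_left hb]; nlinarith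
    · rw [min_eq_right ha, min_eq_right hb]; simp
  have hv : ψ v = 0 := by
    rw [hψ]
    simp only [gg_pole_right, min_self]
  have h2 : ψ ⬝ᵥ (lapM G *ᵥ ψ) ≤ 0 := by
    refine h1.trans ?_
    rw [HubM_lap h, HubM_dot, hv, sub_zero, hψ]
    exact min_le_right _ _
  have h3 := const_of_quad h ψ h2 y v
  rw [hv, hψ] at h3
  have h4 : min (gg G v x y) 0 = 0 := h3
  rw [← h4]
  exact min_le_left _ _

theorem gg_le (h : Conn G) (v x y : Fin n) : gg G v x y ≤ gg G v x x := by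
  obtain ⟨ψ, hψ⟩ : ∃ ψ : Fin n → ℝ, ψ = fun w => max (gg G v x w - gg G v x x) 0 := ⟨_, rfl⟩
  have h1 : ψ ⬝ᵥ (lapM G *ᵥ ψ) ≤ ψ ⬝ᵥ (lapM G *ᵥ fun w => gg G v x w) := by
    refine HubM_energy G ψ _ fun a b => ?_
    rw [hψ]
    simp only
    rcases le_total (gg G v x a - gg G v x x) 0 with ha | ha <;>
      rcases le_total (gg G v x b - gg G v x x) 0 with hb | hb
    · rw [max_eq_right ha, max_eq_right hb]; simp
    · rw [max_eq_right ha, max_eq_left hb]; nlinarith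
    · rw [max_eq_left ha, max_eq_right hb]; nlinarith
    · rw [max_eq_left ha, max_eq_left hb]; nlinarith
  have hx : ψ x = 0 := by
    rw [hψ]
    simp only [sub_self, max_self]
  have hv : ψ v = 0 := by
    rw [hψ]
    simp only [gg_pole_right, zero_sub]
    refine max_eq_right ?_
    linarith [gg_nonneg h v x x]
  have h2 : ψ ⬝ᵥ (lapM G *ᵥ ψ) ≤ 0 := by
    refine h1.trans ?_
    rw [HubM_lap h, HubM_dot, hv, hx, sub_zero]
  have h3 := const_of_quad h ψ h2 y v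
  rw [hv, hψ] at h3
  have h4 : max (gg G v x y - gg G v x x) 0 = 0 := h3
  have h5 : gg G v x y - gg G v x x ≤ 0 := by
    rw [← h4]
    exact le_max_left _ _
  linarith

end MPd2470a
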