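import Pool.Agent.Lib.MP_d2470a_co.HubM

/-!
# HubS: lower bound for the square sum of the Green function at a simple neighbour of `v`

`g = gg G v x x ≤ 1` (`mult_rr`). `kirchhoff` at `z = x` (`ed x v x = 1`): the term `w = v` is `g`, so
`∑_{w ≠ v} mult x w (g - φ w) = 1 - g`, all terms `≥ 0` (`gg_le`). If `mult x w = 0` for all `w ≠ v`
then `g = 1` and `∑ φ² ≥ g² = 1 ≥ (237/500)(3/2)`. Otherwise some `w ≠ v` has `mult x w ≥ 1`
(`w ≠ x` by `G.loopless`), so `g - φ w ≤ 1 - g`, `φ w ≥ 2 g - 1 > 0` and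
`∑ φ² ≥ g² + (2g-1)² ≥ (237/500)(1/2 + g)` for `g ≥ 333/500` (`nlinarith`:
`5g² - 4.474 g + 0.763 ≥ 0`).
-/

set_option autoImplicit false

namespace MPd2470a

open Matrix

variable {n : ℕ} {G : MG n}

theorem hubS (h : Conn G) {v x : Fin n} (hm : G.mult x v = 1) (hg : 333 / 500 ≤ gg G v x x) :
    (237 / 500) * (1 / 2 + gg G v x x) ≤ ∑ w, gg G v x w ^ 2 := by
  classical
  have hxv : x ≠ v := by
    rintro rfl
    rw [G.loopless] at hm
    exact absurd hm (by norm_num)
  have hg1 : gg G v x x ≤ 1 := by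
    have h1 := mult_rr h x v
    rw [hm, Nat.cast_one, one_mul] at h1
    exact h1
  have hsq : gg G v x x ^ 2 ≤ ∑ w, gg G v x w ^ 2 :=
    Finset.single_le_sum (f := fun w => gg G v x w ^ 2) (fun w _ => sq_nonneg _)
      (Finset.mem_univ x)
  have hk := kirchhoff h v x x
  have hed : ed x v x = 1 := by simp [ed, hxv]
  rw [hed] at hk
  have hterm : ∀ w, 0 ≤ (G.mult x w : ℝ) * (gg G v x x - gg G v x w) := fun w =>
    mul_nonneg (Nat.cast_nonneg _) (sub_nonneg.2 (gg_le h v x w))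
  by_cases hw : ∃ w, w ≠ v ∧ G.mult x w ≠ 0
  · obtain ⟨w, hwv, hw0⟩ := hw
    have hwx : x ≠ w := by
      rintro rfl
      exact hw0 (G.loopless x)
    have h1 : ∑ a ∈ ({v, w} : Finset (Fin n)), (G.mult x a : ℝ) * (gg G v x x - gg G v x a) ≤ 1 := by
      rw [← hk]
      exact Finset.sum_le_sum_of_subset_of_nonneg (Finset.subset_univ _) (fun a _ _ => hterm a)
    rw [Finset.sum_pair hwv.symm, hm, gg_pole_right, Nat.cast_one, one_mul, sub_zero] at h1
    have h2 : (1 : ℝ) ≤ (G.mult x w : ℝ) := by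
      exact_mod_cast Nat.one_le_iff_ne_zero.2 hw0
    have h3 : gg G v x x - gg G v x w ≤ (G.mult x w : ℝ) * (gg G v x x - gg G v x w) :=
      le_mul_of_one_le_left (sub_nonneg.2 (gg_le h v x w)) h2
    have h4 : 2 * gg G v x x - 1 ≤ gg G v x w := by linarith
    have h5 : ∑ a ∈ ({x, w} : Finset (Fin n)), gg G v x a ^ 2 ≤ ∑ a, gg G v x a ^ 2 :=
      Finset.sum_le_sum_of_subset_of_nonneg (Finset.subset_univ _) (fun a _ _ => sq_nonneg _)
    rw [Finset.sum_pair hwx] at h5
    have h6 : (2 * gg G v x x - 1) ^ 2 ≤ gg G v x w ^ 2 :=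
      pow_le_pow_left₀ (by linarith) h4 2
    refine le_trans ?_ h5
    nlinarith
  · push Not at hw
    have h1 : ∑ a, (G.mult x a : ℝ) * (gg G v x x - gg G v x a) =
        (G.mult x v : ℝ) * (gg G v x x - gg G v x v) := by
      refine Finset.sum_eq_single v ?_ ?_
      · intro a _ hav
        rw [hw a hav, Nat.cast_zero, zero_mul]
      · intro hv
        exact absurd (Finset.mem_univ v) hv
    rw [h1, hm, gg_pole_right, Nat.cast_one, one_mul, sub_zero] at hk
    rw [hk] at hsq ⊢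
    linarith

end MPd2470a
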