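import Pool.Agent.Lib.MP_d2470a_co.HubM

/-!
# HubSUp: better lower bounds for the square sum of the Green function at a neighbour of `v`

`φ w = gg G v x w`, `g = φ x ≤ 1` (`mult_rr`), `0 ≤ φ w ≤ g` (`gg_nonneg`, `gg_le`), `φ v = 0`. Suppose
`1/2 < g < 1`. `kirchhoff` at `x`: the term `w = v` is `g`, the others have sum `1 - g > 0`; so some
`w₀ ≠ x, v` has `mult x w₀ > 0`, and `φ w₀ ≥ g - (1 - g) = 2g - 1`. Let `w₁` maximise `φ` over
`T = {w : w ≠ x, w ≠ v}`: `φ w₁ ≥ 2g - 1`.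
If moreover `g > 2/3`: add `kirchhoff` at `x` and at `w₁` (`ed x v w₁ = 0`); the terms of the pair
`x, w₁` cancel, so
`∑_{z ≠ v, w₁} mult x z (g - φ z) + ∑_{z ≠ x} mult w₁ z (φ w₁ - φ z) = 1 - g`, all terms `≥ 0`. `mult w₁ v = 0`,
otherwise `2g - 1 ≤ φ w₁ ≤ 1 - g`. As `1 - g > 0` there is `z ∈ T`, `z ≠ w₁` with `mult x z > 0` or
`mult w₁ z > 0`, so `φ z ≥ 2g - 1` or `φ z ≥ φ w₁ - (1 - g) ≥ 3g - 2`. Hence
`∑ φ² ≥ g² + (2g-1)² + (3g-2)²` (distinct vertices `x, w₁, z`).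
* `hubS_mid`: this (`37/50 < 1`); for `g ≤ 2/3` only `w₁` is needed.
* `hubS_up`: for `g < 1`: `14g² - 16g + 5 ≥ (333/500)(1/2 + g)` for `g ≥ 37/50`; for `g = 1`: `∑ φ² ≥ 1`.
-/

set_option autoImplicit false

namespace MPd2470a

open Matrix

variable {n : ℕ} {G : MG n}

/-- the maximiser of the Green function outside `x`, `v` and a third vertex -/
private theorem HubSUp_aux (h : Conn G) {v x : Fin n} (hm : G.mult x v = 1)
    (hg : 1 / 2 < gg G v x x) (hg1 : gg G v x x < 1) :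
    ∃ w, w ≠ x ∧ w ≠ v ∧ 2 * gg G v x x - 1 ≤ gg G v x w ∧
      (2 / 3 < gg G v x x → ∃ z, z ≠ x ∧ z ≠ w ∧ 3 * gg G v x x - 2 ≤ gg G v x z) := by
  classical
  have hxv : x ≠ v := by
    rintro rfl
    rw [G.loopless] at hm
    exact absurd hm (by norm_num)
  have hk := kirchhoff h v x x
  have hed : ed x v x = 1 := by simp [ed, hxv]
  rw [hed] at hk
  have hterm : ∀ w, 0 ≤ (G.mult x w : ℝ) * (gg G v x x - gg G v x w) := fun w =>
    mul_nonneg (Nat.cast_nonneg _) (sub_nonneg.2 (gg_le h v x w))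
  -- a neighbour different from `v`
  have hw : ∃ w, w ≠ v ∧ G.mult x w ≠ 0 := by
    by_contra hw
    push Not at hw
    have h1 : ∑ a, (G.mult x a : ℝ) * (gg G v x x - gg G v x a) =
        (G.mult x v : ℝ) * (gg G v x x - gg G v x v) := by
      refine Finset.sum_eq_single v ?_ ?_
      · intro a _ hav
        rw [hw a hav, Nat.cast_zero, zero_mul]
      · intro hv
        exact absurd (Finset.mem_univ v) hv
    rw [h1, hm, gg_pole_right, Nat.cast_one, one_mul, sub_zero] at hk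
    linarith
  obtain ⟨w0, hw0v, hw00⟩ := hw
  have hw0x : w0 ≠ x := by
    rintro rfl
    exact hw00 (G.loopless w0)
  have h4 : 2 * gg G v x x - 1 ≤ gg G v x w0 := by
    have h1 : ∑ a ∈ ({v, w0} : Finset (Fin n)), (G.mult x a : ℝ) *
        (gg G v x x - gg G v x a) ≤ 1 := by
      rw [← hk]
      exact Finset.sum_le_sum_of_subset_of_nonneg (Finset.subset_univ _) (fun a _ _ => hterm a)
    rw [Finset.sum_pair hw0v.symm, hm, gg_pole_right, Nat.cast_one, one_mul, sub_zero] at h1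
    have h2 : (1 : ℝ) ≤ (G.mult x w0 : ℝ) := by
      exact_mod_cast Nat.one_le_iff_ne_zero.2 hw00
    have h3 : gg G v x x - gg G v x w0 ≤ (G.mult x w0 : ℝ) * (gg G v x x - gg G v x w0) :=
      le_mul_of_one_le_left (sub_nonneg.2 (gg_le h v x w0)) h2
    linarith
  obtain ⟨w, hwT, hwmax⟩ := Finset.exists_max_image
    (Finset.univ.filter (fun w => w ≠ x ∧ w ≠ v)) (fun w => gg G v x w)
    ⟨w0, by simp [hw0x, hw0v]⟩
  simp only [Finset.mem_filter, Finset.mem_univ, true_and] at hwT hwmax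
  obtain ⟨hwx, hwv⟩ := hwT
  have hw2 : 2 * gg G v x x - 1 ≤ gg G v x w := h4.trans (hwmax w0 ⟨hw0x, hw0v⟩)
  refine ⟨w, hwx, hwv, hw2, ?_⟩
  intro hg23
  have hk2 := kirchhoff h v x w
  have hed2 : ed x v w = 0 := by simp [ed, hwx, hwv]
  rw [hed2] at hk2
  obtain ⟨F, hF⟩ : ∃ F : Fin n → ℝ, F = fun z => (G.mult x z : ℝ) * (gg G v x x - gg G v x z)
    - (if z = v then gg G v x x else 0)
    - (if z = w then (G.mult x w : ℝ) * (gg G v x x - gg G v x w) else 0) := ⟨_, rfl⟩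
  obtain ⟨H, hH⟩ : ∃ H : Fin n → ℝ, H = fun z => (G.mult w z : ℝ) * (gg G v x w - gg G v x z)
    - (if z = x then (G.mult w x : ℝ) * (gg G v x w - gg G v x x) else 0) := ⟨_, rfl⟩
  have hFz : ∀ z, z ≠ v → z ≠ w → F z = (G.mult x z : ℝ) * (gg G v x x - gg G v x z) := by
    intro z hz1 hz2
    rw [hF]
    simp [hz1, hz2]
  have hFv : F v = 0 := by
    rw [hF]
    simp [hwv.symm, hm, gg_pole_right]
  have hFw : F w = 0 := by
    rw [hF]
    simp [hwv]
  have hHz : ∀ z, z ≠ x → H z = (G.mult w z : ℝ) * (gg G v x w - gg G v x z) := by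
    intro z hz1
    rw [hH]
    simp [hz1]
  have hHx : H x = 0 := by
    rw [hH]
    simp
  have hF0 : ∀ z, 0 ≤ F z := by
    intro z
    by_cases hz1 : z = v
    · rw [hz1, hFv]
    by_cases hz2 : z = w
    · rw [hz2, hFw]
    rw [hFz z hz1 hz2]
    exact hterm z
  have hH0 : ∀ z, 0 ≤ H z := by
    intro z
    by_cases hz1 : z = x
    · rw [hz1, hHx]
    rw [hHz z hz1]
    refine mul_nonneg (Nat.cast_nonneg _) ?_
    by_cases hz2 : z = v
    · rw [hz2, gg_pole_right, sub_zero]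
      exact gg_nonneg h v x w
    · exact sub_nonneg.2 (hwmax z ⟨hz1, hz2⟩)
  have hsum : ∑ z, (F z + H z) = 1 - gg G v x x := by
    rw [Finset.sum_add_distrib, hF, hH]
    simp only [Finset.sum_sub_distrib, Finset.sum_ite_eq', Finset.mem_univ, if_true]
    rw [hk, hk2, G.symm w x]
    ring
  have hle : ∀ z, F z + H z ≤ 1 - gg G v x x := by
    intro z
    rw [← hsum]
    exact Finset.single_le_sum (f := fun z => F z + H z)
      (fun z _ => add_nonneg (hF0 z) (hH0 z)) (Finset.mem_univ z)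
  have hwv0 : G.mult w v = 0 := by
    by_contra h0
    have h1 : (1 : ℝ) ≤ (G.mult w v : ℝ) := by
      exact_mod_cast Nat.one_le_iff_ne_zero.2 h0
    have h2 := hle v
    rw [hFv, hHz v hxv.symm, gg_pole_right, sub_zero, zero_add] at h2
    have h3 : gg G v x w ≤ (G.mult w v : ℝ) * gg G v x w :=
      le_mul_of_one_le_left (gg_nonneg h v x w) h1
    linarith
  obtain ⟨z, hz⟩ : ∃ z, F z + H z ≠ 0 := by
    by_contra hno
    push Not at hno
    rw [Finset.sum_eq_zero (fun z _ => hno z)] at hsum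
    linarith
  have hzle := hle z
  by_cases hFz0 : F z = 0
  · -- `H z ≠ 0`
    have hHz0 : H z ≠ 0 := by
      intro h0
      apply hz
      rw [hFz0, h0, add_zero]
    have hzx : z ≠ x := by
      rintro rfl
      exact hHz0 hHx
    rw [hHz z hzx] at hHz0 hzle
    have hmw : G.mult w z ≠ 0 := by
      intro h0
      apply hHz0
      rw [h0, Nat.cast_zero, zero_mul]
    have hzw : z ≠ w := by
      rintro rfl
      exact hmw (G.loopless z)
    have hzv : z ≠ v := by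
      rintro rfl
      exact hmw hwv0
    refine ⟨z, hzx, hzw, ?_⟩
    have h1 : (1 : ℝ) ≤ (G.mult w z : ℝ) := by
      exact_mod_cast Nat.one_le_iff_ne_zero.2 hmw
    have h3 : gg G v x w - gg G v x z ≤ (G.mult w z : ℝ) * (gg G v x w - gg G v x z) :=
      le_mul_of_one_le_left (sub_nonneg.2 (hwmax z ⟨hzx, hzv⟩)) h1
    have h5 := hF0 z
    linarith
  · have hzv : z ≠ v := by
      rintro rfl
      exact hFz0 hFv
    have hzw : z ≠ w := by
      rintro rfl
      exact hFz0 hFw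
    rw [hFz z hzv hzw] at hFz0 hzle
    have hmw : G.mult x z ≠ 0 := by
      intro h0
      apply hFz0
      rw [h0, Nat.cast_zero, zero_mul]
    have hzx : z ≠ x := by
      rintro rfl
      exact hmw (G.loopless z)
    refine ⟨z, hzx, hzw, ?_⟩
    have h1 : (1 : ℝ) ≤ (G.mult x z : ℝ) := by
      exact_mod_cast Nat.one_le_iff_ne_zero.2 hmw
    have h3 : gg G v x x - gg G v x z ≤ (G.mult x z : ℝ) * (gg G v x x - gg G v x z) :=
      le_mul_of_one_le_left (sub_nonneg.2 (gg_le h v x z)) h1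
    have h5 := hH0 z
    linarith

private theorem HubSUp_two {v x w : Fin n} (hw : w ≠ x) :
    gg G v x x ^ 2 + gg G v x w ^ 2 ≤ ∑ a, gg G v x a ^ 2 := by
  classical
  have h5 : ∑ a ∈ ({x, w} : Finset (Fin n)), gg G v x a ^ 2 ≤ ∑ a, gg G v x a ^ 2 :=
    Finset.sum_le_sum_of_subset_of_nonneg (Finset.subset_univ _) (fun a _ _ => sq_nonneg _)
  rwa [Finset.sum_pair hw.symm] at h5

private theorem HubSUp_three {v x w z : Fin n} (hw : w ≠ x) (hz : z ≠ x) (hzw : z ≠ w) :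
    gg G v x x ^ 2 + gg G v x w ^ 2 + gg G v x z ^ 2 ≤ ∑ a, gg G v x a ^ 2 := by
  classical
  have h5 : ∑ a ∈ ({x, w, z} : Finset (Fin n)), gg G v x a ^ 2 ≤ ∑ a, gg G v x a ^ 2 :=
    Finset.sum_le_sum_of_subset_of_nonneg (Finset.subset_univ _) (fun a _ _ => sq_nonneg _)
  rw [Finset.sum_insert (by simp [hw.symm, hz.symm]), Finset.sum_pair hzw.symm] at h5
  linarith

theorem hubS_mid (h : Conn G) {v x : Fin n} (hm : G.mult x v = 1) (hg : 333 / 500 ≤ gg G v x x)
    (hg1 : gg G v x x ≤ 37 / 50) :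
    gg G v x x ^ 2 + (2 * gg G v x x - 1) ^ 2 + (max (3 * gg G v x x - 2) 0) ^ 2 ≤
      ∑ w, gg G v x w ^ 2 := by
  have hg1' : gg G v x x < 1 := by linarith
  obtain ⟨w, hwx, hwv, hw2, hz⟩ := HubSUp_aux h hm (by linarith) hg1'
  have h6 : (2 * gg G v x x - 1) ^ 2 ≤ gg G v x w ^ 2 :=
    pow_le_pow_left₀ (by linarith) hw2 2
  by_cases hg23 : 2 / 3 < gg G v x x
  · obtain ⟨z, hzx, hzw, hz3⟩ := hz hg23
    have h7 : (max (3 * gg G v x x - 2) 0) ^ 2 ≤ gg G v x z ^ 2 :=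
      pow_le_pow_left₀ (le_max_right _ _) (max_le hz3 (gg_nonneg h v x z)) 2
    have h8 := HubSUp_three (G := G) (v := v) hwx hzx hzw
    linarith
  · push Not at hg23
    have h7 : max (3 * gg G v x x - 2) 0 = 0 := max_eq_right (by linarith)
    rw [h7]
    have h8 := HubSUp_two (G := G) (v := v) hwx
    linarith

theorem hubS_up (h : Conn G) {v x : Fin n} (hm : G.mult x v = 1) (hg : 37 / 50 ≤ gg G v x x) :
    (333 / 500) * (1 / 2 + gg G v x x) ≤ ∑ w, gg G v x w ^ 2 := by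
  have hle1 : gg G v x x ≤ 1 := by
    have h1 := mult_rr h x v
    rw [hm, Nat.cast_one, one_mul] at h1
    exact h1
  rcases hle1.eq_or_lt with h1 | h1
  · have hsq : gg G v x x ^ 2 ≤ ∑ w, gg G v x w ^ 2 :=
      Finset.single_le_sum (f := fun w => gg G v x w ^ 2) (fun w _ => sq_nonneg _)
        (Finset.mem_univ x)
    rw [h1] at hsq ⊢
    linarith
  · obtain ⟨w, hwx, hwv, hw2, hz⟩ := HubSUp_aux h hm (by linarith) h1
    have h6 : (2 * gg G v x x - 1) ^ 2 ≤ gg G v x w ^ 2 :=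
      pow_le_pow_left₀ (by linarith) hw2 2
    obtain ⟨z, hzx, hzw, hz3⟩ := hz (by linarith)
    have h7 : (3 * gg G v x x - 2) ^ 2 ≤ gg G v x z ^ 2 :=
      pow_le_pow_left₀ (by linarith) hz3 2
    have h8 := HubSUp_three (G := G) (v := v) hwx hzx hzw
    refine le_trans ?_ h8
    nlinarith

end MPd2470a
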