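import Pool.Agent.Lib.MP_d2470a_co.HubM

/-!
# HubSum: sum rules at the vertex `v`

* `sum_gg`: `φ y = ∑_x mult x v * gg x y`; `L (φ + e_v) = ∑_x mult x v (e_x - e_v) + L e_v = 0`
  (`kirchhoff`), so `φ + e_v` is constant `= (φ + e_v) v = 1` (`const_of_lap`, `gg_pole_right`).
* `sum_tt`: sum of `sum_gg` over `y ≠ v` (`gg G v x v = 0`).
* `sum_ss`: `|ss x y| ≤ ∑_w gg x w gg y w + tt x tt y / n` (`ss_eq`, `gg_nonneg`); the weighted double
  sum is `∑_w (∑_x mult x v gg x w)² + (∑_x mult x v tt x)²/n ≤ n + n²/n`.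
* `hubB1`: `u = M b`; `rr (ed x v) b = u x - u v` (`rr_ed`); `rr b b = u ⬝ L u` (`lap_MM`) and by
  `quad` (twice each edge) this is at least the sum over the edges at `v`.
* `hubB2`: `qq (ed x v) b = ∑_w gg G v x w * u w` (`qq_ed`), so
  `∑_x mult x v |..| ≤ ∑_w (∑_x mult x v gg x w) |u w| ≤ ∑_w |u w| ≤ √n |u|` (Cauchy-Schwarz).
-/

set_option autoImplicit false

namespace MPd2470a

open Matrix

variable {n : ℕ} {G : MG n}

theorem tt_nonneg (h : Conn G) (v x : Fin n) : 0 ≤ tt G v x :=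
  Finset.sum_nonneg fun y _ => gg_nonneg h v x y

theorem sum_gg (h : Conn G) {v y : Fin n} (hy : y ≠ v) :
    ∑ x, (G.mult x v : ℝ) * gg G v x y = 1 := by
  classical
  have hz : lapM G *ᵥ (fun y => (∑ x, (G.mult x v : ℝ) * gg G v x y) +
      (Pi.single v 1 : Fin n → ℝ) y) = 0 := by
    funext z
    rw [lapM_mulVec, Pi.zero_apply]
    have h1 : ∑ w, (G.mult z w : ℝ) * ((∑ x, (G.mult x v : ℝ) * gg G v x z) +
        (Pi.single v 1 : Fin n → ℝ) z - ((∑ x, (G.mult x v : ℝ) * gg G v x w) +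
        (Pi.single v 1 : Fin n → ℝ) w)) =
        (∑ x, (G.mult x v : ℝ) * ∑ w, (G.mult z w : ℝ) * (gg G v x z - gg G v x w)) +
        ∑ w, (G.mult z w : ℝ) * ((Pi.single v 1 : Fin n → ℝ) z -
          (Pi.single v 1 : Fin n → ℝ) w) := by
      simp_rw [Finset.mul_sum]
      rw [Finset.sum_comm (f := fun x w => (G.mult x v : ℝ) *
        ((G.mult z w : ℝ) * (gg G v x z - gg G v x w))), ← Finset.sum_add_distrib]
      refine Finset.sum_congr rfl fun w _ => ?_
      have h2 : ∑ x, (G.mult x v : ℝ) * ((G.mult z w : ℝ) * (gg G v x z - gg G v x w)) =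
          (G.mult z w : ℝ) * ((∑ x, (G.mult x v : ℝ) * gg G v x z) -
            ∑ x, (G.mult x v : ℝ) * gg G v x w) := by
        rw [← Finset.sum_sub_distrib, Finset.mul_sum]
        exact Finset.sum_congr rfl fun x _ => by ring
      rw [h2]
      ring
    rw [h1]
    simp_rw [kirchhoff h]
    have h3 : ∑ x, (G.mult x v : ℝ) * ed x v z =
        (G.mult z v : ℝ) - (∑ x, (G.mult x v : ℝ)) * (Pi.single v 1 : Fin n → ℝ) z := by
      simp only [ed, Pi.sub_apply, mul_sub, Finset.sum_sub_distrib, ← Finset.sum_mul]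
      congr 1
      rw [Finset.sum_eq_single z]
      · rw [Pi.single_eq_same, mul_one]
      · intro x _ hx
        rw [Pi.single_eq_of_ne hx.symm, mul_zero]
      · intro hx
        exact absurd (Finset.mem_univ z) hx
    have h4 : ∑ w, (G.mult z w : ℝ) * ((Pi.single v 1 : Fin n → ℝ) z -
        (Pi.single v 1 : Fin n → ℝ) w) =
        (∑ w, (G.mult z w : ℝ)) * (Pi.single v 1 : Fin n → ℝ) z - (G.mult z v : ℝ) := by
      simp only [mul_sub, Finset.sum_sub_distrib, ← Finset.sum_mul]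
      congr 1
      rw [Finset.sum_eq_single v]
      · rw [Pi.single_eq_same, mul_one]
      · intro x _ hx
        rw [Pi.single_eq_of_ne hx, mul_zero]
      · intro hx
        exact absurd (Finset.mem_univ v) hx
    rw [h3, h4]
    by_cases hzv : z = v
    · subst hzv
      rw [Pi.single_eq_same, mul_one, mul_one]
      have h5 : ∑ x, (G.mult x z : ℝ) = ∑ w, (G.mult z w : ℝ) :=
        Finset.sum_congr rfl fun x _ => by rw [G.symm x z]
      rw [h5]
      ring
    · rw [Pi.single_eq_of_ne hzv, mul_zero, mul_zero]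
      ring
  have h6 := const_of_lap h _ hz y v
  simp only [Pi.single_eq_same, Pi.single_eq_of_ne hy, add_zero, gg_pole_right, mul_zero,
    Finset.sum_const_zero, zero_add] at h6
  exact h6

private theorem hs_sum_le (h : Conn G) (v w : Fin n) :
    ∑ x, (G.mult x v : ℝ) * gg G v x w ≤ 1 := by
  by_cases hw : w = v
  · subst hw
    simp only [gg_pole_right, mul_zero, Finset.sum_const_zero]
    exact zero_le_one
  · exact (sum_gg h hw).le

private theorem hs_sum_nonneg (h : Conn G) (v w : Fin n) :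
    0 ≤ ∑ x, (G.mult x v : ℝ) * gg G v x w :=
  Finset.sum_nonneg fun x _ => mul_nonneg (Nat.cast_nonneg _) (gg_nonneg h v x w)

theorem sum_tt (h : Conn G) (v : Fin n) : ∑ x, (G.mult x v : ℝ) * tt G v x ≤ n := by
  have h1 : ∑ x, (G.mult x v : ℝ) * tt G v x = ∑ y, ∑ x, (G.mult x v : ℝ) * gg G v x y := by
    rw [Finset.sum_comm]
    refine Finset.sum_congr rfl fun x _ => ?_
    rw [tt, Finset.mul_sum]
  rw [h1]
  calc ∑ y, ∑ x, (G.mult x v : ℝ) * gg G v x y ≤ ∑ _y : Fin n, (1 : ℝ) :=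
        Finset.sum_le_sum fun y _ => hs_sum_le h v y
    _ = n := by simp

theorem sum_ss (h : Conn G) (v : Fin n) :
    ∑ x, ∑ y, (G.mult x v : ℝ) * (G.mult y v : ℝ) * |ss G v x y| ≤ 2 * n := by
  rcases Nat.eq_zero_or_pos n with hn | hn
  · subst hn
    simp
  have hn' : (0 : ℝ) < n := by exact_mod_cast hn
  have h1 : ∀ x y, |ss G v x y| ≤
      (∑ w, gg G v x w * gg G v y w) + tt G v x * tt G v y / n := by
    intro x y
    rw [ss_eq h]
    have h2 : 0 ≤ ∑ w, gg G v x w * gg G v y w :=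
      Finset.sum_nonneg fun w _ => mul_nonneg (gg_nonneg h v x w) (gg_nonneg h v y w)
    have h3 : 0 ≤ tt G v x * tt G v y / n :=
      div_nonneg (mul_nonneg (tt_nonneg h v x) (tt_nonneg h v y)) hn'.le
    rw [abs_le]
    constructor <;> linarith
  have h4 : ∑ x, ∑ y, (G.mult x v : ℝ) * (G.mult y v : ℝ) * |ss G v x y| ≤
      ∑ x, ∑ y, (G.mult x v : ℝ) * (G.mult y v : ℝ) *
        ((∑ w, gg G v x w * gg G v y w) + tt G v x * tt G v y / n) :=
    Finset.sum_le_sum fun x _ => Finset.sum_le_sum fun y _ =>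
      mul_le_mul_of_nonneg_left (h1 x y) (mul_nonneg (Nat.cast_nonneg _) (Nat.cast_nonneg _))
  have h5 : ∑ x, ∑ y, (G.mult x v : ℝ) * (G.mult y v : ℝ) *
        ((∑ w, gg G v x w * gg G v y w) + tt G v x * tt G v y / n) =
      (∑ w, (∑ x, (G.mult x v : ℝ) * gg G v x w) * ∑ y, (G.mult y v : ℝ) * gg G v y w) +
        (∑ x, (G.mult x v : ℝ) * tt G v x) * (∑ y, (G.mult y v : ℝ) * tt G v y) / n := by
    simp only [mul_add, Finset.sum_add_distrib]
    congr 1
    · simp_rw [Finset.sum_mul_sum, Finset.mul_sum]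
      rw [Finset.sum_comm (f := fun w x => ∑ y, (G.mult x v : ℝ) * gg G v x w *
        ((G.mult y v : ℝ) * gg G v y w))]
      refine Finset.sum_congr rfl fun x _ => ?_
      rw [Finset.sum_comm]
      refine Finset.sum_congr rfl fun w _ => Finset.sum_congr rfl fun y _ => by ring
    · rw [Finset.sum_mul_sum, Finset.sum_div]
      refine Finset.sum_congr rfl fun x _ => ?_
      rw [Finset.sum_div]
      exact Finset.sum_congr rfl fun y _ => by ring
  have h6 : ∑ w, (∑ x, (G.mult x v : ℝ) * gg G v x w) * ∑ y, (G.mult y v : ℝ) * gg G v y w ≤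
      ∑ _w : Fin n, (1 : ℝ) := by
    refine Finset.sum_le_sum fun w _ => ?_
    have h7 := hs_sum_le h v w
    have h8 := hs_sum_nonneg h v w
    nlinarith
  have h9 : (∑ x, (G.mult x v : ℝ) * tt G v x) * (∑ y, (G.mult y v : ℝ) * tt G v y) / n ≤ n := by
    rw [div_le_iff₀ hn']
    have h10 := sum_tt h v
    have h11 : 0 ≤ ∑ x, (G.mult x v : ℝ) * tt G v x :=
      Finset.sum_nonneg fun x _ => mul_nonneg (Nat.cast_nonneg _) (tt_nonneg h v x)
    exact mul_le_mul h10 h10 h11 hn'.le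
  have h12 : ∑ _w : Fin n, (1 : ℝ) = n := by simp
  rw [h12] at h6
  linarith

private theorem hs_half (f : Fin n → Fin n → ℝ) (hf : ∀ x y, 0 ≤ f x y)
    (hs : ∀ x y, f x y = f y x) (v : Fin n) (h0 : f v v = 0) :
    ∑ x, f x v ≤ (1 / 2) * ∑ x, ∑ y, f x y := by
  classical
  have h1 : ∑ x, ∑ y, f x y = (∑ y, f v y) + ∑ x ∈ Finset.univ.erase v, ∑ y, f x y :=
    (Finset.add_sum_erase _ _ (Finset.mem_univ v)).symm
  have h2 : ∑ x ∈ Finset.univ.erase v, f x v ≤ ∑ x ∈ Finset.univ.erase v, ∑ y, f x y :=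
    Finset.sum_le_sum fun x _ =>
      Finset.single_le_sum (f := fun y => f x y) (fun y _ => hf x y) (Finset.mem_univ v)
  have h3 : ∑ x, f x v = f v v + ∑ x ∈ Finset.univ.erase v, f x v :=
    (Finset.add_sum_erase _ _ (Finset.mem_univ v)).symm
  have h4 : ∑ y, f v y = ∑ x, f x v := Finset.sum_congr rfl fun y _ => hs v y
  rw [h1, h4]
  linarith

theorem hubB1 (h : Conn G) (b : Fin n → ℝ) (hb : ∑ x, b x = 0) (v : Fin n) :
    ∑ x, (G.mult x v : ℝ) * rr G (ed x v) b ^ 2 ≤ rr G b b := by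
  have h1 : rr G b b = (1 / 2) * ∑ x, ∑ y, (G.mult x y : ℝ) *
      ((MM G *ᵥ b) x - (MM G *ᵥ b) y) ^ 2 := by
    rw [← quad, rr, lap_MM h b hb, dotProduct_comm]
  rw [h1]
  simp_rw [rr_ed]
  refine hs_half (fun x y => (G.mult x y : ℝ) * ((MM G *ᵥ b) x - (MM G *ᵥ b) y) ^ 2) ?_ ?_ v ?_
  · intro x y
    exact mul_nonneg (Nat.cast_nonneg _) (sq_nonneg _)
  · intro x y
    have h2 : (G.mult x y : ℝ) = (G.mult y x : ℝ) := by rw [G.symm x y]
    change (G.mult x y : ℝ) * _ = (G.mult y x : ℝ) * _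
    rw [h2]
    ring
  · change (G.mult v v : ℝ) * _ = 0
    rw [G.loopless, Nat.cast_zero, zero_mul]

theorem hubB2 (h : Conn G) (b : Fin n → ℝ) (hb : ∑ x, b x = 0) (v : Fin n) :
    ∑ x, (G.mult x v : ℝ) * |qq G (ed x v) b| ≤ √(n * qq G b b) := by
  have h1 : ∀ x, |qq G (ed x v) b| ≤ ∑ w, gg G v x w * |(MM G *ᵥ b) w| := by
    intro x
    rw [qq_ed h x v b hb]
    refine (Finset.abs_sum_le_sum_abs _ _).trans (Finset.sum_le_sum fun w _ => ?_)
    rw [abs_mul, abs_of_nonneg (gg_nonneg h v x w)]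
  have h2 : ∑ x, (G.mult x v : ℝ) * |qq G (ed x v) b| ≤
      ∑ x, (G.mult x v : ℝ) * ∑ w, gg G v x w * |(MM G *ᵥ b) w| :=
    Finset.sum_le_sum fun x _ => mul_le_mul_of_nonneg_left (h1 x) (Nat.cast_nonneg _)
  have h3 : ∑ x, (G.mult x v : ℝ) * ∑ w, gg G v x w * |(MM G *ᵥ b) w| =
      ∑ w, (∑ x, (G.mult x v : ℝ) * gg G v x w) * |(MM G *ᵥ b) w| := by
    simp_rw [Finset.mul_sum, Finset.sum_mul]
    rw [Finset.sum_comm]
    exact Finset.sum_congr rfl fun w _ => Finset.sum_congr rfl fun x _ => by ring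
  have h4 : ∑ w, (∑ x, (G.mult x v : ℝ) * gg G v x w) * |(MM G *ᵥ b) w| ≤
      ∑ w, |(MM G *ᵥ b) w| := by
    refine Finset.sum_le_sum fun w _ => ?_
    exact mul_le_of_le_one_left (abs_nonneg _) (hs_sum_le h v w)
  have h5 : (∑ w, |(MM G *ᵥ b) w|) ^ 2 ≤ n * qq G b b := by
    have h6 := sq_sum_le_card_mul_sum_sq (s := (Finset.univ : Finset (Fin n)))
      (f := fun w => |(MM G *ᵥ b) w|)
    rw [Finset.card_univ, Fintype.card_fin] at h6
    refine h6.trans (le_of_eq ?_)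
    congr 1
    rw [qq, dotProduct]
    exact Finset.sum_congr rfl fun w _ => by rw [sq_abs, sq]
  refine (h2.trans (h3.trans_le h4)).trans ?_
  exact Real.le_sqrt_of_sq_le h5

end MPd2470a
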