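import Pool.Agent.Lib.MP_d2470a_co.OptTwo

/-!
# LeafA: all leaves of an optimal graph hang at one vertex

* `leaf_MM`: `lapM G *ᵥ e_ℓ = ed ℓ y` (`deg ℓ = 1 = mult ℓ y`, so `mult ℓ w = 0` for `w ≠ y`), so
  `NM G *ᵥ e_ℓ = ed ℓ y + (1/n) 1`; multiply by `MM G` (`MM_mul_NM`, `MM_one`).
* Consequences, `M = MM G`: `M z ℓ - M z y = [z = ℓ] - 1/n` (symmetry of `M`, `MM_transpose`), so
  `M ℓ ℓ = M y y + 1 - 2/n` and `M ℓ y' = M y y' - 1/n` for `y' ≠ ℓ`.
  With `b = ed ℓ y`: `rr b b = 1`, `qq b b = 1 - 1/n`; with `a = ed ℓ y'`: `rr a b = 1`,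
  `qq a b = (M a) ℓ - (1/n) ∑ (M a) = (M a) ℓ = M ℓ ℓ - M ℓ y' = M y y - M y y' + 1 - 1/n` (`sum_MM`),
  `rr a a = 1 + rr (ed y y') (ed y y')`.
* `leaves_same`: if `ℓ = ℓ'` then `y = y'` (degree 1). Otherwise suppose `y ≠ y'`. `y' ≠ ℓ`: if `y' = ℓ`
  then `ℓ'` is the neighbour of `ℓ`, `y = ℓ'`, and the indicator of `{ℓ, ℓ'}` is harmonic but not
  constant as `n ≥ 3` (`const_of_lap`). In the same way `y ≠ ℓ'`. `opt_two` for the edge `ℓ y` and the
  pair `ℓ y'` gives `2 (M y y - M y y') ≤ (1 - 1/n) R`, `R = rr (ed y y') (ed y y')`; exchanging the roles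
  `2 (M y' y' - M y y') ≤ (1 - 1/n) R`; the sum is `2 R ≤ 2 (1 - 1/n) R`, so `R ≤ 0`, against `rr_pos`.
* `leaves_le`: if there is no leaf take any vertex; otherwise all the leaves `x` have
  `mult x v = 1` for the common neighbour `v`, so `deg v ≥ #leaves` (`G.symm`).
-/

set_option autoImplicit false

namespace MPd2470a

open Matrix

variable {n : ℕ} {G : MG n}

theorem leaf_other {ℓ y w : Fin n} (hd : deg G ℓ = 1) (hm : G.mult ℓ y = 1) (hw : w ≠ y) :
    G.mult ℓ w = 0 := by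
  unfold deg at hd
  have h1 : ∑ z ∈ ({y, w} : Finset (Fin n)), G.mult ℓ z ≤ ∑ z, G.mult ℓ z :=
    Finset.sum_le_sum_of_subset (Finset.subset_univ _)
  rw [Finset.sum_pair (Ne.symm hw), hd, hm] at h1
  omega

theorem leaf_lap {ℓ y : Fin n} (hd : deg G ℓ = 1) (hm : G.mult ℓ y = 1) :
    lapM G *ᵥ (Pi.single ℓ 1 : Fin n → ℝ) = ed ℓ y := by
  have hly : ℓ ≠ y := by
    rintro rfl
    rw [G.loopless] at hm
    exact absurd hm (by norm_num)
  ext z
  rw [lapM_mulVec]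
  by_cases hz : z = ℓ
  · subst hz
    have h1 : ∑ w, (G.mult z w : ℝ) * ((Pi.single z 1 : Fin n → ℝ) z -
        (Pi.single z 1 : Fin n → ℝ) w) = ∑ w, (G.mult z w : ℝ) := by
      refine Finset.sum_congr rfl fun w _ => ?_
      by_cases hw : w = z
      · subst hw; rw [G.loopless]; simp
      · simp [hw]
    rw [h1]
    have h2 : ∑ w, (G.mult z w : ℝ) = 1 := by
      have := hd
      unfold deg at this
      exact_mod_cast this
    rw [h2]
    simp [ed, hly]
  · have h1 : ∑ w, (G.mult z w : ℝ) * ((Pi.single ℓ 1 : Fin n → ℝ) z -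
        (Pi.single ℓ 1 : Fin n → ℝ) w) = - (G.mult z ℓ : ℝ) := by
      have h2 : ∀ w, (G.mult z w : ℝ) * ((Pi.single ℓ 1 : Fin n → ℝ) z -
        (Pi.single ℓ 1 : Fin n → ℝ) w) = if w = ℓ then - (G.mult z ℓ : ℝ) else 0 := by
        intro w
        by_cases hw : w = ℓ
        · subst hw; simp [hz]
        · simp [hz, hw]
      rw [Finset.sum_congr rfl fun w _ => h2 w]
      simp
    rw [h1]
    by_cases hzy : z = y
    · subst hzy
      rw [G.symm, hm]
      simp [ed, hz]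
    · rw [G.symm, leaf_other hd hm hzy]
      simp [ed, hz, hzy]

theorem leaf_MM (h : Conn G) {ℓ y : Fin n} (hd : deg G ℓ = 1) (hm : G.mult ℓ y = 1) (z : Fin n) :
    (MM G *ᵥ ed ℓ y) z = (if z = ℓ then 1 else 0) - 1 / (n : ℝ) := by
  have h1 : NM G *ᵥ (Pi.single ℓ 1 : Fin n → ℝ) = ed ℓ y + (1 / (n : ℝ)) • (fun _ => (1 : ℝ)) := by
    rw [NM_mulVec, leaf_lap hd hm]
    congr 1
    ext w
    simp
  have h2 : MM G *ᵥ (NM G *ᵥ (Pi.single ℓ 1 : Fin n → ℝ)) = (Pi.single ℓ 1 : Fin n → ℝ) := by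
    rw [mulVec_mulVec, MM_mul_NM h, one_mulVec]
  rw [h1, mulVec_add, mulVec_smul, MM_one h] at h2
  have h3 := congrFun h2 z
  simp only [Pi.add_apply, Pi.smul_apply, smul_eq_mul, mul_one] at h3
  rw [Pi.single_apply] at h3
  linarith

/-- entries of `M` at a leaf -/
theorem leaf_entry (h : Conn G) {ℓ y : Fin n} (hd : deg G ℓ = 1) (hm : G.mult ℓ y = 1)
    (z : Fin n) : MM G z ℓ = MM G z y + (if z = ℓ then 1 else 0) - 1 / (n : ℝ) := by
  have h1 := leaf_MM h hd hm z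
  have h2 : (MM G *ᵥ ed ℓ y) z = MM G z ℓ - MM G z y := by
    simp [ed, mulVec_sub]
  rw [h2] at h1
  linarith

theorem MM_symm (G : MG n) (x y : Fin n) : MM G x y = MM G y x := by
  have := congrFun (congrFun (MM_transpose G) x) y
  rw [transpose_apply] at this
  exact this.symm

theorem rr_entry (G : MG n) (x y : Fin n) :
    rr G (ed x y) (ed x y) = MM G x x + MM G y y - 2 * MM G x y := by
  rw [rr_dot]
  have h2 : ∀ z, (MM G *ᵥ ed x y) z = MM G z x - MM G z y := by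
    intro z
    simp [ed, mulVec_sub]
  rw [h2, h2, MM_symm G y x]
  ring

theorem leaf_opt {α : ℝ} (hn : 3 ≤ n) (ho : IsOpt α G) (h : Conn G) {ℓ y y' : Fin n}
    (h1 : deg G ℓ = 1) (h2 : G.mult ℓ y = 1) (hy' : y' ≠ ℓ) (hyy : y ≠ y') :
    2 * (MM G y y - MM G y y') ≤ (1 - 1 / (n : ℝ)) * rr G (ed y y') (ed y y') := by
  have hly : ℓ ≠ y := by
    rintro rfl
    rw [G.loopless] at h2
    exact absurd h2 (by norm_num)
  have hopt := opt_two ho h (x := ℓ) (y := y) (z := ℓ) (w := y') (by omega) (Ne.symm hy')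
  have hb := leaf_MM h h1 h2
  have hrb : rr G (ed ℓ y) (ed ℓ y) = 1 := by
    rw [rr_dot, hb, hb, if_pos rfl, if_neg (Ne.symm hly)]
    ring
  have hrab : rr G (ed ℓ y') (ed ℓ y) = 1 := by
    rw [rr_dot, hb, hb, if_pos rfl, if_neg hy']
    ring
  have hnr : (n : ℝ) ≠ 0 := by
    have : (3 : ℝ) ≤ n := by exact_mod_cast hn
    linarith
  have hqb : qq G (ed ℓ y) (ed ℓ y) = 1 - 1 / (n : ℝ) := by
    unfold qq dotProduct
    have e1 : ∀ z, (MM G *ᵥ ed ℓ y) z * (MM G *ᵥ ed ℓ y) z =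
        (if z = ℓ then 1 - 2 / (n : ℝ) else 0) + 1 / (n : ℝ) ^ 2 := by
      intro z
      rw [hb]
      by_cases hz : z = ℓ
      · rw [if_pos hz, if_pos hz]
        field_simp
        ring
      · rw [if_neg hz, if_neg hz]
        field_simp
        ring
    rw [Finset.sum_congr rfl fun z _ => e1 z, Finset.sum_add_distrib]
    simp only [Finset.sum_ite_eq', Finset.mem_univ, if_true, Finset.sum_const, Finset.card_univ,
      Fintype.card_fin, nsmul_eq_mul]
    field_simp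
    ring
  have hqab : qq G (ed ℓ y') (ed ℓ y) = MM G y y - MM G y y' + 1 - 1 / (n : ℝ) := by
    unfold qq dotProduct
    have e1 : ∀ z, (MM G *ᵥ ed ℓ y') z * (MM G *ᵥ ed ℓ y) z =
        (if z = ℓ then (MM G *ᵥ ed ℓ y') z else 0) - 1 / (n : ℝ) * (MM G *ᵥ ed ℓ y') z := by
      intro z
      rw [hb]
      by_cases hz : z = ℓ
      · rw [if_pos hz, if_pos hz]; ring
      · rw [if_neg hz, if_neg hz]; ring
    rw [Finset.sum_congr rfl fun z _ => e1 z, Finset.sum_sub_distrib, ← Finset.mul_sum,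
      sum_MM h, sum_ed]
    simp only [Finset.sum_ite_eq', Finset.mem_univ, if_true, mul_zero, sub_zero]
    have e2 : (MM G *ᵥ ed ℓ y') ℓ = MM G ℓ ℓ - MM G ℓ y' := by
      simp [ed, mulVec_sub]
    rw [e2, MM_symm G ℓ y', leaf_entry h h1 h2 ℓ, leaf_entry h h1 h2 y', if_pos rfl, if_neg hy',
      MM_symm G ℓ y, leaf_entry h h1 h2 y, if_neg (Ne.symm hly), MM_symm G y' y]
    ring
  have hra : rr G (ed ℓ y') (ed ℓ y') = 1 + rr G (ed y y') (ed y y') := by
    rw [rr_entry, rr_entry, MM_symm G ℓ y', leaf_entry h h1 h2 ℓ, leaf_entry h h1 h2 y',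
      if_pos rfl, if_neg hy', MM_symm G ℓ y, leaf_entry h h1 h2 y, if_neg (Ne.symm hly),
      MM_symm G y' y]
    ring
  rw [hrb, hrab, hqb, hqab, hra] at hopt
  nlinarith

theorem leaf_ne {ℓ ℓ' y : Fin n} (hn : 3 ≤ n) (h : Conn G) (h1 : deg G ℓ = 1)
    (h2 : G.mult ℓ y = 1) (h3 : deg G ℓ' = 1) (h4 : G.mult ℓ' ℓ = 1) : False := by
  -- `ℓ` and `ℓ'` form a component
  have h5 : y = ℓ' := by
    by_contra hne
    have := leaf_other h1 h2 (Ne.symm hne)
    rw [G.symm, h4] at this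
    exact absurd this (by norm_num)
  subst h5
  have h6 : lapM G *ᵥ ((Pi.single ℓ 1 : Fin n → ℝ) + Pi.single y 1) = 0 := by
    rw [mulVec_add, leaf_lap h1 h2, leaf_lap h3 h4, ed_swap ℓ y]
    abel
  have hly : ℓ ≠ y := by
    rintro rfl
    rw [G.loopless] at h2
    exact absurd h2 (by norm_num)
  obtain ⟨z, hz1, hz2⟩ : ∃ z : Fin n, z ≠ ℓ ∧ z ≠ y := by
    by_contra hcon
    push Not at hcon
    have h7 : (Finset.univ : Finset (Fin n)) ⊆ {ℓ, y} := by
      intro z _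
      rw [Finset.mem_insert, Finset.mem_singleton]
      by_cases hz : z = ℓ
      · exact Or.inl hz
      · exact Or.inr (hcon z hz)
    have h8 := Finset.card_le_card h7
    have h9 : ({ℓ, y} : Finset (Fin n)).card ≤ 2 := Finset.card_le_two
    rw [Finset.card_univ, Fintype.card_fin] at h8
    omega
  have h7 := const_of_lap h _ h6 ℓ z
  simp [hly, hz1, hz2] at h7

theorem leaves_same {α : ℝ} (hn : 3 ≤ n) (ho : IsOpt α G) (h : Conn G) {ℓ ℓ' y y' : Fin n}
    (h1 : deg G ℓ = 1) (h2 : G.mult ℓ y = 1) (h3 : deg G ℓ' = 1) (h4 : G.mult ℓ' y' = 1) :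
    y = y' := by
  by_contra hne
  have hll : ℓ ≠ ℓ' := by
    rintro rfl
    have := leaf_other h1 h2 (Ne.symm hne)
    rw [h4] at this
    exact absurd this (by norm_num)
  have hy' : y' ≠ ℓ := by
    rintro rfl
    exact leaf_ne hn h h1 h2 h3 h4
  have hy : y ≠ ℓ' := by
    rintro rfl
    exact leaf_ne hn h h3 h4 h1 h2
  have e1 := leaf_opt hn ho h h1 h2 hy' hne
  have e2 := leaf_opt hn ho h h3 h4 hy (Ne.symm hne)
  have e3 := rr_pos h hne
  have e4 : rr G (ed y' y) (ed y' y) = rr G (ed y y') (ed y y') := by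
    rw [rr_entry, rr_entry, MM_symm G y' y]
    ring
  rw [e4, MM_symm G y' y] at e2
  have e5 := rr_entry G y y'
  have hnr : (0 : ℝ) < 1 / n := by
    have : (3 : ℝ) ≤ n := by exact_mod_cast hn
    positivity
  nlinarith

open Classical in
theorem leaves_le {α : ℝ} (hn : 3 ≤ n) (ho : IsOpt α G) (h : Conn G) :
    ∃ v : Fin n, (Finset.univ.filter (fun x => deg G x = 1)).card ≤ deg G v := by
  have hex : ∀ x, deg G x = 1 → ∃ y, G.mult x y = 1 := by
    intro x hx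
    unfold deg at hx
    obtain ⟨y, -, hy⟩ := Finset.exists_ne_zero_of_sum_ne_zero (by rw [hx]; norm_num)
    refine ⟨y, ?_⟩
    have : G.mult x y ≤ ∑ z, G.mult x z :=
      Finset.single_le_sum (fun _ _ => Nat.zero_le _) (Finset.mem_univ y)
    omega
  rcases (Finset.univ.filter (fun x => deg G x = 1)).eq_empty_or_nonempty with h0 | ⟨x0, hx0⟩
  · refine ⟨⟨0, by omega⟩, ?_⟩
    rw [h0]
    simp
  · rw [Finset.mem_filter] at hx0
    obtain ⟨v, hv⟩ := hex x0 hx0.2
    refine ⟨v, ?_⟩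
    unfold deg
    rw [Finset.card_eq_sum_ones]
    calc ∑ x ∈ Finset.univ.filter (fun x => deg G x = 1), 1
        ≤ ∑ x ∈ Finset.univ.filter (fun x => deg G x = 1), G.mult v x := by
          refine Finset.sum_le_sum fun x hx => ?_
          rw [Finset.mem_filter] at hx
          obtain ⟨y, hy⟩ := hex x hx.2
          have : v = y := leaves_same hn ho h hx0.2 hv hx.2 hy
          rw [G.symm, this, hy]
      _ ≤ ∑ x, G.mult v x :=
          Finset.sum_le_sum_of_subset (Finset.filter_subset _ _)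

end MPd2470a
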