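import Pool.Agent.Lib.MP_d2470a_co.Defs

/-!
# LinA: symmetry, inverse, Laplacian

* `NM_transpose`: `G.symm`. `MM_transpose`: `Matrix.transpose_nonsing_inv`.
* `MM_one`: `NM G *ᵥ 1 = 1` (`L 1 = 0`, `J 1 = n`), multiply by `MM G`. `sum_MM`: transposed.
* `lap_MM`: `NM G *ᵥ (MM G *ᵥ a) = a`, and the `J / n` part is `(∑ a) / n = 0` by `sum_MM`.
* `quad`: expand `(v x - v y) ^ 2`, `G.symm`.
* `const_of_lap`: `w = v - mean v` satisfies `NM G *ᵥ w = 0`, so `w = 0`.
* `const_of_quad`: the quadratic form vanishes, every term of `quad` vanishes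
  (`Finset.sum_eq_zero_iff_of_nonneg`), so `mult z w * (v z - v w) = 0` and `lapM G *ᵥ v = 0`.
-/

set_option autoImplicit false

namespace MPd2470a

open Matrix

variable {n : ℕ} {G : MG n}

theorem NM_transpose (G : MG n) : (NM G)ᵀ = NM G := by
  ext x y
  simp only [NM, lapM, transpose_apply, Matrix.add_apply, of_apply]
  rw [G.symm y x]
  by_cases hxy : x = y
  · subst hxy; rfl
  · rw [if_neg hxy, if_neg (fun h' => hxy h'.symm)]

theorem MM_transpose (G : MG n) : (MM G)ᵀ = MM G := by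
  unfold MM
  rw [transpose_nonsing_inv, NM_transpose]

theorem NM_mul_MM (h : Conn G) : NM G * MM G = 1 := by
  exact mul_nonsing_inv _ h

theorem MM_mul_NM (h : Conn G) : MM G * NM G = 1 := by
  exact nonsing_inv_mul _ h

theorem lapM_mulVec (G : MG n) (v : Fin n → ℝ) (z : Fin n) :
    (lapM G *ᵥ v) z = ∑ w, (G.mult z w : ℝ) * (v z - v w) := by
  simp only [lapM, mulVec, dotProduct, of_apply]
  have e1 : ∑ w, ((if z = w then (deg G z : ℝ) else 0) - (G.mult z w : ℝ)) * v w =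
      (deg G z : ℝ) * v z - ∑ w, (G.mult z w : ℝ) * v w := by
    simp [sub_mul, Finset.sum_sub_distrib]
  rw [e1]
  have e2 : (deg G z : ℝ) = ∑ w, (G.mult z w : ℝ) := by
    simp [deg]
  rw [e2, Finset.sum_mul, ← Finset.sum_sub_distrib]
  refine Finset.sum_congr rfl fun w _ => ?_
  ring

theorem lapM_transpose (G : MG n) : (lapM G)ᵀ = lapM G := by
  ext x y
  simp only [lapM, transpose_apply, of_apply]
  rw [G.symm y x]
  by_cases hxy : x = y
  · subst hxy; rfl
  · rw [if_neg hxy, if_neg (fun h' => hxy h'.symm)]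

theorem lapM_symm (G : MG n) (u v : Fin n → ℝ) : u ⬝ᵥ (lapM G *ᵥ v) = v ⬝ᵥ (lapM G *ᵥ u) := by
  rw [dotProduct_mulVec, ← mulVec_transpose, lapM_transpose, dotProduct_comm]

theorem NM_mulVec (G : MG n) (v : Fin n → ℝ) :
    NM G *ᵥ v = lapM G *ᵥ v + fun _ => (1 / (n : ℝ)) * ∑ x, v x := by
  unfold NM
  rw [add_mulVec]
  congr 1
  ext x
  simp [mulVec, dotProduct, Finset.mul_sum]

theorem lap_const (G : MG n) (c : ℝ) : lapM G *ᵥ (fun _ => c) = 0 := by
  ext z
  rw [lapM_mulVec]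
  simp

theorem NM_one (hn : 0 < n) : NM G *ᵥ (fun _ => (1 : ℝ)) = fun _ => (1 : ℝ) := by
  rw [NM_mulVec, lap_const]
  ext x
  have : (n : ℝ) ≠ 0 := by positivity
  simp [this]

theorem MM_one (h : Conn G) : MM G *ᵥ (fun _ => (1 : ℝ)) = fun _ => (1 : ℝ) := by
  rcases Nat.eq_zero_or_pos n with hn | hn
  · subst hn
    ext x
    exact x.elim0
  · have := congrArg (fun w => MM G *ᵥ w) (NM_one (G := G) hn)
    simp only [mulVec_mulVec, MM_mul_NM h, one_mulVec] at this
    exact this.symm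

theorem sum_MM (h : Conn G) (a : Fin n → ℝ) : ∑ x, (MM G *ᵥ a) x = ∑ x, a x := by
  have e1 : ∑ x, (MM G *ᵥ a) x = (fun _ => (1 : ℝ)) ⬝ᵥ (MM G *ᵥ a) := by
    simp [dotProduct]
  rw [e1, dotProduct_mulVec, ← mulVec_transpose, MM_transpose, MM_one h]
  simp [dotProduct]

theorem lap_MM (h : Conn G) (a : Fin n → ℝ) (ha : ∑ x, a x = 0) :
    lapM G *ᵥ (MM G *ᵥ a) = a := by
  have h1 : NM G *ᵥ (MM G *ᵥ a) = a := by
    rw [mulVec_mulVec, NM_mul_MM h, one_mulVec]
  rw [NM_mulVec, sum_MM h, ha, mul_zero] at h1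
  have h2 : (fun _ : Fin n => (0 : ℝ)) = 0 := rfl
  rw [h2, add_zero] at h1
  exact h1

theorem quad (G : MG n) (v : Fin n → ℝ) :
    v ⬝ᵥ (lapM G *ᵥ v) = (1 / 2) * ∑ x, ∑ y, (G.mult x y : ℝ) * (v x - v y) ^ 2 := by
  have e1 : v ⬝ᵥ (lapM G *ᵥ v) = ∑ x, ∑ y, (G.mult x y : ℝ) * (v x * (v x - v y)) := by
    simp only [dotProduct, lapM_mulVec]
    refine Finset.sum_congr rfl fun x _ => ?_
    rw [Finset.mul_sum]
    refine Finset.sum_congr rfl fun y _ => ?_
    ring
  have e2 : v ⬝ᵥ (lapM G *ᵥ v) = ∑ x, ∑ y, (G.mult x y : ℝ) * (v y * (v y - v x)) := by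
    rw [e1, Finset.sum_comm]
    refine Finset.sum_congr rfl fun x _ => ?_
    refine Finset.sum_congr rfl fun y _ => ?_
    rw [G.symm]
  have e3 : ∑ x, ∑ y, (G.mult x y : ℝ) * (v x - v y) ^ 2 =
      (∑ x, ∑ y, (G.mult x y : ℝ) * (v x * (v x - v y))) +
      ∑ x, ∑ y, (G.mult x y : ℝ) * (v y * (v y - v x)) := by
    rw [← Finset.sum_add_distrib]
    refine Finset.sum_congr rfl fun x _ => ?_
    rw [← Finset.sum_add_distrib]
    refine Finset.sum_congr rfl fun y _ => ?_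
    ring
  rw [e3, ← e1, ← e2]
  ring

theorem quad_nonneg (G : MG n) (v : Fin n → ℝ) : 0 ≤ v ⬝ᵥ (lapM G *ᵥ v) := by
  rw [quad]
  have : 0 ≤ ∑ x, ∑ y, (G.mult x y : ℝ) * (v x - v y) ^ 2 :=
    Finset.sum_nonneg fun x _ => Finset.sum_nonneg fun y _ => by positivity
  linarith

theorem const_of_lap (h : Conn G) (v : Fin n → ℝ) (hv : lapM G *ᵥ v = 0) (x y : Fin n) :
    v x = v y := by
  set c : ℝ := (1 / (n : ℝ)) * ∑ x, v x with hc
  have h1 : NM G *ᵥ v = fun _ => c := by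
    rw [NM_mulVec, hv]
    simp [hc]
  have h2 : v = MM G *ᵥ (fun _ => c) := by
    rw [← h1, mulVec_mulVec, MM_mul_NM h, one_mulVec]
  have h3 : (fun _ : Fin n => c) = c • (fun _ : Fin n => (1 : ℝ)) := by
    ext; simp
  rw [h3, mulVec_smul, MM_one h] at h2
  rw [h2]
  simp

theorem const_of_quad (h : Conn G) (v : Fin n → ℝ) (hv : v ⬝ᵥ (lapM G *ᵥ v) ≤ 0) (x y : Fin n) :
    v x = v y := by
  refine const_of_lap h v ?_ x y
  rw [quad] at hv
  have h0 : ∑ x, ∑ y, (G.mult x y : ℝ) * (v x - v y) ^ 2 = 0 := by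
    have : 0 ≤ ∑ x, ∑ y, (G.mult x y : ℝ) * (v x - v y) ^ 2 :=
      Finset.sum_nonneg fun x _ => Finset.sum_nonneg fun y _ => by positivity
    linarith
  rw [Finset.sum_eq_zero_iff_of_nonneg
    (fun x _ => Finset.sum_nonneg fun y _ => by positivity)] at h0
  ext z
  rw [lapM_mulVec]
  simp only [Pi.zero_apply]
  refine Finset.sum_eq_zero fun w _ => ?_
  have h1 := h0 z (Finset.mem_univ z)
  rw [Finset.sum_eq_zero_iff_of_nonneg (fun y _ => by positivity)] at h1
  have h2 := h1 w (Finset.mem_univ w)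
  rcases mul_eq_zero.1 h2 with h3 | h3
  · rw [h3, zero_mul]
  · have : v z - v w = 0 := by
      exact pow_eq_zero_iff (two_ne_zero) |>.1 h3
    rw [this, mul_zero]

/-! bilinearity -/

theorem rr_symm (G : MG n) (a b : Fin n → ℝ) : rr G a b = rr G b a := by
  unfold rr
  rw [dotProduct_mulVec, ← mulVec_transpose, MM_transpose, dotProduct_comm]

theorem qq_symm (G : MG n) (a b : Fin n → ℝ) : qq G a b = qq G b a := by
  unfold qq
  rw [dotProduct_comm]

theorem rr_sub_left (G : MG n) (a b c : Fin n → ℝ) : rr G (a - b) c = rr G a c - rr G b c := by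
  unfold rr
  rw [sub_dotProduct]

theorem rr_sub_right (G : MG n) (a b c : Fin n → ℝ) : rr G a (b - c) = rr G a b - rr G a c := by
  unfold rr
  rw [mulVec_sub, dotProduct_sub]

theorem qq_sub_left (G : MG n) (a b c : Fin n → ℝ) : qq G (a - b) c = qq G a c - qq G b c := by
  unfold qq
  rw [mulVec_sub, sub_dotProduct]

theorem qq_sub_right (G : MG n) (a b c : Fin n → ℝ) : qq G a (b - c) = qq G a b - qq G a c := by
  unfold qq
  rw [mulVec_sub, dotProduct_sub]

/-- resistance of a pair in terms of the Green function -/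
theorem rr_pair (G : MG n) (v x y : Fin n) :
    rr G (ed x y) (ed x y) = gg G v x x + gg G v y y - 2 * gg G v x y := by
  rw [ed_sub x y v, rr_sub_left, rr_sub_right, rr_sub_right]
  unfold gg
  rw [rr_symm G (ed y v) (ed x v)]
  ring

theorem qq_pair (G : MG n) (v x y : Fin n) :
    qq G (ed x y) (ed x y) = ss G v x x + ss G v y y - 2 * ss G v x y := by
  rw [ed_sub x y v, qq_sub_left, qq_sub_right, qq_sub_right]
  unfold ss
  rw [qq_symm G (ed y v) (ed x v)]
  ring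

theorem gg_symm (G : MG n) (v x y : Fin n) : gg G v x y = gg G v y x := rr_symm _ _ _

theorem ss_symm (G : MG n) (v x y : Fin n) : ss G v x y = ss G v y x := qq_symm _ _ _

end MPd2470a
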