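import Pool.Agent.Lib.MP_d2470a_co.LinA

/-!
# LinB: Cauchy-Schwarz inequalities and elementary bounds

Write `M = MM G`, `L = lapM G`. For `∑ a = 0`: `a' M b = (M a)' L (M b)` (`lap_MM`, symmetry).
* `rr_nonneg`: for general `a` split off the mean: `M a = M a₀ + mean` and
  `rr a a = (M a₀)' L (M a₀) + (∑ a)^2 / n`; or `rr a a = (M a)' N (M a)`, `N = L + J/n` positive
  semidefinite (`quad_nonneg`).
* `rr_cauchy`: the form `rr` is positive semidefinite and symmetric: discriminant argument.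
* `qq_cauchy`: Cauchy-Schwarz for the dot product.
* `energy_le`: `a ⬝ w = (L (M a)) ⬝ w = (M a)' L w`, Cauchy-Schwarz for the semidefinite form `L`.
* `mult_rr`: with `u = M b`, `b = ed x y`: `R = u' L u ≥ mult x y (u x - u y)^2 = mult x y R^2`
  (`quad`, two of the terms), and `R > 0` (`rr_pos`) for `x ≠ y`; trivial for `x = y`.
* `deg_rr`: `energy_le` with `w = e_x`: `w' L w = deg x`, `a ⬝ w = 1`.
* `rr_pos`: from `deg_rr`.
* `qq_ge`: two coordinates: `|M b|² ≥ (M b x)² + (M b y)² ≥ (M b x - M b y)²/2 = R²/2`.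
* `deg_pos`: if `deg x = 0` then `L e_x = 0`, so `e_x` is constant (`const_of_lap`).
-/

set_option autoImplicit false

namespace MPd2470a

open Matrix

variable {n : ℕ} {G : MG n}

/-- Cauchy-Schwarz from nonnegativity of `A + 2 t B + t² C`. -/
theorem disc_aux {A B C : ℝ} (hA : 0 ≤ A) (hC : 0 ≤ C)
    (h : ∀ t : ℝ, 0 ≤ A + 2 * t * B + t ^ 2 * C) : B ^ 2 ≤ A * C := by
  by_cases hC0 : C = 0
  · subst hC0
    have : B = 0 := by
      by_contra hB
      have h1 := h (-(A + 1) / (2 * B))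
      have h2 : 2 * (-(A + 1) / (2 * B)) * B = -(A + 1) := by
        field_simp
      rw [h2] at h1
      linarith
    rw [this]; simp
  · have hC1 : 0 < C := lt_of_le_of_ne hC (Ne.symm hC0)
    have h1 := h (-B / C)
    have h2 : A + 2 * (-B / C) * B + (-B / C) ^ 2 * C = A - B ^ 2 / C := by
      field_simp
      ring
    rw [h2] at h1
    have h3 : B ^ 2 / C ≤ A := by linarith
    rwa [div_le_iff₀ hC1] at h3

theorem rr_nonneg (h : Conn G) (a : Fin n → ℝ) : 0 ≤ rr G a a := by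
  unfold rr
  have e1 : a = NM G *ᵥ (MM G *ᵥ a) := by
    rw [mulVec_mulVec, NM_mul_MM h, one_mulVec]
  have e2 : a ⬝ᵥ (MM G *ᵥ a) = (NM G *ᵥ (MM G *ᵥ a)) ⬝ᵥ (MM G *ᵥ a) := by
    rw [← e1]
  rw [e2, NM_mulVec, add_dotProduct, dotProduct_comm]
  have h1 := quad_nonneg G (MM G *ᵥ a)
  have h2 : (fun _ : Fin n => 1 / (n : ℝ) * ∑ x, (MM G *ᵥ a) x) ⬝ᵥ (MM G *ᵥ a) =
      1 / (n : ℝ) * (∑ x, (MM G *ᵥ a) x) ^ 2 := by
    simp only [dotProduct]
    rw [← Finset.mul_sum]
    ring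
  rw [h2]
  positivity

theorem rr_add_smul (G : MG n) (a b : Fin n → ℝ) (t : ℝ) :
    rr G (a + t • b) (a + t • b) = rr G a a + 2 * t * rr G a b + t ^ 2 * rr G b b := by
  have e : rr G b a = rr G a b := rr_symm _ _ _
  unfold rr at *
  rw [mulVec_add, mulVec_smul, add_dotProduct, dotProduct_add, dotProduct_add, smul_dotProduct,
    smul_dotProduct, dotProduct_smul, dotProduct_smul, e]
  simp only [smul_eq_mul]
  ring

theorem rr_cauchy (h : Conn G) (a b : Fin n → ℝ) : rr G a b ^ 2 ≤ rr G a a * rr G b b := by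
  refine disc_aux (rr_nonneg h a) (rr_nonneg h b) fun t => ?_
  rw [← rr_add_smul]
  exact rr_nonneg h _

theorem qq_nonneg (G : MG n) (a : Fin n → ℝ) : 0 ≤ qq G a a := by
  unfold qq
  exact Finset.sum_nonneg fun x _ => mul_self_nonneg _

theorem qq_cauchy (G : MG n) (a b : Fin n → ℝ) : qq G a b ^ 2 ≤ qq G a a * qq G b b := by
  have := Finset.sum_mul_sq_le_sq_mul_sq Finset.univ (MM G *ᵥ a) (MM G *ᵥ b)
  unfold qq dotProduct
  refine this.trans (le_of_eq ?_)
  congr 1 <;> exact Finset.sum_congr rfl fun x _ => sq _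

theorem energy_le (h : Conn G) (a w : Fin n → ℝ) (ha : ∑ x, a x = 0) :
    (a ⬝ᵥ w) ^ 2 ≤ rr G a a * (w ⬝ᵥ (lapM G *ᵥ w)) := by
  set u := MM G *ᵥ a with hu
  have hLu : lapM G *ᵥ u = a := lap_MM h a ha
  have e1 : a ⬝ᵥ w = u ⬝ᵥ (lapM G *ᵥ w) := by
    rw [lapM_symm, hLu, dotProduct_comm]
  have e2 : rr G a a = u ⬝ᵥ (lapM G *ᵥ u) := by
    rw [hLu]
    unfold rr
    rw [← hu, dotProduct_comm]
  rw [e1, e2]
  refine disc_aux (quad_nonneg G _) (quad_nonneg G _) fun t => ?_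
  have h1 := quad_nonneg G (u + t • w)
  have e3 : (u + t • w) ⬝ᵥ (lapM G *ᵥ (u + t • w)) =
      u ⬝ᵥ (lapM G *ᵥ u) + 2 * t * u ⬝ᵥ (lapM G *ᵥ w) + t ^ 2 * w ⬝ᵥ (lapM G *ᵥ w) := by
    rw [mulVec_add, mulVec_smul, add_dotProduct, dotProduct_add, dotProduct_add, smul_dotProduct,
      smul_dotProduct, dotProduct_smul, dotProduct_smul, lapM_symm G w u]
    simp only [smul_eq_mul]
    ring
  rw [e3] at h1
  exact h1

theorem deg_rr (h : Conn G) {x y : Fin n} (hxy : x ≠ y) :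
    1 ≤ (deg G x : ℝ) * rr G (ed x y) (ed x y) := by
  have h1 := energy_le h (ed x y) (Pi.single x 1) (sum_ed x y)
  have e1 : ed x y ⬝ᵥ (Pi.single x 1 : Fin n → ℝ) = 1 := by
    rw [dot_ed]
    simp [Ne.symm hxy]
  have e2 : (Pi.single x 1 : Fin n → ℝ) ⬝ᵥ (lapM G *ᵥ (Pi.single x 1 : Fin n → ℝ)) =
      (deg G x : ℝ) := by
    rw [single_dotProduct, one_mul, lapM_mulVec]
    have : (deg G x : ℝ) = ∑ w, (G.mult x w : ℝ) := by simp [deg]
    rw [this]
    refine Finset.sum_congr rfl fun w _ => ?_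
    by_cases hw : w = x
    · subst hw; rw [G.loopless]; simp
    · simp [hw]
  rw [e1, e2] at h1
  linarith

theorem rr_pos (h : Conn G) {x y : Fin n} (hxy : x ≠ y) : 0 < rr G (ed x y) (ed x y) := by
  have h1 := deg_rr h hxy
  have h2 := rr_nonneg h (ed x y)
  rcases lt_or_eq_of_le h2 with h3 | h3
  · exact h3
  · rw [← h3] at h1
    linarith

theorem rr_dot (G : MG n) (x y : Fin n) (b : Fin n → ℝ) :
    rr G (ed x y) b = (MM G *ᵥ b) x - (MM G *ᵥ b) y := by
  unfold rr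
  rw [dot_ed]

theorem mult_rr (h : Conn G) (x y : Fin n) :
    (G.mult x y : ℝ) * rr G (ed x y) (ed x y) ≤ 1 := by
  by_cases hxy : x = y
  · subst hxy; rw [G.loopless]; simp
  · set u := MM G *ᵥ ed x y with hu
    have hLu : lapM G *ᵥ u = ed x y := lap_MM h _ (sum_ed x y)
    have e1 : rr G (ed x y) (ed x y) = u x - u y := rr_dot G x y _
    have e2 : u ⬝ᵥ (lapM G *ᵥ u) = u x - u y := by
      rw [hLu, dotProduct_comm, dot_ed]
    have hpos := rr_pos h hxy
    rw [e1] at hpos ⊢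
    have e3 := quad G u
    rw [e2] at e3
    have h1 : ((G.mult x y : ℝ) * (u x - u y) ^ 2) + ((G.mult y x : ℝ) * (u y - u x) ^ 2) ≤
        ∑ x, ∑ y, (G.mult x y : ℝ) * (u x - u y) ^ 2 := by
      have h2 : ∀ p ∈ (Finset.univ : Finset (Fin n)), 0 ≤
          ∑ y, (G.mult p y : ℝ) * (u p - u y) ^ 2 :=
        fun p _ => Finset.sum_nonneg fun y _ => by positivity
      have h3 : (G.mult x y : ℝ) * (u x - u y) ^ 2 ≤ ∑ z, (G.mult x z : ℝ) * (u x - u z) ^ 2 :=
        Finset.single_le_sum (f := fun z => (G.mult x z : ℝ) * (u x - u z) ^ 2)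
          (fun z _ => by positivity) (Finset.mem_univ y)
      have h4 : (G.mult y x : ℝ) * (u y - u x) ^ 2 ≤ ∑ z, (G.mult y z : ℝ) * (u y - u z) ^ 2 :=
        Finset.single_le_sum (f := fun z => (G.mult y z : ℝ) * (u y - u z) ^ 2)
          (fun z _ => by positivity) (Finset.mem_univ x)
      have h5 : ∑ p ∈ ({x, y} : Finset (Fin n)), ∑ z, (G.mult p z : ℝ) * (u p - u z) ^ 2 ≤
          ∑ x, ∑ y, (G.mult x y : ℝ) * (u x - u y) ^ 2 :=
        Finset.sum_le_sum_of_subset_of_nonneg (Finset.subset_univ _) fun p hp _ => h2 p (Finset.mem_univ p)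
      rw [Finset.sum_pair hxy] at h5
      linarith
    rw [G.symm y x] at h1
    have h6 : (G.mult x y : ℝ) * (u x - u y) * (u x - u y) ≤ 1 * (u x - u y) := by
      nlinarith
    exact le_of_mul_le_mul_right h6 hpos

theorem qq_ge (G : MG n) (x y : Fin n) :
    rr G (ed x y) (ed x y) ^ 2 / 2 ≤ qq G (ed x y) (ed x y) := by
  by_cases hxy : x = y
  · subst hxy
    rw [ed_self]
    simp [rr, qq]
  · rw [rr_dot]
    unfold qq dotProduct
    set u := MM G *ᵥ ed x y with hu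
    have h5 : ∑ p ∈ ({x, y} : Finset (Fin n)), u p * u p ≤ ∑ x, u x * u x :=
      Finset.sum_le_sum_of_subset_of_nonneg (Finset.subset_univ _) fun p _ _ => mul_self_nonneg _
    rw [Finset.sum_pair hxy] at h5
    nlinarith [sq_nonneg (u x + u y)]

theorem deg_pos (h : Conn G) (hn : 2 ≤ n) (x : Fin n) : 1 ≤ deg G x := by
  by_contra hd
  have hd0 : deg G x = 0 := by omega
  obtain ⟨y, hy⟩ : ∃ y : Fin n, y ≠ x := by
    have : Nontrivial (Fin n) := Fin.nontrivial_iff_two_le.2 hn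
    exact exists_ne x
  have h1 := deg_rr h (Ne.symm hy)
  rw [hd0] at h1
  simp at h1
  linarith

end MPd2470a
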