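import Pool.Agent.Lib.MP_d2470a_co.OptTwo

/-!
# UpLow: upper and lower bounds for `qq`

* `upS`: `opt_two` with the cheap edge `b = ed x y`, `S = qq (ed z w) (ed z w)`:
  `δ S ≤ (1 - R_b) S ≤ 2 q_b + 2 |m| |q|`, `q_b ≤ ρ`, `|m| ≤ 1` (`rr_cauchy`, `R_b ≤ 1`, `hr`),
  `|q| ≤ √(S ρ)` (`qq_cauchy`). If `S ≥ 1` then `δ S ≤ (2ρ + 2√ρ) √S ≤ 4(1+ρ)√S`.
* `low`: take `p` with `deg p ≤ α` (`∑ deg = 2 e ≤ α n`), `r` with `mult p r > 0` (`deg_pos`),
  `a = ed p r`: `1/α ≤ R_a ≤ 1` (`deg_rr`, `mult_rr`), `q_a ≥ 1/(2α²)` (`qq_ge`); `opt_two` with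
  `b = ed x v`, `R_b = gg G v x x`, `S = ss G v x x`: `(167/500) q_a ≤ 2 S + 2 √(S q_a)`
  (`rr_cauchy`, `qq_cauchy`); if `S < q_a / 100` the right side is `< (1/50 + 1/5) q_a`, contradiction.
-/

set_option autoImplicit false

namespace MPd2470a

open Matrix

variable {n : ℕ} {G : MG n}

theorem upS {α δ ρ : ℝ} (hδ : 0 < δ) (hρ : 0 < ρ) (ho : IsOpt α G) (h : Conn G) {x y : Fin n}
    (hxy : 0 < G.mult x y) (h1 : δ ≤ 1 - rr G (ed x y) (ed x y))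
    (h2 : qq G (ed x y) (ed x y) ≤ ρ * (1 - rr G (ed x y) (ed x y))) {z w : Fin n} (hzw : z ≠ w)
    (hr : rr G (ed z w) (ed z w) ≤ 1) :
    qq G (ed z w) (ed z w) ≤ 1 + (4 * (1 + ρ) / δ) ^ 2 := by
  have hmain := opt_two ho h hxy hzw
  have hRb0 : 0 ≤ rr G (ed x y) (ed x y) := rr_nonneg h _
  have hRa0 : 0 ≤ rr G (ed z w) (ed z w) := rr_nonneg h _
  have hqb0 : 0 ≤ qq G (ed x y) (ed x y) := qq_nonneg G _
  have hS0 : 0 ≤ qq G (ed z w) (ed z w) := qq_nonneg G _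
  have hm := rr_cauchy h (ed z w) (ed x y)
  have hq := qq_cauchy G (ed z w) (ed x y)
  obtain ⟨S, hS⟩ : ∃ r, r = qq G (ed z w) (ed z w) := ⟨_, rfl⟩
  obtain ⟨Ra, hRa⟩ : ∃ r, r = rr G (ed z w) (ed z w) := ⟨_, rfl⟩
  obtain ⟨Rb, hRb⟩ : ∃ r, r = rr G (ed x y) (ed x y) := ⟨_, rfl⟩
  obtain ⟨m, hm'⟩ : ∃ r, r = rr G (ed z w) (ed x y) := ⟨_, rfl⟩
  obtain ⟨qb, hqb'⟩ : ∃ r, r = qq G (ed x y) (ed x y) := ⟨_, rfl⟩
  obtain ⟨q, hq'⟩ : ∃ r, r = qq G (ed z w) (ed x y) := ⟨_, rfl⟩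
  rw [← hS, ← hRa, ← hRb, ← hm', ← hqb', ← hq'] at hmain
  rw [← hm', ← hRa, ← hRb] at hm
  rw [← hq', ← hS, ← hqb'] at hq
  rw [← hRb] at h1 h2 hRb0
  rw [← hqb'] at h2 hqb0
  rw [← hRa] at hr hRa0
  rw [← hS] at hS0 ⊢
  have hqbρ : qb ≤ ρ := by nlinarith
  -- `|m| ≤ 1`, `|q| ≤ √(S ρ)`
  have hm1 : |m| ≤ 1 := by
    rw [← sq_le_one_iff_abs_le_one]
    nlinarith
  by_cases hS1 : S ≤ 1
  · nlinarith [sq_nonneg (4 * (1 + ρ) / δ)]
  push Not at hS1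
  obtain ⟨t, ht0, ht⟩ : ∃ t : ℝ, 0 ≤ t ∧ t ^ 2 = S := ⟨√S, Real.sqrt_nonneg _, Real.sq_sqrt hS0⟩
  have ht1 : 1 ≤ t := by
    by_contra hcon
    push Not at hcon
    nlinarith
  have hq1 : |q| ≤ t * (1 + ρ) := by
    refine abs_le_of_sq_le_sq ?_ (by positivity)
    calc q ^ 2 ≤ S * qb := hq
      _ ≤ S * ρ := mul_le_mul_of_nonneg_left hqbρ hS0
      _ ≤ S * (1 + ρ) ^ 2 := mul_le_mul_of_nonneg_left (by nlinarith) hS0
      _ = (t * (1 + ρ)) ^ 2 := by rw [← ht]; ring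
  have hmq : -(t * (1 + ρ)) ≤ m * q := by
    have h3 : |m * q| ≤ 1 * (t * (1 + ρ)) := by
      rw [abs_mul]
      exact mul_le_mul hm1 hq1 (abs_nonneg _) zero_le_one
    rw [one_mul] at h3
    exact (abs_le.1 h3).1
  have h4 : δ * S ≤ 2 * ρ + 2 * (t * (1 + ρ)) := by
    have h5 : δ * S ≤ (1 - Rb) * S := mul_le_mul_of_nonneg_right h1 hS0
    have h6 : (1 + Ra) * qb ≤ 2 * ρ := by
      calc (1 + Ra) * qb ≤ 2 * qb := mul_le_mul_of_nonneg_right (by linarith) hqb0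
        _ ≤ 2 * ρ := by linarith
    nlinarith
  have h7 : δ * t ≤ 4 * (1 + ρ) := by
    have h8 : δ * t * t ≤ 4 * (1 + ρ) * t := by
      have h9 : 2 * ρ ≤ 2 * (t * (1 + ρ)) := by nlinarith
      nlinarith
    exact le_of_mul_le_mul_right h8 (by linarith)
  have h10 : t ≤ 4 * (1 + ρ) / δ := by
    rw [le_div_iff₀ hδ]
    linarith
  have h11 : t ^ 2 ≤ (4 * (1 + ρ) / δ) ^ 2 := pow_le_pow_left₀ ht0 h10 2
  rw [ht] at h11
  linarith

private theorem UpLow_sum (G : MG n) : ∑ p : Fin n, deg G p = 2 * G.numEdges := by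
  have h1 : ∀ x y : Fin n, G.mult x y =
      (if x < y then G.mult x y else 0) + (if y < x then G.mult y x else 0) := by
    intro x y
    rcases lt_trichotomy x y with h | h | h
    · rw [if_pos h, if_neg (not_lt.2 h.le), add_zero]
    · subst h
      rw [if_neg (lt_irrefl _), G.loopless]
    · rw [if_neg (not_lt.2 h.le), if_pos h, zero_add, G.symm]
  have h2 : ∑ p : Fin n, deg G p =
      ∑ x, ∑ y, ((if x < y then G.mult x y else 0) + (if y < x then G.mult y x else 0)) := by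
    unfold deg
    exact Finset.sum_congr rfl fun x _ => Finset.sum_congr rfl fun y _ => h1 x y
  rw [h2]
  simp only [Finset.sum_add_distrib]
  have h3 : ∑ x, ∑ y, (if y < x then G.mult y x else 0) = G.numEdges := by
    rw [Finset.sum_comm]
    rfl
  rw [h3]
  change G.numEdges + G.numEdges = 2 * G.numEdges
  ring

private theorem UpLow_deg {α : ℝ} (hn : 2 ≤ n) (ho : IsOpt α G) :
    ∃ p : Fin n, (deg G p : ℝ) ≤ α := by
  by_contra hcon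
  push Not at hcon
  have h1 : ∑ p : Fin n, α < ∑ p : Fin n, (deg G p : ℝ) := by
    refine Finset.sum_lt_sum_of_nonempty ?_ fun p _ => hcon p
    exact ⟨⟨0, by omega⟩, Finset.mem_univ _⟩
  rw [Finset.sum_const, Finset.card_univ, Fintype.card_fin, nsmul_eq_mul] at h1
  have h2 : ∑ p : Fin n, (deg G p : ℝ) = 2 * (G.numEdges : ℝ) := by
    exact_mod_cast UpLow_sum G
  have h3 := ho.1
  rw [h2] at h1
  linarith

theorem low {α : ℝ} (hα : 0 < α) (hn : 2 ≤ n) (ho : IsOpt α G) (h : Conn G) {x v : Fin n}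
    (hm : 0 < G.mult x v) (hg : gg G v x x ≤ 333 / 500) : 1 / (200 * α ^ 2) ≤ ss G v x x := by
  obtain ⟨p, hp⟩ := UpLow_deg hn ho
  obtain ⟨r, hr⟩ : ∃ r, 0 < G.mult p r := by
    by_contra hcon
    push Not at hcon
    have h1 := deg_pos h hn p
    unfold deg at h1
    rw [Finset.sum_eq_zero (fun y _ => Nat.le_zero.1 (hcon y))] at h1
    omega
  have hpr : p ≠ r := by
    rintro rfl
    rw [G.loopless] at hr
    exact absurd hr (lt_irrefl _)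
  have hmain := opt_two ho h hm hpr
  have hRa := deg_rr h hpr
  have hRa0 : 0 < rr G (ed p r) (ed p r) := rr_pos h hpr
  have hRa1 : rr G (ed p r) (ed p r) ≤ 1 := by
    have h1 := mult_rr h p r
    have h2 : (1 : ℝ) ≤ (G.mult p r : ℝ) := by exact_mod_cast hr
    nlinarith
  have hqa := qq_ge G p r
  have hmc := rr_cauchy h (ed p r) (ed x v)
  have hqc := qq_cauchy G (ed p r) (ed x v)
  have hS0 : 0 ≤ ss G v x x := qq_nonneg G _
  have hRb0 : 0 ≤ gg G v x x := rr_nonneg h _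
  change (1 - gg G v x x) * qq G (ed p r) (ed p r) +
      2 * rr G (ed p r) (ed x v) * qq G (ed p r) (ed x v) ≤
    (1 + rr G (ed p r) (ed p r)) * ss G v x x at hmain
  change rr G (ed p r) (ed x v) ^ 2 ≤ rr G (ed p r) (ed p r) * gg G v x x at hmc
  change qq G (ed p r) (ed x v) ^ 2 ≤ qq G (ed p r) (ed p r) * ss G v x x at hqc
  obtain ⟨S, hS⟩ : ∃ t, t = ss G v x x := ⟨_, rfl⟩
  obtain ⟨Ra, hRa'⟩ : ∃ t, t = rr G (ed p r) (ed p r) := ⟨_, rfl⟩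
  obtain ⟨g, hg'⟩ : ∃ t, t = gg G v x x := ⟨_, rfl⟩
  obtain ⟨m, hm'⟩ : ∃ t, t = rr G (ed p r) (ed x v) := ⟨_, rfl⟩
  obtain ⟨qa, hqa'⟩ : ∃ t, t = qq G (ed p r) (ed p r) := ⟨_, rfl⟩
  obtain ⟨q, hq'⟩ : ∃ t, t = qq G (ed p r) (ed x v) := ⟨_, rfl⟩
  rw [← hg', ← hqa', ← hm', ← hq', ← hRa', ← hS] at hmain
  rw [← hm', ← hRa', ← hg'] at hmc
  rw [← hq', ← hqa', ← hS] at hqc
  rw [← hRa'] at hRa hRa0 hRa1 hqa
  rw [← hqa'] at hqa
  rw [← hg'] at hg hRb0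
  rw [← hS] at hS0 ⊢
  have h1 : 1 ≤ α * Ra := hRa.trans (mul_le_mul_of_nonneg_right hp hRa0.le)
  have h2 : 1 / (2 * α ^ 2) ≤ qa := by
    rw [div_le_iff₀ (by positivity)]
    have h3 : 1 ≤ (α * Ra) ^ 2 := one_le_pow₀ h1
    nlinarith [sq_nonneg α]
  have hqa0 : 0 < qa := lt_of_lt_of_le (by positivity) h2
  have hm1 : |m| ≤ 1 := by
    rw [← sq_le_one_iff_abs_le_one]
    nlinarith
  have hkey : qa / 100 ≤ S := by
    by_contra hcon
    push Not at hcon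
    have hq1 : |q| ≤ qa / 10 := by
      refine abs_le_of_sq_le_sq ?_ (by positivity)
      nlinarith
    have hmq : -(qa / 10) ≤ m * q := by
      have h3 : |m * q| ≤ 1 * (qa / 10) := by
        rw [abs_mul]
        exact mul_le_mul hm1 hq1 (abs_nonneg _) zero_le_one
      rw [one_mul] at h3
      exact (abs_le.1 h3).1
    have h5 : (167 / 500) * qa ≤ (1 - g) * qa :=
      mul_le_mul_of_nonneg_right (by linarith) hqa0.le
    have h6 : (1 + Ra) * S ≤ 2 * S := mul_le_mul_of_nonneg_right (by linarith) hS0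
    nlinarith
  have h7 : 1 / (200 * α ^ 2) = 1 / (2 * α ^ 2) / 100 := by
    field_simp
    norm_num
  rw [h7]
  linarith

end MPd2470a
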