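import Pool.Agent.Lib.MP_d2470a_co.PartOne
import Pool.Agent.Lib.MP_d2470a_co.PartTwo
import Pool.Agent.Lib.MP_d2470a_co.Cheap
import Pool.Agent.Lib.MP_d2470a_co.UpLow
import Pool.Agent.Lib.MP_d2470a_co.CompFive
import Pool.Agent.Lib.MP_cf7718_co.Final

/-!
# Main: all degrees are `O(√n)`

Choose `ρ < 237/500` and `δ ∈ (0,1)` with `β < ρ ((1-δ) α/2 - 1)`, `σ = 1/(200 α²)`,
`S1 = 1 + (4(1+ρ)/δ)²`. For `n ≥ max n0 2` and `G` optimal: `totRes G ≤ ofReal (β n²) < ∞`, so `Conn G`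
(`conn_of`) and `trace M - 1 ≤ β n` (`totRes_eq`); `cheap`, `low`, `upS`, `part_one`, `part_two`:
`deg v = ∑_x mult x v ≤ (C₁ + C₂) √n`. For `n < max n0 2`: `deg v ≤ 2 numEdges ≤ α n`.
`main4`: `β = 456/1000`, `comp_five`.
-/

set_option autoImplicit false

namespace MPd2470a

open Matrix Finset

theorem deg_le_edges {n : ℕ} (G : MG n) (v : Fin n) : (deg G v : ℝ) ≤ 2 * (G.numEdges : ℝ) := by
  rw [← Pool.Agent.Lib.MP_cf7718_co.two_mul_numEdges]
  unfold deg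
  push_cast
  exact Finset.single_le_sum (f := fun x => ∑ y, (G.mult x y : ℝ))
    (fun x _ => Finset.sum_nonneg fun y _ => Nat.cast_nonneg _) (Finset.mem_univ v)

open Classical in
theorem deg_split {n : ℕ} (G : MG n) (v : Fin n) :
    (deg G v : ℝ) =
      ∑ x ∈ univ.filter (fun x => 0 < G.mult x v ∧ gg G v x x ≤ 333 / 500), (G.mult x v : ℝ) +
      ∑ x ∈ univ.filter (fun x => 0 < G.mult x v ∧ 333 / 500 < gg G v x x), (G.mult x v : ℝ) := by
  rw [Finset.sum_filter, Finset.sum_filter, ← Finset.sum_add_distrib]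
  unfold deg
  push_cast
  apply Finset.sum_congr rfl
  intro x _
  rw [G.symm v x]
  by_cases h0 : 0 < G.mult x v
  · by_cases h1 : gg G v x x ≤ 333 / 500
    · rw [if_pos ⟨h0, h1⟩, if_neg (fun h => absurd h.2 (not_lt.2 h1)), add_zero]
    · rw [if_neg (fun h => h1 h.2), if_pos ⟨h0, not_le.1 h1⟩, zero_add]
  · rw [if_neg (fun h => h0 h.1), if_neg (fun h => h0 h.1)]
    have : G.mult x v = 0 := by omega
    rw [this]
    simp

theorem main {α β : ℝ} (hα : 2 < α) (hβ : β < 237 / 500 * (α / 2 - 1))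
    (hcomp : ∃ n0 : ℕ, ∀ n : ℕ, n0 ≤ n → ∃ G : MG n, (G.numEdges : ℝ) ≤ α * n / 2 ∧
      totRes G ≤ ENNReal.ofReal (β * n ^ 2)) :
    ∃ C : ℝ, ∀ (n : ℕ) (G : MG n), IsOpt α G → ∀ v : Fin n, (deg G v : ℝ) ≤ C * √(n : ℝ) := by
  obtain ⟨n0, hcomp⟩ := hcomp
  -- the constants
  have hγ : 0 < α / 2 - 1 := by linarith
  obtain ⟨β', hβ'⟩ : ∃ β', β' = max β 0 := ⟨_, rfl⟩
  have hβ0 : 0 ≤ β' := by rw [hβ']; exact le_max_right _ _
  have hββ' : β ≤ β' := by rw [hβ']; exact le_max_left _ _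
  have hβ1 : β' < 237 / 500 * (α / 2 - 1) := by
    rw [hβ']
    exact max_lt hβ (by positivity)
  obtain ⟨ρ, hρ⟩ : ∃ ρ, ρ = (β' / (α / 2 - 1) + 237 / 500) / 2 := ⟨_, rfl⟩
  have hq : β' / (α / 2 - 1) < 237 / 500 := by
    rw [div_lt_iff₀ hγ]
    exact hβ1
  have hq0 : 0 ≤ β' / (α / 2 - 1) := div_nonneg hβ0 hγ.le
  have hρ1 : ρ < 237 / 500 := by rw [hρ]; linarith
  have hρ2 : β' / (α / 2 - 1) < ρ := by rw [hρ]; linarith
  have hρ0 : 0 < ρ := lt_of_le_of_lt hq0 hρ2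
  have hρ3 : β' < ρ * (α / 2 - 1) := by
    rw [div_lt_iff₀ hγ] at hρ2
    exact hρ2
  have hα0 : 0 < α := by linarith
  obtain ⟨δ, hδ⟩ : ∃ δ, δ = min (1 / 2) ((ρ * (α / 2 - 1) - β') / (ρ * α)) := ⟨_, rfl⟩
  have hδ0 : 0 < δ := by
    rw [hδ]
    apply lt_min (by norm_num)
    apply div_pos (by linarith) (by positivity)
  have hδ1 : δ < 1 := by
    rw [hδ]
    exact lt_of_le_of_lt (min_le_left _ _) (by norm_num)
  have hδ2 : ρ * α * δ ≤ ρ * (α / 2 - 1) - β' := by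
    have : δ ≤ (ρ * (α / 2 - 1) - β') / (ρ * α) := by rw [hδ]; exact min_le_right _ _
    rw [le_div_iff₀ (by positivity)] at this
    linarith
  have hβ2 : β' < ρ * ((1 - δ) * (α / 2) - 1) := by
    have h1 : ρ * ((1 - δ) * (α / 2) - 1) = ρ * (α / 2 - 1) - ρ * α * δ / 2 := by ring
    rw [h1]
    linarith
  obtain ⟨S1, hS1⟩ : ∃ S1 : ℝ, S1 = 1 + (4 * (1 + ρ) / δ) ^ 2 := ⟨_, rfl⟩
  have hσ : 0 < 1 / (200 * α ^ 2) := by positivity
  have hσS : 1 / (200 * α ^ 2) ≤ S1 := by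
    have h1 : 1 / (200 * α ^ 2) ≤ 1 := by
      rw [div_le_one (by positivity)]
      nlinarith
    have h2 : 1 ≤ S1 := by
      rw [hS1]
      have := sq_nonneg (4 * (1 + ρ) / δ)
      linarith
    exact h1.trans h2
  obtain ⟨C1, hC1, hp1⟩ := part_one (1 / (200 * α ^ 2)) S1 hσ hσS
  obtain ⟨C2, hC2, hp2⟩ := part_two δ ρ hδ0 hρ0 hρ1
  obtain ⟨N0, hN0⟩ : ∃ N0 : ℕ, N0 = max n0 2 := ⟨_, rfl⟩
  refine ⟨C1 + C2 + α * N0, ?_⟩
  intro n G ho v
  have hn0 : 0 < n := lt_of_le_of_lt (Nat.zero_le _) v.2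
  have hsq1 : 1 ≤ √(n : ℝ) := by
    rw [Real.one_le_sqrt]
    exact_mod_cast hn0
  rcases lt_or_ge n N0 with hlt | hge
  · -- small `n`
    have h1 : (deg G v : ℝ) ≤ α * n := by
      have h2 := deg_le_edges G v
      have h3 := ho.1
      linarith
    have h2 : α * n ≤ α * N0 := by
      apply mul_le_mul_of_nonneg_left _ hα0.le
      exact_mod_cast hlt.le
    have h3 : α * N0 ≤ α * N0 * √(n : ℝ) := le_mul_of_one_le_right (by positivity) hsq1
    have h4 : 0 ≤ (C1 + C2) * √(n : ℝ) := by positivity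
    calc (deg G v : ℝ) ≤ α * N0 * √(n : ℝ) := by linarith
      _ ≤ (C1 + C2 + α * N0) * √(n : ℝ) := by linarith
  · have hn2 : 2 ≤ n := by omega
    have hnn0 : n0 ≤ n := by omega
    obtain ⟨G', hG1, hG2⟩ := hcomp n hnn0
    have hle : totRes G ≤ ENNReal.ofReal (β * n ^ 2) := (ho.2 G' hG1).trans hG2
    have hc : Conn G := conn_of hn0 (ne_top_of_le_ne_top ENNReal.ofReal_ne_top hle)
    have hnr : (0 : ℝ) < n := by exact_mod_cast hn0
    have htr : trace (MM G) - 1 ≤ β' * n := by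
      rw [totRes_eq hc hn0, ENNReal.ofReal_le_ofReal_iff'] at hle
      rcases hle with h1 | h1
      · have h2 : trace (MM G) - 1 ≤ β * n := by
          have h3 : (n : ℝ) * (trace (MM G) - 1) ≤ n * (β * n) := by
            calc (n : ℝ) * (trace (MM G) - 1) ≤ β * n ^ 2 := h1
              _ = n * (β * n) := by ring
          exact le_of_mul_le_mul_left h3 hnr
        refine h2.trans ?_
        exact mul_le_mul_of_nonneg_right hββ' hnr.le
      · have h2 : trace (MM G) - 1 ≤ 0 := by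
          by_contra hcon
          push Not at hcon
          have := mul_pos hnr hcon
          linarith
        have h3 : 0 ≤ β' * n := by positivity
        linarith
    obtain ⟨x₀, y₀, hm0, hch1, hch2⟩ := cheap hρ0 hδ0 hδ1 hβ2 hn2 ho hc htr
    have hne : ∀ x : Fin n, 0 < G.mult x v → x ≠ v := by
      intro x hx hxv
      rw [hxv, G.loopless] at hx
      exact lt_irrefl _ hx
    have e1 := hp1 n α G hn0 ho hc v (fun x hx hg => low hα0 hn2 ho hc hx hg) (fun x hx => by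
      have hr : rr G (ed x v) (ed x v) ≤ 1 := by
        have h1 := mult_rr hc x v
        have h2 : (1 : ℝ) ≤ G.mult x v := by exact_mod_cast hx
        have h3 := rr_nonneg hc (ed x v)
        nlinarith
      rw [hS1]
      exact upS hδ0 hρ0 ho hc hm0 hch1 hch2 (hne x hx) hr)
    have e2 := hp2 n α G hn0 ho hc x₀ y₀ hm0 hch1 hch2 v
    rw [deg_split G v]
    have h5 : 0 ≤ α * N0 * √(n : ℝ) := by positivity
    calc _ ≤ C1 * √(n : ℝ) + C2 * √(n : ℝ) := add_le_add e1 e2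
      _ ≤ (C1 + C2 + α * N0) * √(n : ℝ) := by linarith

theorem main4 {α : ℝ} (hα : 4 ≤ α) :
    ∃ C : ℝ, ∀ (n : ℕ) (G : MG n), IsOpt α G → ∀ v : Fin n, (deg G v : ℝ) ≤ C * √(n : ℝ) := by
  apply main (β := 456 / 1000) (by linarith) (by linarith)
  refine ⟨2000, fun n hn => ?_⟩
  obtain ⟨G, h1, h2⟩ := comp_five n (by omega)
  have hnr : (2000 : ℝ) ≤ n := by exact_mod_cast hn
  refine ⟨G, ?_, h2.trans (ENNReal.ofReal_le_ofReal ?_)⟩
  · have h3 : (G.numEdges : ℝ) ≤ 2 * n := by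
      have : G.numEdges ≤ 2 * n := by omega
      exact_mod_cast this
    nlinarith
  · nlinarith

end MPd2470a
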