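import Pool.Agent.Lib.MP_d2470a_co.VertLow
import Pool.Agent.Lib.MP_d2470a_co.Defs
import Pool.Agent.Lib.MP_cf7718_co.Final

/-!
# TraceLow: lower bound for the total resistance in terms of the number of leaves

* `low_trace`: exactly as `trace_bound` of `MP_cf7718_co/Green.lean`, with `low_vertex`, `low_edge`.
* `low_graph`: as `graph_bound` of `MP_cf7718_co/Final.lean`: `g` from `exists_green G.symm G.loopless hε`,
  `effRes x y ≥ ofReal (g x x + g y y - 2 g x y)` (`rayleigh`), so
  `totRes ≥ ofReal (∑_{x<y} (g x x + g y y - 2 g x y)) = ofReal (n ∑ g x x - n/ε)` (the double sum over all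
  pairs is `2 n ∑ g x x - 2 n/ε`, the diagonal terms vanish; `∑_x g x y = 1/ε`), and `low_trace` with
  `∑∑ mult = 2 numEdges` (`two_mul_numEdges`).
-/

set_option autoImplicit false

namespace MPd2470a

open Pool.Agent.Lib.MP_cf7718_co
open scoped ENNReal

open Classical in
theorem low_trace {V : Type} [Fintype V] {m : V → V → ℕ} (hs : ∀ x y, m x y = m y x)
    (hl : ∀ x, m x x = 0) {ε : ℝ} (hε : 0 < ε) (hε1 : ε ≤ 1 / 100) {g : V → V → ℝ}
    (hg : ∀ y z, ε * g z y + ∑ w, (m z w : ℝ) * (g z y - g w y) = if z = y then 1 else 0)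
    (hsym : ∀ x y, g x y = g y x) (hnn : ∀ x y, 0 ≤ g x y) (hpos : ∀ x, 0 < g x x)
    (hle : ∀ x y, g x y ≤ g y y)
    (hedge : ∀ x y, m x y ≠ 0 → g x x * g y y ≤ g x y + g x y ^ 2) :
    (Fintype.card V : ℝ) * (459 / 250 - 6 * ε) -
      1 / 16 * ((Finset.univ.filter (fun x => ∑ y, m x y = 1)).card : ℝ) -
      79 / 100 / 2 * ∑ x, ∑ y, (m x y : ℝ) ≤ ∑ x, g x x := by
  have hvert : ∀ x : V, 459 / 250 - 6 * ε - (if ∑ y, m x y = 1 then 1 / 16 else 0) ≤
      g x x + ∑ y, (m x y : ℝ) * wt (459 / 250) (79 / 100) (g x x) (g x y) := by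
    intro x
    refine low_vertex (hpos x) hε hε1 Finset.univ (m x) (g x) (fun y _ => hnn x y) ?_
    have h1 := hg x x
    rw [if_pos rfl] at h1
    have h2 : ∑ y, (m x y : ℝ) * (g x x - g x y) = ∑ y, (m x y : ℝ) * (g x x - g y x) := by
      refine Finset.sum_congr rfl fun y _ => ?_
      rw [hsym x y]
    rw [h2]
    linarith
  have hsum : ∑ x, ∑ y, (m x y : ℝ) * wt (459 / 250) (79 / 100) (g x x) (g x y)
      ≤ 79 / 100 / 2 * ∑ x, ∑ y, (m x y : ℝ) := by
    have h1 : ∑ x, ∑ y, (m x y : ℝ) * wt (459 / 250) (79 / 100) (g x x) (g x y)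
        = ∑ x, ∑ y, (m x y : ℝ) * wt (459 / 250) (79 / 100) (g y y) (g x y) := by
      rw [Finset.sum_comm]
      refine Finset.sum_congr rfl fun x _ => Finset.sum_congr rfl fun y _ => ?_
      rw [hs y x, hsym y x]
    have h2 : ∑ x, ∑ y, (m x y : ℝ) * wt (459 / 250) (79 / 100) (g x x) (g x y)
        + ∑ x, ∑ y, (m x y : ℝ) * wt (459 / 250) (79 / 100) (g y y) (g x y)
        ≤ 79 / 100 * ∑ x, ∑ y, (m x y : ℝ) := by
      rw [← Finset.sum_add_distrib, Finset.mul_sum]
      refine Finset.sum_le_sum fun x _ => ?_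
      rw [← Finset.sum_add_distrib, Finset.mul_sum]
      refine Finset.sum_le_sum fun y _ => ?_
      rcases eq_or_ne (m x y) 0 with h0 | h0
      · rw [h0]
        simp
      · have h3 := hedge x y h0
        have hq : 0 < g x y := by
          rcases eq_or_lt_of_le (hnn x y) with h4 | h4
          · exfalso
            rw [← h4] at h3
            have := mul_pos (hpos x) (hpos y)
            norm_num at h3
            linarith
          · exact h4
        have h5 := low_edge hq (by rw [hsym x y]; exact hle y x) (hle x y) h3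
        have h6 : (0 : ℝ) ≤ m x y := Nat.cast_nonneg _
        calc (m x y : ℝ) * wt (459 / 250) (79 / 100) (g x x) (g x y) +
              (m x y : ℝ) * wt (459 / 250) (79 / 100) (g y y) (g x y)
            = (m x y : ℝ) * (wt (459 / 250) (79 / 100) (g x x) (g x y) +
                wt (459 / 250) (79 / 100) (g y y) (g x y)) := by ring
          _ ≤ (m x y : ℝ) * (79 / 100) := mul_le_mul_of_nonneg_left h5 h6
          _ = _ := mul_comm _ _
    rw [← h1] at h2
    linarith
  have h7 : (Fintype.card V : ℝ) * (459 / 250 - 6 * ε) -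
      1 / 16 * ((Finset.univ.filter (fun x => ∑ y, m x y = 1)).card : ℝ)
      ≤ ∑ x, (g x x + ∑ y, (m x y : ℝ) * wt (459 / 250) (79 / 100) (g x x) (g x y)) := by
    have h8 := Finset.sum_le_sum (s := (Finset.univ : Finset V)) fun x _ => hvert x
    rw [Finset.sum_sub_distrib, Finset.sum_const, Finset.card_univ, nsmul_eq_mul,
      ← Finset.sum_filter, Finset.sum_const, nsmul_eq_mul] at h8
    linarith
  rw [Finset.sum_add_distrib] at h7
  linarith

open Classical in
theorem low_graph {n : ℕ} (hn : 0 < n) (G : MG n) {ε : ℝ} (hε : 0 < ε) (hε1 : ε ≤ 1 / 100) :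
    ENNReal.ofReal ((n : ℝ) * ((n : ℝ) * (459 / 250 - 6 * ε) -
      1 / 16 * ((Finset.univ.filter (fun x => deg G x = 1)).card : ℝ) -
      79 / 100 * (G.numEdges : ℝ)) - n / ε) ≤ totRes G := by
  obtain ⟨g, hg, hsym, hnn, hpos, hle, hedge, hsum⟩ := exists_green G.symm G.loopless hε
  have hg' : ∀ (y z : Fin n), ε * g z y + ∑ w, (G.mult z w : ℝ) * (g z y - g w y) =
      if z = y then 1 else 0 := by
    intro y z
    have h1 := hg y z
    rw [lapE_apply] at h1
    by_cases hzy : z = y
    · rw [if_pos hzy] at h1 ⊢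
      exact h1
    · rw [if_neg hzy] at h1 ⊢
      exact h1
  have htr := low_trace G.symm G.loopless hε hε1 (fun y z => by convert hg' y z) hsym hnn hpos hle hedge
  rw [two_mul_numEdges, Fintype.card_fin] at htr
  have hn' : (0 : ℝ) < n := by exact_mod_cast hn
  have hR : ∀ x y, ENNReal.ofReal (g x x + g y y - 2 * g x y) ≤ G.effRes x y := by
    intro x y
    refine le_iInf fun v => ENNReal.ofReal_le_ofReal ?_
    exact rayleigh G.symm hε hg hsym x y v.1 v.2
  have hsumR : ENNReal.ofReal (∑ x, ∑ y, if x < y then (g x x + g y y - 2 * g x y) else 0)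
      ≤ totRes G := by
    unfold totRes
    refine (ofReal_sum_le' _ _).trans ?_
    refine Finset.sum_le_sum fun x _ => ?_
    refine (ofReal_sum_le' _ _).trans ?_
    refine Finset.sum_le_sum fun y _ => ?_
    by_cases hxy : x < y
    · rw [if_pos hxy, if_pos hxy]
      exact hR x y
    · rw [if_neg hxy, if_neg hxy, ENNReal.ofReal_zero]
  have hval : ∑ x, ∑ y, (g x x + g y y - 2 * g x y) = 2 * n * ∑ x, g x x - 2 * (n / ε) := by
    have e1 : ∀ x, ∑ y, (g x x + g y y - 2 * g x y)
        = n * g x x + ∑ y, g y y - 2 * ∑ y, g x y := by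
      intro x
      rw [Finset.sum_sub_distrib, Finset.sum_add_distrib, Finset.sum_const, Finset.card_univ,
        Fintype.card_fin, nsmul_eq_mul, ← Finset.mul_sum]
    simp only [e1]
    rw [Finset.sum_sub_distrib, Finset.sum_add_distrib, Finset.sum_const, Finset.card_univ,
      Fintype.card_fin, nsmul_eq_mul, ← Finset.mul_sum, ← Finset.mul_sum, Finset.sum_comm]
    simp only [hsum, Finset.sum_const, Finset.card_univ, Fintype.card_fin, nsmul_eq_mul]
    ring
  have hhalf : ∑ x, ∑ y, (g x x + g y y - 2 * g x y) =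
      2 * ∑ x, ∑ y, if x < y then (g x x + g y y - 2 * g x y) else 0 := by
    have h1 : ∀ x y : Fin n, g x x + g y y - 2 * g x y =
        (if x < y then (g x x + g y y - 2 * g x y) else 0) +
        (if y < x then (g x x + g y y - 2 * g x y) else 0) := by
      intro x y
      rcases lt_trichotomy x y with h | h | h
      · rw [if_pos h, if_neg (not_lt.mpr h.le), add_zero]
      · subst h
        rw [if_neg (lt_irrefl _)]
        ring
      · rw [if_neg (not_lt.mpr h.le), if_pos h, zero_add]
    have h2 : ∑ x : Fin n, ∑ y : Fin n, (if y < x then (g x x + g y y - 2 * g x y) else 0) =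
        ∑ x, ∑ y, if x < y then (g x x + g y y - 2 * g x y) else 0 := by
      rw [Finset.sum_comm]
      refine Finset.sum_congr rfl fun x _ => Finset.sum_congr rfl fun y _ => ?_
      rw [hsym y x]
      by_cases h : x < y
      · rw [if_pos h, if_pos h]; ring
      · rw [if_neg h, if_neg h]
    have h3 : ∑ x, ∑ y, (g x x + g y y - 2 * g x y) =
        ∑ x, ∑ y, ((if x < y then (g x x + g y y - 2 * g x y) else 0) +
        (if y < x then (g x x + g y y - 2 * g x y) else 0)) :=
      Finset.sum_congr rfl fun x _ => Finset.sum_congr rfl fun y _ => h1 x y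
    rw [h3]
    simp only [Finset.sum_add_distrib]
    rw [h2]
    ring
  refine le_trans (ENNReal.ofReal_le_ofReal ?_) hsumR
  have h4 : ∑ x, ∑ y, (if x < y then (g x x + g y y - 2 * g x y) else 0) =
      n * ∑ x, g x x - n / ε := by
    linarith
  rw [h4]
  have h5 : (n : ℝ) * (459 / 250 - 6 * ε) -
      1 / 16 * ((Finset.univ.filter (fun x => deg G x = 1)).card : ℝ) -
      79 / 100 * (G.numEdges : ℝ) ≤ ∑ x, g x x := by
    have h6 : (Finset.univ.filter (fun x => deg G x = 1)) =
        (Finset.univ.filter (fun x => ∑ y, G.mult x y = 1)) := rfl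
    rw [h6]
    linarith
  have h7 := mul_le_mul_of_nonneg_left h5 hn'.le
  linarith

end MPd2470a
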