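import Pool.Agent.Lib.MP_d2470a_co.LeafA
import Pool.Agent.Lib.MP_d2470a_co.TraceLow
import Pool.Agent.Lib.MP_d2470a_co.CompMix

/-!
# MainLow: a vertex of degree at least `n/100` for `2 ≤ α ≤ 3`

`ε = 1/12000`. For `n` large and `G` optimal, with `ℓ` leaves: `comp_low` and `low_graph` give
`n (n (K - 6ε) - ℓ/16 - L α n/2) - n/ε ≤ (1 - (351/1000)(α - 2) + 1/2000) n²` (`numEdges ≤ α n/2`), so
`ℓ/16 ≥ n (K - 6 ε - 1 - 1/2000 - L α/2 + (351/1000)(α - 2)) - 1/ε`; the bracket is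
`0.836 - 0.0005 - 0.0005 - 0.702 - 0.044 α ≥ 0.001` for `α ≤ 3`. So `ℓ ≥ 0.016 n - 16/ε ≥ n/100` for `n` large.
`leaves_le` (`Conn G` by `conn_of`, `totRes G < ∞`).
-/

set_option autoImplicit false

namespace MPd2470a

theorem main_low : ∃ N : ℕ, ∀ n : ℕ, N ≤ n → ∀ α : ℝ, 2 ≤ α → α ≤ 3 → ∀ G : MG n, IsOpt α G →
    ∃ v : Fin n, (n : ℝ) / 100 ≤ deg G v := by
  classical
  obtain ⟨n0, h0⟩ := comp_low
  refine ⟨max n0 40000000, fun n hn α hα2 hα3 G ho => ?_⟩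
  have hn1 : n0 ≤ n := le_trans (le_max_left _ _) hn
  have hn2 : 40000000 ≤ n := le_trans (le_max_right _ _) hn
  have hnr : (40000000 : ℝ) ≤ n := by exact_mod_cast hn2
  have hnpos : 0 < n := by omega
  obtain ⟨G', hG1, hG2⟩ := h0 n hn1 α hα2 hα3
  have hle := (ho.2 G' hG1).trans hG2
  have hc : Conn G := conn_of hnpos (ne_top_of_le_ne_top ENNReal.ofReal_ne_top hle)
  obtain ⟨v, hv⟩ := leaves_le (by omega : 3 ≤ n) ho hc
  refine ⟨v, ?_⟩
  obtain ⟨l, hl⟩ : ∃ l : ℝ, l = ((Finset.univ.filter (fun x => deg G x = 1)).card : ℝ) :=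
    ⟨_, rfl⟩
  have hlv : l ≤ deg G v := by
    rw [hl]
    exact_mod_cast hv
  have hlow := low_graph hnpos G (ε := 1 / 12000) (by norm_num) (by norm_num)
  rw [← hl] at hlow
  have hcomb := hlow.trans hle
  have hpos : (0 : ℝ) ≤ (1 - 351 / 1000 * (α - 2) + 1 / 2000) * n ^ 2 := by
    apply mul_nonneg
    · linarith
    · positivity
  rw [ENNReal.ofReal_le_ofReal_iff hpos] at hcomb
  have he := ho.1
  have h1 : (79 / 100 : ℝ) * (G.numEdges : ℝ) ≤ 79 / 100 * (α * n / 2) := by linarith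
  have h2 : (n : ℝ) * (n * (459 / 250 - 6 * (1 / 12000)) - 1 / 16 * l - 79 / 100 * (α * n / 2)) -
      n / (1 / 12000) ≤ (1 - 351 / 1000 * (α - 2) + 1 / 2000) * n ^ 2 := by
    refine le_trans ?_ hcomb
    have h3 : (0 : ℝ) ≤ n := by linarith
    have h4 := mul_le_mul_of_nonneg_left h1 h3
    nlinarith
  have h5 : (n : ℝ) * (1 / 16 * l) ≥ n * (n / 1600) := by
    have h6 : (n : ℝ) / (1 / 12000) = 12000 * n := by ring
    rw [h6] at h2
    have h7 : (0 : ℝ) ≤ n := by linarith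
    have h8 : (n : ℝ) ^ 2 * (3 - α) ≥ 0 := mul_nonneg (by positivity) (by linarith)
    have h9 : (n : ℝ) * n ≥ 40000000 * n := mul_le_mul_of_nonneg_right hnr h7
    nlinarith
  have h6 : (n : ℝ) / 1600 ≤ 1 / 16 * l := by
    have h7 : (0 : ℝ) < n := by linarith
    exact le_of_mul_le_mul_left h5 h7
  linarith

end MPd2470a
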