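import Pool.Agent.Lib.MP_d2470a_co.MidDefs

/-!
# MidNum: the numerical inequality

`T = 1/(1-g) + 1/(1+4g) + 1/(1+2g) + 4(2+3g)/(1+3g-g²) + 4/(1+g)`. For `g ∈ [333/500, 37/50]` the
product `smid g * (15 - T)/g` is at least `2.07` (values: `2.157` at `0.666`, `2.18` at `0.7`, `2.076` at
`0.74`). Clear denominators; for `g ≤ 2/3` the maximum is `0`, for `g ≥ 2/3` it is `3g - 2`. Cutting the
interval in a few pieces and bounding the increasing function `T` (it is increasing on the interval)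
or the factors by their end point values is enough (the slack is `0.07`).
-/

set_option autoImplicit false

namespace MPd2470a

private def pD (g : ℝ) : ℝ := (1 - g) * (1 + 4 * g) * (1 + 2 * g) * (1 + 3 * g - g ^ 2) * (1 + g)

private def pN (g : ℝ) : ℝ := (1 + 4 * g) * (1 + 2 * g) * (1 + 3 * g - g ^ 2) * (1 + g) +
  (1 - g) * (1 + 2 * g) * (1 + 3 * g - g ^ 2) * (1 + g) +
  (1 - g) * (1 + 4 * g) * (1 + 3 * g - g ^ 2) * (1 + g) +
  4 * (2 + 3 * g) * ((1 - g) * (1 + 4 * g) * (1 + 2 * g) * (1 + g)) +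
  4 * ((1 - g) * (1 + 4 * g) * (1 + 2 * g) * (1 + 3 * g - g ^ 2))

private theorem pc1 (g : ℝ) (h0 : (333/500) ≤ g) (h1 : g ≤ (2/3)) :
    2 * g * pD g ≤ (g ^ 2 + (2 * g - 1) ^ 2 - 1 / 100) * (15 * pD g - pN g) := by
  have hu : 0 ≤ g - (333/500) := by linarith
  have hv : 0 ≤ (2/3) - g := by linarith
  have key : ((g ^ 2 + (2 * g - 1) ^ 2 - 1 / 100) * (15 * pD g - pN g) - 2 * g * pD g) * (1/25628906250000000000000000) =
      (24934130404845450543/19531250000000000000) * (g - (333/500)) ^ 0 * ((2/3) - g) ^ 8 +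
      (59888948709906594301/5859375000000000000) * (g - (333/500)) ^ 1 * ((2/3) - g) ^ 7 +
      (8391007930840484723/234375000000000000) * (g - (333/500)) ^ 2 * ((2/3) - g) ^ 6 +
      (167950661553035149/2343750000000000) * (g - (333/500)) ^ 3 * ((2/3) - g) ^ 5 +
      (15127250736592543/168750000000000) * (g - (333/500)) ^ 4 * ((2/3) - g) ^ 4 +
      (36333330563347/506250000000) * (g - (333/500)) ^ 5 * ((2/3) - g) ^ 3 +
      (1090833869/30375000) * (g - (333/500)) ^ 6 * ((2/3) - g) ^ 2 +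
      (1122854297/109350000) * (g - (333/500)) ^ 7 * ((2/3) - g) ^ 1 +
      (15607/12150) * (g - (333/500)) ^ 8 * ((2/3) - g) ^ 0 := by
    unfold pD pN
    ring
  have hpos : 0 ≤ (24934130404845450543/19531250000000000000) * (g - (333/500)) ^ 0 * ((2/3) - g) ^ 8 +
      (59888948709906594301/5859375000000000000) * (g - (333/500)) ^ 1 * ((2/3) - g) ^ 7 +
      (8391007930840484723/234375000000000000) * (g - (333/500)) ^ 2 * ((2/3) - g) ^ 6 +
      (167950661553035149/2343750000000000) * (g - (333/500)) ^ 3 * ((2/3) - g) ^ 5 +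
      (15127250736592543/168750000000000) * (g - (333/500)) ^ 4 * ((2/3) - g) ^ 4 +
      (36333330563347/506250000000) * (g - (333/500)) ^ 5 * ((2/3) - g) ^ 3 +
      (1090833869/30375000) * (g - (333/500)) ^ 6 * ((2/3) - g) ^ 2 +
      (1122854297/109350000) * (g - (333/500)) ^ 7 * ((2/3) - g) ^ 1 +
      (15607/12150) * (g - (333/500)) ^ 8 * ((2/3) - g) ^ 0 := by
    positivity
  rw [← key] at hpos
  have := nonneg_of_mul_nonneg_left hpos (by norm_num)
  linarith

private theorem pc2 (g : ℝ) (h0 : (2/3) ≤ g) (h1 : g ≤ (37/50)) :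
    2 * g * pD g ≤ (g ^ 2 + (2 * g - 1) ^ 2 + (3 * g - 2) ^ 2 - 1 / 100) * (15 * pD g - pN g) := by
  have hu : 0 ≤ g - (2/3) := by linarith
  have hv : 0 ≤ (37/50) - g := by linarith
  have key : ((g ^ 2 + (2 * g - 1) ^ 2 + (3 * g - 2) ^ 2 - 1 / 100) * (15 * pD g - pN g) - 2 * g * pD g) * (214358881/256289062500000000) =
      (15607/12150) * (g - (2/3)) ^ 0 * ((37/50) - g) ^ 8 +
      (121717133/10935000) * (g - (2/3)) ^ 1 * ((37/50) - g) ^ 7 +
      (152853071/3645000) * (g - (2/3)) ^ 2 * ((37/50) - g) ^ 6 +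
      (44884695943/506250000) * (g - (2/3)) ^ 3 * ((37/50) - g) ^ 5 +
      (5753872872689/50625000000) * (g - (2/3)) ^ 4 * ((37/50) - g) ^ 4 +
      (18782411307709/210937500000) * (g - (2/3)) ^ 5 * ((37/50) - g) ^ 3 +
      (792125898579/19531250000) * (g - (2/3)) ^ 6 * ((37/50) - g) ^ 2 +
      (1811894193441/195312500000) * (g - (2/3)) ^ 7 * ((37/50) - g) ^ 1 +
      (1325035172799/1953125000000) * (g - (2/3)) ^ 8 * ((37/50) - g) ^ 0 := by
    unfold pD pN
    ring
  have hpos : 0 ≤ (15607/12150) * (g - (2/3)) ^ 0 * ((37/50) - g) ^ 8 +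
      (121717133/10935000) * (g - (2/3)) ^ 1 * ((37/50) - g) ^ 7 +
      (152853071/3645000) * (g - (2/3)) ^ 2 * ((37/50) - g) ^ 6 +
      (44884695943/506250000) * (g - (2/3)) ^ 3 * ((37/50) - g) ^ 5 +
      (5753872872689/50625000000) * (g - (2/3)) ^ 4 * ((37/50) - g) ^ 4 +
      (18782411307709/210937500000) * (g - (2/3)) ^ 5 * ((37/50) - g) ^ 3 +
      (792125898579/19531250000) * (g - (2/3)) ^ 6 * ((37/50) - g) ^ 2 +
      (1811894193441/195312500000) * (g - (2/3)) ^ 7 * ((37/50) - g) ^ 1 +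
      (1325035172799/1953125000000) * (g - (2/3)) ^ 8 * ((37/50) - g) ^ 0 := by
    positivity
  rw [← key] at hpos
  have := nonneg_of_mul_nonneg_left hpos (by norm_num)
  linarith

theorem mid_num (g : ℝ) (h0 : 333 / 500 ≤ g) (h1 : g ≤ 37 / 50) :
    2 ≤ smid g * ((15 - (1 / (1 - g) + 1 / (1 + 4 * g) + 1 / (1 + 2 * g) +
      4 * (2 + 3 * g) / (1 + 3 * g - g ^ 2) + 4 / (1 + g))) / g) := by
  have hg : 0 < g := by linarith
  have e1 : 0 < 1 - g := by linarith
  have e2 : 0 < 1 + 4 * g := by linarith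
  have e3 : 0 < 1 + 2 * g := by linarith
  have e4 : 0 < 1 + 3 * g - g ^ 2 := by nlinarith
  have e5 : 0 < 1 + g := by linarith
  have hD : 0 < pD g := by unfold pD; positivity
  have hT : 15 - (1 / (1 - g) + 1 / (1 + 4 * g) + 1 / (1 + 2 * g) +
      4 * (2 + 3 * g) / (1 + 3 * g - g ^ 2) + 4 / (1 + g)) = (15 * pD g - pN g) / pD g := by
    have n1 := e1.ne'
    have n2 := e2.ne'
    have n3 := e3.ne'
    have n4 := e4.ne'
    have n5 := e5.ne'
    rw [eq_div_iff hD.ne']
    unfold pD pN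
    clear hD e4
    generalize 1 + 3 * g - g ^ 2 = q at n4 ⊢
    field_simp
  rw [hT, div_div, ← mul_div_assoc, le_div_iff₀ (by positivity)]
  have hs : 2 * g * pD g ≤ smid g * (15 * pD g - pN g) := by
    by_cases h : g ≤ 2 / 3
    · have h2 : smid g = g ^ 2 + (2 * g - 1) ^ 2 - 1 / 100 := by
        unfold smid
        rw [max_eq_right (by linarith)]
        ring
      rw [h2]
      exact pc1 g h0 h
    · have h2 : smid g = g ^ 2 + (2 * g - 1) ^ 2 + (3 * g - 2) ^ 2 - 1 / 100 := by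
        unfold smid
        rw [max_eq_left (by linarith)]
      rw [h2]
      exact pc2 g (by linarith) h1
  linarith

end MPd2470a
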