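import Pool.Agent.Lib.MP_d2470a_co.MidInv
import Pool.Agent.Lib.MP_d2470a_co.MidNum

/-!
# MidPos: the exchange is profitable near block scalar matrices

`Γ₀ = fromBlocks (g • 1) 0 0 (diagonal r)`, `Θ₀ = fromBlocks (s • 1) 0 0 (diagonal t)`.
* `mid_val`: `1 + midA Γ₀ = fromBlocks Z 0 0 (diagonal (1 - r))`, its inverse is
  `I = fromBlocks Q 0 0 (diagonal (1/(1-r)))` (`mid_inv`), `adjugate = det • I`, so
  `midF Γ₀ Θ₀ = det² * trace (Θ₀ I midA) = det² * (s * trace (Q (LH - 1)) - ∑ t_j/(1 - r_j))`; from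
  `Q Z = 1`: `g • Q (LH - 1) = 1 - Q`, so `trace (Q (LH - 1)) = (15 - trace Q)/g > 0`;
  `s ≥ smid g`, `mid_num`: `s (15 - trace Q)/g ≥ 2 > 3 ρ ≥ ∑ t_j/(1-r_j)`.
* `mid_pos`: compactness as in `CycPos.lean`: the set of the parameters `(g, s, r, t)` is compact and
  `midF` is continuous.
-/

set_option autoImplicit false

namespace MPd2470a

open Matrix

private theorem smid_pos (g : ℝ) (h0 : 333 / 500 ≤ g) : 0 < smid g := by
  unfold smid
  have h1 : 0 ≤ (2 * g - 1) ^ 2 := sq_nonneg _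
  have h2 : 0 ≤ (max (3 * g - 2) 0) ^ 2 := sq_nonneg _
  nlinarith

private theorem midp_trace (A : Matrix J J ℝ) (B : Matrix J (Fin 3) ℝ) (C : Matrix (Fin 3) J ℝ)
    (D : Matrix (Fin 3) (Fin 3) ℝ) : trace (fromBlocks A B C D) = trace A + trace D := by
  simp only [trace, diag_apply, Fintype.sum_sum_type, fromBlocks_apply₁₁, fromBlocks_apply₂₂]

theorem mid_val (g s ρ : ℝ) (r t : Fin 3 → ℝ) (h0 : 333 / 500 ≤ g) (h1 : g ≤ 37 / 50)
    (hs : smid g ≤ s) (hρ : ρ < 333 / 500) (hr : ∀ j, r j < 1)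
    (ht : ∀ j, t j ≤ ρ * (1 - r j)) :
    0 < midF (fromBlocks (g • 1) 0 0 (diagonal r)) (fromBlocks (s • 1) 0 0 (diagonal t)) := by
  obtain ⟨Q, hQ, hT⟩ := mid_inv g (by linarith) (by linarith)
  have hnum := mid_num g h0 h1
  rw [← hT] at hnum
  have hg : 0 < g := by linarith
  have hsm := smid_pos g h0
  -- the inverse of the second block
  have hd : ∀ j, (1 - r j) ≠ 0 := fun j => by have := hr j; linarith
  set W : Matrix (J ⊕ Fin 3) (J ⊕ Fin 3) ℝ :=
    fromBlocks Q 0 0 (diagonal (fun j => 1 / (1 - r j))) with hW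
  set M : Matrix (J ⊕ Fin 3) (J ⊕ Fin 3) ℝ :=
    1 + midA * (fromBlocks (g • 1) 0 0 (diagonal r)) with hM
  have hM2 : M = fromBlocks (1 + (LH - 1) * (g • (1 : Matrix J J ℝ))) 0 0
      (diagonal (fun j => 1 - r j)) := by
    rw [hM, midA, fromBlocks_multiply, ← fromBlocks_one, fromBlocks_add]
    congr 1
    · simp
    · simp
    · simp
    · ext i j
      simp only [Matrix.add_apply, Matrix.zero_mul, Matrix.neg_mul, Matrix.one_mul,
        Matrix.zero_apply, Matrix.neg_apply, Matrix.one_apply, Matrix.diagonal_apply]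
      split_ifs with h
      · ring
      · ring
  have hMW : M * W = 1 := by
    rw [hM2, hW, fromBlocks_multiply]
    refine Eq.trans ?_ fromBlocks_one
    congr 1
    · simp only [Matrix.zero_mul, add_zero]
      exact hQ
    · simp
    · simp
    · simp only [Matrix.zero_mul, zero_add, diagonal_mul_diagonal]
      ext i j
      rw [Matrix.diagonal_apply, Matrix.one_apply]
      split_ifs with h
      · rw [mul_one_div, div_self (hd i)]
      · rfl
  have hdet : M.det * W.det = 1 := by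
    rw [← det_mul, hMW, det_one]
  have hdet0 : M.det ≠ 0 := left_ne_zero_of_mul_eq_one hdet
  have hadj : adjugate M = M.det • W := by
    calc adjugate M = adjugate M * (M * W) := by rw [hMW, Matrix.mul_one]
      _ = (adjugate M * M) * W := by rw [Matrix.mul_assoc]
      _ = M.det • W := by rw [adjugate_mul, Matrix.smul_mul, Matrix.one_mul]
  have hQZ : Q * (1 + (LH - 1) * (g • (1 : Matrix J J ℝ))) = 1 := mul_eq_one_comm.mp hQ
  have htrQ : g * trace (Q * (LH - 1)) = 15 - trace Q := by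
    have h2 := congrArg trace hQZ
    rw [Matrix.mul_add, Matrix.mul_one, Matrix.mul_smul, Matrix.mul_one, Matrix.mul_smul,
      trace_add, trace_smul, trace_one, smul_eq_mul] at h2
    have h3 : (Fintype.card J : ℝ) = 15 := by
      simp [J]
    rw [h3] at h2
    linarith
  have hX : trace (Q * (LH - 1)) = (15 - trace Q) / g := by
    rw [← htrQ]
    field_simp
  have hX2 : 2 ≤ s * trace (Q * (LH - 1)) := by
    rw [hX]
    have hXpos : 0 < (15 - trace Q) / g := by
      by_contra hc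
      rw [not_lt] at hc
      nlinarith [mul_nonneg hsm.le (neg_nonneg.mpr hc)]
    calc 2 ≤ smid g * ((15 - trace Q) / g) := hnum
      _ ≤ s * ((15 - trace Q) / g) := mul_le_mul_of_nonneg_right hs hXpos.le
  have hsum : ∑ j : Fin 3, t j / (1 - r j) < 2 := by
    have h4 : ∀ j, t j / (1 - r j) ≤ ρ := by
      intro j
      rw [div_le_iff₀ (by have := hr j; linarith)]
      exact ht j
    rw [Fin.sum_univ_three]
    have a0 := h4 0
    have a1 := h4 1
    have a2 := h4 2
    linarith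
  have htrace : trace ((fromBlocks (s • 1) 0 0 (diagonal t) : Matrix (J ⊕ Fin 3) (J ⊕ Fin 3) ℝ) *
      (W * midA)) = s * trace (Q * (LH - 1)) - ∑ j : Fin 3, t j / (1 - r j) := by
    rw [hW, midA, fromBlocks_multiply, fromBlocks_multiply, midp_trace]
    simp only [Matrix.zero_mul, Matrix.mul_zero, add_zero, zero_add, Matrix.mul_neg,
      Matrix.mul_one, Matrix.smul_mul, Matrix.one_mul, trace_smul, smul_eq_mul,
      diagonal_mul_diagonal, neg_zero, trace_neg, trace_diagonal]
    rw [sub_eq_add_neg]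
    congr 2
    apply Finset.sum_congr rfl
    intro j _
    rw [mul_one_div]
  unfold midF
  rw [← hM, hadj, Matrix.smul_mul, Matrix.mul_smul, trace_smul, smul_eq_mul, htrace]
  have h5 : 0 < M.det * M.det := mul_self_pos.mpr hdet0
  have h6 : 0 < s * trace (Q * (LH - 1)) - ∑ j : Fin 3, t j / (1 - r j) := by linarith
  calc 0 < (M.det * M.det) * (s * trace (Q * (LH - 1)) - ∑ j : Fin 3, t j / (1 - r j)) :=
        mul_pos h5 h6
    _ = _ := by ring

private abbrev midp_E : Type := (J ⊕ Fin 3) → (J ⊕ Fin 3) → ℝ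

private noncomputable def midp_F (q : midp_E × midp_E) : ℝ :=
  midF (Matrix.of q.1) (Matrix.of q.2)

private theorem midp_cont : Continuous midp_F := by
  have h1 : Continuous (fun q : midp_E × midp_E =>
      (Matrix.of q.1 : Matrix (J ⊕ Fin 3) (J ⊕ Fin 3) ℝ)) := continuous_fst
  have h2 : Continuous (fun q : midp_E × midp_E =>
      (Matrix.of q.2 : Matrix (J ⊕ Fin 3) (J ⊕ Fin 3) ℝ)) := continuous_snd
  have h3 : Continuous (fun q : midp_E × midp_E => 1 + midA * (Matrix.of q.1)) :=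
    continuous_const.add (continuous_const.matrix_mul h1)
  exact h3.matrix_det.mul (h2.matrix_mul (h3.matrix_adjugate.matrix_mul continuous_const)).matrix_trace

private def midp_dg (g : ℝ) (r : Fin 3 → ℝ) : midp_E := fun i j =>
  match i, j with
  | Sum.inl a, Sum.inl b => if a = b then g else 0
  | Sum.inl _, Sum.inr _ => 0
  | Sum.inr _, Sum.inl _ => 0
  | Sum.inr a, Sum.inr b => if a = b then r a else 0

private theorem midp_dg_cont : Continuous (fun p : ℝ × (Fin 3 → ℝ) => midp_dg p.1 p.2) := by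
  refine continuous_pi fun i => continuous_pi fun j => ?_
  rcases i with a | a <;> rcases j with b | b
  · by_cases h : a = b
    · simp only [midp_dg, h, if_true]
      exact continuous_fst
    · simp only [midp_dg, h, if_false]
      exact continuous_const
  · exact continuous_const
  · exact continuous_const
  · by_cases h : a = b
    · simp only [midp_dg, h, if_true]
      exact (continuous_apply b).comp continuous_snd
    · simp only [midp_dg, h, if_false]
      exact continuous_const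

private theorem midp_of_dg (g : ℝ) (r : Fin 3 → ℝ) :
    (Matrix.of (midp_dg g r) : Matrix (J ⊕ Fin 3) (J ⊕ Fin 3) ℝ) =
      fromBlocks (g • 1) 0 0 (diagonal r) := by
  ext i j
  rcases i with a | a <;> rcases j with b | b
  · simp [midp_dg, Matrix.one_apply]
  · simp [midp_dg]
  · simp [midp_dg]
  · simp [midp_dg, Matrix.diagonal_apply]

theorem mid_pos (S1 δ ρ : ℝ) (hδ : 0 < δ) (hρ : ρ < 333 / 500) : ∃ ε : ℝ, 0 < ε ∧
    ∀ (g s : ℝ) (r t : Fin 3 → ℝ), 333 / 500 ≤ g → g ≤ 37 / 50 → smid g ≤ s → s ≤ S1 →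
      (∀ j, 0 ≤ r j ∧ r j ≤ 1 - δ) → (∀ j, 0 ≤ t j ∧ t j ≤ ρ * (1 - r j)) →
      ∀ Γ Θ : Matrix (J ⊕ Fin 3) (J ⊕ Fin 3) ℝ,
        (∀ i j, |Γ i j - (fromBlocks (g • 1) 0 0 (diagonal r) :
          Matrix (J ⊕ Fin 3) (J ⊕ Fin 3) ℝ) i j| ≤ ε) →
        (∀ i j, |Θ i j - (fromBlocks (s • 1) 0 0 (diagonal t) :
          Matrix (J ⊕ Fin 3) (J ⊕ Fin 3) ℝ) i j| ≤ ε) →
        0 < midF Γ Θ := by
  set P0 : Set ((ℝ × ℝ) × ((Fin 3 → ℝ) × (Fin 3 → ℝ))) :=
    ((Set.Icc (333 / 500) (37 / 50) ×ˢ Set.Icc 0 S1) ×ˢ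
      ((Set.univ.pi fun _ => Set.Icc 0 (1 - δ)) ×ˢ (Set.univ.pi fun _ => Set.Icc 0 |ρ|))) ∩
      ({p | smid p.1.1 ≤ p.1.2} ∩ ⋂ j : Fin 3, {p | p.2.2 j ≤ ρ * (1 - p.2.1 j)}) with hP0
  have hP0c : IsCompact P0 := by
    apply IsCompact.inter_right
    · exact (isCompact_Icc.prod isCompact_Icc).prod
        ((isCompact_univ_pi fun _ => isCompact_Icc).prod (isCompact_univ_pi fun _ => isCompact_Icc))
    · apply IsClosed.inter
      · apply isClosed_le
        · unfold smid
          fun_prop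
        · fun_prop
      · apply isClosed_iInter
        intro j
        apply isClosed_le
        · exact (continuous_apply j).comp (continuous_snd.comp continuous_snd)
        · exact continuous_const.mul (continuous_const.sub
            ((continuous_apply j).comp (continuous_fst.comp continuous_snd)))
  set K : Set (midp_E × midp_E) :=
    (fun p : (ℝ × ℝ) × ((Fin 3 → ℝ) × (Fin 3 → ℝ)) =>
      (midp_dg p.1.1 p.2.1, midp_dg p.1.2 p.2.2)) '' P0 with hK
  have hKc : IsCompact K := by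
    refine hP0c.image ?_
    refine Continuous.prodMk ?_ ?_
    · exact midp_dg_cont.comp ((continuous_fst.comp continuous_fst).prodMk
        (continuous_fst.comp continuous_snd))
    · exact midp_dg_cont.comp ((continuous_snd.comp continuous_fst).prodMk
        (continuous_snd.comp continuous_snd))
  have hU : IsOpen {q : midp_E × midp_E | 0 < midp_F q} := isOpen_lt continuous_const midp_cont
  have hKU : K ⊆ {q : midp_E × midp_E | 0 < midp_F q} := by
    rintro _ ⟨⟨⟨g, s⟩, ⟨r, t⟩⟩, ⟨⟨⟨⟨hg0, hg1⟩, hs0, hs1⟩, hr, ht⟩, hsm, htr⟩, rfl⟩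
    show 0 < midp_F (midp_dg g r, midp_dg s t)
    rw [midp_F, midp_of_dg, midp_of_dg]
    apply mid_val g s ρ r t hg0 hg1 hsm hρ
    · intro j
      have := (hr j (Set.mem_univ j)).2
      linarith
    · intro j
      exact Set.mem_iInter.mp htr j
  obtain ⟨η, hη, hsub⟩ := hKc.exists_thickening_subset_open hU hKU
  refine ⟨η / 2, by positivity, fun g s r t hg0 hg1 hs0 hs1 hr ht Γ Θ hΓ hΘ => ?_⟩
  obtain ⟨γ, hγ⟩ : ∃ γ : midp_E, ∀ i j, γ i j = Γ i j := ⟨fun i j => Γ i j, fun _ _ => rfl⟩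
  obtain ⟨θ, hθ⟩ : ∃ θ : midp_E, ∀ i j, θ i j = Θ i j := ⟨fun i j => Θ i j, fun _ _ => rfl⟩
  have hΓ' : Γ = Matrix.of γ := by
    ext i j
    rw [Matrix.of_apply, hγ]
  have hΘ' : Θ = Matrix.of θ := by
    ext i j
    rw [Matrix.of_apply, hθ]
  have hd1 : dist γ (midp_dg g r) ≤ η / 2 := by
    refine (dist_pi_le_iff (by positivity)).2 fun i => (dist_pi_le_iff (by positivity)).2 fun j => ?_
    rw [Real.dist_eq, hγ]
    have := hΓ i j
    rw [← midp_of_dg, Matrix.of_apply] at this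
    exact this
  have hd2 : dist θ (midp_dg s t) ≤ η / 2 := by
    refine (dist_pi_le_iff (by positivity)).2 fun i => (dist_pi_le_iff (by positivity)).2 fun j => ?_
    rw [Real.dist_eq, hθ]
    have := hΘ i j
    rw [← midp_of_dg, Matrix.of_apply] at this
    exact this
  have hmemP : ((g, s), (r, t)) ∈ P0 := by
    refine ⟨⟨⟨⟨hg0, hg1⟩, (smid_pos g hg0).le.trans hs0, hs1⟩, ?_, ?_⟩, hs0, ?_⟩
    · intro j _
      exact ⟨(hr j).1, (hr j).2⟩
    · intro j _
      refine ⟨(ht j).1, (ht j).2.trans ?_⟩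
      have h7 : 0 ≤ 1 - r j := by have := (hr j).2; linarith
      have h8 : 1 - r j ≤ 1 := by have := (hr j).1; linarith
      calc ρ * (1 - r j) ≤ |ρ| * (1 - r j) := mul_le_mul_of_nonneg_right (le_abs_self ρ) h7
        _ ≤ |ρ| * 1 := mul_le_mul_of_nonneg_left h8 (abs_nonneg ρ)
        _ = |ρ| := mul_one _
    · exact Set.mem_iInter.mpr fun j => (ht j).2
  have hmem : (γ, θ) ∈ Metric.thickening η K := by
    refine Metric.mem_thickening_iff.2 ⟨(midp_dg g r, midp_dg s t), ⟨_, hmemP, rfl⟩, ?_⟩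
    rw [Prod.dist_eq]
    exact max_lt (by linarith) (by linarith)
  have hfin : 0 < midp_F (γ, θ) := hsub hmem
  rw [hΓ', hΘ']
  exact hfin

end MPd2470a
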