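import Pool.Agent.Lib.MP_d2470a_co.OptMid
import Pool.Agent.Lib.MP_d2470a_co.MidPos
import Pool.Agent.Lib.MP_d2470a_co.CheapThree
import Pool.Agent.Lib.MP_d2470a_co.HubSUp
import Pool.Agent.Lib.MP_d2470a_co.HubSum
import Pool.Agent.Lib.MP_d2470a_co.Cells

/-!
# PartMid: few edges at `v` lead to vertices with Green function in `(333/500, 37/50]`

Same scheme as `PartOne.lean` and `PartTwo.lean`. `ε` from `mid_pos`, `b_j = ed (y j) (z j)` from
`cheap_three` (with this `ε`), `N` large. `B₁` = the set of the sum; for `x ∈ B₁` `mult x v = 1` because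
`mult * gg ≤ 1` and `gg > 1/2`. `W = |B₁|`, suppose `W > C √n`.
`B` = the `x ∈ B₁` with `∑_y h y |ss x y| ≤ 16 n/W`, `tt x ≤ 16 n/W`, `|rr (ed x v) b_j| ≤ ε`,
`|qq (ed x v) b_j| ≤ ε` (`j = 0, 1, 2`), `{x, v} ≠ {y j, z j}`. Exceptions: `W/8`, `W/16`, `3/ε²` (`hubB1`,
`rr b b ≤ 1`), `3 √(n ρ)/ε` (`hubB2`, `qq b b ≤ ρ`), `3`; so `|B| ≥ W/2` for `C` large.
`bad x y := y = x ∨ ε < |ss x y| ∨ ε < gg x y`, weight at most `1 + (16 n/W)/ε + 1/ε` (`sum_gg`,
`gg_symm`); `greedy` with `K = 15 ((⌊1/ε⌋₊ + 1)(⌊S₁/ε⌋₊ + 1))`, then pigeonhole on a grid of mesh `ε`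
for `(gg x x, ss x x) ∈ [0,1] × [0, S₁]` (the proof of `cells` in `Cells.lean` with 15 in place of 12,
and an equivalence `J ≃ Fin 15`) gives `x : J → Fin n`.
With `g = gg, s = ss` at the first of them, `r j = rr b_j b_j ∈ [0, 1-δ]`, `t j = qq b_j b_j ∈ [0, ρ (1 - r j)]`:
`ss x x = ∑ gg² - tt²/n ≥ smid g + 1/100 - 256 n/W² ≥ smid g` (`ss_eq`, `hubS_mid`) for `C` large. All
entries of `Γ = rr, Θ = qq` of the vectors are within `ε` of the block scalar matrices, so `mid_pos`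
contradicts `opt_mid` (`gg v x y = rr (ed x v) (ed y v)` by definition).
-/

set_option autoImplicit false

namespace MPd2470a

open Matrix Finset

private theorem pm_num {ε m W K : ℝ} (hε : 0 < ε) (hm : 1 ≤ m) (hK : 0 ≤ K)
    (h : 200 * (K + 1) * (1 / ε ^ 2 + 1 / ε + 1) * √m < W) :
    0 < W ∧ 3 * (1 / ε ^ 2) + 3 * (√m / ε) + 6 ≤ W / 4 ∧
      K * (1 + (16 * m / W) / ε + 1 / ε) < W / 2 ∧ (16 * m / W) ^ 2 / m ≤ 1 / 100 := by
  obtain ⟨S, hS⟩ : ∃ S : ℝ, S = √m := ⟨_, rfl⟩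
  have hS1 : 1 ≤ S := by
    rw [hS, show (1 : ℝ) = √1 from Real.sqrt_one.symm]
    exact Real.sqrt_le_sqrt hm
  have hSm : S * S = m := by
    rw [hS]
    exact Real.mul_self_sqrt (by linarith)
  obtain ⟨u, hu⟩ : ∃ u : ℝ, u = 1 / ε := ⟨_, rfl⟩
  have hu0 : 0 < u := by
    rw [hu]
    positivity
  have hu2 : 1 / ε ^ 2 = u ^ 2 := by
    rw [hu, _root_.one_div_pow]
  obtain ⟨A, hA⟩ : ∃ A : ℝ, A = u ^ 2 + u + 1 := ⟨_, rfl⟩
  rw [← hS, hu2, ← hu, ← hA] at h
  rw [← hS, hu2, ← hu]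
  have hA1 : 1 ≤ A := by nlinarith
  have hk : 1 ≤ K + 1 := by linarith
  obtain ⟨P, hP⟩ : ∃ P : ℝ, P = A * S := ⟨_, rfl⟩
  have hPS : S ≤ P := by
    rw [hP]
    nlinarith
  have hPe : P = u ^ 2 * S + u * S + S := by
    rw [hP, hA]
    ring
  have hP1 : 1 ≤ P := hS1.trans hPS
  have hkP : P ≤ (K + 1) * P := by nlinarith
  have h' : 200 * ((K + 1) * P) < W := by
    rw [hP]
    linarith
  have hW : 0 < W := by linarith
  obtain ⟨D, hD⟩ : ∃ D : ℝ, D = 16 * m / W := ⟨_, rfl⟩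
  have hD0 : 0 < D := by
    rw [hD]
    positivity
  have hu2S : u ^ 2 ≤ u ^ 2 * S := le_mul_of_one_le_right (by positivity) hS1
  have huS : u ≤ u * S := le_mul_of_one_le_right hu0.le hS1
  have hDk : D * ((K + 1) * A) ≤ 16 / 200 * S := by
    rw [hD, div_mul_eq_mul_div, div_le_iff₀ hW, ← hSm]
    have h1 : S * (200 * ((K + 1) * P)) ≤ S * W := mul_le_mul_of_nonneg_left h'.le (by linarith)
    rw [hP] at h1
    nlinarith
  have e1 : D / ε = D * u := by
    rw [hu]
    ring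
  have e2 : S / ε = u * S := by
    rw [hu]
    ring
  rw [← hD, e1, e2]
  refine ⟨hW, ?_, ?_, ?_⟩
  · linarith
  · have a1 : K * (1 + u) ≤ (K + 1) * P := by
      have b0 : 0 ≤ u ^ 2 * S := mul_nonneg (sq_nonneg u) (by linarith)
      have b1 : 1 + u ≤ P := by linarith
      have b2 : K * (1 + u) ≤ K * P := mul_le_mul_of_nonneg_left b1 hK
      nlinarith
    have a2 : K * (D * u) ≤ D * ((K + 1) * A) := by
      have b1 : K * u ≤ (K + 1) * A := by
        have b0 : u ≤ A := by nlinarith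
        have b3 : K * u ≤ K * A := mul_le_mul_of_nonneg_left b0 hK
        nlinarith
      have b2 : D * (K * u) ≤ D * ((K + 1) * A) := mul_le_mul_of_nonneg_left b1 hD0.le
      linarith
    have a3 : K * (1 + D * u + u) = K * (1 + u) + K * (D * u) := by ring
    rw [a3]
    linarith
  · rw [div_le_iff₀ (by linarith)]
    have a1 : D ≤ 16 / 200 * S := by
      have b1 : 1 ≤ (K + 1) * A := by nlinarith
      have b2 : D * 1 ≤ D * ((K + 1) * A) := mul_le_mul_of_nonneg_left b1 hD0.le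
      linarith
    have a2 : D ^ 2 ≤ (16 / 200 * S) ^ 2 := pow_le_pow_left₀ hD0.le a1 2
    nlinarith

private theorem pm_abs {ε x y : ℝ} (hε : 0 < ε) (hx : 0 ≤ x) (hy : 0 ≤ y)
    (h : ⌊x / ε⌋₊ = ⌊y / ε⌋₊) : |x - y| ≤ ε := by
  have h1 : (⌊x / ε⌋₊ : ℝ) ≤ x / ε := Nat.floor_le (div_nonneg hx hε.le)
  have h2 : x / ε < (⌊x / ε⌋₊ : ℝ) + 1 := Nat.lt_floor_add_one _
  have h3 : (⌊y / ε⌋₊ : ℝ) ≤ y / ε := Nat.floor_le (div_nonneg hy hε.le)
  have h4 : y / ε < (⌊y / ε⌋₊ : ℝ) + 1 := Nat.lt_floor_add_one _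
  rw [h] at h1 h2
  rw [le_div_iff₀ hε] at h1 h3
  rw [div_lt_iff₀ hε] at h2 h4
  rw [abs_le]
  constructor <;> nlinarith

private theorem pm_mem {ε x S : ℝ} (hε : 0 < ε) (hxS : x ≤ S) :
    ⌊x / ε⌋₊ ∈ range (⌊S / ε⌋₊ + 1) := by
  rw [mem_range]
  have h1 : ⌊x / ε⌋₊ ≤ ⌊S / ε⌋₊ := Nat.floor_mono (div_le_div_of_nonneg_right hxS hε.le)
  omega

private theorem pm_cells (S1 ε : ℝ) (hε : 0 < ε) {K : ℕ} (p q : Fin K → ℝ)
    (hp0 : ∀ i, 0 ≤ p i) (hp1 : ∀ i, p i ≤ 1) (hq0 : ∀ i, 0 ≤ q i) (hq1 : ∀ i, q i ≤ S1)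
    (hK : 15 * ((⌊1 / ε⌋₊ + 1) * (⌊S1 / ε⌋₊ + 1)) ≤ K) :
    ∃ f : J → Fin K, Function.Injective f ∧ ∀ i j, |p (f i) - p (f j)| ≤ ε ∧
      |q (f i) - q (f j)| ≤ ε := by
  classical
  have hmaps : ∀ a ∈ (univ : Finset (Fin K)), (⌊p a / ε⌋₊, ⌊q a / ε⌋₊) ∈
      range (⌊1 / ε⌋₊ + 1) ×ˢ range (⌊S1 / ε⌋₊ + 1) := by
    intro a _
    rw [mem_product]
    exact ⟨pm_mem hε (hp1 a), pm_mem hε (hq1 a)⟩
  have hcard : (range (⌊1 / ε⌋₊ + 1) ×ˢ range (⌊S1 / ε⌋₊ + 1)).card * 15 ≤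
      (univ : Finset (Fin K)).card := by
    rw [card_product, card_range, card_range, card_univ, Fintype.card_fin, mul_comm]
    exact hK
  have hne : (range (⌊1 / ε⌋₊ + 1) ×ˢ range (⌊S1 / ε⌋₊ + 1)).Nonempty :=
    ⟨(0, 0), by simp⟩
  obtain ⟨c, -, hc⟩ := exists_le_card_fiber_of_mul_le_card_of_maps_to hmaps hne hcard
  have hmem : ∀ i : Fin 15, (⌊p (orderEmbOfCardLe _ hc i) / ε⌋₊,
      ⌊q (orderEmbOfCardLe _ hc i) / ε⌋₊) = c := by
    intro i
    have h1 := orderEmbOfCardLe_mem _ hc i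
    rw [mem_filter] at h1
    exact h1.2
  have hJ : Fintype.card J = 15 := by
    simp [J]
  obtain ⟨e⟩ : Nonempty (J ≃ Fin 15) := ⟨Fintype.equivFinOfCardEq hJ⟩
  refine ⟨fun i => orderEmbOfCardLe _ hc (e i),
    (orderEmbOfCardLe _ hc).injective.comp e.injective, ?_⟩
  intro i j
  have hij := (hmem (e i)).trans (hmem (e j)).symm
  rw [Prod.mk.injEq] at hij
  exact ⟨pm_abs hε (hp0 _) (hp0 _) hij.1, pm_abs hε (hq0 _) (hq0 _) hij.2⟩

private theorem pm_qq_nonneg {n : ℕ} (G : MG n) (a : Fin n → ℝ) : 0 ≤ qq G a a := by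
  unfold qq dotProduct
  exact Finset.sum_nonneg fun x _ => mul_self_nonneg ((MM G *ᵥ a) x)

private theorem pm_qq_symm {n : ℕ} (G : MG n) (a b : Fin n → ℝ) : qq G a b = qq G b a :=
  dotProduct_comm _ _

open Classical in
theorem part_mid (α β ρ δ S1 : ℝ) (hρ0 : 0 < ρ) (hρ : ρ < 333 / 500) (hβ0 : 0 ≤ β)
    (hδ0 : 0 < δ) (hδ1 : δ < 1) (hβ : β < ρ * ((1 - δ) * (α / 2) - 1)) :
    ∃ (C : ℝ) (N : ℕ), 0 < C ∧ ∀ n : ℕ, N ≤ n → ∀ G : MG n, IsOpt α G → Conn G →
      trace (MM G) - 1 ≤ β * n → ∀ v : Fin n, (∀ x, 0 < G.mult x v → ss G v x x ≤ S1) →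
      ∑ x ∈ univ.filter (fun x => 0 < G.mult x v ∧ 333 / 500 < gg G v x x ∧
        gg G v x x ≤ 37 / 50), (G.mult x v : ℝ) ≤ C * √(n : ℝ) := by
  obtain ⟨ε, hε, hmid⟩ := mid_pos S1 δ ρ hδ0 hρ
  obtain ⟨N, hN⟩ := cheap_three α β ρ δ ε hρ0 hβ0 hδ0 hδ1 hβ hε
  obtain ⟨K, hKdef⟩ : ∃ K : ℕ, K = 15 * ((⌊1 / ε⌋₊ + 1) * (⌊S1 / ε⌋₊ + 1)) := ⟨_, rfl⟩
  have hK0 : (0 : ℝ) ≤ K := Nat.cast_nonneg _
  refine ⟨200 * (K + 1) * (1 / ε ^ 2 + 1 / ε + 1), max N 1, by positivity, ?_⟩
  intro n hn G ho h htr v hS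
  have hn1' : 1 ≤ n := (le_max_right _ _).trans hn
  obtain ⟨y, z, hyz, hleg, hoff⟩ := hN n ((le_max_left _ _).trans hn) G ho h htr
  by_contra hcon
  push Not at hcon
  obtain ⟨B₁, hB₁⟩ : ∃ B₁ : Finset (Fin n), B₁ =
    univ.filter (fun x => 0 < G.mult x v ∧ 333 / 500 < gg G v x x ∧ gg G v x x ≤ 37 / 50) :=
    ⟨_, rfl⟩
  rw [← hB₁] at hcon
  have hmem : ∀ x ∈ B₁, G.mult x v = 1 ∧ 333 / 500 < gg G v x x ∧ gg G v x x ≤ 37 / 50 := by
    intro x hx
    rw [hB₁, Finset.mem_filter] at hx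
    refine ⟨?_, hx.2.2⟩
    by_contra hne
    have h2 : 2 ≤ G.mult x v := by omega
    have h3 : (2 : ℝ) ≤ G.mult x v := by exact_mod_cast h2
    have h4 := mult_rr h x v
    have h5 : 333 / 500 < rr G (ed x v) (ed x v) := hx.2.2.1
    nlinarith
  obtain ⟨W, hW⟩ : ∃ W : ℝ, W = ∑ x ∈ B₁, (G.mult x v : ℝ) := ⟨_, rfl⟩
  rw [← hW] at hcon
  have hn1 : (1 : ℝ) ≤ n := by exact_mod_cast hn1'
  obtain ⟨hW0, hW1, hW2, hW3⟩ := pm_num hε hn1 hK0 hcon
  have hmu : ∀ x, (0 : ℝ) ≤ G.mult x v := fun x => Nat.cast_nonneg _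
  obtain ⟨D, hD⟩ : ∃ D : ℝ, D = 16 * n / W := ⟨_, rfl⟩
  rw [← hD] at hW2 hW3
  have hD0 : 0 < D := by
    rw [hD]
    positivity
  have hDW : W * D = 16 * n := by
    rw [hD]
    field_simp
  have hε' : 0 < 1 / ε := by positivity
  have hb0 : ∀ j, ∑ x, ed (y j) (z j) x = 0 := fun j => sum_ed _ _
  have hRb0 : ∀ j, 0 ≤ rr G (ed (y j) (z j)) (ed (y j) (z j)) := fun j => rr_nonneg h _
  have hRb1 : ∀ j, rr G (ed (y j) (z j)) (ed (y j) (z j)) ≤ 1 - δ := fun j => by
    have := (hyz j).2.1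
    linarith
  have hQb0 : ∀ j, 0 ≤ qq G (ed (y j) (z j)) (ed (y j) (z j)) := fun j => pm_qq_nonneg G _
  have hQb1 : ∀ j, qq G (ed (y j) (z j)) (ed (y j) (z j)) ≤
      ρ * (1 - rr G (ed (y j) (z j)) (ed (y j) (z j))) := fun j => (hyz j).2.2
  obtain ⟨f, hf⟩ : ∃ f : Fin n → ℝ, f = fun x => ∑ y, (G.mult y v : ℝ) * |ss G v x y| := ⟨_, rfl⟩
  have hf0 : ∀ x, 0 ≤ f x := by
    intro x
    rw [hf]
    exact Finset.sum_nonneg (fun y _ => mul_nonneg (hmu y) (abs_nonneg _))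
  have hsub : ∀ F : Fin n → ℝ, (∀ x, 0 ≤ F x) → ∑ x ∈ B₁, F x ≤ ∑ x, F x := fun F hF =>
    Finset.sum_le_sum_of_subset_of_nonneg (Finset.subset_univ _) (fun x _ _ => hF x)
  have s1 : ∑ x ∈ B₁, (G.mult x v : ℝ) * f x ≤ 2 * n := by
    refine (hsub _ (fun x => mul_nonneg (hmu x) (hf0 x))).trans
      (le_trans (le_of_eq ?_) (sum_ss h v))
    refine Finset.sum_congr rfl (fun x _ => ?_)
    rw [hf, Finset.mul_sum]
    exact Finset.sum_congr rfl (fun y _ => by ring)
  have s2 : ∑ x ∈ B₁, (G.mult x v : ℝ) * tt G v x ≤ n :=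
    (hsub _ (fun x => mul_nonneg (hmu x) (tt_nonneg h v x))).trans (sum_tt h v)
  have s3 : ∀ j, ∑ x ∈ B₁, (G.mult x v : ℝ) * rr G (ed x v) (ed (y j) (z j)) ^ 2 ≤ 1 := fun j =>
    (hsub _ (fun x => mul_nonneg (hmu x) (sq_nonneg _))).trans ((hubB1 h _ (hb0 j) v).trans
      (by have := hRb1 j; linarith))
  have s4 : ∀ j, ∑ x ∈ B₁, (G.mult x v : ℝ) * |qq G (ed x v) (ed (y j) (z j))| ≤ √(n : ℝ) := by
    intro j
    refine (hsub _ (fun x => mul_nonneg (hmu x) (abs_nonneg _))).trans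
      ((hubB2 h _ (hb0 j) v).trans (Real.sqrt_le_sqrt ?_))
    have h1 : qq G (ed (y j) (z j)) (ed (y j) (z j)) ≤ 1 := by
      have := hRb0 j
      have := hQb1 j
      nlinarith
    nlinarith
  have s5 : ∀ j, ∑ x ∈ B₁, ((if x = y j then (1 : ℝ) else 0) + (if x = z j then (1 : ℝ) else 0)) ≤
      2 := by
    intro j
    refine (hsub _ (fun x => by split_ifs <;> norm_num)).trans ?_
    rw [Finset.sum_add_distrib]
    simp
    norm_num
  obtain ⟨B, hBdef⟩ : ∃ B : Finset (Fin n), B = B₁.filter (fun x => f x ≤ D ∧ tt G v x ≤ D ∧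
    ∀ j, |rr G (ed x v) (ed (y j) (z j))| ≤ ε ∧ |qq G (ed x v) (ed (y j) (z j))| ≤ ε ∧
      x ≠ y j ∧ x ≠ z j) := ⟨_, rfl⟩
  have hBsub : ∀ x ∈ B, x ∈ B₁ ∧ (f x ≤ D ∧ tt G v x ≤ D ∧
    ∀ j, |rr G (ed x v) (ed (y j) (z j))| ≤ ε ∧ |qq G (ed x v) (ed (y j) (z j))| ≤ ε ∧
      x ≠ y j ∧ x ≠ z j) := by
    intro x hx
    rw [hBdef, Finset.mem_filter] at hx
    exact hx
  have hBW : W / 2 ≤ ∑ x ∈ B, (G.mult x v : ℝ) := by
    have h1 : W ≤ ∑ x ∈ B₁, ((if f x ≤ D ∧ tt G v x ≤ D ∧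
        (∀ j, |rr G (ed x v) (ed (y j) (z j))| ≤ ε ∧ |qq G (ed x v) (ed (y j) (z j))| ≤ ε ∧
          x ≠ y j ∧ x ≠ z j) then (G.mult x v : ℝ) else 0) +
        (G.mult x v : ℝ) * f x / D + (G.mult x v : ℝ) * tt G v x / D +
        ∑ j, ((G.mult x v : ℝ) * rr G (ed x v) (ed (y j) (z j)) ^ 2 / ε ^ 2 +
        (G.mult x v : ℝ) * |qq G (ed x v) (ed (y j) (z j))| / ε +
        ((if x = y j then (1 : ℝ) else 0) + (if x = z j then (1 : ℝ) else 0)))) := by
      rw [hW]
      refine Finset.sum_le_sum (fun x hx => ?_)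
      have hx1 : (G.mult x v : ℝ) = 1 := by
        rw [(hmem x hx).1]
        norm_num
      have a1 : 0 ≤ (G.mult x v : ℝ) * f x / D :=
        div_nonneg (mul_nonneg (hmu x) (hf0 x)) hD0.le
      have a2 : 0 ≤ (G.mult x v : ℝ) * tt G v x / D :=
        div_nonneg (mul_nonneg (hmu x) (tt_nonneg h v x)) hD0.le
      have a3 : ∀ j, 0 ≤ (G.mult x v : ℝ) * rr G (ed x v) (ed (y j) (z j)) ^ 2 / ε ^ 2 :=
        fun j => div_nonneg (mul_nonneg (hmu x) (sq_nonneg _)) (sq_nonneg _)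
      have a4 : ∀ j, 0 ≤ (G.mult x v : ℝ) * |qq G (ed x v) (ed (y j) (z j))| / ε :=
        fun j => div_nonneg (mul_nonneg (hmu x) (abs_nonneg _)) hε.le
      have a5 : ∀ j, 0 ≤ ((if x = y j then (1 : ℝ) else 0) + (if x = z j then (1 : ℝ) else 0)) :=
        fun j => by split_ifs <;> norm_num
      have a6 : ∀ j, 0 ≤ ((G.mult x v : ℝ) * rr G (ed x v) (ed (y j) (z j)) ^ 2 / ε ^ 2 +
        (G.mult x v : ℝ) * |qq G (ed x v) (ed (y j) (z j))| / ε +
        ((if x = y j then (1 : ℝ) else 0) + (if x = z j then (1 : ℝ) else 0))) := fun j =>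
        add_nonneg (add_nonneg (a3 j) (a4 j)) (a5 j)
      have a7 := Finset.sum_nonneg (fun j (_ : j ∈ (univ : Finset (Fin 3))) => a6 j)
      split_ifs with hx
      · linarith
      · by_cases b1 : f x ≤ D
        · by_cases b2 : tt G v x ≤ D
          · have b3 : ∃ j, ¬ (|rr G (ed x v) (ed (y j) (z j))| ≤ ε ∧
                |qq G (ed x v) (ed (y j) (z j))| ≤ ε ∧ x ≠ y j ∧ x ≠ z j) := by
              by_contra hc
              push Not at hc
              exact hx ⟨b1, b2, fun j => by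
                have := hc j
                exact ⟨this.1, this.2.1, this.2.2.1, this.2.2.2⟩⟩
            obtain ⟨j, hj⟩ := b3
            have c1 : (G.mult x v : ℝ) ≤
                ((G.mult x v : ℝ) * rr G (ed x v) (ed (y j) (z j)) ^ 2 / ε ^ 2 +
                (G.mult x v : ℝ) * |qq G (ed x v) (ed (y j) (z j))| / ε +
                ((if x = y j then (1 : ℝ) else 0) + (if x = z j then (1 : ℝ) else 0))) := by
              have d3 := a3 j
              have d4 := a4 j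
              have d5 := a5 j
              by_cases b4 : |rr G (ed x v) (ed (y j) (z j))| ≤ ε
              · by_cases b5 : |qq G (ed x v) (ed (y j) (z j))| ≤ ε
                · have b6 : x = y j ∨ x = z j := by
                    by_contra hc
                    push Not at hc
                    exact hj ⟨b4, b5, hc.1, hc.2⟩
                  rcases b6 with b6 | b6
                  · have : (1 : ℝ) ≤ ((if x = y j then (1 : ℝ) else 0) +
                        (if x = z j then (1 : ℝ) else 0)) := by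
                      rw [if_pos b6]
                      split_ifs <;> norm_num
                    linarith
                  · have : (1 : ℝ) ≤ ((if x = y j then (1 : ℝ) else 0) +
                        (if x = z j then (1 : ℝ) else 0)) := by
                      rw [if_pos b6]
                      split_ifs <;> norm_num
                    linarith
                · push Not at b5
                  have : (G.mult x v : ℝ) ≤
                      (G.mult x v : ℝ) * |qq G (ed x v) (ed (y j) (z j))| / ε := by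
                    rw [le_div_iff₀ hε]
                    exact mul_le_mul_of_nonneg_left b5.le (hmu x)
                  linarith
              · push Not at b4
                have : (G.mult x v : ℝ) ≤
                    (G.mult x v : ℝ) * rr G (ed x v) (ed (y j) (z j)) ^ 2 / ε ^ 2 := by
                  rw [le_div_iff₀ (by positivity), ← sq_abs (rr G (ed x v) (ed (y j) (z j)))]
                  exact mul_le_mul_of_nonneg_left (pow_le_pow_left₀ hε.le b4.le 2) (hmu x)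
                linarith
            have c2 := Finset.single_le_sum (fun j (_ : j ∈ (univ : Finset (Fin 3))) => a6 j)
              (Finset.mem_univ j)
            linarith
          · push Not at b2
            have : (G.mult x v : ℝ) ≤ (G.mult x v : ℝ) * tt G v x / D := by
              rw [le_div_iff₀ hD0]
              exact mul_le_mul_of_nonneg_left b2.le (hmu x)
            linarith
        · push Not at b1
          have : (G.mult x v : ℝ) ≤ (G.mult x v : ℝ) * f x / D := by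
            rw [le_div_iff₀ hD0]
            exact mul_le_mul_of_nonneg_left b1.le (hmu x)
          linarith
    rw [Finset.sum_add_distrib, Finset.sum_add_distrib, Finset.sum_add_distrib,
      ← Finset.sum_filter, ← hBdef, ← Finset.sum_div, ← Finset.sum_div, Finset.sum_comm] at h1
    have h2 : (∑ x ∈ B₁, (G.mult x v : ℝ) * f x) / D ≤ W / 8 := by
      rw [div_le_div_iff₀ hD0 (by norm_num), hDW]
      linarith
    have h3 : (∑ x ∈ B₁, (G.mult x v : ℝ) * tt G v x) / D ≤ W / 16 := by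
      rw [div_le_div_iff₀ hD0 (by norm_num), hDW]
      linarith
    have h4 : ∀ j, ∑ x ∈ B₁, ((G.mult x v : ℝ) * rr G (ed x v) (ed (y j) (z j)) ^ 2 / ε ^ 2 +
        (G.mult x v : ℝ) * |qq G (ed x v) (ed (y j) (z j))| / ε +
        ((if x = y j then (1 : ℝ) else 0) + (if x = z j then (1 : ℝ) else 0))) ≤
        1 / ε ^ 2 + √(n : ℝ) / ε + 2 := by
      intro j
      rw [Finset.sum_add_distrib, Finset.sum_add_distrib, ← Finset.sum_div, ← Finset.sum_div]
      have h4 : (∑ x ∈ B₁, (G.mult x v : ℝ) * rr G (ed x v) (ed (y j) (z j)) ^ 2) / ε ^ 2 ≤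
          1 / ε ^ 2 := div_le_div_of_nonneg_right (s3 j) (by positivity)
      have h5 : (∑ x ∈ B₁, (G.mult x v : ℝ) * |qq G (ed x v) (ed (y j) (z j))|) / ε ≤
          √(n : ℝ) / ε := div_le_div_of_nonneg_right (s4 j) hε.le
      have h6 := s5 j
      linarith
    have h5 := Finset.sum_le_sum (fun j (_ : j ∈ (univ : Finset (Fin 3))) => h4 j)
    rw [Finset.sum_const, Finset.card_univ, Fintype.card_fin, nsmul_eq_mul] at h5
    push_cast at h5
    linarith
  -- weight of the bad vertices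
  have hbad : ∀ x ∈ B, ∑ y ∈ B.filter (fun y => y = x ∨ ε < |ss G v x y| ∨ ε < gg G v x y),
      (G.mult y v : ℝ) ≤ 1 + D / ε + 1 / ε := by
    intro x hx
    obtain ⟨hx1, hx2, -⟩ := hBsub x hx
    obtain ⟨hx3, hx4⟩ := hmem x hx1
    have hxv : x ≠ v := by
      intro hxv
      rw [hxv, G.loopless] at hx3
      exact absurd hx3 (by norm_num)
    have h1 : ∑ y ∈ B.filter (fun y => y = x ∨ ε < |ss G v x y| ∨ ε < gg G v x y),
        (G.mult y v : ℝ) ≤ ∑ y, ((if y = x then (G.mult y v : ℝ) else 0) +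
          (G.mult y v : ℝ) * |ss G v x y| * (1 / ε) + (G.mult y v : ℝ) * gg G v y x * (1 / ε)) := by
      have a1 : ∀ y, 0 ≤ (if y = x then (G.mult y v : ℝ) else 0) := by
        intro y
        split_ifs
        · exact hmu y
        · exact le_refl _
      have a2 := fun y => mul_nonneg (mul_nonneg (hmu y) (abs_nonneg (ss G v x y))) hε'.le
      have a3 := fun y => mul_nonneg (mul_nonneg (hmu y) (gg_nonneg h v y x)) hε'.le
      refine (Finset.sum_le_sum (fun y hy => ?_)).trans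
        (Finset.sum_le_sum_of_subset_of_nonneg (Finset.subset_univ _)
          (fun y _ _ => add_nonneg (add_nonneg (a1 y) (a2 y)) (a3 y)))
      rw [Finset.mem_filter] at hy
      have b1 := a1 y
      have b2 := a2 y
      have b3 := a3 y
      rcases hy.2 with hy | hy | hy
      · rw [if_pos hy]
        linarith
      · have : (G.mult y v : ℝ) ≤ (G.mult y v : ℝ) * |ss G v x y| * (1 / ε) := by
          rw [mul_one_div, le_div_iff₀ hε]
          exact mul_le_mul_of_nonneg_left hy.le (hmu y)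
        linarith
      · rw [gg_symm] at hy
        have : (G.mult y v : ℝ) ≤ (G.mult y v : ℝ) * gg G v y x * (1 / ε) := by
          rw [mul_one_div, le_div_iff₀ hε]
          exact mul_le_mul_of_nonneg_left hy.le (hmu y)
        linarith
    rw [Finset.sum_add_distrib, Finset.sum_add_distrib, Finset.sum_ite_eq',
      if_pos (Finset.mem_univ _), ← Finset.sum_mul, ← Finset.sum_mul, sum_gg h hxv, hx3,
      Nat.cast_one, one_mul] at h1
    have h3 : (∑ y, (G.mult y v : ℝ) * |ss G v x y|) * (1 / ε) ≤ D / ε := by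
      rw [mul_one_div]
      refine div_le_div_of_nonneg_right ?_ hε.le
      rw [hf] at hx2
      exact hx2
    linarith
  have hθ : (K : ℝ) * (1 + D / ε + 1 / ε) < ∑ x ∈ B, (G.mult x v : ℝ) := lt_of_lt_of_le hW2 hBW
  obtain ⟨F, hF1, hF2⟩ := greedy (fun x => (G.mult x v : ℝ)) hmu
    (fun x y => y = x ∨ ε < |ss G v x y| ∨ ε < gg G v x y) (1 + D / ε + 1 / ε)
    (by positivity) K B (fun x hx => by convert hbad x hx) hθ
  -- the properties of the chosen vertices
  have hFB := fun i => hmem _ (hBsub _ (hF1 i)).1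
  have hFinj : ∀ i j, F i = F j → i = j := by
    intro i j hij
    rcases lt_trichotomy i j with hlt | heq | hgt
    · exact absurd (Or.inl hij.symm) (hF2 i j hlt)
    · exact heq
    · exact absurd (Or.inl hij) (hF2 j i hgt)
  have hFs : ∀ i j, i ≠ j → |ss G v (F i) (F j)| ≤ ε ∧ gg G v (F i) (F j) ≤ ε := by
    intro i j hij
    rcases lt_or_gt_of_ne hij with hlt | hgt
    · have := hF2 i j hlt
      push Not at this
      exact this.2
    · have := hF2 j i hgt
      push Not at this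
      rw [ss_symm G v (F i), gg_symm G v (F i)]
      exact this.2
  -- lower bound for `ss x x`
  have hlow : ∀ i, smid (gg G v (F i) (F i)) ≤ ss G v (F i) (F i) := by
    intro i
    obtain ⟨g1, g2, g2'⟩ := hFB i
    have g3 := hubS_mid h g1 g2.le g2'
    have ht := (hBsub _ (hF1 i)).2.2.1
    rw [ss_eq h, smid]
    have g4 : ∑ w, gg G v (F i) w * gg G v (F i) w = ∑ w, gg G v (F i) w ^ 2 :=
      Finset.sum_congr rfl (fun w _ => by ring)
    rw [g4]
    have g5 : tt G v (F i) * tt G v (F i) / n ≤ D ^ 2 / n := by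
      refine div_le_div_of_nonneg_right ?_ (by linarith)
      have := tt_nonneg h v (F i)
      nlinarith
    linarith
  have hsm0 : ∀ g : ℝ, 333 / 500 < g → 0 ≤ smid g := by
    intro g hg
    unfold smid
    have h2 : 0 ≤ (max (3 * g - 2) 0) ^ 2 := sq_nonneg _
    nlinarith [sq_nonneg (2 * g - 1)]
  obtain ⟨c, hc1, hc2⟩ := pm_cells S1 ε hε (fun i => gg G v (F i) (F i))
    (fun i => ss G v (F i) (F i)) (fun i => gg_nonneg h v _ _)
    (fun i => (hFB i).2.2.trans (by norm_num))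
    (fun i => (hsm0 _ (hFB i).2.1).trans (hlow i))
    (fun i => hS _ (by rw [(hFB i).1]; norm_num)) hKdef.ge
  obtain ⟨j₀, -⟩ : ∃ j₀ : J, j₀ = Sum.inr (Sum.inl 0) := ⟨_, rfl⟩
  refine opt_mid ho h v (fun i => F (c i)) (fun i j hij => hc1 (hFinj _ _ hij))
    (fun i => (hFB (c i)).1) y z (fun j => (hyz j).1) hleg ?_
    (Sum.elim (fun i => ed (F (c i)) v) (fun j => ed (y j) (z j))) (fun i => rfl) (fun j => rfl) ?_
  · intro i j
    have h1 := (hBsub _ (hF1 (c i))).2.2.2 j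
    unfold eind
    rw [if_neg]
    rintro (h2 | h2)
    · exact h1.2.2.1 h2.1
    · exact h1.2.2.2 h2.1
  · refine hmid (gg G v (F (c j₀)) (F (c j₀))) (ss G v (F (c j₀)) (F (c j₀)))
      (fun j => rr G (ed (y j) (z j)) (ed (y j) (z j)))
      (fun j => qq G (ed (y j) (z j)) (ed (y j) (z j))) (hFB _).2.1.le (hFB _).2.2 (hlow _)
      (hS _ (by rw [(hFB _).1]; norm_num)) (fun j => ⟨hRb0 j, hRb1 j⟩) (fun j => ⟨hQb0 j, hQb1 j⟩)
      _ _ ?_ ?_
    · rintro (i | i) (j | j)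
      · show |gg G v (F (c i)) (F (c j)) - (gg G v (F (c j₀)) (F (c j₀)) • (1 : Matrix J J ℝ)) i j| ≤ ε
        rw [Matrix.smul_apply, Matrix.one_apply]
        split_ifs with hij
        · rw [hij, smul_eq_mul, mul_one]
          exact (hc2 j j₀).1
        · rw [smul_zero, sub_zero, abs_of_nonneg (gg_nonneg h v _ _)]
          exact (hFs _ _ (fun he => hij (hc1 he))).2
      · show |rr G (ed (F (c i)) v) (ed (y j) (z j)) - 0| ≤ ε
        rw [sub_zero]
        exact ((hBsub _ (hF1 (c i))).2.2.2 j).1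
      · show |rr G (ed (y i) (z i)) (ed (F (c j)) v) - 0| ≤ ε
        rw [sub_zero, rr_symm]
        exact ((hBsub _ (hF1 (c j))).2.2.2 i).1
      · show |rr G (ed (y i) (z i)) (ed (y j) (z j)) -
          (diagonal fun j => rr G (ed (y j) (z j)) (ed (y j) (z j))) i j| ≤ ε
        rw [Matrix.diagonal_apply]
        split_ifs with hij
        · rw [hij, sub_self, abs_zero]
          exact hε.le
        · rw [sub_zero]
          exact (hoff i j hij).1
    · rintro (i | i) (j | j)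
      · show |ss G v (F (c i)) (F (c j)) - (ss G v (F (c j₀)) (F (c j₀)) • (1 : Matrix J J ℝ)) i j| ≤ ε
        rw [Matrix.smul_apply, Matrix.one_apply]
        split_ifs with hij
        · rw [hij, smul_eq_mul, mul_one]
          exact (hc2 j j₀).2
        · rw [smul_zero, sub_zero]
          exact (hFs _ _ (fun he => hij (hc1 he))).1
      · show |qq G (ed (F (c i)) v) (ed (y j) (z j)) - 0| ≤ ε
        rw [sub_zero]
        exact ((hBsub _ (hF1 (c i))).2.2.2 j).2.1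
      · show |qq G (ed (y i) (z i)) (ed (F (c j)) v) - 0| ≤ ε
        rw [sub_zero, pm_qq_symm]
        exact ((hBsub _ (hF1 (c j))).2.2.2 i).2.1
      · show |qq G (ed (y i) (z i)) (ed (y j) (z j)) -
          (diagonal fun j => qq G (ed (y j) (z j)) (ed (y j) (z j))) i j| ≤ ε
        rw [Matrix.diagonal_apply]
        split_ifs with hij
        · rw [hij, sub_self, abs_zero]
          exact hε.le
        · rw [sub_zero]
          exact (hoff i j hij).2

end MPd2470a
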