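import Pool.Agent.Lib.MP_d2470a_co.OptTwo
import Pool.Agent.Lib.MP_d2470a_co.HubSum
import Pool.Agent.Lib.MP_d2470a_co.HubSUp
import Pool.Agent.Lib.MP_d2470a_co.Greedy

/-!
# PartUp: few edges at `v` lead to vertices with Green function above `37/50`

The proof of `PartTwo.lean` with `237/500` replaced by `333/500`, `333/500 < gg` replaced by
`37/50 < gg` and `hubS` by `hubS_up`.
-/

set_option autoImplicit false

namespace MPd2470a

open Matrix Finset

private theorem pt_num {ε m W : ℝ} (hε : 0 < ε) (hm : 1 ≤ m)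
    (h : 8 * (1 / ε ^ 2 + 1 / ε + 1) * √m < W) : 0 < W ∧ 1 / ε ^ 2 + √m / ε ≤ W / 8 ∧
      2 * (1 + (8 * m / W) / ε) < W / 2 ∧ (8 * m / W) ^ 2 / m ≤ ε := by
  obtain ⟨S, hS⟩ : ∃ S : ℝ, S = √m := ⟨_, rfl⟩
  have hS1 : 1 ≤ S := by
    rw [hS, show (1 : ℝ) = √1 from Real.sqrt_one.symm]
    exact Real.sqrt_le_sqrt hm
  have hSm : S * S = m := by
    rw [hS]
    exact Real.mul_self_sqrt (by linarith)
  obtain ⟨u, hu⟩ : ∃ u : ℝ, u = 1 / ε := ⟨_, rfl⟩
  have hu0 : 0 < u := by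
    rw [hu]
    positivity
  have hu2 : 1 / ε ^ 2 = u ^ 2 := by
    rw [hu, _root_.one_div_pow]
  have huε : u * ε = 1 := by
    rw [hu]
    field_simp
  rw [← hS, hu2, ← hu] at h
  rw [← hS, hu2]
  obtain ⟨k, hk⟩ : ∃ k : ℝ, k = u ^ 2 + u + 1 := ⟨_, rfl⟩
  rw [← hk] at h
  have hk1 : 1 ≤ k := by nlinarith
  have hkS : 0 < k * S := by positivity
  have hW : 0 < W := by nlinarith
  obtain ⟨D, hD⟩ : ∃ D : ℝ, D = 8 * m / W := ⟨_, rfl⟩
  have hD0 : 0 < D := by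
    rw [hD]
    positivity
  have hDk : D * k ≤ S := by
    rw [hD, div_mul_eq_mul_div, div_le_iff₀ hW]
    have h1 : S * (8 * k * S) ≤ S * W := mul_le_mul_of_nonneg_left h.le (by linarith)
    nlinarith
  rw [← hD]
  refine ⟨hW, ?_, ?_, ?_⟩
  · have h1 : S / ε = u * S := by
      rw [hu]
      ring
    rw [h1]
    have h2 : u ^ 2 * 1 ≤ u ^ 2 * S := mul_le_mul_of_nonneg_left hS1 (by positivity)
    have h3 : k * S = u ^ 2 * S + u * S + S := by
      rw [hk]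
      ring
    nlinarith
  · have h1 : D / ε = D * u := by
      rw [hu]
      ring
    rw [h1]
    have h2 : D * u ≤ D * k := mul_le_mul_of_nonneg_left (by nlinarith) hD0.le
    have h3 : S ≤ k * S := by nlinarith
    nlinarith
  · rw [div_le_iff₀ (by linarith)]
    have h1 : D ^ 2 * u ≤ D ^ 2 * k ^ 2 := by
      refine mul_le_mul_of_nonneg_left ?_ (by positivity)
      nlinarith
    have h2 : D ^ 2 * k ^ 2 ≤ S ^ 2 := by
      rw [← mul_pow]
      exact pow_le_pow_left₀ (by positivity) hDk 2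
    have h3 : D ^ 2 = (D ^ 2 * u) * ε := by
      rw [mul_assoc, huε, mul_one]
    rw [h3, mul_comm]
    refine mul_le_mul_of_nonneg_left ?_ hε.le
    nlinarith

private theorem pt_fin {κ ε δ ρ r Ra qa qb m q gx gw : ℝ} (hκ : κ = 333 / 500 - ρ) (hκ0 : 0 < κ)
    (hε : 0 < ε) (hε1 : ε ≤ 1) (hδ : 0 < δ) (hεd : ε * (4 + 8 / δ) = κ / 2) (hr : δ ≤ r)
    (hRa : 0 ≤ Ra) (hRg : Ra ≤ gx + gw) (hqa : 333 / 500 * (1 + gx + gw) - 4 * ε ≤ qa)
    (hqb : qb ≤ ρ * r) (hm : |m| ≤ 2 * ε) (hq : |q| ≤ 2 * ε)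
    (ho : r * qa + 2 * m * q ≤ (1 + Ra) * qb) : False := by
  have hr0 : 0 < r := by linarith
  have h1 : |2 * m * q| ≤ 8 * ε ^ 2 := by
    rw [abs_mul, abs_mul, abs_of_pos (by norm_num : (0 : ℝ) < 2)]
    have := mul_le_mul hm hq (abs_nonneg q) (by linarith)
    nlinarith
  have h2 : r * qa ≤ (1 + Ra) * (ρ * r) + 8 * ε ^ 2 := by
    have h3 := (abs_le.1 h1).1
    have h4 : (1 + Ra) * qb ≤ (1 + Ra) * (ρ * r) := mul_le_mul_of_nonneg_left hqb (by linarith)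
    linarith
  have h3 : 333 / 500 * (1 + Ra) - 4 * ε ≤ qa := by linarith
  have h4 : r * (333 / 500 * (1 + Ra) - 4 * ε) ≤ r * qa := mul_le_mul_of_nonneg_left h3 hr0.le
  have h5 : r * (κ * (1 + Ra) - 4 * ε) ≤ 8 * ε ^ 2 := by
    rw [hκ]
    nlinarith
  have h6 : 8 * ε ^ 2 ≤ r * (8 / δ * ε) := by
    have h7 : 8 * ε ^ 2 ≤ 8 * ε := by nlinarith
    have h8 : δ * (8 / δ * ε) ≤ r * (8 / δ * ε) := mul_le_mul_of_nonneg_right hr (by positivity)
    have h9 : δ * (8 / δ * ε) = 8 * ε := by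
      field_simp
    linarith
  have h7 : κ * (1 + Ra) - 4 * ε ≤ 8 / δ * ε := le_of_mul_le_mul_left (h5.trans h6) hr0
  nlinarith

open Classical in
theorem part_up (δ ρ : ℝ) (hδ : 0 < δ) (hρ0 : 0 < ρ) (hρ : ρ < 333 / 500) : ∃ C : ℝ, 0 < C ∧
    ∀ (n : ℕ) (α : ℝ) (G : MG n), 1 ≤ n → IsOpt α G → Conn G → ∀ x₀ y₀ : Fin n,
      0 < G.mult x₀ y₀ → δ ≤ 1 - rr G (ed x₀ y₀) (ed x₀ y₀) →
      qq G (ed x₀ y₀) (ed x₀ y₀) ≤ ρ * (1 - rr G (ed x₀ y₀) (ed x₀ y₀)) → ∀ v : Fin n,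
      ∑ x ∈ univ.filter (fun x => 0 < G.mult x v ∧ 37 / 50 < gg G v x x), (G.mult x v : ℝ) ≤
        C * √(n : ℝ) := by
  obtain ⟨κ, hκ⟩ : ∃ κ : ℝ, κ = 333 / 500 - ρ := ⟨_, rfl⟩
  have hκ0 : 0 < κ := by linarith
  have hδ8 : 0 < 8 / δ := by positivity
  obtain ⟨ε, hεdef⟩ : ∃ ε : ℝ, ε = κ / (2 * (4 + 8 / δ)) := ⟨_, rfl⟩
  have hε : 0 < ε := by
    rw [hεdef]
    positivity
  have hε1 : ε ≤ 1 := by
    rw [hεdef, div_le_one (by positivity)]
    linarith
  have hεd : ε * (4 + 8 / δ) = κ / 2 := by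
    rw [hεdef]
    field_simp
  refine ⟨8 * (1 / ε ^ 2 + 1 / ε + 1), by positivity, ?_⟩
  intro n α G hn ho h x₀ y₀ hxy hR hQ v
  by_contra hcon
  push Not at hcon
  obtain ⟨B₁, hB₁⟩ : ∃ B₁ : Finset (Fin n), B₁ =
    univ.filter (fun x => 0 < G.mult x v ∧ 37 / 50 < gg G v x x) := ⟨_, rfl⟩
  rw [← hB₁] at hcon
  have hmem : ∀ x ∈ B₁, G.mult x v = 1 ∧ 37 / 50 < gg G v x x := by
    intro x hx
    rw [hB₁, Finset.mem_filter] at hx
    refine ⟨?_, hx.2.2⟩
    by_contra hne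
    have h2 : 2 ≤ G.mult x v := by omega
    have h3 : (2 : ℝ) ≤ G.mult x v := by exact_mod_cast h2
    have h4 := mult_rr h x v
    have h5 : 37 / 50 < rr G (ed x v) (ed x v) := hx.2.2
    nlinarith
  obtain ⟨W, hW⟩ : ∃ W : ℝ, W = ∑ x ∈ B₁, (G.mult x v : ℝ) := ⟨_, rfl⟩
  rw [← hW] at hcon
  have hn1 : (1 : ℝ) ≤ n := by exact_mod_cast hn
  obtain ⟨hW0, hW1, hW2, hW3⟩ := pt_num hε hn1 hcon
  have hmu : ∀ x, (0 : ℝ) ≤ G.mult x v := fun x => Nat.cast_nonneg _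
  obtain ⟨D, hD⟩ : ∃ D : ℝ, D = 8 * n / W := ⟨_, rfl⟩
  rw [← hD] at hW2 hW3
  have hD0 : 0 < D := by
    rw [hD]
    positivity
  have hDW : W * D = 8 * n := by
    rw [hD]
    field_simp
  obtain ⟨b, hb⟩ : ∃ b : Fin n → ℝ, b = ed x₀ y₀ := ⟨_, rfl⟩
  rw [← hb] at hR hQ
  have hb0 : ∑ x, b x = 0 := by
    rw [hb]
    exact sum_ed _ _
  have hRb0 := rr_nonneg h b
  obtain ⟨f, hf⟩ : ∃ f : Fin n → ℝ, f = fun x => ∑ y, (G.mult y v : ℝ) * |ss G v x y| := ⟨_, rfl⟩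
  have hf0 : ∀ x, 0 ≤ f x := by
    intro x
    rw [hf]
    exact Finset.sum_nonneg (fun y _ => mul_nonneg (hmu y) (abs_nonneg _))
  have hsub : ∀ F : Fin n → ℝ, (∀ x, 0 ≤ F x) → ∑ x ∈ B₁, F x ≤ ∑ x, F x := fun F hF =>
    Finset.sum_le_sum_of_subset_of_nonneg (Finset.subset_univ _) (fun x _ _ => hF x)
  have s1 : ∑ x ∈ B₁, (G.mult x v : ℝ) * f x ≤ 2 * n := by
    refine (hsub _ (fun x => mul_nonneg (hmu x) (hf0 x))).trans
      (le_trans (le_of_eq ?_) (sum_ss h v))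
    refine Finset.sum_congr rfl (fun x _ => ?_)
    rw [hf, Finset.mul_sum]
    exact Finset.sum_congr rfl (fun y _ => by ring)
  have s2 : ∑ x ∈ B₁, (G.mult x v : ℝ) * tt G v x ≤ n :=
    (hsub _ (fun x => mul_nonneg (hmu x) (tt_nonneg h v x))).trans (sum_tt h v)
  have s3 : ∑ x ∈ B₁, (G.mult x v : ℝ) * rr G (ed x v) b ^ 2 ≤ 1 :=
    (hsub _ (fun x => mul_nonneg (hmu x) (sq_nonneg _))).trans ((hubB1 h b hb0 v).trans
      (by linarith))
  have s4 : ∑ x ∈ B₁, (G.mult x v : ℝ) * |qq G (ed x v) b| ≤ √(n : ℝ) := by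
    refine (hsub _ (fun x => mul_nonneg (hmu x) (abs_nonneg _))).trans
      ((hubB2 h b hb0 v).trans (Real.sqrt_le_sqrt ?_))
    have h1 : qq G b b ≤ 1 := by nlinarith
    nlinarith
  obtain ⟨B, hBdef⟩ : ∃ B : Finset (Fin n), B = B₁.filter (fun x => f x ≤ D ∧ tt G v x ≤ D ∧
    |rr G (ed x v) b| ≤ ε ∧ |qq G (ed x v) b| ≤ ε) := ⟨_, rfl⟩
  have hBsub : ∀ x ∈ B, x ∈ B₁ ∧ (f x ≤ D ∧ tt G v x ≤ D ∧
      |rr G (ed x v) b| ≤ ε ∧ |qq G (ed x v) b| ≤ ε) := by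
    intro x hx
    rw [hBdef, Finset.mem_filter] at hx
    exact hx
  have hBW : W / 2 ≤ ∑ x ∈ B, (G.mult x v : ℝ) := by
    have h1 : W ≤ ∑ x ∈ B₁, ((if f x ≤ D ∧ tt G v x ≤ D ∧ |rr G (ed x v) b| ≤ ε ∧
        |qq G (ed x v) b| ≤ ε then (G.mult x v : ℝ) else 0) +
        (G.mult x v : ℝ) * f x / D + (G.mult x v : ℝ) * tt G v x / D +
        (G.mult x v : ℝ) * rr G (ed x v) b ^ 2 / ε ^ 2 +
        (G.mult x v : ℝ) * |qq G (ed x v) b| / ε) := by
      rw [hW]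
      refine Finset.sum_le_sum (fun x _ => ?_)
      have a1 : 0 ≤ (G.mult x v : ℝ) * f x / D :=
        div_nonneg (mul_nonneg (hmu x) (hf0 x)) hD0.le
      have a2 : 0 ≤ (G.mult x v : ℝ) * tt G v x / D :=
        div_nonneg (mul_nonneg (hmu x) (tt_nonneg h v x)) hD0.le
      have a3 : 0 ≤ (G.mult x v : ℝ) * rr G (ed x v) b ^ 2 / ε ^ 2 :=
        div_nonneg (mul_nonneg (hmu x) (sq_nonneg _)) (sq_nonneg _)
      have a4 : 0 ≤ (G.mult x v : ℝ) * |qq G (ed x v) b| / ε :=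
        div_nonneg (mul_nonneg (hmu x) (abs_nonneg _)) hε.le
      split_ifs with hx
      · linarith
      · by_cases b1 : f x ≤ D
        · by_cases b2 : tt G v x ≤ D
          · by_cases b3 : |rr G (ed x v) b| ≤ ε
            · have b4 : ε < |qq G (ed x v) b| := by
                by_contra b4
                exact hx ⟨b1, b2, b3, not_lt.1 b4⟩
              have : (G.mult x v : ℝ) ≤ (G.mult x v : ℝ) * |qq G (ed x v) b| / ε := by
                rw [le_div_iff₀ hε]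
                exact mul_le_mul_of_nonneg_left b4.le (hmu x)
              linarith
            · push Not at b3
              have : (G.mult x v : ℝ) ≤ (G.mult x v : ℝ) * rr G (ed x v) b ^ 2 / ε ^ 2 := by
                rw [le_div_iff₀ (by positivity), ← sq_abs (rr G (ed x v) b)]
                exact mul_le_mul_of_nonneg_left (pow_le_pow_left₀ hε.le b3.le 2) (hmu x)
              linarith
          · push Not at b2
            have : (G.mult x v : ℝ) ≤ (G.mult x v : ℝ) * tt G v x / D := by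
              rw [le_div_iff₀ hD0]
              exact mul_le_mul_of_nonneg_left b2.le (hmu x)
            linarith
        · push Not at b1
          have : (G.mult x v : ℝ) ≤ (G.mult x v : ℝ) * f x / D := by
            rw [le_div_iff₀ hD0]
            exact mul_le_mul_of_nonneg_left b1.le (hmu x)
          linarith
    rw [Finset.sum_add_distrib, Finset.sum_add_distrib, Finset.sum_add_distrib,
      Finset.sum_add_distrib, ← Finset.sum_filter, ← hBdef, ← Finset.sum_div, ← Finset.sum_div,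
      ← Finset.sum_div, ← Finset.sum_div] at h1
    have h2 : (∑ x ∈ B₁, (G.mult x v : ℝ) * f x) / D ≤ W / 4 := by
      rw [div_le_div_iff₀ hD0 (by norm_num), hDW]
      linarith
    have h3 : (∑ x ∈ B₁, (G.mult x v : ℝ) * tt G v x) / D ≤ W / 8 := by
      rw [div_le_div_iff₀ hD0 (by norm_num), hDW]
      linarith
    have h4 : (∑ x ∈ B₁, (G.mult x v : ℝ) * rr G (ed x v) b ^ 2) / ε ^ 2 ≤ 1 / ε ^ 2 :=
      div_le_div_of_nonneg_right s3 (by positivity)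
    have h5 : (∑ x ∈ B₁, (G.mult x v : ℝ) * |qq G (ed x v) b|) / ε ≤ √(n : ℝ) / ε :=
      div_le_div_of_nonneg_right s4 hε.le
    linarith
  -- weight of the bad vertices
  have hbad : ∀ x ∈ B, ∑ y ∈ B.filter (fun y => y = x ∨ ε < |ss G v x y|),
      (G.mult y v : ℝ) ≤ 1 + D / ε := by
    intro x hx
    obtain ⟨hx1, hx2⟩ := hBsub x hx
    obtain ⟨hx3, hx4⟩ := hmem x hx1
    have h1 : ∑ y ∈ B.filter (fun y => y = x ∨ ε < |ss G v x y|),
        (G.mult y v : ℝ) ≤ ∑ y, ((if y = x then (G.mult y v : ℝ) else 0) +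
          (G.mult y v : ℝ) * |ss G v x y| / ε) := by
      have a1 : ∀ y, 0 ≤ (if y = x then (G.mult y v : ℝ) else 0) := by
        intro y
        split_ifs
        · exact hmu y
        · exact le_refl _
      have a2 : ∀ y, 0 ≤ (G.mult y v : ℝ) * |ss G v x y| / ε := fun y =>
        div_nonneg (mul_nonneg (hmu y) (abs_nonneg (ss G v x y))) hε.le
      refine (Finset.sum_le_sum (fun y hy => ?_)).trans
        (Finset.sum_le_sum_of_subset_of_nonneg (Finset.subset_univ _)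
          (fun y _ _ => add_nonneg (a1 y) (a2 y)))
      rw [Finset.mem_filter] at hy
      have a3 := a1 y
      have a4 := a2 y
      rcases hy.2 with hy | hy
      · rw [if_pos hy]
        linarith
      · have : (G.mult y v : ℝ) ≤ (G.mult y v : ℝ) * |ss G v x y| / ε := by
          rw [le_div_iff₀ hε]
          exact mul_le_mul_of_nonneg_left hy.le (hmu y)
        linarith
    rw [Finset.sum_add_distrib, Finset.sum_ite_eq', if_pos (Finset.mem_univ _), ← Finset.sum_div,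
      hx3, Nat.cast_one] at h1
    have h3 : (∑ y, (G.mult y v : ℝ) * |ss G v x y|) / ε ≤ D / ε := by
      refine div_le_div_of_nonneg_right ?_ hε.le
      have := hx2.1
      rw [hf] at this
      exact this
    linarith
  have hθ : ((2 : ℕ) : ℝ) * (1 + D / ε) < ∑ x ∈ B, (G.mult x v : ℝ) := by
    refine lt_of_lt_of_le ?_ hBW
    rw [Nat.cast_ofNat]
    exact hW2
  obtain ⟨F, hF1, hF2⟩ := greedy (fun x => (G.mult x v : ℝ)) hmu
    (fun x y => y = x ∨ ε < |ss G v x y|) (1 + D / ε) (by positivity) 2 B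
    (fun x hx => by convert hbad x hx) hθ
  have hF3 := hF2 0 1 (by decide)
  push Not at hF3
  obtain ⟨hne, hss⟩ := hF3
  obtain ⟨x1, x2, x3, x4, x5⟩ := hBsub _ (hF1 0)
  obtain ⟨w1, w2, w3, w4, w5⟩ := hBsub _ (hF1 1)
  -- lower bound for `ss x x`
  have hlow : ∀ x, x ∈ B₁ → tt G v x ≤ D → 333 / 500 * (1 / 2 + gg G v x x) - ε ≤ ss G v x x := by
    intro x hx ht
    obtain ⟨g1, g2⟩ := hmem x hx
    have g3 := hubS_up h g1 g2.le
    rw [ss_eq h]
    have g4 : ∑ w, gg G v x w * gg G v x w = ∑ w, gg G v x w ^ 2 :=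
      Finset.sum_congr rfl (fun w _ => by ring)
    rw [g4]
    have g5 : tt G v x * tt G v x / n ≤ D ^ 2 / n := by
      refine div_le_div_of_nonneg_right ?_ (by linarith)
      have := tt_nonneg h v x
      nlinarith
    linarith
  have l1 := hlow _ x1 x3
  have l2 := hlow _ w1 w3
  have e1 : ∀ c : Fin n → ℝ, rr G (ed (F 0) (F 1)) c = rr G (ed (F 0) v) c - rr G (ed (F 1) v) c := by
    intro c
    rw [ed_sub (F 0) (F 1) v, rr_sub_left]
  have e2 : ∀ c : Fin n → ℝ, qq G (ed (F 0) (F 1)) c = qq G (ed (F 0) v) c - qq G (ed (F 1) v) c := by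
    intro c
    rw [ed_sub (F 0) (F 1) v, qq_sub_left]
  have e3 := rr_pair G v (F 0) (F 1)
  have e4 := qq_pair G v (F 0) (F 1)
  have e5 := gg_nonneg h v (F 0) (F 1)
  have e6 := (abs_le.1 hss).2
  have e7 := opt_two ho h hxy hne.symm
  rw [← hb] at e7
  refine pt_fin (gx := gg G v (F 0) (F 0)) (gw := gg G v (F 1) (F 1)) hκ hκ0 hε hε1 hδ hεd hR
    (rr_nonneg h (ed (F 0) (F 1))) (by linarith) ?_ hQ (m := rr G (ed (F 0) (F 1)) b)
    (q := qq G (ed (F 0) (F 1)) b) ?_ ?_ e7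
  · linarith
  · rw [e1]
    have := abs_sub (rr G (ed (F 0) v) b) (rr G (ed (F 1) v) b)
    linarith
  · rw [e2]
    have := abs_sub (qq G (ed (F 0) v) b) (qq G (ed (F 1) v) b)
    linarith

end MPd2470a
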