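import Pool.Agent.Lib.MP_d2470a_co.MidDefs

/-!
# MidInv: the inverse of `(1 - g) + g LH`

`Z = 1 + (LH - 1) (g • 1) = (1 - g) 1 + g LH`. Its inverse `Q` is explicit, with entries depending
only on the relation of the two vertices. With `c = 1 - g` and rows `r`, columns `c`, middles `(i, j)`:
* `Q r_i r_i = p0`, `Q r_i (i,j) = Q (i,j) r_i = p1`, `Q r_i c_j = Q c_j r_i = p2`,
  `Q r_i (i',j) = Q (i',j) r_i = p3` (`i' ≠ i`), `Q r_i r_{i'} = p4`; the same for columns. Equations: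
  `(c+3g)p0 - 3g p1 = 1`, `(c+2g)p1 - g p0 - g p2 = 0`, `(c+3g)p2 - g p1 - 2g p3 = 0`,
  `(c+2g)p3 - g p2 - g p4 = 0`, `(c+3g)p4 - 3g p3 = 0`.
* `Q (i,j) (i,j) = q0`, `Q (i,j) (i,j') = Q (i,j) (i',j) = q2`, `Q (i,j) (i',j') = q4` (all different):
  `(c+2g)q0 - 2g p1 = 1`, `(c+2g)q2 - g p1 - g p3 = 0`, `(c+2g)q4 - 2g p3 = 0`.
Solve for `p2`, `p4` etc.: closed form by partial fractions from the eigenvalues
`0, 5, 3, (5±√13)/2 (4 times each), 2 (4 times)` of `LH`, with denominators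
`1 - g, 1 + 4g, 1 + 2g, 1 + 3g - g², 1 + g` (all positive for `0 ≤ g < 1`). The trace is
`6 p0 + 9 q0 = 1/(1-g) + 1/(1+4g) + 1/(1+2g) + 4(2+3g)/(1+3g-g²) + 4/(1+g)`.
(Any other proof is fine, e.g. diagonalising `LH`, or `Z` invertible because it is positive definite
and the trace from the two columns only.)
-/

set_option autoImplicit false

namespace MPd2470a

open Matrix

private theorem lh_mid (v : J → ℝ) (e : Fin 3 × Fin 3) :
    (LH *ᵥ v) (Sum.inl e) = 2 * v (Sum.inl e) - v (Sum.inr (Sum.inl e.1)) -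
      v (Sum.inr (Sum.inr e.2)) := by
  obtain ⟨i, j⟩ := e
  rw [mulVec, dotProduct, Fintype.sum_sum_type, Fintype.sum_sum_type]
  simp only [LH, Matrix.of_apply, ite_mul, zero_mul, Finset.sum_ite_eq, Finset.mem_univ, if_true]
  ring

private theorem lh_row (v : J → ℝ) (r : Fin 3) :
    (LH *ᵥ v) (Sum.inr (Sum.inl r)) = 3 * v (Sum.inr (Sum.inl r)) -
      (v (Sum.inl (r, 0)) + v (Sum.inl (r, 1)) + v (Sum.inl (r, 2))) := by
  rw [mulVec, dotProduct, Fintype.sum_sum_type, Fintype.sum_sum_type, Fintype.sum_prod_type]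
  simp only [LH, Matrix.of_apply, ite_mul, zero_mul, Finset.sum_ite_eq, Finset.mem_univ, if_true,
    Finset.sum_const_zero, add_zero]
  have h : ∑ x : Fin 3, ∑ y : Fin 3, (if x = r then -1 * v (Sum.inl (x, y)) else 0) =
      -(v (Sum.inl (r, 0)) + v (Sum.inl (r, 1)) + v (Sum.inl (r, 2))) := by
    rw [Finset.sum_eq_single r]
    · simp only [if_true, Fin.sum_univ_three]
      ring
    · intro b _ hb
      simp [hb]
    · intro h; exact absurd (Finset.mem_univ _) h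
  rw [h]
  ring

private theorem lh_col (v : J → ℝ) (c : Fin 3) :
    (LH *ᵥ v) (Sum.inr (Sum.inr c)) = 3 * v (Sum.inr (Sum.inr c)) -
      (v (Sum.inl (0, c)) + v (Sum.inl (1, c)) + v (Sum.inl (2, c))) := by
  rw [mulVec, dotProduct, Fintype.sum_sum_type, Fintype.sum_sum_type, Fintype.sum_prod_type]
  simp only [LH, Matrix.of_apply, ite_mul, zero_mul, Finset.sum_ite_eq, Finset.mem_univ, if_true,
    Finset.sum_const_zero, zero_add, Finset.sum_ite_eq']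
  rw [Fin.sum_univ_three]
  ring

/-- the explicit inverse -/
private def midQ (p0 p1 p2 p3 p4 q0 q2 q4 : ℝ) : Matrix J J ℝ := Matrix.of fun a b =>
  match a, b with
  | Sum.inl e, Sum.inl f => if e = f then q0 else if e.1 = f.1 ∨ e.2 = f.2 then q2 else q4
  | Sum.inl e, Sum.inr (Sum.inl r) => if e.1 = r then p1 else p3
  | Sum.inl e, Sum.inr (Sum.inr c) => if e.2 = c then p1 else p3
  | Sum.inr (Sum.inl r), Sum.inl e => if e.1 = r then p1 else p3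
  | Sum.inr (Sum.inr c), Sum.inl e => if e.2 = c then p1 else p3
  | Sum.inr (Sum.inl r), Sum.inr (Sum.inl r') => if r = r' then p0 else p4
  | Sum.inr (Sum.inr c), Sum.inr (Sum.inr c') => if c = c' then p0 else p4
  | Sum.inr (Sum.inl _), Sum.inr (Sum.inr _) => p2
  | Sum.inr (Sum.inr _), Sum.inr (Sum.inl _) => p2

private theorem midQ_mul (g p0 p1 p2 p3 p4 q0 q2 q4 : ℝ)
    (hA : (1 + 2 * g) * p0 - 3 * g * p1 = 1)
    (hB : (1 + g) * p1 - g * p0 - g * p2 = 0)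
    (hC : (1 + 2 * g) * p2 - g * p1 - 2 * g * p3 = 0)
    (hD : (1 + g) * p3 - g * p2 - g * p4 = 0)
    (hE : (1 + 2 * g) * p4 - 3 * g * p3 = 0)
    (hF : (1 + g) * q0 - 2 * g * p1 = 1)
    (hG : (1 + g) * q2 - g * p1 - g * p3 = 0)
    (hH : (1 + g) * q4 - 2 * g * p3 = 0)
    (hI : (1 + 2 * g) * p1 - g * (q0 + 2 * q2) = 0)
    (hK : (1 + 2 * g) * p3 - g * (q2 + 2 * q4) = 0) :
    (1 + (LH - 1) * (g • (1 : Matrix J J ℝ))) * midQ p0 p1 p2 p3 p4 q0 q2 q4 = 1 := by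
  have hZ : (1 + (LH - 1) * (g • (1 : Matrix J J ℝ))) * midQ p0 p1 p2 p3 p4 q0 q2 q4 =
      (1 - g) • midQ p0 p1 p2 p3 p4 q0 q2 q4 + g • (LH * midQ p0 p1 p2 p3 p4 q0 q2 q4) := by
    rw [Matrix.mul_smul, Matrix.mul_one, Matrix.add_mul, Matrix.one_mul, Matrix.smul_mul,
      Matrix.sub_mul, Matrix.one_mul, smul_sub, sub_smul, one_smul]
    abel
  rw [hZ]
  ext a b
  have hcol : (LH * midQ p0 p1 p2 p3 p4 q0 q2 q4) a b =
      (LH *ᵥ (fun k => midQ p0 p1 p2 p3 p4 q0 q2 q4 k b)) a := rfl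
  rw [Matrix.add_apply, Matrix.smul_apply, Matrix.smul_apply, smul_eq_mul, smul_eq_mul, hcol]
  rcases a with ⟨i, j⟩ | r | c
  · rw [lh_mid]
    rcases b with ⟨i', j'⟩ | r' | c'
    · fin_cases i <;> fin_cases j <;> fin_cases i' <;> fin_cases j' <;>
        simp [midQ, Matrix.one_apply] <;> linarith
    · fin_cases i <;> fin_cases r' <;>
        simp [midQ] <;> linarith
    · fin_cases j <;> fin_cases c' <;>
        simp [midQ] <;> linarith
  · rw [lh_row]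
    rcases b with ⟨i', j'⟩ | r' | c'
    · fin_cases r <;> fin_cases i' <;> fin_cases j' <;>
        simp [midQ] <;> linarith
    · fin_cases r <;> fin_cases r' <;>
        simp [midQ] <;> linarith
    · fin_cases r <;> fin_cases c' <;>
        simp [midQ] <;> linarith
  · rw [lh_col]
    rcases b with ⟨i', j'⟩ | r' | c'
    · fin_cases c <;> fin_cases i' <;> fin_cases j' <;>
        simp [midQ] <;> linarith
    · fin_cases c <;> fin_cases r' <;>
        simp [midQ] <;> linarith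
    · fin_cases c <;> fin_cases c' <;>
        simp [midQ] <;> linarith

theorem mid_inv (g : ℝ) (h0 : 0 ≤ g) (h1 : g < 1) : ∃ Q : Matrix J J ℝ,
    (1 + (LH - 1) * (g • (1 : Matrix J J ℝ))) * Q = 1 ∧
      trace Q = 1 / (1 - g) + 1 / (1 + 4 * g) + 1 / (1 + 2 * g) +
        4 * (2 + 3 * g) / (1 + 3 * g - g ^ 2) + 4 / (1 + g) := by
  have d0 : (1 - g) ≠ 0 := by linarith
  have d4 : (1 + 4 * g) ≠ 0 := by positivity
  have d2 : (1 + 2 * g) ≠ 0 := by positivity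
  have d1 : (1 + g) ≠ 0 := by positivity
  obtain ⟨D, hDD⟩ : ∃ x, x = 1 + 3 * g - g ^ 2 := ⟨_, rfl⟩
  have d3 : D ≠ 0 := by rw [hDD]; nlinarith
  obtain ⟨N, hN⟩ : ∃ x, x = (1 + 2 * g) * D * ((1 - g) * (1 + 4 * g)) := ⟨_, rfl⟩
  have hN0 : N ≠ 0 := by
    rw [hN]
    exact mul_ne_zero (mul_ne_zero d2 d3) (mul_ne_zero d0 d4)
  obtain ⟨u, hu⟩ : ∃ x, x = (1 + 2 * g) * (1 + g) := ⟨_, rfl⟩
  obtain ⟨p0, hp0⟩ : ∃ x, x = (u ^ 2 - 6 * g ^ 2 * u + 3 * g ^ 4) / N := ⟨_, rfl⟩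
  obtain ⟨p1, hp1⟩ : ∃ x, x = g * (1 + 2 * g) * (u - 5 * g ^ 2) / N := ⟨_, rfl⟩
  obtain ⟨p2, hp2⟩ : ∃ x, x = g ^ 2 * (u - 3 * g ^ 2) / N := ⟨_, rfl⟩
  obtain ⟨p3, hp3⟩ : ∃ x, x = (1 + 2 * g) * g ^ 3 / N := ⟨_, rfl⟩
  obtain ⟨p4, hp4⟩ : ∃ x, x = 3 * g ^ 4 / N := ⟨_, rfl⟩
  obtain ⟨q0, hq0⟩ : ∃ x, x = (1 + 2 * g * p1) / (1 + g) := ⟨_, rfl⟩
  obtain ⟨q2, hq2⟩ : ∃ x, x = g * (p1 + p3) / (1 + g) := ⟨_, rfl⟩
  obtain ⟨q4, hq4⟩ : ∃ x, x = 2 * g * p3 / (1 + g) := ⟨_, rfl⟩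
  have hA : (1 + 2 * g) * p0 - 3 * g * p1 = 1 := by
    rw [hp0, hp1]
    field_simp
    rw [hN, hu, hDD]
    ring
  have hB : (1 + g) * p1 - g * p0 - g * p2 = 0 := by
    rw [hp0, hp1, hp2]
    field_simp
    rw [hu]
    ring
  have hC : (1 + 2 * g) * p2 - g * p1 - 2 * g * p3 = 0 := by
    rw [hp1, hp2, hp3]
    field_simp
    ring
  have hD : (1 + g) * p3 - g * p2 - g * p4 = 0 := by
    rw [hp2, hp3, hp4]
    field_simp
    rw [hu]
    ring
  have hE : (1 + 2 * g) * p4 - 3 * g * p3 = 0 := by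
    rw [hp3, hp4]
    field_simp
    ring
  have hF : (1 + g) * q0 - 2 * g * p1 = 1 := by
    rw [hq0]
    field_simp
    ring
  have hG : (1 + g) * q2 - g * p1 - g * p3 = 0 := by
    rw [hq2]
    field_simp
    ring
  have hH : (1 + g) * q4 - 2 * g * p3 = 0 := by
    rw [hq4]
    field_simp
    ring
  have hI : (1 + 2 * g) * p1 - g * (q0 + 2 * q2) = 0 := by
    have h3 : (1 + g) * ((1 + 2 * g) * p1 - g * (q0 + 2 * q2)) = 0 := by
      have h4 : (1 + g) * ((1 + 2 * g) * p1 - g * (q0 + 2 * q2)) =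
          (u - 4 * g ^ 2) * p1 - 2 * g ^ 2 * p3 - g := by
        rw [hu]
        linear_combination (-g) * hF + (-2 * g) * hG
      rw [h4, hp1, hp3]
      field_simp
      rw [hN, hu, hDD]
      ring
    exact (mul_eq_zero.mp h3).resolve_left d1
  have hK : (1 + 2 * g) * p3 - g * (q2 + 2 * q4) = 0 := by
    have h3 : (1 + g) * ((1 + 2 * g) * p3 - g * (q2 + 2 * q4)) = 0 := by
      have h4 : (1 + g) * ((1 + 2 * g) * p3 - g * (q2 + 2 * q4)) =
          (u - 5 * g ^ 2) * p3 - g ^ 2 * p1 := by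
        rw [hu]
        linear_combination (-g) * hG + (-2 * g) * hH
      rw [h4, hp1, hp3]
      field_simp
      ring
    exact (mul_eq_zero.mp h3).resolve_left d1
  refine ⟨midQ p0 p1 p2 p3 p4 q0 q2 q4,
    midQ_mul g p0 p1 p2 p3 p4 q0 q2 q4 hA hB hC hD hE hF hG hH hI hK, ?_⟩
  have htr : trace (midQ p0 p1 p2 p3 p4 q0 q2 q4) = 9 * q0 + 6 * p0 := by
    rw [trace, Fintype.sum_sum_type, Fintype.sum_sum_type]
    simp [midQ]
    ring
  rw [htr, hq0, hp1, hp0, hN, hu, ← hDD]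
  field_simp
  rw [hDD]
  ring

end MPd2470a
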