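import Pool.Agent.Lib.MP_d2470a_co.Defs

/-!
# Modify: changing the multiplicities of finitely many pairs

`G'.mult u w = (G.mult u w + ∑ i, c i * eind (s i) (t i) u w).toNat`. The Laplacian is linear in the
multiplicities, and the Laplacian of the single edge `{s, t}` is `(ed s t)(ed s t)'`.
-/

set_option autoImplicit false

namespace MPd2470a

open Matrix

variable {n : ℕ}

private theorem md_symm (x y u w : Fin n) : eind x y u w = eind x y w u := by
  unfold eind
  refine if_congr ?_ rfl rfl
  constructor
  · rintro (⟨a, b⟩ | ⟨a, b⟩)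
    · exact Or.inr ⟨b, a⟩
    · exact Or.inl ⟨b, a⟩
  · rintro (⟨a, b⟩ | ⟨a, b⟩)
    · exact Or.inr ⟨b, a⟩
    · exact Or.inl ⟨b, a⟩

private theorem md_self {x y : Fin n} (h : x ≠ y) (u : Fin n) : eind x y u u = 0 := by
  unfold eind
  rw [if_neg]
  rintro (⟨a, b⟩ | ⟨a, b⟩)
  · exact h (a.symm.trans b)
  · exact h (b.symm.trans a)

private theorem md_split {x y : Fin n} (h : x ≠ y) (u w : Fin n) :
    eind x y u w = (if u = x then (if w = y then 1 else 0) else 0) +
      (if u = y then (if w = x then 1 else 0) else 0) := by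
  unfold eind
  by_cases h1 : u = x
  · subst h1
    rw [if_pos rfl, if_neg h, add_zero]
    refine if_congr ?_ rfl rfl
    constructor
    · rintro (⟨_, b⟩ | ⟨a, _⟩)
      · exact b
      · exact absurd a h
    · intro b
      exact Or.inl ⟨rfl, b⟩
  · rw [if_neg h1, zero_add]
    by_cases h2 : u = y
    · rw [if_pos h2]
      refine if_congr ?_ rfl rfl
      constructor
      · rintro (⟨a, _⟩ | ⟨_, b⟩)
        · exact absurd a h1
        · exact b
      · intro b
        exact Or.inr ⟨h2, b⟩
    · rw [if_neg h2, if_neg]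
      rintro (⟨a, _⟩ | ⟨a, _⟩)
      · exact h1 a
      · exact h2 a

private theorem md_sum {x y : Fin n} (h : x ≠ y) (u : Fin n) :
    ∑ w, eind x y u w = (if u = x then 1 else 0) + (if u = y then 1 else 0) := by
  simp only [md_split h, Finset.sum_add_distrib]
  congr 1
  · split_ifs
    · simp
    · simp
  · split_ifs
    · simp
    · simp

private theorem md_half {x y : Fin n} (h : x ≠ y) :
    ∑ u, ∑ w, (if u < w then eind x y u w else 0) = 1 := by
  have h1 : ∑ u, ∑ w, eind x y u w = 2 := by
    simp only [md_sum h, Finset.sum_add_distrib]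
    simp
  have h2 : ∑ u, ∑ w, eind x y u w = ∑ u, ∑ w, (if u < w then eind x y u w else 0) +
      ∑ u, ∑ w, (if w < u then eind x y u w else 0) := by
    rw [← Finset.sum_add_distrib]
    refine Finset.sum_congr rfl fun u _ => ?_
    rw [← Finset.sum_add_distrib]
    refine Finset.sum_congr rfl fun w _ => ?_
    rcases lt_trichotomy u w with h3 | h3 | h3
    · rw [if_pos h3, if_neg (not_lt.2 h3.le), add_zero]
    · subst h3
      rw [if_neg (lt_irrefl _), md_self h, add_zero]
    · rw [if_neg (not_lt.2 h3.le), if_pos h3, zero_add]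
  have h3 : ∑ u, ∑ w, (if w < u then eind x y u w else 0) =
      ∑ u, ∑ w, (if u < w then eind x y u w else 0) := by
    rw [Finset.sum_comm]
    refine Finset.sum_congr rfl fun u _ => Finset.sum_congr rfl fun w _ => ?_
    rw [md_symm x y w u]
  rw [h3, h1] at h2
  omega

private theorem md_entry {x y : Fin n} (h : x ≠ y) (u w : Fin n) :
    (if u = w then ((∑ z, eind x y u z : ℤ) : ℝ) else 0) - ((eind x y u w : ℤ) : ℝ) =
      vecMulVec (ed x y) (ed x y) u w := by
  rw [vecMulVec_apply]
  have he : ∀ z : Fin n, ed x y z = (if z = x then 1 else 0) - (if z = y then 1 else 0) := by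
    intro z
    unfold ed
    rw [Pi.sub_apply, Pi.single_apply, Pi.single_apply]
  rw [he, he]
  by_cases huw : u = w
  · subst huw
    rw [if_pos rfl, md_self h, md_sum h]
    by_cases h1 : u = x
    · subst h1
      rw [if_pos rfl, if_neg h, if_pos rfl, if_neg h]
      norm_num
    · rw [if_neg h1, if_neg h1]
      split_ifs
      · norm_num
      · norm_num
  · rw [if_neg huw, md_split h]
    by_cases h1 : u = x
    · subst h1
      have h2 : ¬ w = u := fun h3 => huw h3.symm
      rw [if_pos rfl, if_neg h, if_pos rfl, if_neg h, if_neg h2]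
      split_ifs
      · norm_num
      · norm_num
    · rw [if_neg h1, if_neg h1]
      by_cases h2 : u = y
      · subst h2
        have h3 : ¬ w = u := fun h3 => huw h3.symm
        rw [if_pos rfl, if_pos rfl, if_neg h3]
        split_ifs
        · norm_num
        · norm_num
      · rw [if_neg h2, if_neg h2]
        norm_num

theorem modify (G : MG n) {ι : Type} [Fintype ι] (s t : ι → Fin n) (hst : ∀ i, s i ≠ t i)
    (c : ι → ℤ) (hnn : ∀ u w, 0 ≤ (G.mult u w : ℤ) + ∑ i, c i * eind (s i) (t i) u w) :
    ∃ G' : MG n, NM G' = NM G + ∑ i, (c i : ℝ) • vecMulVec (ed (s i) (t i)) (ed (s i) (t i)) ∧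
      (G'.numEdges : ℤ) = (G.numEdges : ℤ) + ∑ i, c i := by
  obtain ⟨G', hG'⟩ : ∃ G' : MG n, ∀ u w, ((G'.mult u w : ℕ) : ℤ) =
      (G.mult u w : ℤ) + ∑ i, c i * eind (s i) (t i) u w :=
    ⟨{ mult := fun u w => ((G.mult u w : ℤ) + ∑ i, c i * eind (s i) (t i) u w).toNat
       symm := by
        intro u w
        rw [G.symm u w]
        simp only [fun i => md_symm (s i) (t i) u w]
       loopless := by
        intro u
        simp only [G.loopless u, fun i => md_self (hst i) u]
        simp }, fun u w => Int.toNat_of_nonneg (hnn u w)⟩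
  have hG'R : ∀ u w, ((G'.mult u w : ℕ) : ℝ) =
      (G.mult u w : ℝ) + ∑ i, (c i : ℝ) * ((eind (s i) (t i) u w : ℤ) : ℝ) := by
    intro u w
    have h1 := congrArg (fun z : ℤ => (z : ℝ)) (hG' u w)
    push_cast at h1
    exact h1
  have hdeg : ∀ u, ((deg G' u : ℕ) : ℝ) = (deg G u : ℝ) +
      ∑ i, (c i : ℝ) * ((∑ z, eind (s i) (t i) u z : ℤ) : ℝ) := by
    intro u
    unfold deg
    push_cast
    simp only [hG'R]
    rw [Finset.sum_add_distrib, Finset.sum_comm]
    congr 1
    refine Finset.sum_congr rfl fun i _ => ?_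
    rw [Finset.mul_sum]
  refine ⟨G', ?_, ?_⟩
  · ext u w
    have hs : (∑ i, (c i : ℝ) • vecMulVec (ed (s i) (t i)) (ed (s i) (t i))) u w =
        ∑ i, (c i : ℝ) * vecMulVec (ed (s i) (t i)) (ed (s i) (t i)) u w := by
      rw [Matrix.sum_apply]
      rfl
    rw [Matrix.add_apply, hs]
    unfold NM lapM
    rw [Matrix.add_apply, Matrix.add_apply, of_apply, of_apply, of_apply, hG'R u w]
    simp only [← md_entry (hst _)]
    by_cases huw : u = w
    · simp only [if_pos huw]
      rw [hdeg u]
      simp only [mul_sub, Finset.sum_sub_distrib]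
      ring
    · simp only [if_neg huw]
      simp only [mul_sub, Finset.sum_sub_distrib, mul_zero, Finset.sum_const_zero]
      ring
  · unfold Pool.Agent.Lib.MP_cf7718_co.MGraph.numEdges
    push_cast
    have h1 : ∀ u w : Fin n, (if u < w then ((G'.mult u w : ℕ) : ℤ) else 0) =
        (if u < w then (G.mult u w : ℤ) else 0) +
          ∑ i, c i * (if u < w then eind (s i) (t i) u w else 0) := by
      intro u w
      split_ifs
      · rw [hG' u w]
      · simp
    simp only [h1, Finset.sum_add_distrib]
    congr 1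
    have h2 : ∑ u : Fin n, ∑ w : Fin n, ∑ i, c i * (if u < w then eind (s i) (t i) u w else 0) =
        ∑ i, c i * ∑ u : Fin n, ∑ w : Fin n, (if u < w then eind (s i) (t i) u w else 0) := by
      have h3 : ∀ u : Fin n, ∑ w : Fin n, ∑ i, c i *
          (if u < w then eind (s i) (t i) u w else 0) =
          ∑ i, c i * ∑ w : Fin n, (if u < w then eind (s i) (t i) u w else 0) := by
        intro u
        rw [Finset.sum_comm]
        exact Finset.sum_congr rfl fun i _ => by rw [Finset.mul_sum]
      simp only [h3]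
      rw [Finset.sum_comm]
      exact Finset.sum_congr rfl fun i _ => by rw [Finset.mul_sum]
    rw [h2]
    exact Finset.sum_congr rfl fun i _ => by rw [md_half (hst i), mul_one]

end MPd2470a
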