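import Pool.Agent.Lib.MP_d2470a_co.OptG

/-!
# OptCyc: replacing 12 edges at `v` by a 12-cycle through the neighbours

`opt_gen` with `ι = ZMod 12 ⊕ ZMod 12`: pairs `(x i, v)` with `c = -1` and `(x i, x (i + 1))` with
`c = 1`; `m = ZMod 12`, `F` = matrix with columns `ed (x i) v`, `A = cycA`.
* `x i ≠ v` because `G.mult (x i) v > 0` (`G.loopless`), `x i ≠ x (i + 1)` by injectivity.
* `hnn`: at most one `i` has `{x i, v} = {u, w}`, and then `mult u w ≥ 1`.
* `hF`: `∑ i, (- f_i f_i' + (f_i - f_{i+1})(f_i - f_{i+1})') = F cycA F'` (`ed_sub`), reindex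
  `i ↦ i + 1` (`Equiv.sum_comp (Equiv.addRight 1)`).
* `Fᵀ M F = of (gg ..)`, `Fᵀ M M F = of (ss ..)` (`MM_transpose`).
* if `0 < det Z * trace (Σ adj(Z) A)` then `det Z ≠ 0` and `trace (Σ Z⁻¹ A) > 0` (`Matrix.inv_def`).
-/

set_option autoImplicit false

namespace MPd2470a

open Matrix

variable {n : ℕ} {G : MG n}

private theorem OptCyc_gram {m : Type} [Fintype m] (G : MG n) (f : m → Fin n → ℝ) (i j : m) :
    ((Matrix.of fun (k : Fin n) (l : m) => f l k)ᵀ * MM G *
      (Matrix.of fun (k : Fin n) (l : m) => f l k)) i j = rr G (f i) (f j) := by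
  rw [Matrix.mul_assoc]
  rfl

private theorem OptCyc_gram2 {m : Type} [Fintype m] (G : MG n) (f : m → Fin n → ℝ) (i j : m) :
    ((Matrix.of fun (k : Fin n) (l : m) => f l k)ᵀ * MM G * MM G *
      (Matrix.of fun (k : Fin n) (l : m) => f l k)) i j = qq G (f i) (f j) := by
  rw [Matrix.mul_assoc]
  have h1 : (Matrix.of fun (k : Fin n) (l : m) => f l k)ᵀ * MM G =
      (MM G * Matrix.of fun (k : Fin n) (l : m) => f l k)ᵀ := by
    rw [Matrix.transpose_mul, MM_transpose]
  rw [h1]
  rfl

private theorem OptCyc_cycA (i j : ZMod 12) : cycA i j =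
    (if i = j then (1 : ℝ) else 0) - (if j = i + 1 then (1 : ℝ) else 0) -
      (if i = j + 1 then (1 : ℝ) else 0) := by
  unfold cycA
  rw [Matrix.of_apply]
  by_cases h1 : i = j
  · subst h1
    have h2 : ¬ i = i + 1 := by
      intro h
      have h3 : (1 : ZMod 12) = 0 := left_eq_add.1 h
      exact absurd h3 (by decide)
    simp [h2]
  · by_cases h2 : i = j + 1
    · have h3 : ¬ j = i + 1 := by
        rintro h3
        rw [h2] at h3
        have h4 : (2 : ZMod 12) = 0 := by linear_combination -h3
        exact absurd h4 (by decide)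
      rw [if_neg h1, if_pos (Or.inl h2), if_neg h1, if_neg h3, if_pos h2]
      norm_num
    · by_cases h3 : j = i + 1
      · rw [if_neg h1, if_pos (Or.inr h3), if_neg h1, if_pos h3, if_neg h2]
        norm_num
      · rw [if_neg h1, if_neg (by tauto), if_neg h1, if_neg h3, if_neg h2]
        norm_num

/-- the quadratic form of the exchange -/
private theorem OptCyc_form (f : ZMod 12 → Fin n → ℝ) (u w : Fin n) :
    ∑ i, (-(f i u * f i w) + (f i u - f (i + 1) u) * (f i w - f (i + 1) w)) =
      ∑ i, ∑ j, f i u * cycA i j * f j w := by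
  have h1 : ∀ i, ∑ j, f i u * cycA i j * f j w =
      f i u * f i w - f i u * f (i + 1) w - f i u * f (i - 1) w := by
    intro i
    have h2 : ∀ j, f i u * cycA i j * f j w =
        (if i = j then f i u * f j w else 0) - (if j = i + 1 then f i u * f j w else 0) -
          (if j = i - 1 then f i u * f j w else 0) := by
      intro j
      rw [OptCyc_cycA]
      have h3 : (i = j + 1) ↔ (j = i - 1) := by
        constructor
        · rintro rfl; ring
        · rintro rfl; ring
      simp only [h3]
      split_ifs <;> ring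
    rw [Finset.sum_congr rfl fun j _ => h2 j, Finset.sum_sub_distrib, Finset.sum_sub_distrib,
      Finset.sum_ite_eq, Finset.sum_ite_eq', Finset.sum_ite_eq']
    simp
  rw [Finset.sum_congr rfl fun i _ => h1 i]
  have h4 : ∀ i, -(f i u * f i w) + (f i u - f (i + 1) u) * (f i w - f (i + 1) w) =
      f (i + 1) u * f (i + 1) w - f i u * f (i + 1) w - f (i + 1) u * f i w := by
    intro i; ring
  rw [Finset.sum_congr rfl fun i _ => h4 i]
  simp only [Finset.sum_sub_distrib]
  have h5 : ∑ i, f (i + 1) u * f (i + 1) w = ∑ i, f i u * f i w :=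
    Equiv.sum_comp (Equiv.addRight (1 : ZMod 12)) (fun i => f i u * f i w)
  have h6 : ∑ i, f (i + 1) u * f i w = ∑ i, f i u * f (i - 1) w := by
    rw [← Equiv.sum_comp (Equiv.addRight (1 : ZMod 12)) (fun i => f i u * f (i - 1) w)]
    refine Finset.sum_congr rfl fun i _ => ?_
    simp
  rw [h5, h6]

theorem opt_cyc {α : ℝ} (ho : IsOpt α G) (h : Conn G) (v : Fin n) (x : ZMod 12 → Fin n)
    (hinj : Function.Injective x) (hx : ∀ i, 0 < G.mult (x i) v) :
    ¬ (0 < (1 + cycA * Matrix.of fun i j => gg G v (x i) (x j)).det *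
      trace ((Matrix.of fun i j => ss G v (x i) (x j)) *
        (adjugate (1 + cycA * Matrix.of fun i j => gg G v (x i) (x j)) * cycA))) := by
  intro hpos
  have hn : 0 < n := lt_of_le_of_lt (Nat.zero_le _) v.isLt
  have hxv : ∀ i, x i ≠ v := by
    intro i hi
    have h1 := hx i
    rw [hi, G.loopless] at h1
    exact absurd h1 (lt_irrefl _)
  have hxx : ∀ i, x i ≠ x (i + 1) := by
    intro i hi
    have h1 : i = i + 1 := hinj hi
    have h3 : (1 : ZMod 12) = 0 := left_eq_add.1 h1
    exact absurd h3 (by decide)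
  obtain ⟨f, hf⟩ : ∃ f : ZMod 12 → Fin n → ℝ, f = fun i => ed (x i) v := ⟨_, rfl⟩
  have hGa : (Matrix.of fun (k : Fin n) (l : ZMod 12) => f l k)ᵀ * MM G *
      (Matrix.of fun (k : Fin n) (l : ZMod 12) => f l k) =
      Matrix.of fun i j => gg G v (x i) (x j) := by
    ext i j
    rw [OptCyc_gram, hf]
    rfl
  have hSg : (Matrix.of fun (k : Fin n) (l : ZMod 12) => f l k)ᵀ * MM G * MM G *
      (Matrix.of fun (k : Fin n) (l : ZMod 12) => f l k) =
      Matrix.of fun i j => ss G v (x i) (x j) := by
    ext i j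
    rw [OptCyc_gram2, hf]
    rfl
  obtain ⟨Z, hZ⟩ : ∃ Z : Matrix (ZMod 12) (ZMod 12) ℝ,
    Z = 1 + cycA * Matrix.of fun i j => gg G v (x i) (x j) := ⟨_, rfl⟩
  rw [← hZ] at hpos
  have hdet0 : Z.det ≠ 0 := by
    intro h0
    rw [h0, zero_mul] at hpos
    exact absurd hpos (lt_irrefl _)
  have hmain := opt_gen (ι := ZMod 12 ⊕ ZMod 12) (m := ZMod 12) hn ho h
    (Sum.elim x x) (Sum.elim (fun _ => v) (fun i => x (i + 1)))
    (by
      rintro (i | i)
      · exact hxv i
      · exact hxx i) (Sum.elim (fun _ => -1) (fun _ => 1))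
    (by
      intro u w
      rw [Fintype.sum_sum_type]
      simp only [Sum.elim_inl, Sum.elim_inr, neg_one_mul, one_mul, Finset.sum_neg_distrib]
      have h1 : 0 ≤ ∑ i, eind (x i) (x (i + 1)) u w := by
        refine Finset.sum_nonneg fun i _ => ?_
        unfold eind
        split_ifs <;> norm_num
      have h2 : ∑ i, eind (x i) v u w ≤ (G.mult u w : ℤ) := by
        by_cases h3 : ∃ i, (u = x i ∧ w = v) ∨ (u = v ∧ w = x i)
        · obtain ⟨i, hi⟩ := h3
          rw [Finset.sum_eq_single i]
          · unfold eind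
            rw [if_pos hi]
            rcases hi with ⟨rfl, rfl⟩ | ⟨rfl, rfl⟩
            · exact_mod_cast hx i
            · rw [G.symm]
              exact_mod_cast hx i
          · intro j _ hj
            unfold eind
            rw [if_neg]
            intro h4
            apply hj
            apply hinj
            rcases hi with ⟨h5, h6⟩ | ⟨h5, h6⟩ <;> rcases h4 with ⟨h7, h8⟩ | ⟨h7, h8⟩
            · rw [← h5, ← h7]
            · exact absurd (h5.symm.trans h7) (hxv i)
            · exact absurd (h7.symm.trans h5) (hxv j)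
            · rw [← h6, ← h8]
          · intro h5
            exact absurd (Finset.mem_univ i) h5
        · rw [Finset.sum_eq_zero]
          · exact Int.natCast_nonneg _
          · intro i _
            unfold eind
            rw [if_neg]
            intro h4
            exact h3 ⟨i, h4⟩
      linarith)
    (by
      rw [Fintype.sum_sum_type]
      simp only [Sum.elim_inl, Sum.elim_inr]
      have h1 : (∑ _i : ZMod 12, (-1 : ℤ)) + ∑ _i : ZMod 12, (1 : ℤ) = 0 := by
        rw [← Finset.sum_add_distrib]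
        simp
      rw [h1, Int.cast_zero, add_zero]
      exact ho.1)
    (Matrix.of fun (k : Fin n) (l : ZMod 12) => f l k) cycA
    (by
      ext u w
      rw [Fintype.sum_sum_type]
      simp only [Sum.elim_inl, Sum.elim_inr]
      rw [← Finset.sum_add_distrib, Matrix.sum_apply]
      have h1 : ∀ i : ZMod 12, ((((-1 : ℤ) : ℝ) • vecMulVec (ed (x i) v) (ed (x i) v) +
          ((1 : ℤ) : ℝ) • vecMulVec (ed (x i) (x (i + 1))) (ed (x i) (x (i + 1)))) : Matrix _ _ ℝ)
            u w = -(f i u * f i w) + (f i u - f (i + 1) u) * (f i w - f (i + 1) w) := by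
        intro i
        rw [hf, Matrix.add_apply, Matrix.smul_apply, Matrix.smul_apply, vecMulVec_apply,
          vecMulVec_apply, ed_sub (x i) (x (i + 1)) v]
        simp
      rw [Finset.sum_congr rfl fun i _ => h1 i, OptCyc_form]
      rw [Matrix.mul_assoc, Matrix.mul_apply]
      refine Finset.sum_congr rfl fun i _ => ?_
      rw [Matrix.mul_apply, Finset.mul_sum]
      refine Finset.sum_congr rfl fun j _ => ?_
      rw [Matrix.of_apply, Matrix.transpose_apply, Matrix.of_apply]
      ring)
    (by
      rw [hGa, ← hZ]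
      exact isUnit_iff_ne_zero.2 hdet0)
  rw [hGa, hSg, ← hZ, Matrix.inv_def, Ring.inverse_eq_inv', Matrix.smul_mul, Matrix.mul_smul,
    Matrix.trace_smul, smul_eq_mul] at hmain
  have h1 : 0 < Z.det ^ 2 := by positivity
  have h2 := mul_nonpos_of_nonneg_of_nonpos h1.le hmain
  have h3 : Z.det ^ 2 * (Z.det⁻¹ * trace ((Matrix.of fun i j => ss G v (x i) (x j)) *
      (adjugate Z * cycA))) = Z.det * trace ((Matrix.of fun i j => ss G v (x i) (x j)) *
      (adjugate Z * cycA)) := by
    field_simp
  rw [h3] at h2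
  exact absurd hpos (not_lt.2 h2)

end MPd2470a
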