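import Pool.Agent.Lib.MP_d2470a_co.LinA

/-!
# Res: the total resistance and the matrix `MM G`

* `effRes_eq`: `MM G *ᵥ ed x y` is a potential (`lap_MM`, `lapM_mulVec`), and two potentials differ
  by a constant (`const_of_lap`), so the infimum is over numbers all equal to `rr (ed x y) (ed x y)`.
* `totRes_eq`: `∑_{x<y} R_xy = (1/2) ∑_{x,y} R_xy`, `R_xy = M_xx + M_yy - 2 M_xy`,
  `∑_{x,y} M_xy = n` (`MM_one`).
* `conn_of`: `effRes x y ≠ ∞` gives a potential, so `ed x y = L v`. If `NM G *ᵥ w = 0`, summing the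
  coordinates gives `∑ w = 0`, hence `L w = 0` and `w x - w y = ed x y ⬝ w = v' L w = 0`; so
  `w = 0` and `NM G` is injective (`Matrix.mulVec_injective_iff_isUnit` or
  `Matrix.exists_mulVec_eq_zero_iff`).
-/

set_option autoImplicit false

namespace MPd2470a

open Matrix
open scoped ENNReal

variable {n : ℕ} {G : MG n}

/-- a symmetric sum over the pairs `x < y` -/
private theorem re_half (f : Fin n → Fin n → ℝ) (hs : ∀ x y, f x y = f y x)
    (h0 : ∀ x, f x x = 0) :
    ∑ x, ∑ y, (if x < y then f x y else 0) = (1 / 2) * ∑ x, ∑ y, f x y := by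
  have h1 : ∑ x, ∑ y, f x y = ∑ x, ∑ y, (if x < y then f x y else 0) +
      ∑ x, ∑ y, (if y < x then f x y else 0) := by
    rw [← Finset.sum_add_distrib]
    refine Finset.sum_congr rfl fun x _ => ?_
    rw [← Finset.sum_add_distrib]
    refine Finset.sum_congr rfl fun y _ => ?_
    rcases lt_trichotomy x y with h | h | h
    · rw [if_pos h, if_neg (not_lt.2 h.le), add_zero]
    · subst h
      rw [if_neg (lt_irrefl _), h0, add_zero]
    · rw [if_neg (not_lt.2 h.le), if_pos h, zero_add]
  have h2 : ∑ x, ∑ y, (if y < x then f x y else 0) =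
      ∑ x, ∑ y, (if x < y then f x y else 0) := by
    rw [Finset.sum_comm]
    refine Finset.sum_congr rfl fun x _ => Finset.sum_congr rfl fun y _ => ?_
    rw [hs y x]
  rw [h2] at h1
  linarith

private theorem re_lap (h : Conn G) (x y : Fin n) :
    lapM G *ᵥ (MM G *ᵥ ed x y) = ed x y := lap_MM h _ (sum_ed x y)

private theorem re_ed (x y z : Fin n) :
    ed x y z = (if z = x then 1 else 0) - (if z = y then 1 else 0) := by
  simp only [ed, Pi.sub_apply, Pi.single_apply]

private theorem re_nonneg (h : Conn G) (x y : Fin n) : 0 ≤ rr G (ed x y) (ed x y) := by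
  have h1 := quad_nonneg G (MM G *ᵥ ed x y)
  rw [re_lap h, dotProduct_comm] at h1
  exact h1

private theorem re_pair (x y : Fin n) :
    rr G (ed x y) (ed x y) = MM G x x + MM G y y - MM G x y - MM G y x := by
  unfold rr
  rw [dot_ed]
  have h1 : ∀ z, (MM G *ᵥ ed x y) z = MM G z x - MM G z y := by
    intro z
    have h2 : (MM G *ᵥ ed x y) z = MM G z ⬝ᵥ ed x y := rfl
    rw [h2, dotProduct_comm, dot_ed]
  rw [h1, h1]
  ring

private theorem re_sum (h : Conn G) :
    ∑ x, ∑ y, (if x < y then rr G (ed x y) (ed x y) else 0) =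
      (n : ℝ) * (trace (MM G) - 1) := by
  rw [re_half (fun x y => rr G (ed x y) (ed x y))]
  · have h1 : ∀ x, ∑ y, MM G x y = 1 := by
      intro x
      have h3 := congrFun (MM_one h) x
      have h4 : (MM G *ᵥ fun _ => (1 : ℝ)) x = ∑ z, MM G x z * 1 := rfl
      rw [h4] at h3
      simpa only [mul_one] using h3
    have h2 : ∀ x y, MM G y x = MM G x y := by
      intro x y
      have := congrFun (congrFun (MM_transpose G) x) y
      rwa [transpose_apply] at this
    have h3 : ∑ x, ∑ y, rr G (ed x y) (ed x y) =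
        ∑ x : Fin n, ∑ y : Fin n, (MM G x x + MM G y y - 2 * MM G x y) := by
      refine Finset.sum_congr rfl fun x _ => Finset.sum_congr rfl fun y _ => ?_
      rw [re_pair, h2 x y]
      ring
    rw [h3]
    simp only [Finset.sum_sub_distrib, Finset.sum_add_distrib, ← Finset.mul_sum, h1,
      Finset.sum_const, Finset.card_univ, Fintype.card_fin, nsmul_eq_mul]
    have h4 : trace (MM G) = ∑ x, MM G x x := rfl
    rw [h4]
    ring
  · intro x y
    simp only [re_pair]
    ring
  · intro x
    simp only [re_pair]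
    ring

theorem effRes_eq (h : Conn G) (x y : Fin n) :
    G.effRes x y = ENNReal.ofReal (rr G (ed x y) (ed x y)) := by
  have hpot : G.IsPotential x y (MM G *ᵥ ed x y) := by
    intro z
    rw [← lapM_mulVec, re_lap h, re_ed]
  have hval : rr G (ed x y) (ed x y) = (MM G *ᵥ ed x y) x - (MM G *ᵥ ed x y) y := by
    unfold rr
    rw [dot_ed]
  unfold Pool.Agent.Lib.MP_cf7718_co.MGraph.effRes
  apply le_antisymm
  · refine (iInf_le _ ⟨MM G *ᵥ ed x y, hpot⟩).trans ?_
    rw [hval]
  · refine le_iInf fun v => ?_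
    obtain ⟨v, hv⟩ := v
    have h1 : lapM G *ᵥ (v - MM G *ᵥ ed x y) = 0 := by
      rw [mulVec_sub, re_lap h]
      ext z
      rw [Pi.sub_apply, lapM_mulVec, hv z, re_ed, sub_self, Pi.zero_apply]
    have h2 := const_of_lap h _ h1 x y
    simp only [Pi.sub_apply] at h2
    have h3 : v x - v y = rr G (ed x y) (ed x y) := by
      rw [hval]
      linarith
    rw [h3]

theorem totRes_eq (h : Conn G) (hn : 0 < n) :
    totRes G = ENNReal.ofReal ((n : ℝ) * (trace (MM G) - 1)) := by
  rw [← re_sum h]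
  unfold totRes
  rw [ENNReal.ofReal_sum_of_nonneg]
  · refine Finset.sum_congr rfl fun x _ => ?_
    rw [ENNReal.ofReal_sum_of_nonneg]
    · refine Finset.sum_congr rfl fun y _ => ?_
      split_ifs with hxy
      · exact effRes_eq h x y
      · exact ENNReal.ofReal_zero.symm
    · intro y _
      split_ifs
      · exact re_nonneg h x y
      · exact le_rfl
  · intro x _
    refine Finset.sum_nonneg fun y _ => ?_
    split_ifs
    · exact re_nonneg h x y
    · exact le_rfl

theorem one_le_trace (h : Conn G) (hn : 0 < n) : 1 ≤ trace (MM G) := by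
  have h1 := re_sum h
  have h2 : 0 ≤ ∑ x, ∑ y, (if x < y then rr G (ed x y) (ed x y) else 0) := by
    refine Finset.sum_nonneg fun x _ => Finset.sum_nonneg fun y _ => ?_
    split_ifs
    · exact re_nonneg h x y
    · exact le_rfl
  rw [h1] at h2
  have hn0 : (0 : ℝ) < n := by exact_mod_cast hn
  have h3 := nonneg_of_mul_nonneg_right h2 hn0
  linarith

theorem conn_of (hn : 0 < n) (h : totRes G ≠ ⊤) : Conn G := by
  have hn0 : (n : ℝ) ≠ 0 := by exact_mod_cast hn.ne'
  unfold Conn
  rw [isUnit_iff_ne_zero]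
  intro hdet
  obtain ⟨w, hw0, hw⟩ := exists_mulVec_eq_zero_iff.2 hdet
  -- the coordinate sum of `w` vanishes
  have hJ : ∀ z, ((Matrix.of fun _ _ : Fin n => 1 / (n : ℝ)) *ᵥ w) z = (1 / (n : ℝ)) * ∑ u, w u := by
    intro z
    rw [Finset.mul_sum]
    rfl
  have hz : ∀ z, (lapM G *ᵥ w) z + (1 / (n : ℝ)) * ∑ u, w u = 0 := by
    intro z
    have h1 := congrFun hw z
    unfold NM at h1
    rw [add_mulVec, Pi.add_apply, hJ, Pi.zero_apply] at h1
    exact h1
  have hL1 : ∑ z, (lapM G *ᵥ w) z = 0 := by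
    have h1 := lapM_symm G (fun _ => (1 : ℝ)) w
    have h2 : lapM G *ᵥ (fun _ => (1 : ℝ)) = 0 := by
      ext z
      rw [lapM_mulVec]
      simp
    rw [h2, dotProduct_zero] at h1
    have h3 : (fun _ => (1 : ℝ)) ⬝ᵥ (lapM G *ᵥ w) = ∑ z, 1 * (lapM G *ᵥ w) z := rfl
    rw [h3] at h1
    simpa only [one_mul] using h1
  have hs : ∑ u, w u = 0 := by
    have h1 : ∑ z : Fin n, ((lapM G *ᵥ w) z + (1 / (n : ℝ)) * ∑ u, w u) = 0 :=
      Finset.sum_eq_zero fun z _ => hz z
    rw [Finset.sum_add_distrib, hL1, zero_add, Finset.sum_const, Finset.card_univ,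
      Fintype.card_fin, nsmul_eq_mul, ← mul_assoc, mul_one_div_cancel hn0, one_mul] at h1
    exact h1
  have hLw : lapM G *ᵥ w = 0 := by
    ext z
    have h1 := hz z
    rw [hs, mul_zero, add_zero] at h1
    exact h1
  -- potentials exist
  have hlt : ∀ x y : Fin n, x < y → w x = w y := by
    intro x y hxy
    have h1 : G.effRes x y ≠ ⊤ := by
      intro htop
      apply h
      unfold totRes
      rw [ENNReal.sum_eq_top]
      refine ⟨x, Finset.mem_univ x, ?_⟩
      rw [ENNReal.sum_eq_top]
      exact ⟨y, Finset.mem_univ y, by rw [if_pos hxy]; exact htop⟩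
    have h2 : ∃ v, G.IsPotential x y v := by
      by_contra hno
      apply h1
      unfold Pool.Agent.Lib.MP_cf7718_co.MGraph.effRes
      rw [iInf_eq_top]
      rintro ⟨v, hv⟩
      exact absurd ⟨v, hv⟩ hno
    obtain ⟨v, hv⟩ := h2
    have h3 : lapM G *ᵥ v = ed x y := by
      ext z
      rw [lapM_mulVec, hv z, re_ed]
    have h4 := lapM_symm G w v
    rw [h3, hLw, dotProduct_zero, dotProduct_comm, dot_ed] at h4
    linarith
  have hall : ∀ x y : Fin n, w x = w y := by
    intro x y
    rcases lt_trichotomy x y with h1 | h1 | h1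
    · exact hlt x y h1
    · rw [h1]
    · exact (hlt y x h1).symm
  apply hw0
  ext x
  have h1 : ∑ u, w u = n * w x := by
    rw [Finset.sum_congr rfl fun u _ => hall u x, Finset.sum_const, Finset.card_univ,
      Fintype.card_fin, nsmul_eq_mul]
  rw [hs] at h1
  rcases mul_eq_zero.1 h1.symm with h2 | h2
  · exact absurd h2 hn0
  · exact h2

end MPd2470a
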