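import Mathlib

/-!
# Upd: the update formula for the trace of the inverse

With `Γ = Fᵀ M F`, `Z = 1 + A Γ`, `K = Z⁻¹ A`, `M' = M - M F K Fᵀ M`:
`(N + F A Fᵀ) M' = 1 + F (A - K - A Γ K) Fᵀ M = 1` because `A = Z K = K + A Γ K`; and
`trace M' = trace M - trace (M F K Fᵀ M) = trace M - trace (Fᵀ M M F K)`.
-/

set_option autoImplicit false

namespace MPd2470a

open Matrix

theorem upd {V m : Type} [Fintype V] [DecidableEq V] [Fintype m] [DecidableEq m]
    (N M : Matrix V V ℝ) (hNM : N * M = 1) (F : Matrix V m ℝ) (A : Matrix m m ℝ)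
    (hdet : IsUnit (1 + A * (Fᵀ * M * F)).det) :
    ∃ M' : Matrix V V ℝ, (N + F * A * Fᵀ) * M' = 1 ∧
      trace M' = trace M - trace ((Fᵀ * M * M * F) * ((1 + A * (Fᵀ * M * F))⁻¹ * A)) := by
  obtain ⟨K, hK⟩ : ∃ K, K = (1 + A * (Fᵀ * M * F))⁻¹ * A := ⟨_, rfl⟩
  have hZK : (1 + A * (Fᵀ * M * F)) * K = A := by
    rw [hK, ← Matrix.mul_assoc, Matrix.mul_nonsing_inv _ hdet, Matrix.one_mul]
  rw [← hK]
  refine ⟨M - M * F * K * Fᵀ * M, ?_, ?_⟩
  · have h1 : F * ((1 + A * (Fᵀ * M * F)) * K) * Fᵀ * M = F * A * Fᵀ * M := by rw [hZK]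
    simp only [Matrix.add_mul, Matrix.mul_add, Matrix.one_mul, ← Matrix.mul_assoc] at h1
    simp only [Matrix.add_mul, Matrix.mul_sub, ← Matrix.mul_assoc]
    rw [hNM, Matrix.one_mul]
    have h2 := eq_sub_of_add_eq' h1
    rw [h2]
    abel
  · rw [trace_sub]
    congr 1
    have h2 : M * F * K * Fᵀ * M = (M * F * K) * (Fᵀ * M) := by
      simp only [Matrix.mul_assoc]
    rw [h2, Matrix.trace_mul_comm]
    simp only [Matrix.mul_assoc]

end MPd2470a
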