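import Pool.Agent.Lib.MP_d2470a_co.LinB
import Pool.Agent.Lib.MP_d2470a_co.Res
import Pool.Agent.Lib.MP_d2470a_co.Upd
import Pool.Agent.Lib.MP_d2470a_co.Modify

/-!
# OptG: optimality against a general modification

`modify` gives `G'`, `upd` (with `N = NM G`, `M = MM G`) gives `M'` with `NM G' * M' = 1`, so
`Conn G'` and `MM G' = M'` (`Matrix.inv_eq_right_inv`, `Matrix.isUnit_det_of_right_inverse`). By
optimality `totRes G ≤ totRes G'`, and `totRes_eq`, `one_le_trace` give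
`trace (MM G) ≤ trace (MM G')`.
-/

set_option autoImplicit false

namespace MPd2470a

open Matrix

variable {n : ℕ} {G : MG n}

theorem opt_gen {α : ℝ} (hn : 0 < n) (ho : IsOpt α G) (h : Conn G) {ι m : Type} [Fintype ι]
    [Fintype m] [DecidableEq m] (s t : ι → Fin n) (hst : ∀ i, s i ≠ t i) (c : ι → ℤ)
    (hnn : ∀ u w, 0 ≤ (G.mult u w : ℤ) + ∑ i, c i * eind (s i) (t i) u w)
    (hc : (G.numEdges : ℝ) + ((∑ i, c i : ℤ) : ℝ) ≤ α * n / 2)
    (F : Matrix (Fin n) m ℝ) (A : Matrix m m ℝ)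
    (hF : ∑ i, (c i : ℝ) • vecMulVec (ed (s i) (t i)) (ed (s i) (t i)) = F * A * Fᵀ)
    (hdet : IsUnit (1 + A * (Fᵀ * MM G * F)).det) :
    trace ((Fᵀ * MM G * MM G * F) * ((1 + A * (Fᵀ * MM G * F))⁻¹ * A)) ≤ 0 := by
  obtain ⟨G', hNM, hE⟩ := modify G s t hst c hnn
  rw [hF] at hNM
  have hinv : NM G * MM G = 1 := Matrix.mul_nonsing_inv _ h
  obtain ⟨M', h1, h2⟩ := upd (NM G) (MM G) hinv F A hdet
  rw [← hNM] at h1
  have hMM : MM G' = M' := Matrix.inv_eq_right_inv h1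
  have hC : Conn G' := Matrix.isUnit_det_of_right_inverse h1
  have hE' : (G'.numEdges : ℝ) ≤ α * n / 2 := by
    have h3 : (G'.numEdges : ℝ) = (G.numEdges : ℝ) + ((∑ i, c i : ℤ) : ℝ) := by
      exact_mod_cast hE
    rw [h3]
    exact hc
  have h4 := ho.2 G' hE'
  rw [totRes_eq h hn, totRes_eq hC hn] at h4
  have hn' : (0 : ℝ) < n := by exact_mod_cast hn
  have h5 : 0 ≤ (n : ℝ) * (trace (MM G') - 1) :=
    mul_nonneg hn'.le (sub_nonneg.2 (one_le_trace hC hn))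
  rw [ENNReal.ofReal_le_ofReal_iff h5] at h4
  have h6 := le_of_mul_le_mul_left h4 hn'
  rw [hMM, h2] at h6
  linarith

end MPd2470a
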