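import Pool.Agent.Lib.MP_d2470a_co.OptG
import Pool.Agent.Lib.MP_d2470a_co.MidDefs

/-!
# OptMid: replacing 15 hub edges and 3 cheap edges by a subdivided `K₃,₃` on the hub neighbours

`opt_gen` with pairs: `(x i, v)`, `c = -1` (`i ∈ J`); `(x a, x b)`, `c = 1`, for the 18 edges `a b` of the
subdivided `K₃,₃`; `(y j, z j)`, `c = -1`. `∑ c = 18 - 15 - 3 = 0`. Index type
`J ⊕ (((Fin 3 × Fin 3) × Bool) ⊕ Fin 3)`. `m = J ⊕ Fin 3`, `F` has the columns `ed (x i) v` and
`ed (y j) (z j)`, `A = midA`.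
-/

set_option autoImplicit false

namespace MPd2470a

open Matrix

variable {n : ℕ} {G : MG n}

private theorem OptMid_gram {m : Type} [Fintype m] (G : MG n) (f : m → Fin n → ℝ) (i j : m) :
    ((Matrix.of fun (k : Fin n) (l : m) => f l k)ᵀ * MM G *
      (Matrix.of fun (k : Fin n) (l : m) => f l k)) i j = rr G (f i) (f j) := by
  rw [Matrix.mul_assoc]
  rfl

private theorem OptMid_gram2 {m : Type} [Fintype m] (G : MG n) (f : m → Fin n → ℝ) (i j : m) :
    ((Matrix.of fun (k : Fin n) (l : m) => f l k)ᵀ * MM G * MM G *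
      (Matrix.of fun (k : Fin n) (l : m) => f l k)) i j = qq G (f i) (f j) := by
  rw [Matrix.mul_assoc]
  have h1 : (Matrix.of fun (k : Fin n) (l : m) => f l k)ᵀ * MM G =
      (MM G * Matrix.of fun (k : Fin n) (l : m) => f l k)ᵀ := by
    rw [Matrix.transpose_mul, MM_transpose]
  rw [h1]
  rfl

/-- the second end of an edge of the subdivided `K₃,₃` -/
private def OptMid_end (e : Fin 3 × Fin 3) (b : Bool) : Fin 3 ⊕ Fin 3 :=
  if b then Sum.inl e.1 else Sum.inr e.2

/-- the Laplacian of the graph as a sum over the edges -/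
private theorem OptMid_LH (p q : J → ℝ) : ∑ a, ∑ b, p a * LH a b * q b =
    ∑ e : Fin 3 × Fin 3, ((p (Sum.inl e) - p (Sum.inr (Sum.inl e.1))) *
      (q (Sum.inl e) - q (Sum.inr (Sum.inl e.1))) +
      (p (Sum.inl e) - p (Sum.inr (Sum.inr e.2))) *
      (q (Sum.inl e) - q (Sum.inr (Sum.inr e.2)))) := by
  have e1 : ∀ e : Fin 3 × Fin 3, ∑ b, p (Sum.inl e) * LH (Sum.inl e) b * q b =
      2 * (p (Sum.inl e) * q (Sum.inl e)) - p (Sum.inl e) * q (Sum.inr (Sum.inl e.1)) -
        p (Sum.inl e) * q (Sum.inr (Sum.inr e.2)) := by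
    intro e
    rw [Fintype.sum_sum_type, Fintype.sum_sum_type]
    have a1 : ∀ f : Fin 3 × Fin 3, p (Sum.inl e) * LH (Sum.inl e) (Sum.inl f) * q (Sum.inl f) =
        if e = f then 2 * (p (Sum.inl e) * q (Sum.inl f)) else 0 := by
      intro f
      show p (Sum.inl e) * (if e = f then 2 else 0) * q (Sum.inl f) = _
      split_ifs <;> ring
    have a2 : ∀ r : Fin 3, p (Sum.inl e) * LH (Sum.inl e) (Sum.inr (Sum.inl r)) *
        q (Sum.inr (Sum.inl r)) = if e.1 = r then -(p (Sum.inl e) * q (Sum.inr (Sum.inl r)))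
          else 0 := by
      intro r
      show p (Sum.inl e) * (if e.1 = r then -1 else 0) * q (Sum.inr (Sum.inl r)) = _
      split_ifs <;> ring
    have a3 : ∀ r : Fin 3, p (Sum.inl e) * LH (Sum.inl e) (Sum.inr (Sum.inr r)) *
        q (Sum.inr (Sum.inr r)) = if e.2 = r then -(p (Sum.inl e) * q (Sum.inr (Sum.inr r)))
          else 0 := by
      intro r
      show p (Sum.inl e) * (if e.2 = r then -1 else 0) * q (Sum.inr (Sum.inr r)) = _
      split_ifs <;> ring
    rw [Finset.sum_congr rfl (fun f _ => a1 f), Finset.sum_congr rfl (fun f _ => a2 f),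
      Finset.sum_congr rfl (fun f _ => a3 f), Finset.sum_ite_eq, Finset.sum_ite_eq,
      Finset.sum_ite_eq]
    simp only [Finset.mem_univ, if_true]
    ring
  have e2 : ∀ r : Fin 3, ∑ b, p (Sum.inr (Sum.inl r)) * LH (Sum.inr (Sum.inl r)) b * q b =
      3 * (p (Sum.inr (Sum.inl r)) * q (Sum.inr (Sum.inl r))) -
        ∑ e : Fin 3 × Fin 3, (if e.1 = r then p (Sum.inr (Sum.inl r)) * q (Sum.inl e) else 0) := by
    intro r
    rw [Fintype.sum_sum_type, Fintype.sum_sum_type]
    have a1 : ∀ e : Fin 3 × Fin 3, p (Sum.inr (Sum.inl r)) * LH (Sum.inr (Sum.inl r)) (Sum.inl e) *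
        q (Sum.inl e) = -(if e.1 = r then p (Sum.inr (Sum.inl r)) * q (Sum.inl e) else 0) := by
      intro e
      show p (Sum.inr (Sum.inl r)) * (if e.1 = r then -1 else 0) * q (Sum.inl e) = _
      split_ifs <;> ring
    have a2 : ∀ r' : Fin 3, p (Sum.inr (Sum.inl r)) *
        LH (Sum.inr (Sum.inl r)) (Sum.inr (Sum.inl r')) * q (Sum.inr (Sum.inl r')) =
        if r = r' then 3 * (p (Sum.inr (Sum.inl r)) * q (Sum.inr (Sum.inl r'))) else 0 := by
      intro r'
      show p (Sum.inr (Sum.inl r)) * (if r = r' then 3 else 0) * q (Sum.inr (Sum.inl r')) = _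
      split_ifs <;> ring
    have a3 : ∀ r' : Fin 3, p (Sum.inr (Sum.inl r)) *
        LH (Sum.inr (Sum.inl r)) (Sum.inr (Sum.inr r')) * q (Sum.inr (Sum.inr r')) = 0 := by
      intro r'
      show p (Sum.inr (Sum.inl r)) * 0 * q (Sum.inr (Sum.inr r')) = _
      ring
    rw [Finset.sum_congr rfl (fun f _ => a1 f), Finset.sum_congr rfl (fun f _ => a2 f),
      Finset.sum_congr rfl (fun f _ => a3 f), Finset.sum_ite_eq, Finset.sum_neg_distrib]
    simp only [Finset.mem_univ, if_true, Finset.sum_const_zero]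
    ring
  have e3 : ∀ r : Fin 3, ∑ b, p (Sum.inr (Sum.inr r)) * LH (Sum.inr (Sum.inr r)) b * q b =
      3 * (p (Sum.inr (Sum.inr r)) * q (Sum.inr (Sum.inr r))) -
        ∑ e : Fin 3 × Fin 3, (if e.2 = r then p (Sum.inr (Sum.inr r)) * q (Sum.inl e) else 0) := by
    intro r
    rw [Fintype.sum_sum_type, Fintype.sum_sum_type]
    have a1 : ∀ e : Fin 3 × Fin 3, p (Sum.inr (Sum.inr r)) * LH (Sum.inr (Sum.inr r)) (Sum.inl e) *
        q (Sum.inl e) = -(if e.2 = r then p (Sum.inr (Sum.inr r)) * q (Sum.inl e) else 0) := by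
      intro e
      show p (Sum.inr (Sum.inr r)) * (if e.2 = r then -1 else 0) * q (Sum.inl e) = _
      split_ifs <;> ring
    have a2 : ∀ r' : Fin 3, p (Sum.inr (Sum.inr r)) *
        LH (Sum.inr (Sum.inr r)) (Sum.inr (Sum.inr r')) * q (Sum.inr (Sum.inr r')) =
        if r = r' then 3 * (p (Sum.inr (Sum.inr r)) * q (Sum.inr (Sum.inr r'))) else 0 := by
      intro r'
      show p (Sum.inr (Sum.inr r)) * (if r = r' then 3 else 0) * q (Sum.inr (Sum.inr r')) = _
      split_ifs <;> ring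
    have a3 : ∀ r' : Fin 3, p (Sum.inr (Sum.inr r)) *
        LH (Sum.inr (Sum.inr r)) (Sum.inr (Sum.inl r')) * q (Sum.inr (Sum.inl r')) = 0 := by
      intro r'
      show p (Sum.inr (Sum.inr r)) * 0 * q (Sum.inr (Sum.inl r')) = _
      ring
    rw [Finset.sum_congr rfl (fun f _ => a1 f), Finset.sum_congr rfl (fun f _ => a2 f),
      Finset.sum_congr rfl (fun f _ => a3 f), Finset.sum_ite_eq, Finset.sum_neg_distrib]
    simp only [Finset.mem_univ, if_true, Finset.sum_const_zero]
    ring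
  have c2 : ∑ r : Fin 3, ∑ e : Fin 3 × Fin 3,
      (if e.1 = r then p (Sum.inr (Sum.inl r)) * q (Sum.inl e) else 0) =
      ∑ e : Fin 3 × Fin 3, p (Sum.inr (Sum.inl e.1)) * q (Sum.inl e) := by
    rw [Finset.sum_comm]
    refine Finset.sum_congr rfl (fun e _ => ?_)
    rw [Finset.sum_ite_eq]
    simp
  have c3 : ∑ r : Fin 3, ∑ e : Fin 3 × Fin 3,
      (if e.2 = r then p (Sum.inr (Sum.inr r)) * q (Sum.inl e) else 0) =
      ∑ e : Fin 3 × Fin 3, p (Sum.inr (Sum.inr e.2)) * q (Sum.inl e) := by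
    rw [Finset.sum_comm]
    refine Finset.sum_congr rfl (fun e _ => ?_)
    rw [Finset.sum_ite_eq]
    simp
  have d2 : ∑ e : Fin 3 × Fin 3, p (Sum.inr (Sum.inl e.1)) * q (Sum.inr (Sum.inl e.1)) =
      ∑ r : Fin 3, 3 * (p (Sum.inr (Sum.inl r)) * q (Sum.inr (Sum.inl r))) := by
    rw [Fintype.sum_prod_type]
    refine Finset.sum_congr rfl (fun r _ => ?_)
    simp
  have d3 : ∑ e : Fin 3 × Fin 3, p (Sum.inr (Sum.inr e.2)) * q (Sum.inr (Sum.inr e.2)) =
      ∑ r : Fin 3, 3 * (p (Sum.inr (Sum.inr r)) * q (Sum.inr (Sum.inr r))) := by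
    rw [Fintype.sum_prod_type_right]
    refine Finset.sum_congr rfl (fun r _ => ?_)
    simp
  rw [Fintype.sum_sum_type, Fintype.sum_sum_type, Finset.sum_congr rfl (fun e _ => e1 e),
    Finset.sum_congr rfl (fun e _ => e2 e), Finset.sum_congr rfl (fun e _ => e3 e),
    Finset.sum_sub_distrib, Finset.sum_sub_distrib, Finset.sum_sub_distrib,
    Finset.sum_sub_distrib, c2, c3, ← d2, ← d3, ← Finset.sum_sub_distrib,
    ← Finset.sum_sub_distrib, ← Finset.sum_sub_distrib, ← Finset.sum_sub_distrib,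
    ← Finset.sum_add_distrib, ← Finset.sum_add_distrib]
  refine Finset.sum_congr rfl (fun e _ => ?_)
  ring

/-- the quadratic form of the exchange -/
private theorem OptMid_form (p q : J ⊕ Fin 3 → ℝ) :
    (∑ i : J, -(p (Sum.inl i) * q (Sum.inl i))) +
      ((∑ e : Fin 3 × Fin 3, ∑ b : Bool,
        (p (Sum.inl (Sum.inl e)) - p (Sum.inl (Sum.inr (OptMid_end e b)))) *
        (q (Sum.inl (Sum.inl e)) - q (Sum.inl (Sum.inr (OptMid_end e b))))) +
      ∑ j : Fin 3, -(p (Sum.inr j) * q (Sum.inr j))) =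
      ∑ a, ∑ b, p a * midA a b * q b := by
  have hs : ∑ a, ∑ b, p a * midA a b * q b =
      (∑ a : J, ∑ b, p (Sum.inl a) * midA (Sum.inl a) b * q b) +
        ∑ a : Fin 3, ∑ b, p (Sum.inr a) * midA (Sum.inr a) b * q b := Fintype.sum_sum_type _
  rw [hs]
  have h1 : ∀ a : J, ∑ b, p (Sum.inl a) * midA (Sum.inl a) b * q b =
      (∑ b : J, p (Sum.inl a) * LH a b * q (Sum.inl b)) - p (Sum.inl a) * q (Sum.inl a) := by
    intro a
    have hs1 : ∑ b, p (Sum.inl a) * midA (Sum.inl a) b * q b =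
        (∑ b : J, p (Sum.inl a) * midA (Sum.inl a) (Sum.inl b) * q (Sum.inl b)) +
          ∑ b : Fin 3, p (Sum.inl a) * midA (Sum.inl a) (Sum.inr b) * q (Sum.inr b) :=
      Fintype.sum_sum_type _
    rw [hs1]
    have a1 : ∀ b : J, p (Sum.inl a) * midA (Sum.inl a) (Sum.inl b) * q (Sum.inl b) =
        p (Sum.inl a) * LH a b * q (Sum.inl b) -
          (if a = b then p (Sum.inl a) * q (Sum.inl b) else 0) := by
      intro b
      unfold midA
      rw [fromBlocks_apply₁₁, Matrix.sub_apply, Matrix.one_apply]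
      split_ifs <;> ring
    have a2 : ∀ b : Fin 3, p (Sum.inl a) * midA (Sum.inl a) (Sum.inr b) * q (Sum.inr b) = 0 := by
      intro b
      unfold midA
      rw [fromBlocks_apply₁₂, Matrix.zero_apply]
      ring
    rw [Finset.sum_congr rfl (fun b _ => a1 b), Finset.sum_congr rfl (fun b _ => a2 b),
      Finset.sum_sub_distrib, Finset.sum_ite_eq]
    simp
  have h2 : ∀ a : Fin 3, ∑ b, p (Sum.inr a) * midA (Sum.inr a) b * q b =
      -(p (Sum.inr a) * q (Sum.inr a)) := by
    intro a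
    have hs1 : ∑ b, p (Sum.inr a) * midA (Sum.inr a) b * q b =
        (∑ b : J, p (Sum.inr a) * midA (Sum.inr a) (Sum.inl b) * q (Sum.inl b)) +
          ∑ b : Fin 3, p (Sum.inr a) * midA (Sum.inr a) (Sum.inr b) * q (Sum.inr b) :=
      Fintype.sum_sum_type _
    rw [hs1]
    have a1 : ∀ b : J, p (Sum.inr a) * midA (Sum.inr a) (Sum.inl b) * q (Sum.inl b) = 0 := by
      intro b
      unfold midA
      rw [fromBlocks_apply₂₁, Matrix.zero_apply]
      ring
    have a2 : ∀ b : Fin 3, p (Sum.inr a) * midA (Sum.inr a) (Sum.inr b) * q (Sum.inr b) =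
        (if a = b then -(p (Sum.inr a) * q (Sum.inr b)) else 0) := by
      intro b
      unfold midA
      rw [fromBlocks_apply₂₂, Matrix.neg_apply, Matrix.one_apply]
      split_ifs <;> ring
    rw [Finset.sum_congr rfl (fun b _ => a1 b), Finset.sum_congr rfl (fun b _ => a2 b),
      Finset.sum_ite_eq]
    simp
  rw [Finset.sum_congr rfl (fun a _ => h1 a), Finset.sum_congr rfl (fun a _ => h2 a),
    Finset.sum_sub_distrib, OptMid_LH (fun a => p (Sum.inl a)) (fun a => q (Sum.inl a)),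
    Finset.sum_neg_distrib]
  have h3 : ∀ e : Fin 3 × Fin 3, ∑ b : Bool,
      (p (Sum.inl (Sum.inl e)) - p (Sum.inl (Sum.inr (OptMid_end e b)))) *
      (q (Sum.inl (Sum.inl e)) - q (Sum.inl (Sum.inr (OptMid_end e b)))) =
      (p (Sum.inl (Sum.inl e)) - p (Sum.inl (Sum.inr (Sum.inl e.1)))) *
      (q (Sum.inl (Sum.inl e)) - q (Sum.inl (Sum.inr (Sum.inl e.1)))) +
      (p (Sum.inl (Sum.inl e)) - p (Sum.inl (Sum.inr (Sum.inr e.2)))) *
      (q (Sum.inl (Sum.inl e)) - q (Sum.inl (Sum.inr (Sum.inr e.2)))) := by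
    intro e
    rw [Fintype.sum_bool]
    rfl
  rw [Finset.sum_congr rfl (fun e _ => h3 e)]
  ring

private theorem OptMid_split {R : Type} [AddCommMonoid R]
    (g : J ⊕ (((Fin 3 × Fin 3) × Bool) ⊕ Fin 3) → R) : ∑ i, g i = (∑ i : J, g (Sum.inl i)) +
      ((∑ e : (Fin 3 × Fin 3) × Bool, g (Sum.inr (Sum.inl e))) +
        ∑ j : Fin 3, g (Sum.inr (Sum.inr j))) := by
  have h1 : ∑ i, g i = (∑ i : J, g (Sum.inl i)) + ∑ i, g (Sum.inr i) := Fintype.sum_sum_type _
  have h2 : ∑ i, g (Sum.inr i) = (∑ e : (Fin 3 × Fin 3) × Bool, g (Sum.inr (Sum.inl e))) +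
        ∑ j : Fin 3, g (Sum.inr (Sum.inr j)) := Fintype.sum_sum_type _
  rw [h1, h2]

theorem opt_mid {α : ℝ} (ho : IsOpt α G) (h : Conn G) (v : Fin n) (x : J → Fin n)
    (hinj : Function.Injective x) (hx : ∀ i, G.mult (x i) v = 1) (y z : Fin 3 → Fin n)
    (hyz : ∀ j, 0 < G.mult (y j) (z j))
    (hleg : ∀ u w, ∑ j, eind (y j) (z j) u w ≤ (G.mult u w : ℤ))
    (hdis : ∀ i j, eind (y j) (z j) (x i) v = 0) (f : J ⊕ Fin 3 → Fin n → ℝ)
    (hf1 : ∀ i, f (Sum.inl i) = ed (x i) v) (hf2 : ∀ j, f (Sum.inr j) = ed (y j) (z j)) :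
    ¬ (0 < midF (Matrix.of fun a b => rr G (f a) (f b)) (Matrix.of fun a b => qq G (f a) (f b))) := by
  intro hpos
  unfold midF at hpos
  have hn : 0 < n := lt_of_le_of_lt (Nat.zero_le _) v.isLt
  have hxv : ∀ i, x i ≠ v := by
    intro i hi
    have h1 := hx i
    rw [hi, G.loopless] at h1
    exact absurd h1 (by norm_num)
  have hyz' : ∀ j, y j ≠ z j := by
    intro j hj
    have h1 := hyz j
    rw [hj, G.loopless] at h1
    exact absurd h1 (lt_irrefl _)
  have hGa : (Matrix.of fun (k : Fin n) (l : J ⊕ Fin 3) => f l k)ᵀ * MM G *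
      (Matrix.of fun (k : Fin n) (l : J ⊕ Fin 3) => f l k) =
      Matrix.of fun i j => rr G (f i) (f j) := by
    ext i j
    rw [OptMid_gram, Matrix.of_apply]
  have hSg : (Matrix.of fun (k : Fin n) (l : J ⊕ Fin 3) => f l k)ᵀ * MM G * MM G *
      (Matrix.of fun (k : Fin n) (l : J ⊕ Fin 3) => f l k) =
      Matrix.of fun i j => qq G (f i) (f j) := by
    ext i j
    rw [OptMid_gram2, Matrix.of_apply]
  obtain ⟨Z, hZ⟩ : ∃ Z : Matrix (J ⊕ Fin 3) (J ⊕ Fin 3) ℝ,
    Z = 1 + midA * Matrix.of fun i j => rr G (f i) (f j) := ⟨_, rfl⟩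
  rw [← hZ] at hpos
  have hdet0 : Z.det ≠ 0 := by
    intro h0
    rw [h0, zero_mul] at hpos
    exact absurd hpos (lt_irrefl _)
  have hmain := opt_gen (ι := J ⊕ (((Fin 3 × Fin 3) × Bool) ⊕ Fin 3)) (m := J ⊕ Fin 3) hn ho h
    (Sum.elim x (Sum.elim (fun e => x (Sum.inl e.1)) y))
    (Sum.elim (fun _ => v) (Sum.elim (fun e => x (Sum.inr (OptMid_end e.1 e.2))) z))
    (by
      rintro (i | e | j)
      · exact hxv i
      · intro he
        have := hinj he
        simp at this
      · exact hyz' j) (Sum.elim (fun _ => -1) (Sum.elim (fun _ => 1) (fun _ => -1)))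
    (by
      intro u w
      rw [OptMid_split]
      simp only [Sum.elim_inl, Sum.elim_inr, neg_one_mul, one_mul, Finset.sum_neg_distrib]
      have h1 : 0 ≤ ∑ e : (Fin 3 × Fin 3) × Bool,
          eind (x (Sum.inl e.1)) (x (Sum.inr (OptMid_end e.1 e.2))) u w := by
        refine Finset.sum_nonneg fun i _ => ?_
        unfold eind
        split_ifs <;> norm_num
      have h2 : ∑ i, eind (x i) v u w + ∑ j, eind (y j) (z j) u w ≤ (G.mult u w : ℤ) := by
        by_cases h3 : ∃ i, (u = x i ∧ w = v) ∨ (u = v ∧ w = x i)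
        · obtain ⟨i, hi⟩ := h3
          have h5 : ∑ j, eind (y j) (z j) u w = 0 := by
            refine Finset.sum_eq_zero fun j _ => ?_
            have h6 := hdis i j
            rcases hi with ⟨rfl, rfl⟩ | ⟨rfl, rfl⟩
            · exact h6
            · unfold eind at h6 ⊢
              rw [if_neg]
              intro h7
              rw [if_pos] at h6
              · exact absurd h6 (by norm_num)
              · rcases h7 with ⟨h8, h9⟩ | ⟨h8, h9⟩
                · exact Or.inr ⟨h9, h8⟩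
                · exact Or.inl ⟨h9, h8⟩
          rw [h5, add_zero, Finset.sum_eq_single i]
          · unfold eind
            rw [if_pos hi]
            rcases hi with ⟨rfl, rfl⟩ | ⟨rfl, rfl⟩
            · rw [hx i]
              norm_num
            · rw [G.symm, hx i]
              norm_num
          · intro j _ hj
            unfold eind
            rw [if_neg]
            intro h4
            apply hj
            apply hinj
            rcases hi with ⟨h5, h6⟩ | ⟨h5, h6⟩ <;> rcases h4 with ⟨h7, h8⟩ | ⟨h7, h8⟩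
            · rw [← h5, ← h7]
            · exact absurd (h5.symm.trans h7) (hxv i)
            · exact absurd (h7.symm.trans h5) (hxv j)
            · rw [← h6, ← h8]
          · intro h5
            exact absurd (Finset.mem_univ i) h5
        · have h5 : ∑ i, eind (x i) v u w = 0 := by
            refine Finset.sum_eq_zero fun i _ => ?_
            unfold eind
            rw [if_neg]
            intro h4
            exact h3 ⟨i, h4⟩
          rw [h5, zero_add]
          exact hleg u w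
      linarith)
    (by
      rw [OptMid_split]
      simp only [Sum.elim_inl, Sum.elim_inr]
      have h1 : (∑ _i : J, (-1 : ℤ)) + ((∑ _i : (Fin 3 × Fin 3) × Bool, (1 : ℤ)) +
          ∑ _i : Fin 3, (-1 : ℤ)) = 0 := by
        simp
      rw [h1, Int.cast_zero, add_zero]
      exact ho.1)
    (Matrix.of fun (k : Fin n) (l : J ⊕ Fin 3) => f l k) midA
    (by
      ext u w
      rw [OptMid_split]
      simp only [Sum.elim_inl, Sum.elim_inr]
      rw [Matrix.add_apply, Matrix.add_apply, Matrix.sum_apply, Matrix.sum_apply, Matrix.sum_apply]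
      have h1 : ∀ i : J, ((((-1 : ℤ) : ℝ) • vecMulVec (ed (x i) v) (ed (x i) v) : Matrix _ _ ℝ)
          u w) = -(f (Sum.inl i) u * f (Sum.inl i) w) := by
        intro i
        rw [Matrix.smul_apply, vecMulVec_apply, hf1]
        simp
      have h2 : ∀ e : (Fin 3 × Fin 3) × Bool, ((((1 : ℤ) : ℝ) •
          vecMulVec (ed (x (Sum.inl e.1)) (x (Sum.inr (OptMid_end e.1 e.2))))
            (ed (x (Sum.inl e.1)) (x (Sum.inr (OptMid_end e.1 e.2)))) : Matrix _ _ ℝ) u w) =
          (f (Sum.inl (Sum.inl e.1)) u - f (Sum.inl (Sum.inr (OptMid_end e.1 e.2))) u) *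
          (f (Sum.inl (Sum.inl e.1)) w - f (Sum.inl (Sum.inr (OptMid_end e.1 e.2))) w) := by
        intro e
        rw [Matrix.smul_apply, vecMulVec_apply, hf1, hf1,
          ed_sub (x (Sum.inl e.1)) (x (Sum.inr (OptMid_end e.1 e.2))) v]
        simp
      have h3 : ∀ j : Fin 3, ((((-1 : ℤ) : ℝ) • vecMulVec (ed (y j) (z j)) (ed (y j) (z j)) :
          Matrix _ _ ℝ) u w) = -(f (Sum.inr j) u * f (Sum.inr j) w) := by
        intro j
        rw [Matrix.smul_apply, vecMulVec_apply, hf2]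
        simp
      rw [Finset.sum_congr rfl fun i _ => h1 i, Finset.sum_congr rfl fun i _ => h2 i,
        Finset.sum_congr rfl fun i _ => h3 i, Fintype.sum_prod_type]
      rw [OptMid_form (fun a => f a u) (fun a => f a w)]
      rw [Matrix.mul_assoc, Matrix.mul_apply]
      refine Finset.sum_congr rfl fun i _ => ?_
      rw [Matrix.mul_apply, Finset.mul_sum]
      refine Finset.sum_congr rfl fun j _ => ?_
      rw [Matrix.of_apply, Matrix.transpose_apply, Matrix.of_apply]
      ring)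
    (by
      rw [hGa, ← hZ]
      exact isUnit_iff_ne_zero.2 hdet0)
  rw [hGa, hSg, ← hZ, Matrix.inv_def, Ring.inverse_eq_inv', Matrix.smul_mul, Matrix.mul_smul,
    Matrix.trace_smul, smul_eq_mul] at hmain
  have h1 : 0 < Z.det ^ 2 := by positivity
  have h2 := mul_nonpos_of_nonneg_of_nonpos h1.le hmain
  have h3 : Z.det ^ 2 * (Z.det⁻¹ * trace ((Matrix.of fun i j => qq G (f i) (f j)) *
      (adjugate Z * midA))) = Z.det * trace ((Matrix.of fun i j => qq G (f i) (f j)) *
      (adjugate Z * midA)) := by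
    field_simp
  rw [h3] at h2
  exact absurd hpos (not_lt.2 h2)

end MPd2470a
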