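import Pool.Agent.Lib.MP_d2470a_co.OptG

/-!
# OptTwo: exchanging one edge, adding one edge

`opt_two`: `b = ed x y` an edge, `a = ed z w`. Put `D = (1 + R_a)(1 - R_b) + m²`, `m = rr a b`.
`R_b ≤ 1` (`mult_rr`). If `D = 0` then `1 - R_b = 0`, `m = 0` and the claim is trivial. Otherwise use
`opt_gen` with `ι = m = Fin 2`, pairs `(z, w)`, `(x, y)`, `c = ![1, -1]`, `F` with columns `a, b`,
`A = diag (1, -1)`: `1 + A Γ = !![1 + R_a, m; -m, 1 - R_b]`, determinant `D`
(`Matrix.det_fin_two`, `Matrix.inv_def`, `Matrix.adjugate_fin_two`), and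
`trace (Σ (1 + AΓ)⁻¹ A) = ((1 - R_b) q_a + 2 m q - (1 + R_a) q_b) / D`.

`opt_add`: if `numEdges G ≤ α n / 2 - 1`, use `opt_gen` with one pair `(z, w)`, `c = 1`, `A = 1`:
`q_a / (1 + R_a) ≤ 0`, contradiction with `qq_ge`, `rr_pos` (`n ≥ 2` gives `z ≠ w`).
-/

set_option autoImplicit false

namespace MPd2470a

open Matrix

variable {n : ℕ} {G : MG n}

private theorem OptTwo_gram {m : Type} [Fintype m] (G : MG n) (f : m → Fin n → ℝ) (i j : m) :
    ((Matrix.of fun (k : Fin n) (l : m) => f l k)ᵀ * MM G *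
      (Matrix.of fun (k : Fin n) (l : m) => f l k)) i j = rr G (f i) (f j) := by
  rw [Matrix.mul_assoc]
  rfl

private theorem OptTwo_gram2 {m : Type} [Fintype m] (G : MG n) (f : m → Fin n → ℝ) (i j : m) :
    ((Matrix.of fun (k : Fin n) (l : m) => f l k)ᵀ * MM G * MM G *
      (Matrix.of fun (k : Fin n) (l : m) => f l k)) i j = qq G (f i) (f j) := by
  rw [Matrix.mul_assoc]
  have h1 : (Matrix.of fun (k : Fin n) (l : m) => f l k)ᵀ * MM G =
      (MM G * Matrix.of fun (k : Fin n) (l : m) => f l k)ᵀ := by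
    rw [Matrix.transpose_mul, MM_transpose]
  rw [h1]
  rfl

theorem opt_two {α : ℝ} (ho : IsOpt α G) (h : Conn G) {x y z w : Fin n} (hxy : 0 < G.mult x y)
    (hzw : z ≠ w) :
    (1 - rr G (ed x y) (ed x y)) * qq G (ed z w) (ed z w) +
        2 * rr G (ed z w) (ed x y) * qq G (ed z w) (ed x y) ≤
      (1 + rr G (ed z w) (ed z w)) * qq G (ed x y) (ed x y) := by
  have hn : 0 < n := lt_of_le_of_lt (Nat.zero_le _) x.isLt
  have hxne : x ≠ y := by
    rintro rfl
    rw [G.loopless] at hxy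
    exact absurd hxy (lt_irrefl _)
  have hRb0 : 0 ≤ rr G (ed x y) (ed x y) := rr_nonneg h _
  have hRa0 : 0 ≤ rr G (ed z w) (ed z w) := rr_nonneg h _
  have hRb1 : rr G (ed x y) (ed x y) ≤ 1 := by
    have h1 := mult_rr h x y
    have h2 : (1 : ℝ) ≤ (G.mult x y : ℝ) := by exact_mod_cast hxy
    nlinarith
  have hqb : 0 ≤ qq G (ed x y) (ed x y) := qq_nonneg G _
  obtain ⟨Ra, hRa⟩ : ∃ r, r = rr G (ed z w) (ed z w) := ⟨_, rfl⟩
  obtain ⟨Rb, hRb⟩ : ∃ r, r = rr G (ed x y) (ed x y) := ⟨_, rfl⟩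
  obtain ⟨m, hm⟩ : ∃ r, r = rr G (ed z w) (ed x y) := ⟨_, rfl⟩
  obtain ⟨qa, hqa'⟩ : ∃ r, r = qq G (ed z w) (ed z w) := ⟨_, rfl⟩
  obtain ⟨qb, hqb'⟩ : ∃ r, r = qq G (ed x y) (ed x y) := ⟨_, rfl⟩
  obtain ⟨q, hq'⟩ : ∃ r, r = qq G (ed z w) (ed x y) := ⟨_, rfl⟩
  have hDn : 0 ≤ (1 + Ra) * (1 - Rb) := by
    rw [hRa, hRb]
    exact mul_nonneg (by linarith) (by linarith)
  by_cases hD : (1 + Ra) * (1 - Rb) + m ^ 2 = 0
  · have h1 : m ^ 2 = 0 := le_antisymm (by linarith) (sq_nonneg m)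
    have h2 : m = 0 := pow_eq_zero_iff (two_ne_zero) |>.1 h1
    have h3 : (1 + Ra) * (1 - Rb) = 0 := by rw [h1] at hD; linarith
    have h4 : 1 - Rb = 0 := by
      rcases mul_eq_zero.1 h3 with h5 | h5
      · exfalso
        rw [hRa] at h5
        linarith
      · exact h5
    rw [← hRa, ← hRb, ← hm, ← hqa', ← hqb', ← hq', h4, h2]
    rw [← hRa] at hRa0
    rw [← hqb'] at hqb
    nlinarith
  · have hDpos : 0 < (1 + Ra) * (1 - Rb) + m ^ 2 :=
      lt_of_le_of_ne (add_nonneg hDn (sq_nonneg m)) (Ne.symm hD)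
    obtain ⟨f, hf⟩ : ∃ f : Fin 2 → Fin n → ℝ, f = ![ed z w, ed x y] := ⟨_, rfl⟩
    have hΓ : (Matrix.of fun (k : Fin n) (l : Fin 2) => f l k)ᵀ * MM G *
        (Matrix.of fun (k : Fin n) (l : Fin 2) => f l k) = !![Ra, m; m, Rb] := by
      ext i j
      rw [OptTwo_gram, hf]
      fin_cases i <;> fin_cases j
      · exact hRa.symm
      · exact hm.symm
      · exact (rr_symm G _ _).trans hm.symm
      · exact hRb.symm
    have hSg : (Matrix.of fun (k : Fin n) (l : Fin 2) => f l k)ᵀ * MM G * MM G *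
        (Matrix.of fun (k : Fin n) (l : Fin 2) => f l k) = !![qa, q; q, qb] := by
      ext i j
      rw [OptTwo_gram2, hf]
      fin_cases i <;> fin_cases j
      · exact hqa'.symm
      · exact hq'.symm
      · exact (qq_symm G _ _).trans hq'.symm
      · exact hqb'.symm
    have hZ : 1 + !![(1 : ℝ), 0; 0, -1] * !![Ra, m; m, Rb] = !![1 + Ra, m; -m, 1 - Rb] := by
      ext i j
      fin_cases i <;> fin_cases j <;>
        simp [sub_eq_add_neg]
    have hdet : (1 + !![(1 : ℝ), 0; 0, -1] * !![Ra, m; m, Rb]).det =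
        (1 + Ra) * (1 - Rb) + m ^ 2 := by
      rw [hZ, Matrix.det_fin_two]
      simp
      ring
    have hmain := opt_gen (ι := Fin 2) (m := Fin 2) hn ho h ![z, x] ![w, y]
      (by
        intro i
        fin_cases i
        · exact hzw
        · exact hxne) ![1, -1]
      (by
        intro u w'
        rw [Fin.sum_univ_two]
        change 0 ≤ (G.mult u w' : ℤ) + (1 * eind z w u w' + (-1) * eind x y u w')
        have h1 : 0 ≤ eind z w u w' := by
          unfold eind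
          split_ifs <;> norm_num
        have h2 : eind x y u w' ≤ (G.mult u w' : ℤ) := by
          unfold eind
          split_ifs with h3
          · rcases h3 with ⟨rfl, rfl⟩ | ⟨rfl, rfl⟩
            · exact_mod_cast hxy
            · rw [G.symm]
              exact_mod_cast hxy
          · exact Int.natCast_nonneg _
        linarith)
      (by
        rw [Fin.sum_univ_two]
        simp
        exact ho.1)
      (Matrix.of fun (k : Fin n) (l : Fin 2) => f l k) !![(1 : ℝ), 0; 0, -1]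
      (by
        rw [Fin.sum_univ_two, hf]
        ext i j
        simp [Matrix.mul_apply, Fin.sum_univ_two, vecMulVec_apply])
      (by
        rw [hΓ, hdet]
        exact isUnit_iff_ne_zero.2 hD)
    rw [hΓ, hSg, Matrix.inv_def, hdet, hZ, Matrix.adjugate_fin_two, Ring.inverse_eq_inv'] at hmain
    have h5 : trace (!![qa, q; q, qb] * (((1 + Ra) * (1 - Rb) + m ^ 2)⁻¹ •
        !![(!![1 + Ra, m; -m, 1 - Rb] : Matrix (Fin 2) (Fin 2) ℝ) 1 1,
          -(!![1 + Ra, m; -m, 1 - Rb] : Matrix (Fin 2) (Fin 2) ℝ) 0 1;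
          -(!![1 + Ra, m; -m, 1 - Rb] : Matrix (Fin 2) (Fin 2) ℝ) 1 0,
          (!![1 + Ra, m; -m, 1 - Rb] : Matrix (Fin 2) (Fin 2) ℝ) 0 0] *
        !![(1 : ℝ), 0; 0, -1])) = ((1 + Ra) * (1 - Rb) + m ^ 2)⁻¹ *
        ((1 - Rb) * qa + 2 * m * q - (1 + Ra) * qb) := by
      simp [Matrix.trace, Fin.sum_univ_two]
      ring
    rw [h5] at hmain
    rw [← hRa, ← hRb, ← hm, ← hqa', ← hqb', ← hq']
    have h6 : (1 - Rb) * qa + 2 * m * q - (1 + Ra) * qb ≤ 0 := by
      by_contra h7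
      push Not at h7
      exact absurd hmain (not_le.2 (mul_pos (inv_pos.2 hDpos) h7))
    linarith

theorem opt_add {α : ℝ} (hn : 2 ≤ n) (ho : IsOpt α G) (h : Conn G) :
    α * n / 2 - 1 < (G.numEdges : ℝ) := by
  by_contra hcon
  push Not at hcon
  have hn0 : 0 < n := by omega
  obtain ⟨z, hz⟩ : ∃ z : Fin n, z = ⟨0, by omega⟩ := ⟨_, rfl⟩
  obtain ⟨w, hw⟩ : ∃ w : Fin n, w = ⟨1, by omega⟩ := ⟨_, rfl⟩
  have hzw : z ≠ w := by
    rw [hz, hw]
    intro h1
    have h2 := congrArg Fin.val h1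
    simp at h2
  have hRa := rr_pos h hzw
  have hqa := qq_ge G z w
  obtain ⟨f, hf⟩ : ∃ f : Fin 1 → Fin n → ℝ, f = fun _ => ed z w := ⟨_, rfl⟩
  have hΓ : (Matrix.of fun (k : Fin n) (l : Fin 1) => f l k)ᵀ * MM G *
      (Matrix.of fun (k : Fin n) (l : Fin 1) => f l k) =
      Matrix.of fun _ _ => rr G (ed z w) (ed z w) := by
    ext i j
    rw [OptTwo_gram, hf]
    rfl
  have hSg : (Matrix.of fun (k : Fin n) (l : Fin 1) => f l k)ᵀ * MM G * MM G *
      (Matrix.of fun (k : Fin n) (l : Fin 1) => f l k) =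
      Matrix.of fun _ _ => qq G (ed z w) (ed z w) := by
    ext i j
    rw [OptTwo_gram2, hf]
    rfl
  have hdet : (1 + (1 : Matrix (Fin 1) (Fin 1) ℝ) *
      Matrix.of fun _ _ => rr G (ed z w) (ed z w)).det = 1 + rr G (ed z w) (ed z w) := by
    rw [Matrix.det_fin_one]
    simp
  have hmain := opt_gen (ι := Fin 1) (m := Fin 1) hn0 ho h (fun _ => z) (fun _ => w)
    (fun _ => hzw) (fun _ => 1)
    (by
      intro u w'
      rw [Fin.sum_univ_one]
      have h1 : 0 ≤ eind z w u w' := by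
        unfold eind
        split_ifs <;> norm_num
      have h2 : (0 : ℤ) ≤ (G.mult u w' : ℤ) := Int.natCast_nonneg _
      linarith)
    (by
      rw [Fin.sum_univ_one]
      push_cast
      linarith)
    (Matrix.of fun (k : Fin n) (l : Fin 1) => f l k) 1
    (by
      rw [Fin.sum_univ_one, hf]
      ext i j
      simp [Matrix.mul_apply, vecMulVec_apply])
    (by
      rw [hΓ, hdet]
      exact isUnit_iff_ne_zero.2 (by linarith))
  rw [hΓ, hSg, Matrix.inv_def, hdet, Matrix.adjugate_fin_one, Ring.inverse_eq_inv'] at hmain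
  have h5 : trace ((Matrix.of fun _ _ => qq G (ed z w) (ed z w) : Matrix (Fin 1) (Fin 1) ℝ) *
      ((1 + rr G (ed z w) (ed z w))⁻¹ • (1 : Matrix (Fin 1) (Fin 1) ℝ) * 1)) =
      qq G (ed z w) (ed z w) * (1 + rr G (ed z w) (ed z w))⁻¹ := by
    simp [Matrix.trace]
    ring
  rw [h5] at hmain
  have h6 : 0 < qq G (ed z w) (ed z w) := lt_of_lt_of_le (by positivity) hqa
  have h7 : 0 < qq G (ed z w) (ed z w) * (1 + rr G (ed z w) (ed z w))⁻¹ :=
    mul_pos h6 (inv_pos.2 (by linarith))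
  linarith

end MPd2470a
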