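import Pool.Agent.Lib.MP_d2470a_co.OptCyc
import Pool.Agent.Lib.MP_d2470a_co.CycPos
import Pool.Agent.Lib.MP_d2470a_co.HubSum
import Pool.Agent.Lib.MP_d2470a_co.Greedy
import Pool.Agent.Lib.MP_d2470a_co.Cells

/-!
# PartOne: few edges at `v` lead to vertices with small Green function

`ε` from `cyc_pos σ S1`, `K = 12 * ((⌊1/ε⌋₊ + 1) * (⌊S1/ε⌋₊ + 1))`, `s = 1 + 1/σ + 1/ε`,
`C = 8 (K + 1) s`. Let `h x = mult x v`, `B₁` = the set of the sum, `W = ∑_{B₁} h`, suppose
`W > C √n`. `B = {x ∈ B₁ : ∑_y h y |ss x y| ≤ 4 n / W}` has weight `≥ W / 2` by `sum_ss`.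
`bad x y := y = x ∨ ε < |ss x y| ∨ ε < gg x y`. For `x ∈ B` the bad `y` have weight
`≤ h x + (4 n / W)/ε + 1/ε ≤ 3 W / (16 (K + 1))`. `greedy` gives `K` elements, pairwise not bad;
`cells` gives 12 of them with nearly equal diagonal values, and `cyc_pos` contradicts `opt_cyc`.
-/

set_option autoImplicit false

namespace MPd2470a

open Matrix Finset

private theorem po_num {K s m W : ℝ} (hK : 0 ≤ K) (hs : 1 ≤ s) (hm : 1 ≤ m)
    (h : 8 * (K + 1) * s * √m < W) : 0 < W ∧ 4 * m / W * s ≤ W / (16 * (K + 1)) ∧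
      s ≤ W / (8 * (K + 1)) := by
  have h1 : 1 ≤ √m := by
    rw [show (1 : ℝ) = √1 from Real.sqrt_one.symm]
    exact Real.sqrt_le_sqrt hm
  have hK1 : 0 < K + 1 := by linarith
  have h2 : 8 * (K + 1) * s ≤ 8 * (K + 1) * s * √m := by
    have : 0 ≤ 8 * (K + 1) * s := by positivity
    nlinarith
  have hW : 0 < W := by
    have : 0 < 8 * (K + 1) * s := by positivity
    linarith
  refine ⟨hW, ?_, ?_⟩
  · have h3 : (8 * (K + 1) * s * √m) ^ 2 ≤ W ^ 2 := by
      have : 0 ≤ 8 * (K + 1) * s * √m := by positivity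
      nlinarith
    have h4 : (8 * (K + 1) * s * √m) ^ 2 = 64 * (K + 1) ^ 2 * s ^ 2 * m := by
      rw [mul_pow, Real.sq_sqrt (by linarith)]
      ring
    have h5 : 64 * (K + 1) * s * m ≤ 64 * (K + 1) ^ 2 * s ^ 2 * m := by
      have h6 : 1 ≤ (K + 1) * s := by nlinarith
      have h7 : 0 ≤ 64 * (K + 1) * s * m := by positivity
      calc 64 * (K + 1) * s * m = (64 * (K + 1) * s * m) * 1 := by ring
        _ ≤ (64 * (K + 1) * s * m) * ((K + 1) * s) := mul_le_mul_of_nonneg_left h6 h7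
        _ = 64 * (K + 1) ^ 2 * s ^ 2 * m := by ring
    rw [div_mul_eq_mul_div, div_le_div_iff₀ hW (by positivity)]
    nlinarith
  · rw [le_div_iff₀ (by positivity)]
    nlinarith

open Classical in
theorem part_one (σ S1 : ℝ) (hσ : 0 < σ) (hS : σ ≤ S1) : ∃ C : ℝ, 0 < C ∧
    ∀ (n : ℕ) (α : ℝ) (G : MG n), 1 ≤ n → IsOpt α G → Conn G → ∀ v : Fin n,
      (∀ x, 0 < G.mult x v → gg G v x x ≤ 333 / 500 → σ ≤ ss G v x x) →
      (∀ x, 0 < G.mult x v → ss G v x x ≤ S1) →
      ∑ x ∈ univ.filter (fun x => 0 < G.mult x v ∧ gg G v x x ≤ 333 / 500), (G.mult x v : ℝ) ≤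
        C * √(n : ℝ) := by
  obtain ⟨ε, hε, hcyc⟩ := cyc_pos σ S1 hσ hS
  obtain ⟨K, hKdef⟩ : ∃ K : ℕ, K = 12 * ((⌊1 / ε⌋₊ + 1) * (⌊S1 / ε⌋₊ + 1)) := ⟨_, rfl⟩
  have hK0 : (0 : ℝ) ≤ K := Nat.cast_nonneg _
  obtain ⟨s, hs⟩ : ∃ s : ℝ, s = 1 + 1 / σ + 1 / ε := ⟨_, rfl⟩
  have hσ' : 0 < 1 / σ := by positivity
  have hε' : 0 < 1 / ε := by positivity
  have hs1 : 1 ≤ s := by linarith
  refine ⟨8 * (K + 1) * s, by positivity, ?_⟩
  intro n α G hn ho h v hA hB
  by_contra hcon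
  push Not at hcon
  obtain ⟨B₁, hB₁⟩ : ∃ B₁ : Finset (Fin n), B₁ =
    univ.filter (fun x => 0 < G.mult x v ∧ gg G v x x ≤ 333 / 500) := ⟨_, rfl⟩
  rw [← hB₁] at hcon
  have hmem : ∀ x ∈ B₁, 0 < G.mult x v ∧ gg G v x x ≤ 333 / 500 := by
    intro x hx
    rw [hB₁, Finset.mem_filter] at hx
    exact hx.2
  obtain ⟨W, hW⟩ : ∃ W : ℝ, W = ∑ x ∈ B₁, (G.mult x v : ℝ) := ⟨_, rfl⟩
  rw [← hW] at hcon
  have hn1 : (1 : ℝ) ≤ n := by exact_mod_cast hn
  obtain ⟨hW0, hW1, hW2⟩ := po_num hK0 hs1 hn1 hcon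
  have hmu : ∀ x, (0 : ℝ) ≤ G.mult x v := fun x => Nat.cast_nonneg _
  obtain ⟨D, hD⟩ : ∃ D : ℝ, D = 4 * n / W := ⟨_, rfl⟩
  rw [← hD] at hW1
  have hD0 : 0 < D := by
    rw [hD]
    positivity
  obtain ⟨f, hf⟩ : ∃ f : Fin n → ℝ, f = fun x => ∑ y, (G.mult y v : ℝ) * |ss G v x y| := ⟨_, rfl⟩
  have hf0 : ∀ x, 0 ≤ f x := by
    intro x
    rw [hf]
    exact Finset.sum_nonneg (fun y _ => mul_nonneg (hmu y) (abs_nonneg _))
  have hfs : ∑ x ∈ B₁, (G.mult x v : ℝ) * f x ≤ 2 * n := by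
    have h1 := sum_ss h v
    have h2 : ∑ x ∈ B₁, (G.mult x v : ℝ) * f x ≤ ∑ x, (G.mult x v : ℝ) * f x :=
      Finset.sum_le_sum_of_subset_of_nonneg (Finset.subset_univ _)
        (fun x _ _ => mul_nonneg (hmu x) (hf0 x))
    refine h2.trans (le_trans (le_of_eq ?_) h1)
    refine Finset.sum_congr rfl (fun x _ => ?_)
    rw [hf, Finset.mul_sum]
    exact Finset.sum_congr rfl (fun y _ => by ring)
  obtain ⟨B, hBdef⟩ : ∃ B : Finset (Fin n), B = B₁.filter (fun x => f x ≤ D) := ⟨_, rfl⟩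
  have hBsub : ∀ x ∈ B, x ∈ B₁ ∧ f x ≤ D := by
    intro x hx
    rw [hBdef, Finset.mem_filter] at hx
    exact hx
  have hBW : W / 2 ≤ ∑ x ∈ B, (G.mult x v : ℝ) := by
    have h1 : W ≤ ∑ x ∈ B₁, ((if f x ≤ D then (G.mult x v : ℝ) else 0) +
        (G.mult x v : ℝ) * f x / D) := by
      rw [hW]
      refine Finset.sum_le_sum (fun x _ => ?_)
      split_ifs with hx
      · have : 0 ≤ (G.mult x v : ℝ) * f x / D := by
          have := mul_nonneg (hmu x) (hf0 x)
          positivity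
        linarith
      · push Not at hx
        rw [zero_add, le_div_iff₀ hD0]
        exact mul_le_mul_of_nonneg_left hx.le (hmu x)
    rw [Finset.sum_add_distrib, ← Finset.sum_filter, ← hBdef, ← Finset.sum_div] at h1
    have h2 : (∑ x ∈ B₁, (G.mult x v : ℝ) * f x) / D ≤ W / 2 := by
      rw [div_le_div_iff₀ hD0 (by norm_num)]
      have h3 : W * D = 4 * n := by
        rw [hD]
        field_simp
      rw [h3]
      linarith
    linarith
  -- weight of the bad vertices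
  have hbad : ∀ x ∈ B, ∑ y ∈ B.filter (fun y => y = x ∨ ε < |ss G v x y| ∨ ε < gg G v x y),
      (G.mult y v : ℝ) ≤ 3 * W / (16 * (K + 1)) := by
    intro x hx
    obtain ⟨hx1, hx2⟩ := hBsub x hx
    obtain ⟨hx3, hx4⟩ := hmem x hx1
    have hxv : x ≠ v := by
      intro hxv
      rw [hxv, G.loopless] at hx3
      exact absurd hx3 (lt_irrefl _)
    have h1 : ∑ y ∈ B.filter (fun y => y = x ∨ ε < |ss G v x y| ∨ ε < gg G v x y),
        (G.mult y v : ℝ) ≤ ∑ y, ((if y = x then (G.mult y v : ℝ) else 0) +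
          (G.mult y v : ℝ) * |ss G v x y| * (1 / ε) + (G.mult y v : ℝ) * gg G v y x * (1 / ε)) := by
      have hp : ∀ y, 0 ≤ (if y = x then (G.mult y v : ℝ) else 0) +
          (G.mult y v : ℝ) * |ss G v x y| * (1 / ε) +
            (G.mult y v : ℝ) * gg G v y x * (1 / ε) := by
        intro y
        have a1 : 0 ≤ (if y = x then (G.mult y v : ℝ) else 0) := by
          split_ifs
          · exact hmu y
          · exact le_refl _
        have a2 := mul_nonneg (mul_nonneg (hmu y) (abs_nonneg (ss G v x y))) hε'.le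
        have a3 := mul_nonneg (mul_nonneg (hmu y) (gg_nonneg h v y x)) hε'.le
        linarith
      refine (Finset.sum_le_sum (fun y hy => ?_)).trans
        (Finset.sum_le_sum_of_subset_of_nonneg (Finset.subset_univ _) (fun y _ _ => hp y))
      rw [Finset.mem_filter] at hy
      have a1 : 0 ≤ (if y = x then (G.mult y v : ℝ) else 0) := by
        split_ifs
        · exact hmu y
        · exact le_refl _
      have a2 := mul_nonneg (mul_nonneg (hmu y) (abs_nonneg (ss G v x y))) hε'.le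
      have a3 := mul_nonneg (mul_nonneg (hmu y) (gg_nonneg h v y x)) hε'.le
      rcases hy.2 with hy | hy | hy
      · rw [if_pos hy]
        linarith
      · have : (G.mult y v : ℝ) ≤ (G.mult y v : ℝ) * |ss G v x y| * (1 / ε) := by
          rw [mul_one_div, le_div_iff₀ hε]
          exact mul_le_mul_of_nonneg_left hy.le (hmu y)
        linarith
      · rw [gg_symm] at hy
        have : (G.mult y v : ℝ) ≤ (G.mult y v : ℝ) * gg G v y x * (1 / ε) := by
          rw [mul_one_div, le_div_iff₀ hε]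
          exact mul_le_mul_of_nonneg_left hy.le (hmu y)
        linarith
    rw [Finset.sum_add_distrib, Finset.sum_add_distrib, Finset.sum_ite_eq',
      if_pos (Finset.mem_univ _), ← Finset.sum_mul, ← Finset.sum_mul, sum_gg h hxv] at h1
    have h2 : (G.mult x v : ℝ) ≤ D * (1 / σ) := by
      rw [mul_one_div, le_div_iff₀ hσ]
      have h3 : (G.mult x v : ℝ) * |ss G v x x| ≤ f x := by
        rw [hf]
        exact Finset.single_le_sum (f := fun y => (G.mult y v : ℝ) * |ss G v x y|)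
          (fun y _ => mul_nonneg (hmu y) (abs_nonneg _)) (Finset.mem_univ x)
      have h4 : σ ≤ |ss G v x x| := (hA x hx3 hx4).trans (le_abs_self _)
      have h5 := mul_le_mul_of_nonneg_left h4 (hmu x)
      linarith
    have h3 : (∑ y, (G.mult y v : ℝ) * |ss G v x y|) * (1 / ε) ≤ D * (1 / ε) := by
      refine mul_le_mul_of_nonneg_right ?_ hε'.le
      rw [hf] at hx2
      exact hx2
    have h4 : D * (1 / σ) + D * (1 / ε) ≤ D * s := by
      rw [hs]
      nlinarith
    have h5 : 1 / ε ≤ s := by linarith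
    have h6 : 3 * W / (16 * (K + 1)) = W / (16 * (K + 1)) + W / (8 * (K + 1)) := by
      field_simp
      ring
    rw [h6]
    linarith
  have hθ : (K : ℝ) * (3 * W / (16 * (K + 1))) < ∑ x ∈ B, (G.mult x v : ℝ) := by
    refine lt_of_lt_of_le ?_ hBW
    rw [mul_div_assoc', div_lt_div_iff₀ (by positivity) (by norm_num)]
    nlinarith
  obtain ⟨F, hF1, hF2⟩ := greedy (fun x => (G.mult x v : ℝ)) hmu
    (fun x y => y = x ∨ ε < |ss G v x y| ∨ ε < gg G v x y) (3 * W / (16 * (K + 1)))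
    (by positivity) K B (fun x hx => by convert hbad x hx) hθ
  -- the properties of the chosen vertices
  have hFB : ∀ i, 0 < G.mult (F i) v ∧ gg G v (F i) (F i) ≤ 333 / 500 :=
    fun i => hmem _ (hBsub _ (hF1 i)).1
  have hFinj : ∀ i j, F i = F j → i = j := by
    intro i j hij
    rcases lt_trichotomy i j with hlt | heq | hgt
    · exact absurd (Or.inl hij.symm) (hF2 i j hlt)
    · exact heq
    · exact absurd (Or.inl hij) (hF2 j i hgt)
  have hFs : ∀ i j, i ≠ j → |ss G v (F i) (F j)| ≤ ε ∧ gg G v (F i) (F j) ≤ ε := by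
    intro i j hij
    rcases lt_or_gt_of_ne hij with hlt | hgt
    · have := hF2 i j hlt
      push Not at this
      exact this.2
    · have := hF2 j i hgt
      push Not at this
      rw [ss_symm G v (F i), gg_symm G v (F i)]
      exact this.2
  obtain ⟨c, hc1, hc2⟩ := cells S1 ε (hσ.le.trans hS) hε (fun i => gg G v (F i) (F i))
    (fun i => ss G v (F i) (F i)) (fun i => gg_nonneg h v _ _)
    (fun i => (hFB i).2.trans (by norm_num))
    (fun i => hσ.le.trans (hA _ (hFB i).1 (hFB i).2)) (fun i => hB _ (hFB i).1) hKdef.ge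
  refine opt_cyc ho h v (fun i => F (c i)) (fun i j hij => hc1 (hFinj _ _ hij))
    (fun i => (hFB (c i)).1) ?_
  refine hcyc (gg G v (F (c 0)) (F (c 0))) (ss G v (F (c 0)) (F (c 0))) (gg_nonneg h v _ _)
    (hFB _).2 (hA _ (hFB _).1 (hFB _).2) (hB _ (hFB _).1) _ _ (fun i j => ?_) (fun i j => ?_)
  · rw [Matrix.of_apply]
    split_ifs with hij
    · rw [hij]
      exact (hc2 j 0).1
    · rw [sub_zero, abs_of_nonneg (gg_nonneg h v _ _)]
      exact (hFs _ _ (fun he => hij (hc1 he))).2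
  · rw [Matrix.of_apply]
    split_ifs with hij
    · rw [hij]
      exact (hc2 j 0).2
    · rw [sub_zero]
      exact (hFs _ _ (fun he => hij (hc1 he))).1

end MPd2470a
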