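import Pool.Agent.Lib.MP_d2470a_co.EdgeNN
import Pool.Agent.Lib.MP_d2470a_co.EdgeEE

/-!
# VertLow: edge and vertex inequality for `K = 459/250`, `L = 79/100`

* `low_edge`: cases as in `edge_ineq` of `Cert3.lean` from `low_ee`, `low_en`, `low_nn`.
* `low_vertex`: follow `vertex_ineq` of `Cert3.lean`. Not exceptional (`u (K - u) ≤ L`): the sum of the
  weights is `(K - u)(1 - ε u)` and `u (K - u) ≤ K²/4 < 1`. Exceptional: `u ≤ 1.15`,
  `η = (u (K - u) - L)/(2u - 1) ≥ 0`, and with `D = ∑ m` the total is `K + (D - 2) η - ε (L - η)`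
  (identity `htot` there). `D ≥ 2`: fine. `D = 1`: `∑ m q = u - (1 - ε u) ≥ 0`, so
  `u ≥ 1/(1 + ε) ≥ 99/100`, and `η ≤ 1/20` there. `D = 0`: `0 = 1 - ε u` gives `u ≥ 100`, not exceptional.
-/

set_option autoImplicit false

namespace MPd2470a

open Pool.Agent.Lib.MP_cf7718_co

theorem low_edge {u v q : ℝ} (hq : 0 < q) (hqu : q ≤ u) (hqv : q ≤ v) (huv : u * v ≤ q + q ^ 2) :
    wt (459 / 250) (79 / 100) u q + wt (459 / 250) (79 / 100) v q ≤ 79 / 100 := by
  unfold wt
  by_cases hu : (79 / 100 : ℝ) < u * (459 / 250 - u)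
  · by_cases hv : (79 / 100 : ℝ) < v * (459 / 250 - v)
    · rw [if_pos hu, if_pos hv]
      have := low_ee hu.le hv.le hq.le huv
      linarith
    · rw [if_pos hu, if_neg hv]
      have := low_en hu.le hq.le hqv huv
      linarith
  · by_cases hv : (79 / 100 : ℝ) < v * (459 / 250 - v)
    · rw [if_neg hu, if_pos hv]
      have := low_en hv.le hq.le hqu (by rw [mul_comm]; exact huv)
      linarith
    · rw [if_neg hu, if_neg hv]
      exact low_nn hq hqu hqv huv (not_lt.1 hu) (not_lt.1 hv)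

theorem low_vertex {u ε : ℝ} (hu : 0 < u) (hε : 0 < ε) (hε1 : ε ≤ 1 / 100) {ι : Type*}
    (s : Finset ι) (m : ι → ℕ) (q : ι → ℝ) (hq : ∀ i ∈ s, 0 ≤ q i)
    (hsum : ∑ i ∈ s, (m i : ℝ) * (u - q i) = 1 - ε * u) :
    459 / 250 - 6 * ε - (if ∑ i ∈ s, m i = 1 then 1 / 16 else 0) ≤
      u + ∑ i ∈ s, (m i : ℝ) * wt (459 / 250) (79 / 100) u (q i) := by
  have hif : (0 : ℝ) ≤ (if ∑ i ∈ s, m i = 1 then (1 / 16 : ℝ) else 0) := by
    split
    · norm_num
    · exact le_refl _
  by_cases hex : (79 / 100 : ℝ) < u * (459 / 250 - u)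
  · have hu1 : u ≤ 23 / 20 := by
      by_contra hcon
      push Not at hcon
      nlinarith
    have hu0 : 17 / 25 ≤ u := by
      by_contra hcon
      push Not at hcon
      nlinarith
    have hz : (0 : ℝ) < 2 * u - 1 := by linarith
    obtain ⟨D, hD⟩ : ∃ D : ℕ, D = ∑ i ∈ s, m i := ⟨_, rfl⟩
    have hDr : (D : ℝ) = ∑ i ∈ s, (m i : ℝ) := by rw [hD]; push_cast; rfl
    rw [← hD]
    have hmq : ∑ i ∈ s, (m i : ℝ) * q i = D * u - (1 - ε * u) := by
      rw [← hsum, hDr, Finset.sum_mul, ← Finset.sum_sub_distrib]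
      refine Finset.sum_congr rfl fun i _ => ?_
      ring
    obtain ⟨sl, hsl⟩ : ∃ sl, sl = Pool.Agent.Lib.MP_cf7718_co.slope (459 / 250) (79 / 100) u :=
      ⟨_, rfl⟩
    have hw : ∑ i ∈ s, (m i : ℝ) * wt (459 / 250) (79 / 100) u (q i)
        = D * (79 / 100) - sl * (D * u - (1 - ε * u)) := by
      rw [← hmq, hDr, Finset.sum_mul, Finset.mul_sum, ← Finset.sum_sub_distrib]
      refine Finset.sum_congr rfl fun i _ => ?_
      unfold wt
      rw [if_pos hex, ← hsl]
      ring
    rw [hw]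
    obtain ⟨η, hη⟩ : ∃ η, η = (u * (459 / 250 - u) - 79 / 100) / (2 * u - 1) := ⟨_, rfl⟩
    have hη0 : 0 ≤ η := by
      rw [hη]
      apply div_nonneg _ hz.le
      linarith
    have hη1 : 79 / 100 - sl * u = η := by
      rw [hη, hsl, Pool.Agent.Lib.MP_cf7718_co.slope, eq_div_iff hz.ne']
      field_simp
      ring
    have hη2 : u + sl + 2 * η = 459 / 250 := by
      have e : sl + 2 * η = 459 / 250 - u := by
        rw [hη, hsl, Pool.Agent.Lib.MP_cf7718_co.slope]
        have hz' : (2 * u - 1 : ℝ) ≠ 0 := hz.ne'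
        field_simp
        ring
      linarith
    have htot : u + (D * (79 / 100) - sl * (D * u - (1 - ε * u)))
        = 459 / 250 + (D - 2) * η - ε * (79 / 100 - η) := by
      have e1 : sl * u = 79 / 100 - η := by linarith
      have e2 : sl = 459 / 250 - u - 2 * η := by linarith
      calc u + (D * (79 / 100) - sl * (D * u - (1 - ε * u)))
          = u + D * (79 / 100 - sl * u) + sl - ε * (sl * u) := by ring
        _ = _ := by
          rw [e1, e2]
          ring
    rw [htot]
    have hεL : ε * (79 / 100 - η) ≤ ε := by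
      have : 79 / 100 - η ≤ 1 := by linarith
      nlinarith
    rcases Nat.lt_or_ge 1 D with hD2 | hD2
    · have : (2 : ℝ) ≤ D := by exact_mod_cast hD2
      have h2 : 0 ≤ ((D : ℝ) - 2) * η := mul_nonneg (by linarith) hη0
      have h3 : (0 : ℝ) ≤ (if D = 1 then (1 / 16 : ℝ) else 0) := by
        split
        · norm_num
        · exact le_refl _
      linarith
    · have hmq0 : 0 ≤ ∑ i ∈ s, (m i : ℝ) * q i :=
        Finset.sum_nonneg fun i hi => mul_nonneg (Nat.cast_nonneg _) (hq i hi)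
      rw [hmq] at hmq0
      have hD1 : D = 1 := by
        rcases Nat.eq_zero_or_pos D with h0 | h0
        · exfalso
          rw [h0] at hmq0
          push_cast at hmq0
          nlinarith
        · omega
      rw [if_pos hD1]
      rw [hD1] at hmq0 ⊢
      push_cast at hmq0 ⊢
      have h3 : 99 / 100 ≤ u := by nlinarith
      have h4 : η ≤ 1 / 20 := by
        rw [hη, div_le_iff₀ hz]
        nlinarith
      linarith
  · have hw : ∑ i ∈ s, (m i : ℝ) * wt (459 / 250) (79 / 100) u (q i) =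
        (459 / 250 - u) * (1 - ε * u) := by
      rw [← hsum, Finset.mul_sum]
      refine Finset.sum_congr rfl fun i _ => ?_
      unfold wt
      rw [if_neg hex]
      ring
    rw [hw]
    have h1 : u * (459 / 250 - u) ≤ 1 := by nlinarith [sq_nonneg (u - 459 / 500)]
    nlinarith

end MPd2470a
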